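import Pool.Agent.H31.Dupin.Defs

open scoped RealInnerProductSpace ContDiff Topology
open Module Set

namespace DupinClass

section Lie

variable {H H' : Type} [NormedAddCommGroup H] [InnerProductSpace ℝ H] [FiniteDimensional ℝ H]
  [NormedAddCommGroup H'] [InnerProductSpace ℝ H'] [FiniteDimensional ℝ H']

omit [FiniteDimensional ℝ H] in
theorem lieForm_apply (v w : ℝ × H × ℝ) :
    lieForm H v w = -(v.1 * w.1) + ⟪v.2.1, w.2.1⟫ - v.2.2 * w.2.2 := rfl

omit [FiniteDimensional ℝ H] in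
theorem lieForm_isSymm' : (lieForm H).IsSymm :=
  ⟨fun v w => by
    rw [lieForm_apply, lieForm_apply, real_inner_comm]; ring⟩

omit [FiniteDimensional ℝ H] in
theorem lieForm_sepLeft {v : ℝ × H × ℝ} (h : ∀ w, lieForm H v w = 0) : v = 0 := by
  have h1 := h (1, 0, 0)
  have h2 := h (0, v.2.1, 0)
  have h3 := h (0, 0, 1)
  rw [lieForm_apply] at h1 h2 h3
  simp only [mul_one, inner_zero_right, mul_zero, sub_zero, add_zero, neg_zero, zero_add,
    zero_sub, neg_eq_zero, inner_self_eq_zero] at h1 h2 h3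
  ext
  · exact h1
  · exact h2
  · exact h3

omit [FiniteDimensional ℝ H] in
theorem lieForm_nondegenerate' : (lieForm H).Nondegenerate := by
  refine ⟨fun v hv => lieForm_sepLeft hv, fun v hv => lieForm_sepLeft fun w => ?_⟩
  rw [lieForm_isSymm'.eq]; exact hv w

/-- A linear isomorphism preserving the null cones of the Lie forms is conformal with a positive
factor. -/
theorem lieForm_conf' (h3 : 3 ≤ finrank ℝ H) (A : (ℝ × H × ℝ) ≃ₗ[ℝ] (ℝ × H' × ℝ))
    (hA : ∀ v, lieForm H' (A v) (A v) = 0 ↔ lieForm H v v = 0) :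
    ∃ c : ℝ, 0 < c ∧ ∀ v w, lieForm H' (A v) (A w) = c * lieForm H v w := by
  set q : (ℝ × H × ℝ) → (ℝ × H × ℝ) → ℝ := fun v w => lieForm H' (A v) (A w) with hq
  have hadd : ∀ u v w, q (u + v) w = q u w + q v w := by
    intro u v w; simp only [hq, map_add, LinearMap.add_apply]
  have hadd' : ∀ u v w, q w (u + v) = q w u + q w v := by
    intro u v w; simp only [hq, map_add]
  have hsmul : ∀ (t : ℝ) u v, q (t • u) v = t * q u v := by
    intro t u v; simp only [hq, map_smul, LinearMap.smul_apply, smul_eq_mul]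
  have hsmul' : ∀ (t : ℝ) u v, q u (t • v) = t * q u v := by
    intro t u v; simp only [hq, map_smul, smul_eq_mul]
  have hneg : ∀ u v, q (-u) v = - q u v := by
    intro u v; simp only [hq, map_neg, LinearMap.neg_apply]
  have hneg' : ∀ u v, q u (-v) = - q u v := by
    intro u v; simp only [hq, map_neg]
  have hsymm : ∀ u v, q u v = q v u := fun u v => lieForm_isSymm'.eq _ _
  have hnull : ∀ v, lieForm H v v = 0 → q v v = 0 := fun v hv => (hA v).2 hv
  -- unit vectors
  have key : ∀ (t s : ℝ) (x : H), t ^ 2 + s ^ 2 = ‖x‖ ^ 2 →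
      q (t, 0, s) (0, x, 0) = 0 ∧ q (0, x, 0) (0, x, 0) = - q (t, 0, s) (t, 0, s) := by
    intro t s x h
    have h1 : q ((t, 0, s) + (0, x, 0)) ((t, 0, s) + (0, x, 0)) = 0 := by
      apply hnull
      rw [lieForm_apply]
      simp only [Prod.fst_add, Prod.snd_add, add_zero, zero_add, real_inner_self_eq_norm_sq]
      nlinarith
    have h2 : q ((t, 0, s) + -(0, x, 0)) ((t, 0, s) + -(0, x, 0)) = 0 := by
      apply hnull
      rw [lieForm_apply]
      simp only [Prod.fst_add, Prod.snd_add, Prod.fst_neg, Prod.snd_neg, neg_zero, add_zero,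
        zero_add, inner_neg_left, inner_neg_right, neg_neg, real_inner_self_eq_norm_sq]
      nlinarith
    simp only [hadd, hadd', hneg, hneg'] at h1 h2
    rw [hsymm (0, x, 0) (t, 0, s)] at h1 h2
    constructor <;> linarith
  -- a unit vector
  have hH : 0 < finrank ℝ H := by omega
  have hnt : Nontrivial H := Module.nontrivial_of_finrank_pos hH
  obtain ⟨x₀, hx₀⟩ : ∃ x : H, ‖x‖ = 1 := exists_norm_eq H zero_le_one
  set c := q (0, x₀, 0) (0, x₀, 0) with hc
  have hE : ∀ t s : ℝ, q (t, 0, s) (t, 0, s) = - c * (t ^ 2 + s ^ 2) := by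
    intro t s
    have h1 := (key t s (√(t ^ 2 + s ^ 2) • x₀) (by
      rw [norm_smul, hx₀, mul_one, Real.norm_eq_abs, sq_abs, Real.sq_sqrt (by positivity)])).2
    have h2 : ((0 : ℝ), √(t ^ 2 + s ^ 2) • x₀, (0 : ℝ)) = √(t ^ 2 + s ^ 2) • ((0 : ℝ), x₀, (0 : ℝ)) := by
      simp
    rw [h2, hsmul, hsmul', ← mul_assoc, Real.mul_self_sqrt (by positivity)] at h1
    linarith
  have hX : ∀ x : H, q (0, x, 0) (0, x, 0) = c * ‖x‖ ^ 2 := by
    intro x
    have h1 := (key ‖x‖ 0 x (by ring)).2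
    rw [h1, hE]; ring
  have hEX : ∀ (t s : ℝ) (x : H), q (t, 0, s) (0, x, 0) = 0 := by
    intro t s x
    by_cases hx : x = 0
    · have : ((0 : ℝ), (0 : H), (0 : ℝ)) = 0 := rfl
      rw [hx, this]
      simp only [hq, map_zero]
    · have hx' : ‖x‖ ≠ 0 := norm_ne_zero_iff.mpr hx
      have h1 := (key t s ((√(t ^ 2 + s ^ 2) / ‖x‖) • x) (by
        rw [norm_smul, Real.norm_eq_abs, mul_pow, sq_abs, div_pow,
          Real.sq_sqrt (by positivity)]
        field_simp)).1
      have h2 : ((0 : ℝ), (√(t ^ 2 + s ^ 2) / ‖x‖) • x, (0 : ℝ))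
          = (√(t ^ 2 + s ^ 2) / ‖x‖) • ((0 : ℝ), x, (0 : ℝ)) := by simp
      rw [h2, hsmul', mul_eq_zero, div_eq_zero_iff] at h1
      rcases h1 with (h1 | h1) | h1
      · have h3 : t ^ 2 + s ^ 2 = 0 := by
          have := Real.sqrt_eq_zero'.mp h1
          nlinarith [sq_nonneg t, sq_nonneg s]
        have ht : t = 0 := by nlinarith [sq_nonneg t, sq_nonneg s]
        have hs : s = 0 := by nlinarith [sq_nonneg t, sq_nonneg s]
        subst ht hs
        have : ((0 : ℝ), (0 : H), (0 : ℝ)) = 0 := rfl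
        rw [this]
        simp only [hq, map_zero, LinearMap.zero_apply]
      · exact absurd h1 hx'
      · exact h1
  have hQ : ∀ v, q v v = c * lieForm H v v := by
    rintro ⟨t, x, s⟩
    have h1 : ((t, x, s) : ℝ × H × ℝ) = (t, 0, s) + (0, x, 0) := by simp
    rw [h1, hadd, hadd', hadd', hEX, hsymm (0, x, 0) (t, 0, s), hEX, hE, hX, lieForm_apply]
    simp only [Prod.fst_add, Prod.snd_add, add_zero, zero_add, real_inner_self_eq_norm_sq]
    ring
  have hpol : ∀ v w, q v w = c * lieForm H v w := by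
    intro v w
    have h1 := hQ (v + w)
    rw [hadd, hadd', hadd', hQ v, hQ w, hsymm w v] at h1
    simp only [map_add, LinearMap.add_apply] at h1
    rw [lieForm_isSymm'.eq w v] at h1
    linarith
  have hc0 : c ≠ 0 := by
    intro h0
    have h1 : lieForm H' (A (0, x₀, 0)) (A (0, x₀, 0)) = 0 := by
      change c = 0
      exact h0
    have h2 := (hA _).1 h1
    rw [lieForm_apply] at h2
    simp [hx₀] at h2
  refine ⟨c, lt_of_le_of_ne ?_ (Ne.symm hc0), hpol⟩
  -- positivity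
  by_contra hneg
  rw [not_le] at hneg
  let g : H →ₗ[ℝ] ℝ × ℝ :=
    ((LinearMap.fst ℝ ℝ (H' × ℝ)).prod
      ((LinearMap.snd ℝ H' ℝ) ∘ₗ (LinearMap.snd ℝ ℝ (H' × ℝ)))) ∘ₗ A.toLinearMap ∘ₗ
      ((LinearMap.inr ℝ ℝ (H × ℝ)) ∘ₗ (LinearMap.inl ℝ H ℝ))
  have hg : ∀ x, g x = ((A (0, x, 0)).1, (A (0, x, 0)).2.2) := fun x => rfl
  have hker : ∃ x : H, x ≠ 0 ∧ g x = 0 := by
    have h1 := g.finrank_range_add_finrank_ker
    have h2 : finrank ℝ g.range ≤ 2 := by
      have := Submodule.finrank_le g.range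
      rwa [Module.finrank_prod, Module.finrank_self] at this
    have h4 : 0 < finrank ℝ g.ker := by omega
    have h5 : g.ker ≠ ⊥ := by
      intro h; rw [h, finrank_bot] at h4; exact lt_irrefl _ h4
    obtain ⟨x, hx, hx0⟩ := Submodule.exists_mem_ne_zero_of_ne_bot h5
    exact ⟨x, hx0, hx⟩
  obtain ⟨x, hx0, hgx⟩ := hker
  rw [hg, Prod.mk_eq_zero] at hgx
  have h1 := hX x
  simp only [hq] at h1
  rw [lieForm_apply, hgx.1, hgx.2, real_inner_self_eq_norm_sq] at h1
  have h2 : 0 < ‖x‖ ^ 2 := by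
    have := norm_pos_iff.mpr hx0
    positivity
  have h4 : 0 ≤ ‖(A (0, x, 0)).2.1‖ ^ 2 := by positivity
  nlinarith

end Lie

end DupinClass
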