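import Pool.Agent.H31.Dupin.Defs

open scoped RealInnerProductSpace ContDiff Topology
open Module Set

namespace DupinClass

section

variable {X X' : Type} [NormedAddCommGroup X] [NormedSpace ℝ X]
  [NormedAddCommGroup X'] [NormedSpace ℝ X']
  {V V' : Type} [NormedAddCommGroup V] [NormedSpace ℝ V] [FiniteDimensional ℝ V]
  [NormedAddCommGroup V'] [NormedSpace ℝ V'] [FiniteDimensional ℝ V']

/-- `v ∈ L x` is a curvature vector of the family `L` at `x`: some section of `L` with value `v`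
at `x` has a derivative in `L x` in some nonzero direction. -/
def CurvVec (L : X → Submodule ℝ V) (x : X) (v : V) : Prop :=
  v ≠ 0 ∧ ∃ σ : X → V, DifferentiableAt ℝ σ x ∧ (∀ᶠ y in 𝓝 x, σ y ∈ L y) ∧ σ x = v ∧
    ∃ w : X, w ≠ 0 ∧ fderiv ℝ σ x w ∈ L x

/-- Curvature vectors are Lie invariant. -/
theorem CurvVec.map {L : X → Submodule ℝ V} {L' : X' → Submodule ℝ V'} {x : X} {v : V}
    (h : CurvVec L x v) (A : V ≃ₗ[ℝ] V') {φ : X → X'} {ψ : X' → X} {N : Set X} {N' : Set X'}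
    (hφ : Diffeo φ ψ N N') (hx : x ∈ N) (hL : ∀ y ∈ N, (L y).map A.toLinearMap = L' (φ y)) :
    CurvVec L' (φ x) (A v) := by
  obtain ⟨hv, σ, hσ1, hσ2, hσ3, w, hw, hσ4⟩ := h
  have hφx : φ x ∈ N' := hφ.maps_left x hx
  have hψφ : ψ (φ x) = x := hφ.left_inv x hx
  have dφ : DifferentiableAt ℝ φ x :=
    (hφ.smooth_left.contDiffAt (hφ.isOpen_left.mem_nhds hx)).differentiableAt (by simp)
  have dψ : DifferentiableAt ℝ ψ (φ x) :=
    (hφ.smooth_right.contDiffAt (hφ.isOpen_right.mem_nhds hφx)).differentiableAt (by simp)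
  let Ac : V →L[ℝ] V' := A.toContinuousLinearEquiv.toContinuousLinearMap
  have hAc : ∀ u, Ac u = A u := fun _ => rfl
  -- the inverse derivative
  have hinv : fderiv ℝ ψ (φ x) (fderiv ℝ φ x w) = w := by
    have h1 : HasFDerivAt (ψ ∘ φ) ((fderiv ℝ ψ (φ x)).comp (fderiv ℝ φ x)) x :=
      HasFDerivAt.comp x dψ.hasFDerivAt dφ.hasFDerivAt
    have h2 : (ψ ∘ φ) =ᶠ[𝓝 x] id := by
      filter_upwards [hφ.isOpen_left.mem_nhds hx] with y hy
      exact hφ.left_inv y hy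
    have h3 : HasFDerivAt (id : X → X) ((fderiv ℝ ψ (φ x)).comp (fderiv ℝ φ x)) x :=
      h1.congr_of_eventuallyEq h2.symm
    have h4 := h3.unique (hasFDerivAt_id x)
    have h5 := congrArg (fun T : X →L[ℝ] X => T w) h4
    simpa using h5
  have hσψ : HasFDerivAt σ (fderiv ℝ σ x) (ψ (φ x)) := by
    rw [hψφ]; exact hσ1.hasFDerivAt
  have hd : HasFDerivAt (fun y' => Ac (σ (ψ y')))
      (Ac.comp ((fderiv ℝ σ x).comp (fderiv ℝ ψ (φ x)))) (φ x) :=
    Ac.hasFDerivAt.comp (φ x) (HasFDerivAt.comp (φ x) hσψ dψ.hasFDerivAt)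
  refine ⟨fun h0 => hv (by simpa using h0), fun y' => Ac (σ (ψ y')), hd.differentiableAt, ?_, ?_,
    fderiv ℝ φ x w, ?_, ?_⟩
  · have h1 : Filter.Tendsto ψ (𝓝 (φ x)) (𝓝 x) := by
      have := dψ.continuousAt.tendsto
      rwa [hψφ] at this
    filter_upwards [h1.eventually hσ2, hφ.isOpen_right.mem_nhds hφx] with y' h2 h3
    have h4 : φ (ψ y') = y' := hφ.right_inv y' h3
    rw [← h4, ← hL (ψ y') (hφ.maps_right y' h3), h4]
    exact Submodule.mem_map_of_mem h2
  · show Ac (σ (ψ (φ x))) = A v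
    rw [hψφ, hσ3, hAc]
  · intro h0
    rw [h0, map_zero] at hinv
    exact hw hinv.symm
  · rw [hd.fderiv]
    show Ac (fderiv ℝ σ x (fderiv ℝ ψ (φ x) (fderiv ℝ φ x w))) ∈ L' (φ x)
    rw [hinv, ← hL x hx]
    exact Submodule.mem_map_of_mem hσ4

end

section

variable {X H : Type} [NormedAddCommGroup X] [NormedSpace ℝ X] [FiniteDimensional ℝ X]
  [NormedAddCommGroup H] [InnerProductSpace ℝ H] [FiniteDimensional ℝ H]

theorem SHyp.curvVec (M : SHyp X H) {x : X} (hx : x ∈ M.U) {k : ℝ} (hk : prin M.f M.ν k x ≠ ⊥) :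
    CurvVec M.lift x (k, k • M.f x + M.ν x, 1) := by
  obtain ⟨w, hw, hw0⟩ := Submodule.exists_mem_ne_zero_of_ne_bot hk
  have df : DifferentiableAt ℝ M.f x :=
    (M.smooth_f.contDiffAt (M.isOpen_U.mem_nhds hx)).differentiableAt (by simp)
  have dν : DifferentiableAt ℝ M.ν x :=
    (M.smooth_ν.contDiffAt (M.isOpen_U.mem_nhds hx)).differentiableAt (by simp)
  have hw1 : fderiv ℝ M.ν x w + k • fderiv ℝ M.f x w = 0 := by
    have := hw
    unfold prin at this
    simpa using this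
  have hmid : HasFDerivAt (fun y => k • M.f y + M.ν y) (k • fderiv ℝ M.f x + fderiv ℝ M.ν x) x :=
    (df.hasFDerivAt.const_smul k).add dν.hasFDerivAt
  have hd : HasFDerivAt (fun y => (k, k • M.f y + M.ν y, (1 : ℝ)))
      ((0 : X →L[ℝ] ℝ).prod ((k • fderiv ℝ M.f x + fderiv ℝ M.ν x).prod (0 : X →L[ℝ] ℝ))) x :=
    (hasFDerivAt_const k x).prodMk (hmid.prodMk (hasFDerivAt_const (1 : ℝ) x))
  refine ⟨fun h0 => ?_, fun y => (k, k • M.f y + M.ν y, 1), hd.differentiableAt, ?_, rfl, w, hw0,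
    ?_⟩
  · have := congrArg (fun p : ℝ × H × ℝ => p.2.2) h0
    simp at this
  · refine Filter.Eventually.of_forall fun y => ?_
    unfold SHyp.lift
    rw [Submodule.mem_span_pair]
    refine ⟨k, 1, ?_⟩
    simp
  · rw [hd.fderiv]
    have : ((0 : X →L[ℝ] ℝ).prod ((k • fderiv ℝ M.f x + fderiv ℝ M.ν x).prod
        (0 : X →L[ℝ] ℝ))) w = 0 := by
      have h1 : k • fderiv ℝ M.f x w + fderiv ℝ M.ν x w = 0 := by rw [add_comm]; exact hw1
      simp [h1]
    rw [this]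
    exact Submodule.zero_mem _

theorem SHyp.mem_lift_iff (M : SHyp X H) (y : X) (p : ℝ × H × ℝ) :
    p ∈ M.lift y ↔ p.2.1 = p.1 • M.f y + p.2.2 • M.ν y := by
  unfold SHyp.lift
  rw [Submodule.mem_span_pair]
  constructor
  · rintro ⟨a, b, rfl⟩
    simp
  · intro h
    refine ⟨p.1, p.2.2, ?_⟩
    ext
    · simp
    · simp [h]
    · simp

/-- The curvature vectors of the lift of a hypersurface come from its principal curvatures. -/
theorem SHyp.exists_of_curvVec (M : SHyp X H) {x : X} (hx : x ∈ M.U) {v : ℝ × H × ℝ}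
    (hv : CurvVec M.lift x v) :
    ∃ k c : ℝ, prin M.f M.ν k x ≠ ⊥ ∧ c ≠ 0 ∧ v = c • (k, k • M.f x + M.ν x, 1) := by
  obtain ⟨hv0, σ, hσ1, hσ2, hσ3, w, hw, hσ4⟩ := hv
  have df : DifferentiableAt ℝ M.f x :=
    (M.smooth_f.contDiffAt (M.isOpen_U.mem_nhds hx)).differentiableAt (by simp)
  have dν : DifferentiableAt ℝ M.ν x :=
    (M.smooth_ν.contDiffAt (M.isOpen_U.mem_nhds hx)).differentiableAt (by simp)
  have h1 : HasFDerivAt (fun y => (σ y).1)
      ((ContinuousLinearMap.fst ℝ ℝ (H × ℝ)).comp (fderiv ℝ σ x)) x :=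
    (ContinuousLinearMap.fst ℝ ℝ (H × ℝ)).hasFDerivAt.comp x hσ1.hasFDerivAt
  have h2 : HasFDerivAt (fun y => (σ y).2)
      ((ContinuousLinearMap.snd ℝ ℝ (H × ℝ)).comp (fderiv ℝ σ x)) x :=
    (ContinuousLinearMap.snd ℝ ℝ (H × ℝ)).hasFDerivAt.comp x hσ1.hasFDerivAt
  have h3 : HasFDerivAt (fun y => (σ y).2.1)
      ((ContinuousLinearMap.fst ℝ H ℝ).comp
        ((ContinuousLinearMap.snd ℝ ℝ (H × ℝ)).comp (fderiv ℝ σ x))) x :=
    (ContinuousLinearMap.fst ℝ H ℝ).hasFDerivAt.comp x h2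
  have h4 : HasFDerivAt (fun y => (σ y).2.2)
      ((ContinuousLinearMap.snd ℝ H ℝ).comp
        ((ContinuousLinearMap.snd ℝ ℝ (H × ℝ)).comp (fderiv ℝ σ x))) x :=
    (ContinuousLinearMap.snd ℝ H ℝ).hasFDerivAt.comp x h2
  have h5 := (h1.smul df.hasFDerivAt).add (h4.smul dν.hasFDerivAt)
  have h6 : (fun y => (σ y).2.1) =ᶠ[𝓝 x]
      (fun y => (σ y).1 • M.f y + (σ y).2.2 • M.ν y) := by
    filter_upwards [hσ2] with y hy
    exact (M.mem_lift_iff y (σ y)).1 hy
  have h7 := h3.unique (h5.congr_of_eventuallyEq h6)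
  have h8 := congrArg (fun T : X →L[ℝ] H => T w) h7
  have h9 := (M.mem_lift_iff x _).1 hσ4
  have hmem := (M.mem_lift_iff x _).1 hσ2.self_of_nhds
  rw [hσ3] at hmem
  set α := v.1 with hα
  set β := v.2.2 with hβ
  have hkey : α • fderiv ℝ M.f x w + β • fderiv ℝ M.ν x w = 0 := by
    simp only [ContinuousLinearMap.comp_apply, ContinuousLinearMap.coe_fst',
      ContinuousLinearMap.coe_snd', add_apply, smul_apply,
      ContinuousLinearMap.smulRight_apply, hσ3] at h8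
    rw [h9] at h8
    have h10 : (fderiv ℝ σ x w).1 • M.f x + (fderiv ℝ σ x w).2.2 • M.ν x =
        (α • fderiv ℝ M.f x w + (fderiv ℝ σ x w).1 • M.f x) +
        (β • fderiv ℝ M.ν x w + (fderiv ℝ σ x w).2.2 • M.ν x) := h8
    have h12 : ((α • fderiv ℝ M.f x w + (fderiv ℝ σ x w).1 • M.f x) +
        (β • fderiv ℝ M.ν x w + (fderiv ℝ σ x w).2.2 • M.ν x)) -
        ((fderiv ℝ σ x w).1 • M.f x + (fderiv ℝ σ x w).2.2 • M.ν x) =
        α • fderiv ℝ M.f x w + β • fderiv ℝ M.ν x w := by abel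
    rw [← h12, ← h10, sub_self]
  have hβ0 : β ≠ 0 := by
    intro h0
    rw [h0, zero_smul, add_zero] at hkey
    rcases smul_eq_zero.1 hkey with h | h
    · apply hv0
      ext
      · exact h
      · rw [hmem, h, h0]; simp
      · exact h0
    · exact hw (M.immersion x hx w h)
  refine ⟨α / β, β, ?_, hβ0, ?_⟩
  · intro h
    apply hw
    have : w ∈ prin M.f M.ν (α / β) x := by
      unfold prin
      simp only [LinearMap.mem_ker, ContinuousLinearMap.coe_coe, add_apply, smul_apply]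
      have h10 : β • (fderiv ℝ M.ν x w + (α / β) • fderiv ℝ M.f x w) = 0 := by
        rw [smul_add, smul_smul, mul_div_cancel₀ _ hβ0, add_comm]
        exact hkey
      exact (smul_eq_zero.1 h10).resolve_left hβ0
    rw [h] at this
    simpa using this
  · ext
    · show v.1 = β * (α / β)
      rw [mul_div_cancel₀ _ hβ0]
    · show v.2.1 = β • ((α / β) • M.f x + M.ν x)
      rw [hmem, smul_add, smul_smul, mul_div_cancel₀ _ hβ0]
    · show v.2.2 = β * 1
      rw [mul_one]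

end

end DupinClass
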