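import Pool.Agent.H31.Dupin.Stereo0

open scoped RealInnerProductSpace ContDiff
open Module Set

namespace DupinClass

/-! ## Local diffeomorphisms and Lie equivalence of families of subspaces -/

section Equiv

variable {X X' : Type} [NormedAddCommGroup X] [NormedSpace ℝ X]
  [NormedAddCommGroup X'] [NormedSpace ℝ X']

/-- `φ : N → N'` is a smooth diffeomorphism between open sets, with inverse `ψ`. -/
structure Diffeo (φ : X → X') (ψ : X' → X) (N : Set X) (N' : Set X') : Prop where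
  isOpen_left : IsOpen N
  isOpen_right : IsOpen N'
  maps_left : ∀ x ∈ N, φ x ∈ N'
  maps_right : ∀ y ∈ N', ψ y ∈ N
  left_inv : ∀ x ∈ N, ψ (φ x) = x
  right_inv : ∀ y ∈ N', φ (ψ y) = y
  smooth_left : ContDiffOn ℝ ∞ φ N
  smooth_right : ContDiffOn ℝ ∞ ψ N'

variable {V V' : Type} [AddCommGroup V] [Module ℝ V] [AddCommGroup V'] [Module ℝ V']

/-- Two families of subspaces (`L` on `U`, in the space `V` with the form `B`, and `L'` on `U'`,
in `V'` with the form `B'`) are equivalent near the points `x`, `x'`: a linear isomorphism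
`V → V'` that preserves the cone of null vectors (that is, a projective transformation which
preserves the quadric) carries one family to the other one, up to a diffeomorphism of
neighbourhoods of `x` and `x'`. -/
def LieEqAt (B : LinearMap.BilinForm ℝ V) (L : X → Submodule ℝ V) (U : Set X) (x : X)
    (B' : LinearMap.BilinForm ℝ V') (L' : X' → Submodule ℝ V') (U' : Set X') (x' : X') : Prop :=
  ∃ A : V ≃ₗ[ℝ] V', (∀ v, B' (A v) (A v) = 0 ↔ B v v = 0) ∧
    ∃ φ ψ N N', Diffeo φ ψ N N' ∧ x ∈ N ∧ N ⊆ U ∧ N' ⊆ U' ∧ φ x = x' ∧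
      ∀ y ∈ N, (L y).map A.toLinearMap = L' (φ y)

/-- The same with a linear isomorphism that multiplies the form by a positive number. -/
def ConfEqAt (B : LinearMap.BilinForm ℝ V) (L : X → Submodule ℝ V) (U : Set X) (x : X)
    (B' : LinearMap.BilinForm ℝ V') (L' : X' → Submodule ℝ V') (U' : Set X') (x' : X') : Prop :=
  ∃ A : V ≃ₗ[ℝ] V', (∃ c : ℝ, 0 < c ∧ ∀ v w, B' (A v) (A w) = c * B v w) ∧
    ∃ φ ψ N N', Diffeo φ ψ N N' ∧ x ∈ N ∧ N ⊆ U ∧ N' ⊆ U' ∧ φ x = x' ∧
      ∀ y ∈ N, (L y).map A.toLinearMap = L' (φ y)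

end Equiv

/-! ## Hypersurfaces, principal curvatures, proper Dupin hypersurfaces -/

section Hyp

variable {X H : Type} [NormedAddCommGroup X] [NormedSpace ℝ X]
  [NormedAddCommGroup H] [InnerProductSpace ℝ H]

/-- The kernel of `dν + k df` at `x`; it is nonzero iff `k` is a principal curvature at `x` of the
hypersurface `f` with unit normal field `ν`, and then it is its space of principal vectors. -/
noncomputable def prin (f ν : X → H) (k : ℝ) (x : X) : Submodule ℝ X :=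
  LinearMap.ker (fderiv ℝ ν x + k • fderiv ℝ f x).toLinearMap

/-- `(f, ν)` on `U` is proper Dupin, with `g` distinct principal curvatures of multiplicities
`m i`: there are `g` smooth functions `κ i` on `U`, distinct at every point, which are the principal
curvatures (their spaces of principal vectors have dimension `m i ≥ 1` and span the tangent space),
and every `κ i` is constant along its principal foliation (its derivative is zero on its principal
vectors). -/
def ProperDupinWith {g : ℕ} (f ν : X → H) (U : Set X) (m : Fin g → ℕ) : Prop :=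
  ∃ κ : Fin g → X → ℝ, (∀ i, ContDiffOn ℝ ∞ (κ i) U) ∧
    (∀ x ∈ U, ∀ i j, i ≠ j → κ i x ≠ κ j x) ∧
    (∀ i, 1 ≤ m i) ∧
    (∀ x ∈ U, ∀ i, finrank ℝ (prin f ν (κ i x) x) = m i) ∧
    (∀ x ∈ U, ⨆ i, prin f ν (κ i x) x = ⊤) ∧
    (∀ x ∈ U, ∀ i, ∀ v ∈ prin f ν (κ i x) x, fderiv ℝ (κ i) x v = 0)

/-- `(f, ν)` on `U` is proper Dupin with `g` distinct principal curvatures; here the
multiplicities may depend on the point (they are locally constant). -/
def ProperDupin (f ν : X → H) (U : Set X) (g : ℕ) : Prop :=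
  ∃ κ : Fin g → X → ℝ, (∀ i, ContDiffOn ℝ ∞ (κ i) U) ∧
    (∀ x ∈ U, ∀ i j, i ≠ j → κ i x ≠ κ j x) ∧
    (∀ x ∈ U, ∀ i, prin f ν (κ i x) x ≠ ⊥) ∧
    (∀ x ∈ U, ⨆ i, prin f ν (κ i x) x = ⊤) ∧
    (∀ x ∈ U, ∀ i, ∀ v ∈ prin f ν (κ i x) x, fderiv ℝ (κ i) x v = 0)

variable (X H) in
/-- An immersed oriented hypersurface of the unit sphere of the Euclidean space `H`, in a chart:
the domain is an open subset `U` of `X`. -/
structure SHyp where
  U : Set X
  f : X → H
  ν : X → H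
  isOpen_U : IsOpen U
  smooth_f : ContDiffOn ℝ ∞ f U
  smooth_ν : ContDiffOn ℝ ∞ ν U
  norm_f : ∀ x ∈ U, ‖f x‖ = 1
  norm_ν : ∀ x ∈ U, ‖ν x‖ = 1
  inner_f : ∀ x ∈ U, ⟪f x, ν x⟫ = 0
  inner_df : ∀ x ∈ U, ∀ v, ⟪fderiv ℝ f x v, ν x⟫ = 0
  immersion : ∀ x ∈ U, ∀ v, fderiv ℝ f x v = 0 → v = 0
  dim : finrank ℝ H = finrank ℝ X + 2

variable (X H) in
/-- An immersed oriented hypersurface of the Euclidean space `H`, in a chart. -/
structure EHyp where
  U : Set X
  f : X → H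
  ν : X → H
  isOpen_U : IsOpen U
  smooth_f : ContDiffOn ℝ ∞ f U
  smooth_ν : ContDiffOn ℝ ∞ ν U
  norm_ν : ∀ x ∈ U, ‖ν x‖ = 1
  inner_df : ∀ x ∈ U, ∀ v, ⟪fderiv ℝ f x v, ν x⟫ = 0
  immersion : ∀ x ∈ U, ∀ v, fderiv ℝ f x v = 0 → v = 0
  dim : finrank ℝ H = finrank ℝ X + 1

/-- The conditions in the definition of `SHyp`. -/
structure IsSHyp (U : Set X) (f ν : X → H) : Prop where
  isOpen_U : IsOpen U
  smooth_f : ContDiffOn ℝ ∞ f U
  smooth_ν : ContDiffOn ℝ ∞ ν U
  norm_f : ∀ x ∈ U, ‖f x‖ = 1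
  norm_ν : ∀ x ∈ U, ‖ν x‖ = 1
  inner_f : ∀ x ∈ U, ⟪f x, ν x⟫ = 0
  inner_df : ∀ x ∈ U, ∀ v, ⟪fderiv ℝ f x v, ν x⟫ = 0
  immersion : ∀ x ∈ U, ∀ v, fderiv ℝ f x v = 0 → v = 0
  dim : finrank ℝ H = finrank ℝ X + 2

/-- The hypersurface of the unit sphere given by `f` and `ν` on `U`. -/
@[reducible] def SHyp.of (U : Set X) (f ν : X → H) (h : IsSHyp U f ν) : SHyp X H where
  U := U
  f := f
  ν := ν
  isOpen_U := h.isOpen_U
  smooth_f := h.smooth_f
  smooth_ν := h.smooth_ν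
  norm_f := h.norm_f
  norm_ν := h.norm_ν
  inner_f := h.inner_f
  inner_df := h.inner_df
  immersion := h.immersion
  dim := h.dim

/-- The conditions in the definition of `EHyp`. -/
structure IsEHyp (U : Set X) (f ν : X → H) : Prop where
  isOpen_U : IsOpen U
  smooth_f : ContDiffOn ℝ ∞ f U
  smooth_ν : ContDiffOn ℝ ∞ ν U
  norm_ν : ∀ x ∈ U, ‖ν x‖ = 1
  inner_df : ∀ x ∈ U, ∀ v, ⟪fderiv ℝ f x v, ν x⟫ = 0
  immersion : ∀ x ∈ U, ∀ v, fderiv ℝ f x v = 0 → v = 0
  dim : finrank ℝ H = finrank ℝ X + 1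

/-- The hypersurface of Euclidean space given by `f` and `ν` on `U`. -/
@[reducible] def EHyp.of (U : Set X) (f ν : X → H) (h : IsEHyp U f ν) : EHyp X H where
  U := U
  f := f
  ν := ν
  isOpen_U := h.isOpen_U
  smooth_f := h.smooth_f
  smooth_ν := h.smooth_ν
  norm_ν := h.norm_ν
  inner_df := h.inner_df
  immersion := h.immersion
  dim := h.dim

variable (H) in
/-- The Lie form on `ℝ × H × ℝ`; for `H` of dimension `n + 1` its null lines are the oriented
spheres (and points) of the unit sphere `S^n` of `H`. -/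
noncomputable def lieForm : LinearMap.BilinForm ℝ (ℝ × H × ℝ) :=
  LinearMap.mk₂ ℝ (fun v w => -(v.1 * w.1) + ⟪v.2.1, w.2.1⟫ - v.2.2 * w.2.2)
    (by intro a b c; simp only [Prod.fst_add, Prod.snd_add, inner_add_left]; ring)
    (by intro t a b; simp only [Prod.smul_fst, Prod.smul_snd, smul_eq_mul, inner_smul_left,
          RCLike.conj_to_real]; ring)
    (by intro a b c; simp only [Prod.fst_add, Prod.snd_add, inner_add_right]; ring)
    (by intro t a b; simp only [Prod.smul_fst, Prod.smul_snd, smul_eq_mul, inner_smul_right]; ring)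

/-- The Legendre lift: the line of the Lie quadric spanned by the point sphere `f x` and the
great sphere with pole `ν x`. -/
def SHyp.lift (M : SHyp X H) (x : X) : Submodule ℝ (ℝ × H × ℝ) :=
  Submodule.span ℝ {((1 : ℝ), M.f x, (0 : ℝ)), ((0 : ℝ), M.ν x, (1 : ℝ))}

variable {X' H' : Type} [NormedAddCommGroup X'] [NormedSpace ℝ X']
  [NormedAddCommGroup H'] [InnerProductSpace ℝ H']

/-- `M` near `x` and `M'` near `x'` are Lie equivalent. -/
def SHyp.LieEq (M : SHyp X H) (x : X) (M' : SHyp X' H') (x' : X') : Prop :=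
  LieEqAt (lieForm H) M.lift M.U x (lieForm H') M'.lift M'.U x'

end Hyp

/-! ## Stereographic projection, tubes, reducible hypersurfaces -/

section Tube

variable {X Y E G : Type} [NormedAddCommGroup X] [NormedSpace ℝ X]
  [NormedAddCommGroup Y] [NormedSpace ℝ Y]
  [NormedAddCommGroup E] [InnerProductSpace ℝ E] [NormedAddCommGroup G] [InnerProductSpace ℝ G]

theorem EHyp.hasFDerivAt_f (T : EHyp X E) {x : X} (hx : x ∈ T.U) :
    HasFDerivAt T.f (fderiv ℝ T.f x) x :=
  ((T.smooth_f.contDiffAt (T.isOpen_U.mem_nhds hx)).differentiableAt (by simp)).hasFDerivAt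

theorem EHyp.isSHyp_toSphere (T : EHyp X E) : IsSHyp T.U
    (fun x => (1 + ‖T.f x‖ ^ 2)⁻¹ • WithLp.toLp 2 (1 - ‖T.f x‖ ^ 2, (2 : ℝ) • T.f x))
    (fun x => WithLp.toLp 2 ((0 : ℝ), T.ν x)
      - (2 * ⟪T.f x, T.ν x⟫ * (1 + ‖T.f x‖ ^ 2)⁻¹) • WithLp.toLp 2 ((1 : ℝ), T.f x)) where
  isOpen_U := T.isOpen_U
  smooth_f := smooth_stPt T.smooth_f
  smooth_ν := smooth_stNm T.smooth_f T.smooth_ν
  norm_f := fun x _ => stPt_norm (T.f x)
  norm_ν := fun x hx => stNm_norm (T.f x) (T.ν x) (T.norm_ν x hx)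
  inner_f := fun x _ => stPt_inner_stNm (T.f x) (T.ν x)
  inner_df := fun x hx v => stPt_inner_df (T.hasFDerivAt_f hx) (T.inner_df x hx) v
  immersion := fun x hx v hv => T.immersion x hx v (stPt_immersion (T.hasFDerivAt_f hx) hv)
  dim := by
    have : FiniteDimensional ℝ E := Module.finite_of_finrank_pos (by rw [T.dim]; omega)
    rw [LinearEquiv.finrank_eq (WithLp.linearEquiv 2 ℝ (ℝ × E)), Module.finrank_prod, T.dim,
      Module.finrank_self]
    omega

/-- The hypersurface of the unit sphere of `ℝ × E` which corresponds to the hypersurface `T` of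
`E` by (inverse) stereographic projection, with the corresponding unit normal field. -/
noncomputable def EHyp.toSphere (T : EHyp X E) : SHyp X (WithLp 2 (ℝ × E)) :=
  SHyp.of T.U
    (fun x => (1 + ‖T.f x‖ ^ 2)⁻¹ • WithLp.toLp 2 (1 - ‖T.f x‖ ^ 2, (2 : ℝ) • T.f x))
    (fun x => WithLp.toLp 2 ((0 : ℝ), T.ν x)
      - (2 * ⟪T.f x, T.ν x⟫ * (1 + ‖T.f x‖ ^ 2)⁻¹) • WithLp.toLp 2 ((1 : ℝ), T.f x))
    T.isSHyp_toSphere

/-- `T` is (an open piece of) the tube of radius `r` around the hypersurface `W` of `E`, viewed in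
`E × G`: the unit normal vectors of `W` in `E × G` at `W.f y` are the `(a N, η)`, with
`N = W.ν y` and `a ^ 2 + |η| ^ 2 = 1`. -/
def IsTube (W : EHyp Y E) (r : ℝ) (T : EHyp X (WithLp 2 (E × G))) : Prop :=
  ∃ (u : X → Y) (a : X → ℝ) (η : X → G),
    ContDiffOn ℝ ∞ u T.U ∧ ContDiffOn ℝ ∞ a T.U ∧ ContDiffOn ℝ ∞ η T.U ∧
    ∀ x ∈ T.U, u x ∈ W.U ∧ a x ^ 2 + ‖η x‖ ^ 2 = 1 ∧
      T.f x = WithLp.toLp 2 (W.f (u x) + (r * a x) • W.ν (u x), r • η x) ∧
      T.ν x = WithLp.toLp 2 (a x • W.ν (u x), η x)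

end Tube

end DupinClass
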