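import Pool.Agent.H31.Dupin.Conf_pf

open scoped RealInnerProductSpace ContDiff Topology
open Module Set

namespace DupinClass

section

variable {X X' X'' : Type} [NormedAddCommGroup X] [NormedSpace ℝ X]
  [NormedAddCommGroup X'] [NormedSpace ℝ X'] [NormedAddCommGroup X''] [NormedSpace ℝ X'']

theorem Diffeo.symm {φ : X → X'} {ψ : X' → X} {N : Set X} {N' : Set X'}
    (h : Diffeo φ ψ N N') : Diffeo ψ φ N' N :=
  ⟨h.isOpen_right, h.isOpen_left, h.maps_right, h.maps_left, h.right_inv, h.left_inv,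
    h.smooth_right, h.smooth_left⟩

variable {V V' V'' : Type} [AddCommGroup V] [Module ℝ V] [AddCommGroup V'] [Module ℝ V']
  [AddCommGroup V''] [Module ℝ V'']
  {B : LinearMap.BilinForm ℝ V} {L : X → Submodule ℝ V} {U : Set X} {x : X}
  {B' : LinearMap.BilinForm ℝ V'} {L' : X' → Submodule ℝ V'} {U' : Set X'} {x' : X'}
  {B'' : LinearMap.BilinForm ℝ V''} {L'' : X'' → Submodule ℝ V''} {U'' : Set X''} {x'' : X''}

theorem Diffeo.id {U : Set X} (hU : IsOpen U) : Diffeo (fun x : X => x) (fun x => x) U U :=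
  ⟨hU, hU, fun _ h => h, fun _ h => h, fun _ _ => rfl, fun _ _ => rfl, contDiffOn_id,
    contDiffOn_id⟩

theorem Diffeo.comp {φ : X → X'} {ψ : X' → X} {N : Set X} {N' : Set X'}
    {φ' : X' → X''} {ψ' : X'' → X'} {M : Set X'} {M' : Set X''}
    (h : Diffeo φ ψ N N') (h' : Diffeo φ' ψ' M M') :
    Diffeo (fun x => φ' (φ x)) (fun y => ψ (ψ' y)) (N ∩ φ ⁻¹' M) (M' ∩ ψ' ⁻¹' N') where
  isOpen_left := h.smooth_left.continuousOn.isOpen_inter_preimage h.isOpen_left h'.isOpen_left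
  isOpen_right :=
    h'.smooth_right.continuousOn.isOpen_inter_preimage h'.isOpen_right h.isOpen_right
  maps_left := fun x hx => ⟨h'.maps_left _ hx.2, by
    have : ψ' (φ' (φ x)) = φ x := h'.left_inv _ hx.2
    change ψ' (φ' (φ x)) ∈ N'
    rw [this]; exact h.maps_left _ hx.1⟩
  maps_right := fun y hy => ⟨h.maps_right _ hy.2, by
    have : φ (ψ (ψ' y)) = ψ' y := h.right_inv _ hy.2
    change φ (ψ (ψ' y)) ∈ M
    rw [this]; exact h'.maps_right _ hy.1⟩
  left_inv := fun x hx => by rw [h'.left_inv _ hx.2, h.left_inv _ hx.1]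
  right_inv := fun y hy => by rw [h.right_inv _ hy.2, h'.right_inv _ hy.1]
  smooth_left := h'.smooth_left.comp (h.smooth_left.mono inter_subset_left) fun _ hx => hx.2
  smooth_right := h.smooth_right.comp (h'.smooth_right.mono inter_subset_left) fun _ hx => hx.2

theorem ConfEqAt.refl (hU : IsOpen U) (hx : x ∈ U) : ConfEqAt B L U x B L U x :=
  ⟨LinearEquiv.refl ℝ V, ⟨1, one_pos, fun v w => by simp⟩, fun x => x, fun x => x, U, U,
    Diffeo.id hU, hx, Subset.rfl, Subset.rfl, rfl, fun y _ => by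
      change (L y).map LinearMap.id = L y
      exact Submodule.map_id _⟩

theorem ConfEqAt.symm (h : ConfEqAt B L U x B' L' U' x') : ConfEqAt B' L' U' x' B L U x := by
  obtain ⟨A, ⟨c, hc, hA⟩, φ, ψ, N, N', hd, hx, hN, hN', hφ, hL⟩ := h
  refine ⟨A.symm, ⟨c⁻¹, inv_pos.mpr hc, fun v w => ?_⟩, ψ, φ, N', N, hd.symm, ?_, hN', hN, ?_, ?_⟩
  · have := hA (A.symm v) (A.symm w)
    rw [A.apply_symm_apply, A.apply_symm_apply] at this
    rw [this, inv_mul_cancel_left₀ hc.ne']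
  · rw [← hφ]; exact hd.maps_left _ hx
  · rw [← hφ]; exact hd.left_inv _ hx
  · intro y hy
    have h1 := hL (ψ y) (hd.maps_right _ hy)
    rw [hd.right_inv _ hy] at h1
    rw [← h1, ← Submodule.map_comp]
    have : A.symm.toLinearMap ∘ₗ A.toLinearMap = LinearMap.id := by
      ext v; simp
    rw [this, Submodule.map_id]

theorem ConfEqAt.trans (h : ConfEqAt B L U x B' L' U' x')
    (h' : ConfEqAt B' L' U' x' B'' L'' U'' x'') : ConfEqAt B L U x B'' L'' U'' x'' := by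
  obtain ⟨A, ⟨c, hc, hA⟩, φ, ψ, N, N', hd, hx, hN, hN', hφ, hL⟩ := h
  obtain ⟨A', ⟨c', hc', hA'⟩, φ', ψ', M, M', hd', hx', hM, hM', hφ', hL'⟩ := h'
  refine ⟨A.trans A', ⟨c' * c, mul_pos hc' hc, fun v w => ?_⟩, _, _, _, _, hd.comp hd', ⟨hx, ?_⟩,
    fun y hy => hN hy.1, fun y hy => hM' hy.1, ?_, ?_⟩
  · rw [LinearEquiv.trans_apply, LinearEquiv.trans_apply, hA', hA]; ring
  · change φ x ∈ M
    rw [hφ]; exact hx'
  · rw [hφ, hφ']
  · intro y hy
    have : (A.trans A').toLinearMap = A'.toLinearMap ∘ₗ A.toLinearMap := rfl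
    rw [this, Submodule.map_comp, hL y hy.1, hL' _ hy.2]

theorem ConfEqAt.lieEqAt (h : ConfEqAt B L U x B' L' U' x') : LieEqAt B L U x B' L' U' x' := by
  obtain ⟨A, ⟨c, hc, hA⟩, h⟩ := h
  refine ⟨A, fun v => ?_, h⟩
  rw [hA, mul_eq_zero, or_iff_right hc.ne']

/-- A Lie equivalence whose linear maps are all conformal is a conformal equivalence. -/
theorem LieEqAt.confEqAt (h : LieEqAt B L U x B' L' U' x')
    (hc : ∀ A : V ≃ₗ[ℝ] V', (∀ v, B' (A v) (A v) = 0 ↔ B v v = 0) →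
      ∃ c : ℝ, 0 < c ∧ ∀ v w, B' (A v) (A w) = c * B v w) : ConfEqAt B L U x B' L' U' x' := by
  obtain ⟨A, hA, h⟩ := h
  exact ⟨A, hc A hA, h⟩

/-- Enlarging the domain on the left. -/
theorem ConfEqAt.mono {U₁ : Set X} (h : ConfEqAt B L U₁ x B' L' U' x') (hU : U₁ ⊆ U) :
    ConfEqAt B L U x B' L' U' x' := by
  obtain ⟨A, hA, φ, ψ, N, N', hd, hx, hN, h⟩ := h
  exact ⟨A, hA, φ, ψ, N, N', hd, hx, hN.trans hU, h⟩

/-- A conformal linear isomorphism that carries one family to another one on the same domain. -/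
theorem ConfEqAt.of_equiv (hU : IsOpen U) (hx : x ∈ U) (A : V ≃ₗ[ℝ] V')
    (hA : ∀ v w, B' (A v) (A w) = B v w) {L₁ : X → Submodule ℝ V'}
    (hL : ∀ y ∈ U, (L y).map A.toLinearMap = L₁ y) : ConfEqAt B L U x B' L₁ U x :=
  ⟨A, ⟨1, one_pos, fun v w => by rw [hA, one_mul]⟩, fun x => x, fun x => x, U, U, Diffeo.id hU,
    hx, Subset.rfl, Subset.rfl, rfl, hL⟩

end

section Lie

variable {H H' : Type} [NormedAddCommGroup H] [InnerProductSpace ℝ H] [FiniteDimensional ℝ H]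
  [NormedAddCommGroup H'] [InnerProductSpace ℝ H'] [FiniteDimensional ℝ H']

/-- A linear isomorphism preserving the null cones of the Lie forms is conformal with a positive
factor. Proof: for unit vectors `e` of the `(−,−)`-plane `ℝ × 0 × ℝ` and `f ∈ H` the vectors
`e ± f` are null, hence `B'(Ae, Af) = 0` and `B'(Af,Af) = -B'(Ae,Ae)`; so `B'(A·,A·) = c B`.
`c ≠ 0` clear; if `c < 0`, then the form of `H'` is negative definite on `A(0 × H × 0)`, which has
dimension at least three, and this subspace meets `0 × H' × 0` (codimension two). -/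
theorem lieForm_conf (h3 : 3 ≤ finrank ℝ H) (A : (ℝ × H × ℝ) ≃ₗ[ℝ] (ℝ × H' × ℝ))
    (hA : ∀ v, lieForm H' (A v) (A v) = 0 ↔ lieForm H v v = 0) :
    ∃ c : ℝ, 0 < c ∧ ∀ v w, lieForm H' (A v) (A w) = c * lieForm H v w :=
  lieForm_conf' h3 A hA

omit [FiniteDimensional ℝ H] in
theorem lieForm_isSymm : (lieForm H).IsSymm := lieForm_isSymm'

omit [FiniteDimensional ℝ H] in
theorem lieForm_nondegenerate : (lieForm H).Nondegenerate := lieForm_nondegenerate'

end Lie

end DupinClass
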