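import Pool.Agent.H31.Dupin.Model

open scoped RealInnerProductSpace ContDiff Topology
open Module Set

namespace DupinClass

section

variable {X Y : Type} [NormedAddCommGroup X] [NormedSpace ℝ X] [FiniteDimensional ℝ X]
  [NormedAddCommGroup Y] [NormedSpace ℝ Y] [FiniteDimensional ℝ Y]

/-- A smooth map whose derivative at a point is bijective is a diffeomorphism between arbitrarily
small neighbourhoods. -/
theorem exists_diffeo {φ : X → Y} {U : Set X} (hU : IsOpen U) (hφ : ContDiffOn ℝ ∞ φ U) {x₀ : X}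
    (hx₀ : x₀ ∈ U) (hinj : ∀ v, fderiv ℝ φ x₀ v = 0 → v = 0) (hdim : finrank ℝ X = finrank ℝ Y)
    {P : Set X} (hP : P ∈ 𝓝 x₀) {Q : Set Y} (hQ : Q ∈ 𝓝 (φ x₀)) :
    ∃ ψ N N', Diffeo φ ψ N N' ∧ x₀ ∈ N ∧ N ⊆ U ∧ N ⊆ P ∧ N' ⊆ Q := by
  have hca : ContDiffAt ℝ ∞ φ x₀ := hφ.contDiffAt (hU.mem_nhds hx₀)
  have hinj' : Function.Injective (fderiv ℝ φ x₀).toLinearMap := by
    rw [← LinearMap.ker_eq_bot]
    exact LinearMap.ker_eq_bot'.2 hinj
  set f' : X ≃L[ℝ] Y :=
    (LinearEquiv.ofInjectiveOfFinrankEq (fderiv ℝ φ x₀).toLinearMap hinj' hdim).toContinuousLinearEquiv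
    with hf'
  have hff : (f' : X →L[ℝ] Y) = fderiv ℝ φ x₀ := by
    ext v; rfl
  have hd : HasFDerivAt φ (f' : X →L[ℝ] Y) x₀ := by
    rw [hff]
    exact (hca.differentiableAt (by simp)).hasFDerivAt
  set E := hca.toOpenPartialHomeomorph φ hd (by simp) with hE
  have hEc : (E : X → Y) = φ := hca.toOpenPartialHomeomorph_coe hd (by simp)
  have hxs : x₀ ∈ E.source := hca.mem_toOpenPartialHomeomorph_source hd (by simp)
  set W : Set X := U ∩ fderiv ℝ φ ⁻¹' (Set.range ((↑) : (X ≃L[ℝ] Y) → (X →L[ℝ] Y))) with hW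
  have hWo : IsOpen W :=
    (hφ.continuousOn_fderiv_of_isOpen hU (by simp)).isOpen_inter_preimage hU
      ContinuousLinearEquiv.isOpen
  have hQo : IsOpen (E.source ∩ φ ⁻¹' (interior Q)) := by
    rw [← hEc]
    exact E.isOpen_inter_preimage isOpen_interior
  set S : Set X := W ∩ (interior P ∩ (E.source ∩ φ ⁻¹' (interior Q))) with hS
  have hSo : IsOpen S := hWo.inter (isOpen_interior.inter hQo)
  set E' := E.restrOpen S hSo with hE'
  have hsrc : E'.source = E.source ∩ S := E.restrOpen_source S hSo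
  have hEc' : (E' : X → Y) = φ := hEc
  have hsub : ∀ x ∈ E'.source, x ∈ S := by
    intro x hx; rw [hsrc] at hx; exact hx.2
  refine ⟨E'.symm, E'.source, E'.target, ⟨E'.open_source, E'.open_target, ?_, ?_, ?_, ?_, ?_, ?_⟩,
    ?_, ?_, ?_, ?_⟩
  · intro x hx
    rw [← hEc']
    exact E'.map_source hx
  · intro y hy
    exact E'.map_target hy
  · intro x hx
    have := E'.left_inv hx
    rwa [hEc'] at this
  · intro y hy
    have := E'.right_inv hy
    rwa [hEc'] at this
  · exact hφ.mono fun x hx => (hsub x hx).1.1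
  · intro y hy
    have hx : E'.symm y ∈ S := hsub _ (E'.map_target hy)
    obtain ⟨g, hg⟩ := hx.1.2
    have hcx : ContDiffAt ℝ ∞ φ (E'.symm y) := hφ.contDiffAt (hU.mem_nhds hx.1.1)
    have hdx : HasFDerivAt E' (g : X →L[ℝ] Y) (E'.symm y) := by
      rw [hEc', hg]
      exact (hcx.differentiableAt (by simp)).hasFDerivAt
    refine (E'.contDiffAt_symm hy hdx ?_).contDiffWithinAt
    rw [hEc']
    exact hcx
  · rw [hsrc]
    refine ⟨hxs, ⟨hx₀, ?_⟩, mem_interior_iff_mem_nhds.2 hP, hxs, ?_⟩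
    · exact ⟨f', hff⟩
    · exact mem_interior_iff_mem_nhds.2 hQ
  · intro x hx; exact (hsub x hx).1.1
  · intro x hx; exact interior_subset (hsub x hx).2.1
  · intro y hy
    have hx : E'.symm y ∈ S := hsub _ (E'.map_target hy)
    have h1 := E'.right_inv hy
    rw [hEc'] at h1
    rw [← h1]
    exact interior_subset hx.2.2.2

end

section

variable {S : Type} [AddCommGroup S] [Module ℝ S] [FiniteDimensional ℝ S]

/-- A positive definite form is Euclidean. -/
theorem exists_isometry (B : LinearMap.BilinForm ℝ S) (hs : ∀ v w, B v w = B w v)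
    (hp : ∀ v, v ≠ 0 → 0 < B v v) {m : ℕ} (hm : finrank ℝ S = m) :
    ∃ e : EuclideanSpace ℝ (Fin m) ≃ₗ[ℝ] S, ∀ s t, B (e s) (e t) = ⟪s, t⟫ := by
  letI core : InnerProductSpace.Core ℝ S :=
    { inner := fun v w => B v w
      conj_inner_symm := fun v w => by simp [hs v w]
      re_inner_nonneg := fun v => by
        by_cases hv : v = 0
        · subst hv; simp
        · simpa using (hp v hv).le
      add_left := fun u v w => by simp
      smul_left := fun u v r => by simp
      definite := fun v hv => by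
        by_contra h
        exact (hp v h).ne' hv }
  letI : NormedAddCommGroup S := core.toNormedAddCommGroup
  letI : InnerProductSpace ℝ S := InnerProductSpace.ofCore core.toCore
  let b := (stdOrthonormalBasis ℝ S).reindex (finCongr hm)
  refine ⟨b.repr.symm.toLinearEquiv, fun s t => ?_⟩
  have : ⟪b.repr.symm s, b.repr.symm t⟫ = ⟪s, t⟫ := b.repr.symm.inner_map_map s t
  exact this

end

end DupinClass
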