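import Pool.Agent.H31.Dupin.TripleA
import Pool.Agent.H31.Dupin.LocDiff

open scoped RealInnerProductSpace ContDiff Topology
open Module Set

namespace DupinClass

section

variable {X V : Type} [NormedAddCommGroup X] [NormedSpace ℝ X] [FiniteDimensional ℝ X]
  [NormedAddCommGroup V] [NormedSpace ℝ V] [FiniteDimensional ℝ V]
  {B : LinearMap.BilinForm ℝ V} {b : Fin 3 → X → V} {U : Set X} {x₀ : X}

/-- `n` is the normal vector with the number `i` of the triple. -/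
def IsNormal (B : LinearMap.BilinForm ℝ V) (b : Fin 3 → X → V) (x₀ : X) (i : Fin 3) (n : V) :
    Prop :=
  (∀ v, B n (fderiv ℝ (b i) x₀ v) = 0) ∧ (∀ j, j ≠ i → B n (b i x₀ - b j x₀) = 1) ∧
    ∀ᶠ x in 𝓝 x₀, ∃ v, ∃ y : ℝ, b i x - b i x₀ = fderiv ℝ (b i) x₀ v + y • n

/-- The linear map from the model. -/
noncomputable def tbPhi {m : Fin 3 → ℕ} (e : ∀ i, EuclideanSpace ℝ (Fin (m i)) →ₗ[ℝ] V)
    (k₀ k₁ n₀ n₁ : V) : MV m →ₗ[ℝ] V where
  toFun v := ∑ i, e i (v.1 i) + v.2.1 • k₀ + v.2.2.1 • k₁ + v.2.2.2.1 • n₀ + v.2.2.2.2 • n₁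
  map_add' := by
    intro v w
    simp only [Prod.fst_add, Prod.snd_add, Pi.add_apply, map_add, Finset.sum_add_distrib, add_smul]
    abel
  map_smul' := by
    intro c v
    simp only [Prod.smul_fst, Prod.smul_snd, Pi.smul_apply, map_smul, smul_eq_mul, mul_smul,
      RingHom.id_apply, smul_add, Finset.smul_sum]

omit [FiniteDimensional ℝ V] in
theorem tbPhi_form {m : Fin 3 → ℕ} {e : ∀ i, EuclideanSpace ℝ (Fin (m i)) →ₗ[ℝ] V}
    {k₀ k₁ n₀ n₁ : V} {μ : Fin 3 → ℝ} (hB : ∀ v w, B v w = B w v)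
    (h1 : ∀ i s t, B (e i s) (e i t) = ⟪s, t⟫) (h2 : ∀ i j, i ≠ j → ∀ s t, B (e i s) (e j t) = 0)
    (h3 : ∀ i s, B (e i s) k₀ = 0) (h4 : ∀ i s, B (e i s) k₁ = 0)
    (h5 : ∀ i s, B (e i s) n₀ = 0) (h6 : ∀ i s, B (e i s) n₁ = 0)
    (a1 : B k₀ k₀ = 0) (a2 : B k₀ k₁ = 0) (a3 : B k₁ k₁ = 0) (a4 : B n₀ k₀ = 0)
    (a5 : B n₀ k₁ = -1) (a6 : B n₁ k₀ = 1) (a7 : B n₁ k₁ = 0) (a8 : B n₀ n₁ = 0)
    (a9 : B n₀ n₀ = μ 0) (a10 : B n₁ n₁ = μ 1) (v w : MV m) :
    B (tbPhi e k₀ k₁ n₀ n₁ v) (tbPhi e k₀ k₁ n₀ n₁ w) = mForm m μ v w := by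
  have hEE : B (∑ i, e i (v.1 i)) (∑ i, e i (w.1 i)) = ∑ i, ⟪v.1 i, w.1 i⟫ := by
    simp only [map_sum, LinearMap.sum_apply]
    refine Finset.sum_congr rfl fun i _ => ?_
    rw [Finset.sum_eq_single i]
    · exact h1 i _ _
    · intro j _ hj
      exact h2 j i hj _ _
    · intro hi; exact absurd (Finset.mem_univ i) hi
  have hz : ∀ (u : MV m) (z : V), (∀ i s, B (e i s) z = 0) → B (∑ i, e i (u.1 i)) z = 0 := by
    intro u z hz
    simp only [map_sum, LinearMap.sum_apply]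
    exact Finset.sum_eq_zero fun i _ => hz i _
  have hz' : ∀ (u : MV m) (z : V), (∀ i s, B (e i s) z = 0) → B z (∑ i, e i (u.1 i)) = 0 := by
    intro u z h
    rw [hB]; exact hz u z h
  have b4 : B k₀ n₀ = 0 := by rw [hB]; exact a4
  have b5 : B k₁ n₀ = -1 := by rw [hB]; exact a5
  have b6 : B k₀ n₁ = 1 := by rw [hB]; exact a6
  have b7 : B k₁ n₁ = 0 := by rw [hB]; exact a7
  have b8 : B n₁ n₀ = 0 := by rw [hB]; exact a8
  have b2 : B k₁ k₀ = 0 := by rw [hB]; exact a2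
  show B (∑ i, e i (v.1 i) + v.2.1 • k₀ + v.2.2.1 • k₁ + v.2.2.2.1 • n₀ + v.2.2.2.2 • n₁)
    (∑ i, e i (w.1 i) + w.2.1 • k₀ + w.2.2.1 • k₁ + w.2.2.2.1 • n₀ + w.2.2.2.2 • n₁) =
    ∑ i, ⟪v.1 i, w.1 i⟫
      + (v.2.2.2.2 * w.2.1 + v.2.1 * w.2.2.2.2) - (v.2.2.2.1 * w.2.2.1 + v.2.2.1 * w.2.2.2.1)
      + μ 0 * v.2.2.2.1 * w.2.2.2.1 + μ 1 * v.2.2.2.2 * w.2.2.2.2
  simp only [map_add, map_smul, LinearMap.add_apply, LinearMap.smul_apply, smul_eq_mul, hEE,
    hz v k₀ h3, hz v k₁ h4, hz v n₀ h5, hz v n₁ h6, hz' w k₀ h3, hz' w k₁ h4, hz' w n₀ h5,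
    hz' w n₁ h6, a1, a2, a3, a4, a5, a6, a7, a8, a9, a10, b2, b4, b5, b6, b7, b8]
  ring

theorem mForm_left {m : Fin 3 → ℕ} {μ : Fin 3 → ℝ} {v : MV m} (h : ∀ w, mForm m μ v w = 0) :
    v = 0 := by
  obtain ⟨s, c0, c1, d0, d1⟩ := v
  have e : ∀ w : MV m, ∑ i, ⟪s i, w.1 i⟫
      + (d1 * w.2.1 + c0 * w.2.2.2.2) - (d0 * w.2.2.1 + c1 * w.2.2.2.1)
      + μ 0 * d0 * w.2.2.2.1 + μ 1 * d1 * w.2.2.2.2 = 0 := h
  have h1 := e (s, 0)
  have h2 := e (0, 1, 0, 0, 0)
  have h3 := e (0, 0, 1, 0, 0)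
  have h4 := e (0, 0, 0, 1, 0)
  have h5 := e (0, 0, 0, 0, 1)
  simp only [Pi.zero_apply, inner_zero_right, Finset.sum_const_zero, Prod.fst_zero, Prod.snd_zero,
    mul_zero, mul_one, add_zero, zero_add, sub_zero, zero_sub] at h1 h2 h3 h4 h5
  have h3' : d0 = 0 := by linarith
  subst h2
  subst h3'
  have h6 : c1 = 0 := by linarith
  have h7 : c0 = 0 := by linarith
  subst h6
  subst h7
  have h8 : s = 0 := by
    rw [Finset.sum_eq_zero_iff_of_nonneg (fun i _ => real_inner_self_nonneg)] at h1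
    funext i
    exact inner_self_eq_zero.1 (h1 i (Finset.mem_univ i))
  rw [h8]; rfl

theorem root_eq {μ y t : ℝ} (h : μ * y ^ 2 + 2 * y + t = 0) (hy : 0 < 1 + μ * y) :
    y = yfun μ t ∧ μ * t < 1 := by
  have h1 : (1 + μ * y) ^ 2 = 1 - μ * t := by linear_combination μ * h
  have h2 : √(1 - μ * t) = 1 + μ * y := by
    rw [← h1, Real.sqrt_sq hy.le]
  refine ⟨?_, ?_⟩
  · unfold yfun
    rw [h2, eq_div_iff (by linarith)]
    linarith
  · have : 0 < (1 + μ * y) ^ 2 := by positivity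
    linarith

/-- **Module T'.** A null triple is equivalent to the canonical one. -/
theorem TripleHyp.confEq (h : TripleHyp B b U x₀) {m : Fin 3 → ℕ}
    (hm : ∀ i, finrank ℝ (fderiv ℝ (b i) x₀).toLinearMap.range = m i) :
    ∃ μ : Fin 3 → ℝ, μ 0 + μ 1 + μ 2 = 0 ∧
      ConfEqAt B (triFam b) U x₀ (mForm m μ) (mFam m μ) (mU m μ) 0 ∧
      ∀ i n, IsNormal B b x₀ i n → μ i = B n n := by
  classical
  obtain ⟨n, N1, N2, N3, N4, N5⟩ := h.exists_normal
  have hB : ∀ v w, B v w = B w v := fun v w => h.symm.eq v w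
  -- isometries
  have he : ∀ i, ∃ e : EuclideanSpace ℝ (Fin (m i)) →ₗ[ℝ] V, (∀ s t, B (e s) (e t) = ⟪s, t⟫) ∧
      (∀ s, ∃ v, e s = fderiv ℝ (b i) x₀ v) ∧ (∀ v, ∃ s, e s = fderiv ℝ (b i) x₀ v) := by
    intro i
    set S := (fderiv ℝ (b i) x₀).toLinearMap.range with hS
    obtain ⟨e, he⟩ := exists_isometry (S := S) (B.restrict S)
      (fun v w => hB v.1 w.1) (fun v hv => by
        obtain ⟨w, hw⟩ := v.2
        have h1 : fderiv ℝ (b i) x₀ w ≠ 0 := by
          intro h0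
          apply hv
          apply Subtype.ext
          rw [← hw]
          exact h0
        have h2 := h.pos i w h1
        show 0 < B v.1 v.1
        rw [← hw]
        exact h2) (hm i)
    refine ⟨S.subtype ∘ₗ e.toLinearMap, fun s t => he s t, fun s => ?_, fun v => ?_⟩
    · obtain ⟨w, hw⟩ := (e s).2
      exact ⟨w, hw.symm⟩
    · refine ⟨e.symm ⟨fderiv ℝ (b i) x₀ v, ⟨v, rfl⟩⟩, ?_⟩
      simp
  choose e he1 he2 he3 using he
  set k₀ := b 1 x₀ - b 2 x₀ with hk₀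
  set k₁ := b 2 x₀ - b 0 x₀ with hk₁
  have hek : ∀ i s j l, B (e i s) (b j x₀ - b l x₀) = 0 := by
    intro i s j l
    obtain ⟨v, hv⟩ := he2 i s
    rw [hv]; exact h.orth_db i j l v
  have hen : ∀ i s j, B (e i s) (n j) = 0 := by
    intro i s j
    obtain ⟨v, hv⟩ := he2 i s
    rw [hv, hB]; exact N1 j i v
  have c0k0 : B (n 0) k₀ = 0 := by
    have e : k₀ = (b 0 x₀ - b 2 x₀) - (b 0 x₀ - b 1 x₀) := by rw [hk₀]; abel
    rw [e, map_sub, N3 0 2 (by decide), N3 0 1 (by decide), sub_self]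
  have c0k1 : B (n 0) k₁ = -1 := by
    have e : k₁ = -(b 0 x₀ - b 2 x₀) := by rw [hk₁]; abel
    rw [e, map_neg, N3 0 2 (by decide)]
  have c1k0 : B (n 1) k₀ = 1 := N3 1 2 (by decide)
  have c1k1 : B (n 1) k₁ = 0 := by
    have e : k₁ = (b 1 x₀ - b 0 x₀) - (b 1 x₀ - b 2 x₀) := by rw [hk₁]; abel
    rw [e, map_sub, N3 1 2 (by decide), N3 1 0 (by decide), sub_self]
  have c2k0 : B (n 2) k₀ = -1 := by
    have e : k₀ = -(b 2 x₀ - b 1 x₀) := by rw [hk₀]; abel
    rw [e, map_neg, N3 2 1 (by decide)]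
  have c2k1 : B (n 2) k₁ = 1 := N3 2 0 (by decide)
  set μ : Fin 3 → ℝ := fun i => B (n i) (n i) with hμd
  have hμ : μ 0 + μ 1 + μ 2 = 0 := by
    have e : B (n 2) (n 2) = B (n 2) (B (n 1) (n 1) • k₀ - B (n 0) (n 0) • k₁ - n 0 - n 1) := by
      rw [← N5]
    simp only [map_sub, map_smul, smul_eq_mul, c2k0, c2k1, N2 2 0 (by decide),
      N2 2 1 (by decide)] at e
    show B (n 0) (n 0) + B (n 1) (n 1) + B (n 2) (n 2) = 0
    rw [e]; ring
  have hEE : ∀ i j, i ≠ j → ∀ s t, B (e i s) (e j t) = 0 := by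
    intro i j hij s t
    obtain ⟨v, hv⟩ := he2 i s
    obtain ⟨w, hw⟩ := he2 j t
    rw [hv, hw]; exact h.orth_dd hij v w
  set Φ : MV m →ₗ[ℝ] V := tbPhi e k₀ k₁ (n 0) (n 1) with hΦd
  have hΦ : ∀ v w, B (Φ v) (Φ w) = mForm m μ v w :=
    tbPhi_form hB he1 hEE (fun i s => hek i s 1 2) (fun i s => hek i s 2 0)
      (fun i s => hen i s 0) (fun i s => hen i s 1) (h.orth_bb 1 2 2 1) (h.orth_bb 1 2 0 2)
      (h.orth_bb 2 0 0 2) c0k0 c0k1 c1k0 c1k1 (N2 0 1 (by decide)) rfl rfl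
  have hinj : Function.Injective Φ := by
    rw [← LinearMap.ker_eq_bot, LinearMap.ker_eq_bot']
    intro v hv
    refine mForm_left (μ := μ) fun w => ?_
    rw [← hΦ, hv, map_zero, LinearMap.zero_apply]
  have hdX : finrank ℝ X = m 0 + m 1 + m 2 := by
    rw [← h.sum_finrank, Fin.sum_univ_three, hm, hm, hm]
  have hdMX : finrank ℝ (MX m) = m 0 + m 1 + m 2 := by
    rw [Module.finrank_pi_fintype]
    simp [Fin.sum_univ_three]
  have hdMV : finrank ℝ (MV m) = finrank ℝ V := by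
    rw [h.dim, hdX, Module.finrank_prod, hdMX]
    simp [Module.finrank_prod]
  set LE : MV m ≃ₗ[ℝ] V := LinearEquiv.ofInjectiveOfFinrankEq Φ hinj hdMV with hLE
  have hLEa : ∀ v, LE v = Φ v := fun v => rfl
  set A : V ≃ₗ[ℝ] MV m := LE.symm with hA
  have hAΦ : ∀ v, A (Φ v) = v := by
    intro v
    rw [← hLEa, hA]; exact LE.symm_apply_apply v
  have hΦA : ∀ v, Φ (A v) = v := by
    intro v
    rw [← hLEa, hA]; exact LE.apply_symm_apply v
  have hAB : ∀ v w, mForm m μ (A v) (A w) = 1 * B v w := by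
    intro v w
    rw [← hΦ, hΦA, hΦA, one_mul]
  have hΦe : ∀ v : MV m, Φ v =
      ∑ i, e i (v.1 i) + v.2.1 • k₀ + v.2.2.1 • k₁ + v.2.2.2.1 • n 0 + v.2.2.2.2 • n 1 :=
    fun v => rfl
  have hAe : ∀ i s, A (e i s) = (Pi.single i s, 0) := by
    intro i s
    have : Φ (Pi.single i s, 0) = e i s := by
      rw [hΦe]
      simp only [Prod.fst_zero, Prod.snd_zero, zero_smul, add_zero]
      rw [Finset.sum_eq_single i]
      · rw [Pi.single_eq_same]
      · intro j _ hj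
        rw [Pi.single_eq_of_ne hj, map_zero]
      · intro hi; exact absurd (Finset.mem_univ i) hi
    rw [← this, hAΦ]
  have hAn : ∀ i, A (n i) = mN m μ i := by
    intro i
    have : Φ (mN m μ i) = n i := by
      rw [hΦe]
      fin_cases i
      · simp [mN]
      · simp [mN]
      · have e5 : n 2 = μ 1 • k₀ - μ 0 • k₁ - n 0 - n 1 := N5
        simp only [mN, Fin.reduceFinMk, Matrix.cons_val, Pi.zero_apply, map_zero,
          Finset.sum_const_zero, zero_add, neg_smul, one_smul]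
        rw [e5]; abel
    rw [← this, hAΦ]
  have hmN1 : ∀ i, (mN m μ i).1 = 0 := by
    intro i
    fin_cases i <;> simp [mN]
  have hΦb : ∀ i, Φ (mBase m i) = b i x₀ - b 2 x₀ := by
    intro i
    rw [hΦe]
    fin_cases i
    · simp [mBase, hk₁]
    · simp [mBase, hk₀]
    · simp [mBase]
  have hAb : ∀ i j, A (b i x₀ - b j x₀) = mBase m i - mBase m j := by
    intro i j
    have : Φ (mBase m i - mBase m j) = b i x₀ - b j x₀ := by
      rw [map_sub, hΦb, hΦb]; abel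
    rw [← this, hAΦ]
  -- the map
  set P : ∀ i, V →L[ℝ] EuclideanSpace ℝ (Fin (m i)) := fun i =>
    LinearMap.toContinuousLinearMap ((LinearMap.proj i) ∘ₗ (LinearMap.fst ℝ (MX m) _) ∘ₗ
      A.toLinearMap) with hP
  have hPa : ∀ i v, P i v = (A v).1 i := fun i v => rfl
  set φ : X → MX m := fun x i => P i (b i x - b i x₀) with hφ
  have hφs : ContDiffOn ℝ ∞ φ U :=
    contDiffOn_pi.2 fun i => (P i).contDiff.comp_contDiffOn ((h.smooth i).sub contDiffOn_const)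
  have hφ0 : φ x₀ = 0 := by
    funext i
    show P i (b i x₀ - b i x₀) = 0
    rw [sub_self, map_zero]
  have hbd : ∀ i, HasFDerivAt (b i) (fderiv ℝ (b i) x₀) x₀ := fun i =>
    (((h.smooth i).contDiffAt (h.isOpen_U.mem_nhds h.mem)).differentiableAt (by simp)).hasFDerivAt
  have hφd : ∀ v, (∀ i, P i (fderiv ℝ (b i) x₀ v) = fderiv ℝ φ x₀ v i) := by
    intro v i
    have h1 : HasFDerivAt φ (ContinuousLinearMap.pi fun i => (P i).comp (fderiv ℝ (b i) x₀)) x₀ :=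
      hasFDerivAt_pi.2 fun i => (P i).hasFDerivAt.comp x₀ ((hbd i).sub_const _)
    rw [h1.fderiv]; rfl
  have hφi : ∀ v, fderiv ℝ φ x₀ v = 0 → v = 0 := by
    intro v hv
    refine h.inj v fun i => ?_
    obtain ⟨s, hs⟩ := he3 i v
    have h1 := hφd v i
    rw [hv, ← hs, hPa, hAe] at h1
    simp only [Pi.single_eq_same, Pi.zero_apply] at h1
    rw [← hs, h1, map_zero]
  have key : ∀ i, ∀ x ∈ U, ∃ y : ℝ, b i x - b i x₀ = e i (φ x i) + y • n i := by
    intro i x hx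
    obtain ⟨v, y, hvy⟩ := N4 i x hx
    obtain ⟨s, hs⟩ := he3 i v
    rw [← hs] at hvy
    have : φ x i = s := by
      show P i (b i x - b i x₀) = s
      rw [hvy, hPa, map_add, map_smul, hAe, hAn]
      simp [hmN1]
    exact ⟨y, by rw [this]; exact hvy⟩
  have hne1 : ∀ i : Fin 3, i + 1 ≠ i := by decide
  set Y : Fin 3 → X → ℝ := fun i x => B (b i x - b i x₀) (b i x₀ - b (i + 1) x₀) with hY
  have key2 : ∀ i, ∀ x ∈ U, b i x - b i x₀ = e i (φ x i) + Y i x • n i ∧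
      μ i * Y i x ^ 2 + 2 * Y i x + ‖φ x i‖ ^ 2 = 0 := by
    intro i x hx
    obtain ⟨y, hy⟩ := key i x hx
    have hYy : Y i x = y := by
      show B (b i x - b i x₀) (b i x₀ - b (i + 1) x₀) = y
      rw [hy, map_add, map_smul, LinearMap.add_apply, LinearMap.smul_apply, hek,
        N3 i (i + 1) (hne1 i), smul_eq_mul]
      ring
    rw [hYy]
    refine ⟨hy, ?_⟩
    have h1 := h.null i (i + 1) (hne1 i).symm x hx x₀ h.mem
    have e1 : b i x - b (i + 1) x₀ = (b i x₀ - b (i + 1) x₀) + (e i (φ x i) + y • n i) := by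
      rw [← hy]; abel
    have c1 : B (b i x₀ - b (i + 1) x₀) (b i x₀ - b (i + 1) x₀) = 0 := h.orth_bb i (i + 1) (i + 1) i
    have c2 : B (b i x₀ - b (i + 1) x₀) (e i (φ x i)) = 0 := by rw [hB]; exact hek _ _ _ _
    have c3 : B (b i x₀ - b (i + 1) x₀) (n i) = 1 := by rw [hB]; exact N3 i (i + 1) (hne1 i)
    have c4 : B (n i) (e i (φ x i)) = 0 := by rw [hB]; exact hen _ _ _
    rw [e1] at h1
    simp only [map_add, map_smul, LinearMap.add_apply, LinearMap.smul_apply, smul_eq_mul, c1, c2,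
      c3, c4, hek, hen, he1, N3 i (i + 1) (hne1 i), real_inner_self_eq_norm_sq] at h1
    show B (n i) (n i) * y ^ 2 + 2 * y + ‖φ x i‖ ^ 2 = 0
    linarith
  have hY0 : ∀ i, Y i x₀ = 0 := by
    intro i
    show B (b i x₀ - b i x₀) _ = 0
    rw [sub_self, map_zero, LinearMap.zero_apply]
  have hYc : ∀ i, ContinuousAt (Y i) x₀ := by
    intro i
    have h1 : Continuous (fun v => B v (b i x₀ - b (i + 1) x₀)) :=
      (B.flip (b i x₀ - b (i + 1) x₀)).continuous_of_finiteDimensional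
    exact h1.continuousAt.comp ((hbd i).continuousAt.sub continuousAt_const)
  have hPn : {x : X | ∀ i, 0 < 1 + μ i * Y i x} ∈ 𝓝 x₀ := by
    have h1 : ∀ᶠ x in 𝓝 x₀, ∀ i, 0 < 1 + μ i * Y i x := by
      rw [Filter.eventually_all]
      intro i
      have h2 : ContinuousAt (fun x => 1 + μ i * Y i x) x₀ :=
        continuousAt_const.add (continuousAt_const.mul (hYc i))
      refine h2.eventually_const_lt ?_
      show 0 < 1 + μ i * Y i x₀
      rw [hY0, mul_zero, add_zero]; exact one_pos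
    exact h1
  obtain ⟨ψ, N, N', hd, hxN, hNU, hNP, -⟩ := exists_diffeo h.isOpen_U hφs h.mem hφi
    (by rw [hdX, hdMX]) hPn (Filter.univ_mem (f := 𝓝 (φ x₀)))
  have key3 : ∀ x ∈ N, ∀ i, A (b i x - b i x₀) = mb m μ i (φ x) - mBase m i ∧
      μ i * ‖φ x i‖ ^ 2 < 1 := by
    intro x hx i
    obtain ⟨h1, h2⟩ := key2 i x (hNU hx)
    obtain ⟨h3, h4⟩ := root_eq h2 (hNP hx i)
    refine ⟨?_, h4⟩
    rw [h1, map_add, map_smul, hAe, hAn, h3]
    unfold mb
    abel
  refine ⟨μ, hμ, ⟨A, ⟨1, one_pos, hAB⟩, φ, ψ, N, N', hd, hxN, hNU, ?_, hφ0, ?_⟩, ?_⟩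
  · intro y hy i
    have h1 := key3 (ψ y) (hd.maps_right y hy) i
    rw [hd.right_inv y hy] at h1
    exact h1.2
  · intro x hx
    unfold mFam triFam
    rw [Submodule.map_span, ← Set.range_comp]
    congr 1
    apply congrArg
    funext p
    show A (b p.1 x - b p.2 x) = mb m μ p.1 (φ x) - mb m μ p.2 (φ x)
    have e1 : b p.1 x - b p.2 x = (b p.1 x - b p.1 x₀) + (b p.1 x₀ - b p.2 x₀) -
        (b p.2 x - b p.2 x₀) := by abel
    rw [e1, map_sub, map_add, (key3 x hx p.1).1, (key3 x hx p.2).1, hAb]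
    abel
  · rintro i n' ⟨u1, u2, u3⟩
    have hno : n' = n i := by
      by_contra hcon
      have hev : ∀ᶠ x in 𝓝 x₀, b i x = b i x₀ := by
        filter_upwards [u3, h.isOpen_U.mem_nhds h.mem] with x hx hxU
        obtain ⟨v', t, h1⟩ := hx
        obtain ⟨h2, h3⟩ := key2 i x hxU
        obtain ⟨v, hv⟩ := he2 i (φ x i)
        rw [hv] at h2
        have h4 : fderiv ℝ (b i) x₀ (v - v') = t • n' - Y i x • n i := by
          rw [map_sub]
          have : fderiv ℝ (b i) x₀ v + Y i x • n i = fderiv ℝ (b i) x₀ v' + t • n' := by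
            rw [← h1, ← h2]
          rw [sub_eq_sub_iff_add_eq_add, this]
          abel
        have h5 : fderiv ℝ (b i) x₀ (v - v') = 0 := by
          by_contra h6
          have h7 := h.pos i _ h6
          have h8 : B (fderiv ℝ (b i) x₀ (v - v')) (fderiv ℝ (b i) x₀ (v - v')) = 0 := by
            rw [hB]
            nth_rewrite 2 [h4]
            rw [hB, map_sub, map_smul, map_smul, LinearMap.sub_apply, LinearMap.smul_apply,
              LinearMap.smul_apply, u1, N1, smul_zero, smul_zero, sub_zero]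
          linarith
        rw [h5] at h4
        have h9 : t • n' = Y i x • n i := (sub_eq_zero.1 h4.symm)
        have h10 : t = Y i x := by
          have h11 := congrArg (fun z => B z (b i x₀ - b (i + 1) x₀)) h9
          simp only [map_smul, LinearMap.smul_apply, smul_eq_mul, N3 i (i + 1) (hne1 i),
            u2 (i + 1) (hne1 i), mul_one] at h11
          exact h11
        rw [h10] at h9
        have h12 : Y i x = 0 := by
          by_contra h13
          exact hcon (smul_right_injective V h13 h9)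
        rw [h12] at h3 h2
        have h14 : ‖φ x i‖ ^ 2 = 0 := by linarith
        have h15 : φ x i = 0 := norm_eq_zero.1 (pow_eq_zero_iff (two_ne_zero) |>.1 h14)
        rw [h15, map_zero] at hv
        rw [← hv, zero_smul, add_zero] at h2
        exact sub_eq_zero.1 h2
      have h16 : fderiv ℝ (b i) x₀ = 0 := by
        have h17 : b i =ᶠ[𝓝 x₀] fun _ => b i x₀ := hev
        rw [h17.fderiv_eq]
        simp
      exact h.ne i h16
    rw [hno]

end

end DupinClass
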