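import Pool.Agent.H31.Dupin.MF2_pf
import Pool.Agent.H31.Dupin.Equiv
import Pool.Agent.H31.Dupin.TripleB

open scoped RealInnerProductSpace ContDiff Topology
open Module Set

namespace DupinClass

section

variable {m m' : Fin 3 → ℕ} {μ μ' : Fin 3 → ℝ}

/-- the displacement of the `i`-th canonical map -/
noncomputable def vv (m : Fin 3 → ℕ) (μ : Fin 3 → ℝ) (i : Fin 3) (x : EuclideanSpace ℝ (Fin (m i))) :
    MV m := (Pi.single i x, 0) + yfun (μ i) (‖x‖ ^ 2) • mN m μ i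

theorem mb_eq_vv (i : Fin 3) (s : MX m) : mb m μ i s = mBase m i + vv m μ i (s i) := by
  unfold mb vv
  rw [add_assoc]

theorem yfun_zero (a : ℝ) : yfun a 0 = 0 := by simp [yfun]

theorem vv_zero (i : Fin 3) : vv m μ i 0 = 0 := by
  unfold vv
  rw [norm_zero]
  simp [yfun_zero]

theorem mN_fst (i : Fin 3) : (mN m μ i).1 = 0 := by
  fin_cases i <;> simp [mN]

theorem mBase_fst (i : Fin 3) : (mBase m i).1 = 0 := by
  fin_cases i <;> simp [mBase]

theorem vv_fst (i : Fin 3) (x : EuclideanSpace ℝ (Fin (m i))) :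
    (vv m μ i x).1 = Pi.single i x := by
  unfold vv
  simp [mN_fst]

theorem mForm_single_left (i : Fin 3) (x : EuclideanSpace ℝ (Fin (m i))) (v : MV m) :
    mForm m μ (Pi.single i x, 0) v = ⟪x, v.1 i⟫ := by
  have e : mForm m μ (Pi.single i x, 0) v = ∑ l, ⟪(Pi.single i x : MX m) l, v.1 l⟫
      + ((0 : ℝ) * v.2.1 + 0 * v.2.2.2.2) - (0 * v.2.2.1 + 0 * v.2.2.2.1)
      + μ 0 * 0 * v.2.2.2.1 + μ 1 * 0 * v.2.2.2.2 := rfl
  rw [e, Finset.sum_eq_single i]
  · simp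
  · intro l _ hl
    rw [Pi.single_eq_of_ne hl, inner_zero_left]
  · intro hi; exact absurd (Finset.mem_univ i) hi

theorem mForm_comm (v w : MV m) : mForm m μ v w = mForm m μ w v := mForm_isSymm.eq v w

theorem mForm_vv (hμ : μ 0 + μ 1 + μ 2 = 0) (i : Fin 3) (x : EuclideanSpace ℝ (Fin (m i)))
    (hx : μ i * ‖x‖ ^ 2 < 1) :
    mForm m μ (vv m μ i x) (vv m μ i x) = -2 * yfun (μ i) (‖x‖ ^ 2) := by
  have h1 := (yfun_spec hx).1
  have h2 : mForm m μ (Pi.single i x, 0) (Pi.single i x, 0) = ‖x‖ ^ 2 := by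
    rw [mForm_single_left]; simp
  have h3 : mForm m μ (Pi.single i x, 0) (mN m μ i) = 0 := by
    rw [mForm_single_left, mN_fst]; simp
  have h4 : mForm m μ (mN m μ i) (Pi.single i x, 0) = 0 := by
    rw [mForm_comm, h3]
  have h5 : mForm m μ (mN m μ i) (mN m μ i) = μ i := by
    rw [mN_mN hμ]; simp
  unfold vv
  simp only [map_add, map_smul, LinearMap.add_apply, LinearMap.smul_apply, smul_eq_mul, h2, h3, h4,
    h5]
  linarith

/-- The core computation for one component. -/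
theorem inv_core (hμ : μ 0 + μ 1 + μ 2 = 0) (hμ' : μ' 0 + μ' 1 + μ' 2 = 0) (A : MV m ≃ₗ[ℝ] MV m')
    {c : ℝ} (hA : ∀ v w, mForm m' μ' (A v) (A w) = c * mForm m μ v w) {e δ : ℝ}
    (he : e ≠ 0) (hδ : 0 < δ) (i j : Fin 3) (hmi : 1 ≤ m i)
    (H : ∀ x, ‖x‖ < δ → μ i * ‖x‖ ^ 2 < 1 ∧ ∃ r, μ' j * ‖r‖ ^ 2 < 1 ∧
      A (vv m μ i x) = e • vv m' μ' j r) :
    (∀ x, ∃ r, A (Pi.single i x, 0) = (Pi.single j r, 0)) ∧
      ∃ w, A (mN m μ i) = (Pi.single j w, 0) + (c / e) • mN m' μ' j := by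
  have hy : ∀ x r, μ i * ‖x‖ ^ 2 < 1 → μ' j * ‖r‖ ^ 2 < 1 → A (vv m μ i x) = e • vv m' μ' j r →
      yfun (μ' j) (‖r‖ ^ 2) = c / e ^ 2 * yfun (μ i) (‖x‖ ^ 2) := by
    intro x r hx hr h
    have h1 := hA (vv m μ i x) (vv m μ i x)
    rw [h, map_smul, map_smul, LinearMap.smul_apply, mForm_vv hμ' j r hr, mForm_vv hμ i x hx,
      smul_eq_mul, smul_eq_mul] at h1
    have he2 : e ^ 2 ≠ 0 := pow_ne_zero 2 he
    field_simp
    linarith
  -- a nonzero small vector
  obtain ⟨x₀, hx₀, hx₀δ⟩ : ∃ x₀ : EuclideanSpace ℝ (Fin (m i)), x₀ ≠ 0 ∧ ‖x₀‖ < δ := by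
    have : Nonempty (Fin (m i)) := ⟨⟨0, hmi⟩⟩
    obtain ⟨z, hz⟩ := exists_ne (0 : EuclideanSpace ℝ (Fin (m i)))
    have hz' : 0 < ‖z‖ := norm_pos_iff.2 hz
    refine ⟨(δ / 2 / ‖z‖) • z, smul_ne_zero (by positivity) hz, ?_⟩
    rw [norm_smul, Real.norm_of_nonneg (by positivity), div_mul_cancel₀ _ hz'.ne']
    linarith
  have hP2 : ∃ w, A (mN m μ i) = (Pi.single j w, 0) + (c / e) • mN m' μ' j := by
    obtain ⟨h1, r₁, hr₁, hA₁⟩ := H x₀ hx₀δ
    obtain ⟨h2, r₂, hr₂, hA₂⟩ := H (-x₀) (by rwa [norm_neg])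
    have hy₁ := hy _ _ h1 hr₁ hA₁
    have hy₂ := hy _ _ h2 hr₂ hA₂
    rw [norm_neg] at hy₂
    set y := yfun (μ i) (‖x₀‖ ^ 2) with hyd
    have hy0 : y ≠ 0 := by
      intro h0
      have h3 := (yfun_spec h1).1
      rw [← hyd, h0] at h3
      have h4 : ‖x₀‖ ^ 2 = 0 := by linarith
      exact hx₀ (norm_eq_zero.1 (pow_eq_zero_iff two_ne_zero |>.1 h4))
    have h5 : vv m μ i x₀ + vv m μ i (-x₀) = (2 * y) • mN m μ i := by
      unfold vv
      rw [norm_neg, ← hyd, Pi.single_neg, two_mul, add_smul]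
      have : ((Pi.single i x₀ : MX m), (0 : ℝ × ℝ × ℝ × ℝ)) + ((-Pi.single i x₀ : MX m), 0) = 0 := by
        rw [Prod.mk_add_mk, add_neg_cancel, add_zero]; rfl
      calc _ = (((Pi.single i x₀ : MX m), (0 : ℝ × ℝ × ℝ × ℝ)) + ((-Pi.single i x₀ : MX m), 0))
            + (y • mN m μ i + y • mN m μ i) := by abel
        _ = _ := by rw [this, zero_add]
    have h6 : (2 * y) • A (mN m μ i) = ((Pi.single j (e • (r₁ + r₂)) : MX m'), 0) +
        (2 * y * (c / e)) • mN m' μ' j := by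
      rw [← map_smul, ← h5, map_add, hA₁, hA₂, ← smul_add]
      unfold vv
      rw [hy₁, hy₂, Pi.single_smul, Pi.single_add]
      have e1 : ((e • (Pi.single j r₁ + Pi.single j r₂) : MX m'), (0 : ℝ × ℝ × ℝ × ℝ)) =
          e • (((Pi.single j r₁ : MX m'), (0 : ℝ × ℝ × ℝ × ℝ)) + ((Pi.single j r₂ : MX m'), 0)) := by
        rw [Prod.mk_add_mk, Prod.smul_mk, add_zero, smul_zero]
      rw [e1]
      have e2 : (2 * y * (c / e)) • mN m' μ' j =
          e • ((c / e ^ 2 * y) • mN m' μ' j + (c / e ^ 2 * y) • mN m' μ' j) := by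
        rw [← add_smul, smul_smul]
        congr 1
        field_simp
        ring
      rw [e2, ← smul_add]
      congr 1
      abel
    refine ⟨((2 * y)⁻¹ * e) • (r₁ + r₂), ?_⟩
    have h2y : 2 * y ≠ 0 := mul_ne_zero two_ne_zero hy0
    have h7 := congrArg (fun z => (2 * y)⁻¹ • z) h6
    simp only [smul_smul, inv_mul_cancel₀ h2y, one_smul, smul_add] at h7
    rw [h7]
    congr 1
    · rw [Prod.smul_mk, smul_zero, mul_smul, Pi.single_smul]
      simp [smul_add]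
    · congr 1
      field_simp
  refine ⟨?_, hP2⟩
  obtain ⟨w, hw⟩ := hP2
  have hsmall : ∀ x, ‖x‖ < δ → ∃ r, A (Pi.single i x, 0) = (Pi.single j r, 0) := by
    intro x hx
    obtain ⟨h1, r, hr, hAr⟩ := H x hx
    have hyr := hy _ _ h1 hr hAr
    set y := yfun (μ i) (‖x‖ ^ 2) with hyd
    refine ⟨e • r - y • w, ?_⟩
    have h2 : ((Pi.single i x : MX m), (0 : ℝ × ℝ × ℝ × ℝ)) = vv m μ i x - y • mN m μ i := by
      unfold vv
      rw [← hyd]; abel
    rw [h2, map_sub, map_smul, hAr, hw]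
    unfold vv
    rw [hyr, Pi.single_sub, Pi.single_smul, Pi.single_smul]
    have e1 : ((e • (Pi.single j r : MX m') - y • (Pi.single j w : MX m') : MX m'),
        (0 : ℝ × ℝ × ℝ × ℝ)) =
        e • ((Pi.single j r : MX m'), (0 : ℝ × ℝ × ℝ × ℝ)) - y • ((Pi.single j w : MX m'), 0) := by
      refine Prod.ext ?_ ?_ <;> simp
    rw [e1, smul_add, smul_add, smul_smul, smul_smul]
    have e2 : e * (c / e ^ 2 * y) = y * (c / e) := by field_simp
    rw [e2]
    abel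
  intro x
  have hx1 : 0 < ‖x‖ + 1 := by positivity
  obtain ⟨r, hr⟩ := hsmall ((δ / (‖x‖ + 1)) • x) (by
    rw [norm_smul, Real.norm_of_nonneg (by positivity), div_mul_eq_mul_div, div_lt_iff₀ hx1]
    nlinarith [norm_nonneg x])
  refine ⟨((‖x‖ + 1) / δ) • r, ?_⟩
  have e3 : ((Pi.single i x : MX m), (0 : ℝ × ℝ × ℝ × ℝ)) =
      ((‖x‖ + 1) / δ) • ((Pi.single i ((δ / (‖x‖ + 1)) • x) : MX m), (0 : ℝ × ℝ × ℝ × ℝ)) := by
    rw [Prod.smul_mk, smul_zero, ← Pi.single_smul, smul_smul]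
    have : (‖x‖ + 1) / δ * (δ / (‖x‖ + 1)) = 1 := by field_simp
    rw [this, one_smul]
  rw [e3, map_smul, hr, Prod.smul_mk, smul_zero, Pi.single_smul]

/-! ### the lines of curvature vectors -/

theorem perm_of_lines {V V' : Type} [AddCommGroup V] [Module ℝ V] [AddCommGroup V'] [Module ℝ V']
    {k : Fin 3 → V} {k' : Fin 3 → V'} (hs : k 0 + k 1 + k 2 = 0) (hs' : k' 0 + k' 1 + k' 2 = 0)
    (hl : LinearIndependent ℝ ![k 0, k 1]) (hl' : LinearIndependent ℝ ![k' 0, k' 1])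
    (A : V ≃ₗ[ℝ] V') (h : ∀ i, ∃ j, ∃ a : ℝ, A (k i) = a • k' j) :
    ∃ (π : Equiv.Perm (Fin 3)) (a : ℝ), a ≠ 0 ∧ ∀ i, A (k i) = a • k' (π i) := by
  have hk2 : k 2 = -k 0 - k 1 := by
    rw [eq_sub_iff_add_eq, eq_neg_iff_add_eq_zero, ← hs]; abel
  have hk2' : k' 2 = -k' 0 - k' 1 := by
    rw [eq_sub_iff_add_eq, eq_neg_iff_add_eq_zero, ← hs']; abel
  have hli := LinearIndependent.pair_iff.1 hl
  have hli' := LinearIndependent.pair_iff.1 hl'
  have hpair : ∀ i j, i ≠ j → ∀ x y : ℝ, x • k i + y • k j = 0 → x = 0 ∧ y = 0 := by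
    intro i j hij x y hxy
    fin_cases i <;> fin_cases j <;> simp only [Fin.zero_eta, Fin.mk_one, Fin.reduceFinMk, ne_eq,
      not_true_eq_false] at hij hxy
    · exact hli x y hxy
    · have := hli (x - y) (-y) (by rw [← hxy, hk2]; module)
      constructor <;> linarith [this.1, this.2]
    · have := hli y x (by rw [← hxy]; abel)
      exact ⟨this.2, this.1⟩
    · have := hli (-y) (x - y) (by rw [← hxy, hk2]; module)
      constructor <;> linarith [this.1, this.2]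
    · have := hli (y - x) (-x) (by rw [← hxy, hk2]; module)
      constructor <;> linarith [this.1, this.2]
    · have := hli (-x) (y - x) (by rw [← hxy, hk2]; module)
      constructor <;> linarith [this.1, this.2]
  choose p a hp using h
  have hne3 : ∀ i : Fin 3, i ≠ i + 1 := by decide
  have ha : ∀ i, a i ≠ 0 := by
    intro i h0
    have h1 : A (k i) = 0 := by rw [hp, h0, zero_smul]
    have h2 : k i = 0 := (LinearEquiv.map_eq_zero_iff A).1 h1
    have h3 := (hpair i (i + 1) (hne3 i) 1 0 (by rw [h2]; simp)).1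
    exact one_ne_zero h3
  have hinj : Function.Injective p := by
    intro i j hij
    by_contra hne
    have h1 : A (a j • k i + (-a i) • k j) = 0 := by
      rw [map_add, map_smul, map_smul, hp, hp, hij]
      module
    exact ha j (hpair i j hne _ _ ((LinearEquiv.map_eq_zero_iff A).1 h1)).1
  set π : Equiv.Perm (Fin 3) := Equiv.ofBijective p (Finite.injective_iff_bijective.1 hinj) with hπ
  have hπp : ∀ i, π i = p i := fun i => rfl
  have hsum : ∑ j, a (π.symm j) • k' j = 0 := by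
    rw [← Equiv.sum_comp π]
    simp only [Equiv.symm_apply_apply]
    have : ∀ i, a i • k' (π i) = A (k i) := fun i => by rw [hp, hπp]
    simp only [this]
    rw [← map_sum, Fin.sum_univ_three, hs, map_zero]
  rw [Fin.sum_univ_three, hk2'] at hsum
  have h1 := hli' (a (π.symm 0) - a (π.symm 2)) (a (π.symm 1) - a (π.symm 2)) (by
    rw [← hsum]; module)
  have hall : ∀ j, a (π.symm j) = a (π.symm 0) := by
    intro j
    fin_cases j
    · rfl
    · show a (π.symm 1) = _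
      linarith [h1.1, h1.2]
    · show a (π.symm 2) = _
      linarith [h1.1, h1.2]
  refine ⟨π, a (π.symm 0), ha _, fun i => ?_⟩
  rw [hp, hπp]
  congr 1
  have := hall (π i)
  rwa [π.symm_apply_apply] at this

/-- the curvature vectors -/
noncomputable def kv (m : Fin 3 → ℕ) (μ : Fin 3 → ℝ) (s : MX m) (i : Fin 3) : MV m :=
  mb m μ (i + 1) s - mb m μ (i + 2) s

theorem kv_sum (s : MX m) : kv m μ s 0 + kv m μ s 1 + kv m μ s 2 = 0 := by
  show (mb m μ 1 s - mb m μ 2 s) + (mb m μ 2 s - mb m μ 0 s) + (mb m μ 0 s - mb m μ 1 s) = 0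
  abel

theorem kv_li (hμ : μ 0 + μ 1 + μ 2 = 0) {s : MX m} (hs : s ∈ mU m μ) :
    LinearIndependent ℝ ![kv m μ s 0, kv m μ s 1] := mb_li hs hμ

theorem kv_ne (hμ : μ 0 + μ 1 + μ 2 = 0) {s : MX m} (hs : s ∈ mU m μ) (i : Fin 3) :
    kv m μ s i ≠ 0 := by
  have h1 := LinearIndependent.pair_iff.1 (kv_li hμ hs)
  have h2 := kv_sum (μ := μ) s
  intro h0
  fin_cases i
  · have := (h1 1 0 (by simpa using h0)).1
    exact one_ne_zero this
  · have := (h1 0 1 (by simpa using h0)).2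
    exact one_ne_zero this
  · have h0' : kv m μ s 2 = 0 := h0
    rw [h0', add_zero] at h2
    have := (h1 1 1 (by simpa using h2)).1
    exact one_ne_zero this

theorem exists_perm_at (hm : ∀ i, 1 ≤ m i) (hm' : ∀ i, 1 ≤ m' i) (hμ : μ 0 + μ 1 + μ 2 = 0)
    (hμ' : μ' 0 + μ' 1 + μ' 2 = 0) (A : MV m ≃ₗ[ℝ] MV m') {φ : MX m → MX m'} {ψ : MX m' → MX m}
    {N : Set (MX m)} {N' : Set (MX m')} (hd : Diffeo φ ψ N N') (hN : N ⊆ mU m μ)
    (hN' : N' ⊆ mU m' μ') (hL : ∀ y ∈ N, (mFam m μ y).map A.toLinearMap = mFam m' μ' (φ y))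
    {s : MX m} (hs : s ∈ N) :
    ∃ (π : Equiv.Perm (Fin 3)) (a : ℝ), a ≠ 0 ∧
      ∀ i, A (kv m μ s i) = a • kv m' μ' (φ s) (π i) := by
  refine perm_of_lines (kv_sum s) (kv_sum (φ s)) (kv_li hμ (hN hs))
    (kv_li hμ' (hN' (hd.maps_left s hs))) A fun i => ?_
  have h1 : CurvVec (mFam m μ) s (kv m μ s i) :=
    (curvVec_mFam_iff hμ hm (hN hs) _).2 ⟨kv_ne hμ (hN hs) i, i, 1, by rw [one_smul]; rfl⟩
  have h2 := h1.map A hd hs hL
  obtain ⟨_, j, a, h3⟩ := (curvVec_mFam_iff hμ' hm' (hN' (hd.maps_left s hs)) _).1 h2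
  exact ⟨j, a, h3⟩

theorem continuousAt_kv {s : MX m} (hs : s ∈ mU m μ) (i : Fin 3) :
    ContinuousAt (fun s => kv m μ s i) s := by
  have h1 : ∀ l, ContinuousAt (mb m μ l) s := fun l =>
    ((smooth_mb (m := m) (μ := μ) l).continuousOn).continuousAt (isOpen_mU.mem_nhds hs)
  exact (h1 _).sub (h1 _)

/-- the permutation is locally constant -/
theorem exists_perm_near (hm : ∀ i, 1 ≤ m i) (hm' : ∀ i, 1 ≤ m' i) (hμ : μ 0 + μ 1 + μ 2 = 0)
    (hμ' : μ' 0 + μ' 1 + μ' 2 = 0) (A : MV m ≃ₗ[ℝ] MV m') {φ : MX m → MX m'} {ψ : MX m' → MX m}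
    {N : Set (MX m)} {N' : Set (MX m')} (hd : Diffeo φ ψ N N') (hN : N ⊆ mU m μ)
    (hN' : N' ⊆ mU m' μ') (hL : ∀ y ∈ N, (mFam m μ y).map A.toLinearMap = mFam m' μ' (φ y))
    {s₀ : MX m} (hs : s₀ ∈ N) :
    ∃ (π : Equiv.Perm (Fin 3)), ∀ᶠ s in 𝓝 s₀, s ∈ N ∧ ∃ a : ℝ, a ≠ 0 ∧
      ∀ i, A (kv m μ s i) = a • kv m' μ' (φ s) (π i) := by
  obtain ⟨π, a, ha, hπ⟩ := exists_perm_at hm hm' hμ hμ' A hd hN hN' hL hs
  refine ⟨π, ?_⟩
  have hφc : ContinuousAt φ s₀ :=
    (hd.smooth_left.continuousOn).continuousAt (hd.isOpen_left.mem_nhds hs)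
  have hAc : Continuous A := A.toLinearMap.continuous_of_finiteDimensional
  have hopen : ∀ i j, j ≠ π i → ∀ᶠ s in 𝓝 s₀,
      LinearIndependent ℝ ![A (kv m μ s i), kv m' μ' (φ s) j] := by
    intro i j hij
    have hc : ContinuousAt (fun s => (![A (kv m μ s i), kv m' μ' (φ s) j] : Fin 2 → MV m')) s₀ := by
      refine continuousAt_pi.2 fun l => ?_
      fin_cases l
      · exact hAc.continuousAt.comp (continuousAt_kv (hN hs) i)
      · exact (continuousAt_kv (hN' (hd.maps_left s₀ hs)) j).comp hφc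
    have h0 : LinearIndependent ℝ ![A (kv m μ s₀ i), kv m' μ' (φ s₀) j] := by
      rw [hπ i, LinearIndependent.pair_iff]
      intro x y hxy
      have hs' := hN' (hd.maps_left s₀ hs)
      have hk := LinearIndependent.pair_iff.1 (kv_li hμ' hs')
      have hk2 : kv m' μ' (φ s₀) 2 = -kv m' μ' (φ s₀) 0 - kv m' μ' (φ s₀) 1 := by
        rw [eq_sub_iff_add_eq, eq_neg_iff_add_eq_zero, ← kv_sum (μ := μ') (φ s₀)]; abel
      rw [smul_smul] at hxy
      generalize π i = l at hxy hij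
      have h5 : x * a = 0 ∧ y = 0 := by
        fin_cases l <;> fin_cases j <;> simp only [Fin.zero_eta, Fin.mk_one, Fin.reduceFinMk, ne_eq,
          not_true_eq_false] at hij hxy
        · exact hk _ _ hxy
        · have := hk (x * a - y) (-y) (by rw [← hxy, hk2]; module)
          constructor <;> linarith [this.1, this.2]
        · have := hk y (x * a) (by rw [← hxy]; abel)
          exact ⟨this.2, this.1⟩
        · have := hk (-y) (x * a - y) (by rw [← hxy, hk2]; module)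
          constructor <;> linarith [this.1, this.2]
        · have := hk (y - x * a) (-(x * a)) (by rw [← hxy, hk2]; module)
          constructor <;> linarith [this.1, this.2]
        · have := hk (-(x * a)) (y - x * a) (by rw [← hxy, hk2]; module)
          constructor <;> linarith [this.1, this.2]
      exact ⟨(mul_eq_zero.1 h5.1).resolve_right ha, h5.2⟩
    exact hc.eventually (isOpen_setOfPred_linearIndependent.mem_nhds h0)
  have hall : ∀ᶠ s in 𝓝 s₀, ∀ i j, j ≠ π i →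
      LinearIndependent ℝ ![A (kv m μ s i), kv m' μ' (φ s) j] := by
    rw [Filter.eventually_all]
    intro i
    rw [Filter.eventually_all]
    intro j
    by_cases hij : j = π i
    · exact Filter.Eventually.of_forall fun s h => absurd hij h
    · filter_upwards [hopen i j hij] with s hs _ using hs
  filter_upwards [hall, hd.isOpen_left.mem_nhds hs] with s h1 h2
  refine ⟨h2, ?_⟩
  obtain ⟨π', a', ha', hπ'⟩ := exists_perm_at hm hm' hμ hμ' A hd hN hN' hL h2
  refine ⟨a', ha', fun i => ?_⟩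
  rw [hπ' i]
  by_cases h3 : π' i = π i
  · rw [h3]
  · exfalso
    have h4 := LinearIndependent.pair_iff.1 (h1 i (π' i) h3) 1 (-a') (by
      rw [hπ' i]; module)
    exact one_ne_zero h4.1

theorem kv_congr {s t : MX m} (i : Fin 3) (h1 : s (i + 1) = t (i + 1)) (h2 : s (i + 2) = t (i + 2)) :
    kv m μ s i = kv m μ t i := by
  unfold kv
  rw [mb_eq_vv, mb_eq_vv, mb_eq_vv, mb_eq_vv, h1, h2]

theorem kv_two (s : MX m) (i : Fin 3) : kv m μ s (i + 2) = mb m μ i s - mb m μ (i + 1) s := by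
  have e1 : ∀ i : Fin 3, i + 2 + 1 = i := by decide
  have e2 : ∀ i : Fin 3, i + 2 + 2 = i + 1 := by decide
  unfold kv
  rw [e1, e2]

theorem kv_one (s : MX m) (i : Fin 3) : kv m μ s (i + 1) = mb m μ (i + 2) s - mb m μ i s := by
  have e1 : ∀ i : Fin 3, i + 1 + 1 = i + 2 := by decide
  have e2 : ∀ i : Fin 3, i + 1 + 2 = i := by decide
  unfold kv
  rw [e1, e2]

theorem kv_fst (s : MX m) (i : Fin 3) :
    (kv m μ s i).1 = Pi.single (i + 1) (s (i + 1)) - Pi.single (i + 2) (s (i + 2)) := by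
  unfold kv
  rw [mb_eq_vv, mb_eq_vv, Prod.fst_sub, Prod.fst_add, Prod.fst_add, mBase_fst, mBase_fst, vv_fst,
    vv_fst, zero_add, zero_add]

/-- The displacement vectors correspond. -/
theorem inv_disp (hμ' : μ' 0 + μ' 1 + μ' 2 = 0) (A : MV m ≃ₗ[ℝ] MV m') {φ : MX m → MX m'}
    {a a' : ℝ} (ha' : a' ≠ 0) (π : Equiv.Perm (Fin 3))
    (h0 : ∀ i, A (kv m μ 0 i) = a • kv m' μ' 0 (π i)) (i : Fin 3)
    (x : EuclideanSpace ℝ (Fin (m i)))
    (hs : ∀ l, A (kv m μ (Pi.single i x) l) = a' • kv m' μ' (φ (Pi.single i x)) (π l)) :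
    A (vv m μ i x) = (if π (i + 2) = π i + 2 then a else -a) •
      vv m' μ' (π i) (φ (Pi.single i x) (π i)) := by
  have n1 : ∀ i : Fin 3, i + 1 ≠ i := by decide
  have n2 : ∀ i : Fin 3, i + 2 ≠ i := by decide
  have n3 : ∀ i : Fin 3, i + 1 ≠ i + 2 := by decide
  have n4 : ∀ j k : Fin 3, k ≠ j → k = j + 1 ∨ k = j + 2 := by decide
  set s : MX m := Pi.single i x with hsd
  set t := φ s with ht
  set j := π i with hj
  have hsi : s i = x := by rw [hsd, Pi.single_eq_same]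
  have hs1 : s (i + 1) = 0 := by rw [hsd, Pi.single_eq_of_ne (n1 i)]
  have hs2 : s (i + 2) = 0 := by rw [hsd, Pi.single_eq_of_ne (n2 i)]
  have h1 : kv m μ s i = kv m μ 0 i := kv_congr i (by rw [hs1]; rfl) (by rw [hs2]; rfl)
  have h2 : a' • kv m' μ' t j = a • kv m' μ' 0 j := by
    rw [← hs i, h1, h0]
  have h3 : a' • ((Pi.single (j + 1) (t (j + 1)) : MX m') - Pi.single (j + 2) (t (j + 2))) = 0 := by
    have := congrArg Prod.fst h2
    rw [Prod.smul_fst, Prod.smul_fst, kv_fst, kv_fst] at this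
    rw [this]
    simp
  have h4 := (smul_eq_zero.1 h3).resolve_left ha'
  have ht1 : t (j + 1) = 0 := by
    have := congrFun h4 (j + 1)
    rw [Pi.sub_apply, Pi.single_eq_same, Pi.single_eq_of_ne (n3 j), sub_zero] at this
    exact this
  have ht2 : t (j + 2) = 0 := by
    have := congrFun h4 (j + 2)
    rw [Pi.sub_apply, Pi.single_eq_same, Pi.single_eq_of_ne (n3 j).symm, zero_sub] at this
    exact neg_eq_zero.1 this
  have h5 : kv m' μ' t j = kv m' μ' 0 j := kv_congr j (by rw [ht1]; rfl) (by rw [ht2]; rfl)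
  have h6 : a' = a := by
    rw [h5] at h2
    exact smul_left_injective ℝ (kv_ne hμ' (zero_mem_mU m' μ') j) h2
  have h7 : kv m μ s (i + 2) - kv m μ 0 (i + 2) = vv m μ i x := by
    rw [kv_two, kv_two, mb_eq_vv, mb_eq_vv, mb_eq_vv, mb_eq_vv, hsi, hs1]
    simp only [Pi.zero_apply, vv_zero]
    abel
  have h8 : A (vv m μ i x) = a • (kv m' μ' t (π (i + 2)) - kv m' μ' 0 (π (i + 2))) := by
    rw [← h7, map_sub, hs, h0, h6, smul_sub]
  rw [h8]
  split_ifs with hif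
  · rw [hif, kv_two, kv_two, mb_eq_vv, mb_eq_vv, mb_eq_vv, mb_eq_vv, ht1]
    simp only [Pi.zero_apply, vv_zero]
    congr 1
    abel
  · have h9 : π (i + 2) = j + 1 :=
      (n4 j (π (i + 2)) (fun h => n2 i (π.injective h))).resolve_right hif
    rw [h9, kv_one, kv_one, mb_eq_vv, mb_eq_vv, mb_eq_vv, mb_eq_vv, ht2]
    simp only [Pi.zero_apply, vv_zero]
    module

/-- **Module INV.** -/
theorem canonical_inv (hm : ∀ i, 1 ≤ m i) (hm' : ∀ i, 1 ≤ m' i) (hμ : μ 0 + μ 1 + μ 2 = 0)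
    (hμ' : μ' 0 + μ' 1 + μ' 2 = 0)
    (h : ConfEqAt (mForm m μ) (mFam m μ) (mU m μ) 0 (mForm m' μ') (mFam m' μ') (mU m' μ') 0) :
    ∃ (π : Equiv.Perm (Fin 3)) (c : ℝ), 0 < c ∧ ∀ i, m' (π i) = m i ∧ μ' (π i) = c * μ i := by
  obtain ⟨A, ⟨c, hc, hA⟩, φ, ψ, N, N', hd, h0N, hN, hN', hφ0, hL⟩ := h
  obtain ⟨π, hπ⟩ := exists_perm_near hm hm' hμ hμ' A hd hN hN' hL h0N
  obtain ⟨δ, hδ, hball⟩ := Metric.eventually_nhds_iff_ball.1 hπ
  obtain ⟨_, a, ha, ha0⟩ := hball 0 (Metric.mem_ball_self hδ)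
  rw [hφ0] at ha0
  set e : Fin 3 → ℝ := fun i => if π (i + 2) = π i + 2 then a else -a with hed
  have he2 : ∀ i, e i ^ 2 = a ^ 2 := by
    intro i
    show (if π (i + 2) = π i + 2 then a else -a) ^ 2 = a ^ 2
    split_ifs
    · rfl
    · rw [neg_sq]
  have he0 : ∀ i, e i ≠ 0 := by
    intro i h0
    have := he2 i
    rw [h0] at this
    exact pow_ne_zero 2 ha (by rw [← this]; ring)
  have hH : ∀ i, ∀ x : EuclideanSpace ℝ (Fin (m i)), ‖x‖ < δ → μ i * ‖x‖ ^ 2 < 1 ∧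
      ∃ r, μ' (π i) * ‖r‖ ^ 2 < 1 ∧ A (vv m μ i x) = e i • vv m' μ' (π i) r := by
    intro i x hx
    have hsb : (Pi.single i x : MX m) ∈ Metric.ball (0 : MX m) δ := by
      rw [mem_ball_zero_iff, pi_norm_lt_iff hδ]
      intro l
      by_cases hl : l = i
      · subst hl
        rw [Pi.single_eq_same]; exact hx
      · rw [Pi.single_eq_of_ne hl, norm_zero]; exact hδ
    obtain ⟨hsN, a', ha', hs'⟩ := hball _ hsb
    refine ⟨?_, φ (Pi.single i x) (π i), hN' (hd.maps_left _ hsN) (π i), ?_⟩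
    · have := hN hsN i
      rwa [Pi.single_eq_same] at this
    · exact inv_disp hμ' A ha' π ha0 i x hs'
  have hcore := fun i => inv_core hμ hμ' A hA (he0 i) hδ i (π i) (hm i) (hH i)
  -- the linear maps
  set T : ∀ i, EuclideanSpace ℝ (Fin (m i)) →ₗ[ℝ] EuclideanSpace ℝ (Fin (m' (π i))) := fun i =>
    (LinearMap.proj (π i)) ∘ₗ (LinearMap.fst ℝ (MX m') (ℝ × ℝ × ℝ × ℝ)) ∘ₗ A.toLinearMap ∘ₗ
      (LinearMap.inl ℝ (MX m) (ℝ × ℝ × ℝ × ℝ)) ∘ₗ
      (LinearMap.single ℝ (fun i => EuclideanSpace ℝ (Fin (m i))) i) with hT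
  have hTa : ∀ i x, T i x = (A (Pi.single i x, 0)).1 (π i) := fun i x => rfl
  have hAT : ∀ i x, A (Pi.single i x, 0) = (Pi.single (π i) (T i x), 0) := by
    intro i x
    obtain ⟨r, hr⟩ := (hcore i).1 x
    rw [hTa, hr]
    simp
  have hTinj : ∀ i, Function.Injective (T i) := by
    intro i
    rw [← LinearMap.ker_eq_bot, LinearMap.ker_eq_bot']
    intro x hx
    have h1 := hAT i x
    rw [hx, Pi.single_zero] at h1
    have h2 : ((Pi.single i x : MX m), (0 : ℝ × ℝ × ℝ × ℝ)) = 0 :=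
      (LinearEquiv.map_eq_zero_iff A).1 h1
    have h3 := congrFun (congrArg Prod.fst h2) i
    simpa using h3
  have hle : ∀ i, m i ≤ m' (π i) := by
    intro i
    have := LinearMap.finrank_le_finrank_of_injective (hTinj i)
    simpa using this
  have hsum : ∑ i, m i = ∑ i, m' (π i) := by
    rw [Equiv.sum_comp π m', Fin.sum_univ_three, Fin.sum_univ_three]
    have h1 := A.finrank_eq
    rw [finrank_MV, finrank_MV, finrank_MX, finrank_MX] at h1
    omega
  have heq : ∀ i, m i = m' (π i) := by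
    have := (Finset.sum_eq_sum_iff_of_le (fun i _ => hle i)).1 hsum
    exact fun i => this i (Finset.mem_univ i)
  have hTsurj : ∀ i, Function.Surjective (T i) := by
    intro i
    have h1 : finrank ℝ (EuclideanSpace ℝ (Fin (m i))) =
        finrank ℝ (EuclideanSpace ℝ (Fin (m' (π i)))) := by
      simp [heq i]
    exact (LinearMap.injective_iff_surjective_of_finrank_eq_finrank h1).1 (hTinj i)
  refine ⟨π, a ^ 2 / c, by positivity, fun i => ⟨(heq i).symm, ?_⟩⟩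
  obtain ⟨w, hw⟩ := (hcore i).2
  have hw0 : w = 0 := by
    obtain ⟨x, hx⟩ := hTsurj i w
    have h1 := hA (mN m μ i) (Pi.single i x, 0)
    rw [hAT, hx, hw, mForm_comm, mForm_single_left, mForm_comm, mForm_single_left, mN_fst] at h1
    simp only [Pi.zero_apply, inner_zero_right, mul_zero, Prod.fst_add, Prod.smul_fst, mN_fst,
      smul_zero, add_zero, Pi.single_eq_same] at h1
    exact inner_self_eq_zero.1 h1
  have h1 := hA (mN m μ i) (mN m μ i)
  rw [hw, hw0, Pi.single_zero] at h1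
  have e1 : (((0 : MX m'), (0 : ℝ × ℝ × ℝ × ℝ)) : MV m') = 0 := rfl
  rw [e1, zero_add, map_smul, map_smul, LinearMap.smul_apply, mN_mN hμ', mN_mN hμ, if_pos rfl,
    if_pos rfl, smul_eq_mul, smul_eq_mul] at h1
  rw [← he2 i]
  have h2 := he0 i
  have hc' := hc.ne'
  field_simp at h1 ⊢
  linarith

end

end DupinClass
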