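import Pool.Agent.H31.Dupin.Model

open scoped RealInnerProductSpace ContDiff Topology
open Module Set

namespace DupinClass

section

variable {m : Fin 3 → ℕ} {μ : Fin 3 → ℝ}

theorem mForm_apply (v w : MV m) : mForm m μ v w = ∑ i, ⟪v.1 i, w.1 i⟫
      + (v.2.2.2.2 * w.2.1 + v.2.1 * w.2.2.2.2) - (v.2.2.2.1 * w.2.2.1 + v.2.2.1 * w.2.2.2.1)
      + μ 0 * v.2.2.2.1 * w.2.2.2.1 + μ 1 * v.2.2.2.2 * w.2.2.2.2 := rfl

theorem mForm_isSymm' : (mForm m μ).IsSymm := by
  constructor
  intro v w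
  simp only [mForm_apply]
  have h : ∑ i, ⟪v.1 i, w.1 i⟫ = ∑ i, ⟪w.1 i, v.1 i⟫ :=
    Finset.sum_congr rfl fun i _ => real_inner_comm _ _
  rw [h]
  ring

theorem mForm_nondegenerate' : (mForm m μ).Nondegenerate := by
  have key : ∀ v : MV m, (∀ w, mForm m μ v w = 0) → v = 0 := by
    intro v hv
    have h1 : ∀ i, v.1 i = 0 := by
      intro i
      have := hv (Pi.single i (v.1 i), 0)
      rw [mForm_apply] at this
      simp only [Prod.fst_zero, Prod.snd_zero, mul_zero, add_zero, sub_zero] at this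
      rw [Finset.sum_eq_single i] at this
      · simpa using this
      · intro j _ hj
        simp [Pi.single_eq_of_ne hj]
      · simp
    have h2 := hv (0, 0, 0, 0, 1)
    have h3 := hv (0, 0, 0, 1, 0)
    have h4 := hv (0, 0, 1, 0, 0)
    have h5 := hv (0, 1, 0, 0, 0)
    simp only [mForm_apply, Pi.zero_apply, inner_zero_right, Finset.sum_const_zero, mul_zero,
      mul_one, add_zero, zero_add, sub_zero, zero_sub, neg_eq_zero] at h2 h3 h4 h5
    obtain ⟨x, a, b, c, d⟩ := v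
    simp only at h1 h2 h3 h4 h5
    subst h4 h5
    have hx : x = 0 := funext h1
    subst hx
    simp only [mul_zero, add_zero, neg_eq_zero] at h2 h3
    subst h2 h3
    rfl
  refine ⟨key, fun v hv => key v fun w => ?_⟩
  rw [mForm_isSymm'.eq]
  exact hv w

theorem finrank_MX' : finrank ℝ (MX m) = m 0 + m 1 + m 2 := by
  rw [Module.finrank_pi_fintype, Fin.sum_univ_three]
  simp

theorem finrank_MV' : finrank ℝ (MV m) = finrank ℝ (MX m) + 4 := by
  simp [Module.finrank_prod]

theorem isOpen_mU' : IsOpen (mU m μ) := by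
  have : mU m μ = ⋂ i, {s : MX m | μ i * ‖s i‖ ^ 2 < 1} := by
    ext s; simp [mU]
  rw [this]
  refine isOpen_iInter_of_finite fun i => ?_
  exact isOpen_lt (by fun_prop) continuous_const

/-- `y = yfun μ t` satisfies `μ y² + 2 y + t = 0` and `1 + μ y = √(1 - μ t) > 0`. -/
theorem yfun_spec' {μ t : ℝ} (h : μ * t < 1) :
    μ * yfun μ t ^ 2 + 2 * yfun μ t + t = 0 ∧ 1 + μ * yfun μ t = √(1 - μ * t) ∧
      0 < 1 + μ * yfun μ t := by
  have hw : 0 < √(1 - μ * t) := Real.sqrt_pos.2 (by linarith)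
  have hw2 : √(1 - μ * t) ^ 2 = 1 - μ * t := Real.sq_sqrt (by linarith)
  unfold yfun
  set w := √(1 - μ * t) with hwdef
  have h1 : 1 + w ≠ 0 := by positivity
  have h2 : 1 + μ * (-t / (1 + w)) = w := by
    field_simp
    nlinarith
  refine ⟨?_, h2, by rw [h2]; exact hw⟩
  field_simp
  linear_combination t * hw2

theorem mN_mN' (hμ : μ 0 + μ 1 + μ 2 = 0) (i j : Fin 3) :
    mForm m μ (mN m μ i) (mN m μ j) = if i = j then μ i else 0 := by
  have h2 : μ 2 = -μ 0 - μ 1 := by linarith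
  fin_cases i <;> fin_cases j <;>
    (simp [mForm_apply, mN, h2]; try ring)

theorem mN_mBase' (i j : Fin 3) (h : j ≠ i) :
    mForm m μ (mN m μ i) (mBase m i - mBase m j) = 1 := by
  fin_cases i <;> fin_cases j <;>
    first
      | exact absurd rfl h
      | simp [mForm_apply, mN, mBase]

theorem mBase_null (i j : Fin 3) :
    mForm m μ (mBase m i - mBase m j) (mBase m i - mBase m j) = 0 := by
  fin_cases i <;> fin_cases j <;>
    simp [mForm_apply, mBase]

theorem mForm_zero_right (x y : MX m) (z : ℝ × ℝ × ℝ × ℝ) :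
    mForm m μ (x, 0) (y, z) = ∑ i, ⟪x i, y i⟫ := by
  simp [mForm_apply]

theorem mForm_single_mN (x : MX m) (i : Fin 3) :
    mForm m μ (x, 0) (mN m μ i) = 0 := by
  fin_cases i <;> simp [mForm_apply, mN]

theorem mForm_single_mBase (x : MX m) (i : Fin 3) :
    mForm m μ (x, 0) (mBase m i) = 0 := by
  fin_cases i <;> simp [mForm_apply, mBase]

theorem mForm_single_single (i : Fin 3) (a b : EuclideanSpace ℝ (Fin (m i))) :
    mForm m μ (Pi.single i a, 0) (Pi.single i b, 0) = ⟪a, b⟫ := by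
  rw [mForm_zero_right, Finset.sum_eq_single i]
  · simp
  · intro j _ hj
    simp [Pi.single_eq_of_ne hj]
  · simp

theorem mForm_single_single_ne {i j : Fin 3} (hij : i ≠ j) (a : EuclideanSpace ℝ (Fin (m i)))
    (b : EuclideanSpace ℝ (Fin (m j))) :
    mForm m μ (Pi.single i a, 0) (Pi.single j b, 0) = 0 := by
  rw [mForm_zero_right]
  refine Finset.sum_eq_zero fun l _ => ?_
  by_cases h : l = i
  · subst h
    rw [Pi.single_eq_of_ne hij, inner_zero_right]
  · rw [Pi.single_eq_of_ne h, inner_zero_left]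

theorem mb_null' (hμ : μ 0 + μ 1 + μ 2 = 0) {i j : Fin 3} (hij : i ≠ j) {s t : MX m}
    (hs : s ∈ mU m μ) (ht : t ∈ mU m μ) :
    mForm m μ (mb m μ i s - mb m μ j t) (mb m μ i s - mb m μ j t) = 0 := by
  set B := mForm m μ with hB
  have hsym : ∀ v w, B v w = B w v := mForm_isSymm'.eq
  set c := mBase m i - mBase m j with hc
  set p : MV m := (Pi.single i (s i), 0) with hp
  set q : MV m := (Pi.single j (t j), 0) with hq
  set y := yfun (μ i) (‖s i‖ ^ 2) with hy
  set z := yfun (μ j) (‖t j‖ ^ 2) with hz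
  have e : mb m μ i s - mb m μ j t = c + p + y • mN m μ i - q - z • mN m μ j := by
    simp only [mb, hc, hp, hq, hy, hz]; abel
  have h1 : B c c = 0 := mBase_null i j
  have h2 : B p c = 0 := by rw [hc, map_sub, mForm_single_mBase, mForm_single_mBase, sub_zero]
  have h3 : B q c = 0 := by rw [hc, map_sub, mForm_single_mBase, mForm_single_mBase, sub_zero]
  have h4 : B (mN m μ i) c = 1 := mN_mBase' i j hij.symm
  have h5 : B (mN m μ j) c = -1 := by
    have := mN_mBase' (m := m) (μ := μ) j i hij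
    rw [← neg_sub, map_neg] at this
    rw [hB, hc]; linarith
  have h6 : B p p = ‖s i‖ ^ 2 := by
    rw [hB, hp, mForm_single_single, real_inner_self_eq_norm_sq]
  have h7 : B q q = ‖t j‖ ^ 2 := by
    rw [hB, hq, mForm_single_single, real_inner_self_eq_norm_sq]
  have h8 : B p q = 0 := mForm_single_single_ne hij _ _
  have h9 : ∀ l, B p (mN m μ l) = 0 := fun l => mForm_single_mN _ l
  have h10 : ∀ l, B q (mN m μ l) = 0 := fun l => mForm_single_mN _ l
  have h11 : B (mN m μ i) (mN m μ i) = μ i := by rw [hB, mN_mN' hμ, if_pos rfl]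
  have h12 : B (mN m μ j) (mN m μ j) = μ j := by rw [hB, mN_mN' hμ, if_pos rfl]
  have h13 : B (mN m μ i) (mN m μ j) = 0 := by rw [hB, mN_mN' hμ, if_neg hij]
  have hy' := (yfun_spec' (hs i)).1
  have hz' := (yfun_spec' (ht j)).1
  rw [← hy] at hy'
  rw [← hz] at hz'
  rw [e]
  simp only [map_add, map_sub, map_smul, LinearMap.add_apply, LinearMap.sub_apply,
    LinearMap.smul_apply, smul_eq_mul]
  rw [hsym c p, hsym c q, hsym c (mN m μ i), hsym c (mN m μ j), hsym q p, hsym (mN m μ i) p,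
    hsym (mN m μ i) q, hsym (mN m μ j) p, hsym (mN m μ j) q, hsym (mN m μ j) (mN m μ i)]
  rw [h1, h2, h3, h4, h5, h6, h7, h8, h9, h9, h10, h10, h11, h12, h13]
  linear_combination hy' + hz'

theorem hasDerivAt_yfun {μ t : ℝ} (h : μ * t < 1) :
    HasDerivAt (yfun μ) (-1 / (2 * √(1 - μ * t))) t := by
  have hw : 0 < √(1 - μ * t) := Real.sqrt_pos.2 (by linarith)
  have hw2 : √(1 - μ * t) ^ 2 = 1 - μ * t := Real.sq_sqrt (by linarith)
  have h1 : HasDerivAt (fun t => 1 - μ * t) (-μ) t := by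
    simpa using ((hasDerivAt_id t).const_mul μ).const_sub 1
  have h2 := h1.sqrt (by linarith : (1 - μ * t) ≠ 0)
  have h3 : HasDerivAt (fun t => -t) (-1) t := (hasDerivAt_id t).neg
  have h4 := h3.div (h2.const_add 1) (by positivity)
  have h5 : (1 : ℝ) + √(1 - μ * t) ≠ 0 := by positivity
  set w := √(1 - μ * t) with hwdef
  have h6 : w ≠ 0 := hw.ne'
  have e : (-1 * (1 + w) - -t * (-μ / (2 * w))) / (1 + w) ^ 2 = -1 / (2 * w) := by
    rw [div_eq_div_iff (by positivity) (by positivity)]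
    field_simp
    linear_combination (-1) * hw2
  rw [e] at h4
  exact h4

theorem hasFDerivAt_mb {i : Fin 3} {s : MX m} (hs : s ∈ mU m μ) :
    ∃ D : MX m →L[ℝ] MV m, HasFDerivAt (mb m μ i) D s ∧
      ∀ v, D v = (Pi.single i (v i), 0) + (-⟪s i, v i⟫ / √(1 - μ i * ‖s i‖ ^ 2)) • mN m μ i := by
  have h1 := hasDerivAt_yfun (hs i)
  have h2 := hasFDerivAt_apply (𝕜 := ℝ) (F' := fun j => EuclideanSpace ℝ (Fin (m j))) i s
  have h3 := h2.norm_sq
  have h4 := h1.comp_hasFDerivAt s h3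
  let L : MX m →L[ℝ] MV m := (ContinuousLinearMap.inl ℝ (MX m) (ℝ × ℝ × ℝ × ℝ)).comp
        ((ContinuousLinearMap.single ℝ (fun j => EuclideanSpace ℝ (Fin (m j))) i).comp
          (ContinuousLinearMap.proj (R := ℝ) (φ := fun j => EuclideanSpace ℝ (Fin (m j))) i))
  have hL : ∀ v, L v = (Pi.single i (v i), 0) := fun v => rfl
  have h5 : HasFDerivAt (fun s : MX m => (((Pi.single i (s i) : MX m), (0 : ℝ × ℝ × ℝ × ℝ)) : MV m))
      L s := by
    have := L.hasFDerivAt (x := s)
    exact this.congr_of_eventuallyEq (Filter.Eventually.of_forall fun v => (hL v).symm)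
  have h6 := ((h5.const_add (mBase m i)).add (h4.smul_const (mN m μ i)))
  refine ⟨_, h6, fun v => ?_⟩
  have hw : 0 < √(1 - μ i * ‖s i‖ ^ 2) := Real.sqrt_pos.2 (by linarith [hs i])
  simp only [add_apply, hL, ContinuousLinearMap.smulRight_apply,
    smul_apply, ContinuousLinearMap.comp_apply, ContinuousLinearMap.proj_apply,
    innerSL_apply_apply, smul_eq_mul, nsmul_eq_mul, Nat.cast_ofNat]
  congr 2
  field_simp

theorem fderiv_mb {i : Fin 3} {s : MX m} (hs : s ∈ mU m μ) (v : MX m) :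
    fderiv ℝ (mb m μ i) s v
      = (Pi.single i (v i), 0) + (-⟪s i, v i⟫ / √(1 - μ i * ‖s i‖ ^ 2)) • mN m μ i := by
  obtain ⟨D, h1, h2⟩ := hasFDerivAt_mb (i := i) hs
  rw [h1.fderiv, h2]

theorem smooth_mb' (i : Fin 3) : ContDiffOn ℝ ∞ (mb m μ i) (mU m μ) := by
  have h2 : ContDiff ℝ ∞ (fun s : MX m => s i) :=
    (ContinuousLinearMap.proj (R := ℝ) (φ := fun j => EuclideanSpace ℝ (Fin (m j))) i).contDiff
  have h3 : ContDiff ℝ ∞ (fun s : MX m => ‖s i‖ ^ 2) := h2.norm_sq ℝ
  have h4 : ContDiffOn ℝ ∞ (fun s : MX m => √(1 - μ i * ‖s i‖ ^ 2)) (mU m μ) := by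
    refine ContDiffOn.sqrt (contDiff_const.sub (contDiff_const.mul h3)).contDiffOn ?_
    intro s hs
    have := hs i
    linarith
  have h5 : ContDiffOn ℝ ∞ (fun s : MX m => yfun (μ i) (‖s i‖ ^ 2)) (mU m μ) := by
    refine ContDiffOn.div h3.neg.contDiffOn (contDiffOn_const.add h4) ?_
    intro s _
    positivity
  have h6 : ContDiff ℝ ∞ (fun s : MX m =>
      (((Pi.single i (s i) : MX m), (0 : ℝ × ℝ × ℝ × ℝ)) : MV m)) := by
    refine ContDiff.prodMk ?_ contDiff_const
    exact (ContinuousLinearMap.single ℝ (fun j => EuclideanSpace ℝ (Fin (m j))) i).contDiff.comp h2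
  exact (contDiffOn_const.add h6.contDiffOn).add (h5.smul contDiffOn_const)

/-- The derivative of the canonical triple: it depends on the `i`-th component of the direction
only, and its norm is positive if this component is not zero. -/
theorem mb_pos' (hμ : μ 0 + μ 1 + μ 2 = 0) {i : Fin 3} {s : MX m} (hs : s ∈ mU m μ) {v : MX m}
    (hv : v i ≠ 0) :
    0 < mForm m μ (fderiv ℝ (mb m μ i) s v) (fderiv ℝ (mb m μ i) s v) := by
  rw [fderiv_mb hs]
  set y := -⟪s i, v i⟫ / √(1 - μ i * ‖s i‖ ^ 2) with hy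
  have hpos : 0 < 1 - μ i * ‖s i‖ ^ 2 := by linarith [hs i]
  have hy2 : y ^ 2 * (1 - μ i * ‖s i‖ ^ 2) = ⟪s i, v i⟫ ^ 2 := by
    rw [hy, div_pow, Real.sq_sqrt hpos.le]
    field_simp
  have e : mForm m μ ((Pi.single i (v i), 0) + y • mN m μ i) ((Pi.single i (v i), 0) + y • mN m μ i)
      = ‖v i‖ ^ 2 + μ i * y ^ 2 := by
    simp only [map_add, map_smul, LinearMap.add_apply, LinearMap.smul_apply, smul_eq_mul]
    rw [mForm_isSymm'.eq (mN m μ i) (Pi.single i (v i), 0), mForm_single_mN, mForm_single_single,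
      mN_mN' hμ, if_pos rfl, real_inner_self_eq_norm_sq]
    ring
  rw [e]
  have hv2 : 0 < ‖v i‖ ^ 2 := by positivity
  by_cases h0 : 0 ≤ μ i
  · positivity
  · push Not at h0
    have hcs : ⟪s i, v i⟫ ^ 2 ≤ ‖s i‖ ^ 2 * ‖v i‖ ^ 2 := by
      have := real_inner_mul_inner_self_le (s i) (v i)
      rw [real_inner_self_eq_norm_sq, real_inner_self_eq_norm_sq] at this
      nlinarith
    by_contra hcon
    push Not at hcon
    have h1 : (‖v i‖ ^ 2 + μ i * y ^ 2) * (1 - μ i * ‖s i‖ ^ 2) ≤ 0 :=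
      mul_nonpos_of_nonpos_of_nonneg hcon hpos.le
    nlinarith [mul_nonneg (neg_nonneg.2 h0.le) (sub_nonneg.2 hcs)]

theorem mb_deriv_zero' {i : Fin 3} {s : MX m} (hs : s ∈ mU m μ) {v : MX m} (hv : v i = 0) :
    fderiv ℝ (mb m μ i) s v = 0 := by
  rw [fderiv_mb hs, hv]
  simp

theorem mb_li' {s : MX m} (hs : s ∈ mU m μ) (hμ : μ 0 + μ 1 + μ 2 = 0) :
    LinearIndependent ℝ ![mb m μ 1 s - mb m μ 2 s, mb m μ 2 s - mb m μ 0 s] := by
  rw [LinearIndependent.pair_iff]
  intro a b hab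
  have key : ∀ i j : Fin 3, mForm m μ (mb m μ i s) (mN m μ j)
      = mForm m μ (mN m μ j) (mBase m i) + if i = j then μ i * yfun (μ i) (‖s i‖ ^ 2) else 0 := by
    intro i j
    unfold mb
    simp only [map_add, map_smul, LinearMap.add_apply, LinearMap.smul_apply, smul_eq_mul]
    rw [mForm_single_mN, mN_mN' hμ, mForm_isSymm'.eq]
    split_ifs <;> ring
  have h0 : mForm m μ (a • (mb m μ 1 s - mb m μ 2 s) + b • (mb m μ 2 s - mb m μ 0 s)) (mN m μ 0)
      = 0 := by rw [hab]; simp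
  have h1 : mForm m μ (a • (mb m μ 1 s - mb m μ 2 s) + b • (mb m μ 2 s - mb m μ 0 s)) (mN m μ 1)
      = 0 := by rw [hab]; simp
  simp only [map_add, map_sub, map_smul, LinearMap.add_apply, LinearMap.sub_apply,
    LinearMap.smul_apply, smul_eq_mul, key] at h0 h1
  have e00 : mForm m μ (mN m μ 0) (mBase m 0) = 1 := by simp [mForm_apply, mN, mBase]
  have e01 : mForm m μ (mN m μ 0) (mBase m 1) = 0 := by simp [mForm_apply, mN, mBase]
  have e02 : mForm m μ (mN m μ 0) (mBase m 2) = 0 := by simp [mForm_apply, mN, mBase]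
  have e10 : mForm m μ (mN m μ 1) (mBase m 0) = 0 := by simp [mForm_apply, mN, mBase]
  have e11 : mForm m μ (mN m μ 1) (mBase m 1) = 1 := by simp [mForm_apply, mN, mBase]
  have e12 : mForm m μ (mN m μ 1) (mBase m 2) = 0 := by simp [mForm_apply, mN, mBase]
  rw [e00, e01, e02] at h0
  rw [e10, e11, e12] at h1
  simp at h0 h1
  have p0 := (yfun_spec' (hs 0)).2.2
  have p1 := (yfun_spec' (hs 1)).2.2
  constructor
  · rcases h1 with h | h
    · exact h
    · linarith
  · rcases h0 with h | h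
    · exact h
    · linarith

/-- The canonical triple satisfies the hypotheses at every point of its domain. -/
theorem mb_tripleHyp' (hμ : μ 0 + μ 1 + μ 2 = 0) (hm : ∀ i, 1 ≤ m i) {s : MX m}
    (hs : s ∈ mU m μ) : TripleHyp (mForm m μ) (mb m μ) (mU m μ) s where
  symm := mForm_isSymm'
  nondeg := mForm_nondegenerate'
  dim := finrank_MV'
  isOpen_U := isOpen_mU'
  mem := hs
  smooth := smooth_mb'
  null := fun i j hij x hx y hy => mb_null' hμ hij hx hy
  pos := fun i v hv => mb_pos' hμ hs fun h => hv (mb_deriv_zero' hs h)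
  ne := fun i h => by
    have hi := hm i
    let e : EuclideanSpace ℝ (Fin (m i)) := EuclideanSpace.single ⟨0, by omega⟩ 1
    have he : e ≠ 0 := by
      intro h
      have := congrArg (fun x => x ⟨0, by omega⟩) h
      simp [e] at this
    have h2 : (Pi.single i e : MX m) i ≠ 0 := by simpa using he
    have h3 := mb_pos' hμ hs h2
    rw [h] at h3
    simp at h3
  inj := fun v hv => by
    funext i
    by_contra h
    have h3 := mb_pos' hμ hs (i := i) (v := v) h
    rw [hv i] at h3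
    simp at h3
  li := mb_li' hs hμ

end

end DupinClass
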