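import Pool.Agent.H31.Dupin.Model

open scoped RealInnerProductSpace ContDiff Topology
open Module Set

set_option linter.unusedSectionVars false

namespace DupinClass

section

variable {X V : Type} [NormedAddCommGroup X] [NormedSpace ℝ X] [FiniteDimensional ℝ X]
  [NormedAddCommGroup V] [NormedSpace ℝ V] [FiniteDimensional ℝ V]
  {B : LinearMap.BilinForm ℝ V} {b : Fin 3 → X → V} {U : Set X} {x₀ : X}

theorem deriv_form_zero (B : LinearMap.BilinForm ℝ V) {f g : X → V} {f' g' : X →L[ℝ] V} {x : X}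
    (hf : HasFDerivAt f f' x) (hg : HasFDerivAt g g' x) {c : ℝ}
    (h : ∀ᶠ y in 𝓝 x, B (f y) (g y) = c) (v : X) :
    B (f' v) (g x) + B (f x) (g' v) = 0 := by
  have h1 := (LinearMap.toContinuousBilinearMap B).hasFDerivAt_of_bilinear hf hg
  have h2 : HasFDerivAt (fun y => (LinearMap.toContinuousBilinearMap B) (f y) (g y))
      (0 : X →L[ℝ] ℝ) x :=
    (hasFDerivAt_const c x).congr_of_eventuallyEq h
  have h3 := congrArg (fun T : X →L[ℝ] ℝ => T v) (h1.unique h2)
  have h4 : B (f x) (g' v) + B (f' v) (g x) = 0 := h3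
  linarith

theorem TripleHyp.hasFDerivAt' (h : TripleHyp B b U x₀) (i : Fin 3) :
    HasFDerivAt (b i) (fderiv ℝ (b i) x₀) x₀ :=
  (((h.smooth i).contDiffAt (h.isOpen_U.mem_nhds h.mem)).differentiableAt
    (by simp)).hasFDerivAt

theorem TripleHyp.eventually_mem (h : TripleHyp B b U x₀) : ∀ᶠ y in 𝓝 x₀, y ∈ U :=
  h.isOpen_U.mem_nhds h.mem

theorem TripleHyp.comm (h : TripleHyp B b U x₀) (v w : V) : B v w = B w v := h.symm.eq v w

/-- If a linear functional is constant on the points `b i x`, it vanishes on the derivative. -/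
theorem TripleHyp.deriv_const (h : TripleHyp B b U x₀) (i : Fin 3) (a : V) {c : ℝ}
    (hc : ∀ y ∈ U, B a (b i y) = c) (v : X) : B a (fderiv ℝ (b i) x₀ v) = 0 := by
  have := deriv_form_zero B (hasFDerivAt_const a x₀) (h.hasFDerivAt' i) (c := c)
    (h.eventually_mem.mono fun y hy => hc y hy) v
  simpa using this

theorem TripleHyp.orth_star (h : TripleHyp B b U x₀) {i j : Fin 3} (hij : i ≠ j) (v : X)
    {y : X} (hy : y ∈ U) : B (fderiv ℝ (b i) x₀ v) (b i x₀ - b j y) = 0 := by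
  have h1 : HasFDerivAt (fun x => b i x - b j y) (fderiv ℝ (b i) x₀) x₀ :=
    (h.hasFDerivAt' i).sub_const _
  have := deriv_form_zero B h1 h1 (c := 0)
    (h.eventually_mem.mono fun x hx => h.null i j hij x hx y hy) v
  rw [h.comm (b i x₀ - b j y) (fderiv ℝ (b i) x₀ v)] at this
  linarith

theorem TripleHyp.orth_dd (h : TripleHyp B b U x₀) {i j : Fin 3} (hij : i ≠ j) (v w : X) :
    B (fderiv ℝ (b i) x₀ v) (fderiv ℝ (b j) x₀ w) = 0 := by
  refine h.deriv_const j _ (c := B (fderiv ℝ (b i) x₀ v) (b i x₀)) (fun y hy => ?_) w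
  have := h.orth_star hij v hy
  rw [map_sub] at this
  linarith

theorem TripleHyp.orth_db (h : TripleHyp B b U x₀) (i j l : Fin 3) (v : X) :
    B (fderiv ℝ (b i) x₀ v) (b j x₀ - b l x₀) = 0 := by
  have key : ∀ j, B (fderiv ℝ (b i) x₀ v) (b i x₀ - b j x₀) = 0 := by
    intro j
    by_cases hij : i = j
    · subst hij; simp
    · exact h.orth_star hij v h.mem
  have h1 := key j
  have h2 := key l
  rw [map_sub] at h1 h2 ⊢
  linarith

theorem TripleHyp.orth_bb (h : TripleHyp B b U x₀) (i j l k : Fin 3) :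
    B (b i x₀ - b j x₀) (b k x₀ - b l x₀) = 0 := by
  have key : ∀ i j, B (b i x₀ - b j x₀) (b i x₀ - b j x₀) = 0 := by
    intro i j
    by_cases hij : i = j
    · subst hij; simp
    · exact h.null i j hij x₀ h.mem x₀ h.mem
  have h1 := key i l
  have h2 := key j k
  have h3 := key i k
  have h4 := key j l
  simp only [map_sub, LinearMap.sub_apply] at h1 h2 h3 h4 ⊢
  rw [h.comm (b l x₀) (b i x₀)] at h1
  rw [h.comm (b k x₀) (b j x₀)] at h2
  rw [h.comm (b k x₀) (b i x₀)] at h3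
  rw [h.comm (b l x₀) (b j x₀)] at h4
  linarith

/-- The map `(s, a, c) ↦ ∑ s i + a k₀ + c k₁`. -/
noncomputable def sumMap (b : Fin 3 → X → V) (x₀ : X) :
    ((∀ i, (fderiv ℝ (b i) x₀).toLinearMap.range) × ℝ × ℝ) →ₗ[ℝ] V where
  toFun p := ∑ i, (p.1 i : V) + (p.2.1 • (b 1 x₀ - b 2 x₀) + p.2.2 • (b 2 x₀ - b 0 x₀))
  map_add' p q := by
    simp only [Prod.fst_add, Prod.snd_add, Pi.add_apply, Submodule.coe_add,
      Finset.sum_add_distrib, add_smul]
    abel
  map_smul' t p := by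
    simp only [Prod.smul_fst, Prod.smul_snd, Pi.smul_apply, Submodule.coe_smul, smul_eq_mul,
      mul_smul, ← Finset.smul_sum, RingHom.id_apply, smul_add]

theorem TripleHyp.sumMap_injective (h : TripleHyp B b U x₀) :
    Function.Injective (sumMap b x₀) := by
  rw [injective_iff_map_eq_zero]
  rintro ⟨s, a, c⟩ hs
  have hs' : ∑ i, (s i : V) + (a • (b 1 x₀ - b 2 x₀) + c • (b 2 x₀ - b 0 x₀)) = 0 := hs
  have hz : ∀ i, s i = 0 := by
    intro i
    obtain ⟨v, hv⟩ := (s i).2
    have hv' : fderiv ℝ (b i) x₀ v = (s i : V) := hv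
    have h1 : B (s i : V) (∑ i, (s i : V) +
        (a • (b 1 x₀ - b 2 x₀) + c • (b 2 x₀ - b 0 x₀))) = 0 := by
      rw [hs', map_zero]
    have h2 : B (s i : V) (∑ i, (s i : V)) = B (s i : V) (s i : V) := by
      rw [map_sum]
      refine Finset.sum_eq_single i (fun j _ hj => ?_) (by simp)
      obtain ⟨w, hw⟩ := (s j).2
      have hw' : fderiv ℝ (b j) x₀ w = (s j : V) := hw
      rw [← hv', ← hw']
      exact h.orth_dd hj.symm v w
    have h3 : B (s i : V) (b 1 x₀ - b 2 x₀) = 0 := by rw [← hv']; exact h.orth_db _ _ _ _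
    have h4 : B (s i : V) (b 2 x₀ - b 0 x₀) = 0 := by rw [← hv']; exact h.orth_db _ _ _ _
    rw [map_add, map_add, map_smul, map_smul, h2, h3, h4] at h1
    simp only [smul_zero, add_zero] at h1
    by_contra hne
    have h5 : fderiv ℝ (b i) x₀ v ≠ 0 := by
      rw [hv']
      intro h0
      exact hne (Subtype.ext h0)
    have h6 := h.pos i v h5
    rw [hv'] at h6
    linarith
  have h0 : a • (b 1 x₀ - b 2 x₀) + c • (b 2 x₀ - b 0 x₀) = 0 := by
    simpa [hz] using hs'
  have := (LinearIndependent.pair_iff.1 h.li) a c h0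
  ext i
  · simp [hz i]
  · exact this.1
  · exact this.2

theorem TripleHyp.finrank_le_sum (h : TripleHyp B b U x₀) :
    finrank ℝ X ≤ ∑ i, finrank ℝ (fderiv ℝ (b i) x₀).toLinearMap.range := by
  rw [← finrank_pi_fintype ℝ (M := fun i => (fderiv ℝ (b i) x₀).toLinearMap.range)]
  refine LinearMap.finrank_le_finrank_of_injective
    (f := LinearMap.pi fun i => (fderiv ℝ (b i) x₀).toLinearMap.rangeRestrict) ?_
  rw [injective_iff_map_eq_zero]
  intro v hv
  refine h.inj v fun i => ?_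
  have := congrFun hv i
  exact congrArg Subtype.val this

/-- The plane spanned by the differences of the base points. -/
def plane (b : Fin 3 → X → V) (x₀ : X) : Submodule ℝ V :=
  Submodule.span ℝ {b 1 x₀ - b 2 x₀, b 2 x₀ - b 0 x₀}

theorem TripleHyp.finrank_plane (h : TripleHyp B b U x₀) : finrank ℝ (plane b x₀) = 2 := by
  have h1 := finrank_span_eq_card h.li
  have h2 : Set.range ![b 1 x₀ - b 2 x₀, b 2 x₀ - b 0 x₀] =
      {b 1 x₀ - b 2 x₀, b 2 x₀ - b 0 x₀} := by
    ext w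
    simp only [Set.mem_range, Fin.exists_fin_two, Matrix.cons_val_zero, Matrix.cons_val_one,
      Set.mem_insert_iff, Set.mem_singleton_iff, eq_comm]
  rw [h2] at h1
  rw [plane, h1]
  rfl

theorem TripleHyp.finrank_range_sumMap (h : TripleHyp B b U x₀) :
    finrank ℝ (sumMap b x₀).range =
      (∑ i, finrank ℝ (fderiv ℝ (b i) x₀).toLinearMap.range) + 2 := by
  rw [LinearMap.finrank_range_of_inj h.sumMap_injective, finrank_prod, finrank_prod,
    finrank_pi_fintype, finrank_self]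

theorem mem_orthogonal_aux {w : V}
    (h1 : ∀ i v, B (fderiv ℝ (b i) x₀ v) w = 0) (h2 : ∀ i j, B (b i x₀ - b j x₀) w = 0) :
    w ∈ LinearMap.BilinForm.orthogonal B (sumMap b x₀).range := by
  rw [LinearMap.BilinForm.mem_orthogonal_iff]
  rintro _ ⟨⟨s, a, c⟩, rfl⟩
  change B (∑ i, (s i : V) + (a • (b 1 x₀ - b 2 x₀) + c • (b 2 x₀ - b 0 x₀))) w = 0
  rw [map_add, map_add, map_smul, map_smul, map_sum]
  simp only [LinearMap.add_apply, LinearMap.smul_apply, LinearMap.sum_apply, h2, smul_zero,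
    add_zero]
  refine Finset.sum_eq_zero fun i _ => ?_
  obtain ⟨v, hv⟩ := (s i).2
  have hv' : fderiv ℝ (b i) x₀ v = (s i : V) := hv
  rw [← hv']
  exact h1 i v

theorem TripleHyp.plane_le (h : TripleHyp B b U x₀) :
    plane b x₀ ≤ LinearMap.BilinForm.orthogonal B (sumMap b x₀).range := by
  rw [plane, Submodule.span_le]
  rintro w (rfl | rfl)
  · exact mem_orthogonal_aux (fun i v => h.orth_db _ _ _ _) (fun i j => h.orth_bb _ _ _ _)
  · exact mem_orthogonal_aux (fun i v => h.orth_db _ _ _ _) (fun i j => h.orth_bb _ _ _ _)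

theorem TripleHyp.finrank_aux (h : TripleHyp B b U x₀) :
    ∑ i, finrank ℝ (fderiv ℝ (b i) x₀).toLinearMap.range = finrank ℝ X ∧
      plane b x₀ = LinearMap.BilinForm.orthogonal B (sumMap b x₀).range := by
  have h1 := h.finrank_le_sum
  have h2 := h.finrank_plane
  have h3 := h.finrank_range_sumMap
  have h4 := LinearMap.BilinForm.finrank_orthogonal h.nondeg (sumMap b x₀).range
  have h5 := Submodule.finrank_mono h.plane_le
  have h6 := (sumMap b x₀).range.finrank_le
  have h7 := h.dim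
  refine ⟨by omega, Submodule.eq_of_le_of_finrank_eq h.plane_le (by omega)⟩

theorem TripleHyp.sum_finrank (h : TripleHyp B b U x₀) :
    ∑ i, finrank ℝ (fderiv ℝ (b i) x₀).toLinearMap.range = finrank ℝ X :=
  h.finrank_aux.1

/-- A vector which is orthogonal to the ranges of the derivatives and to the plane lies in the
plane. -/
theorem TripleHyp.mem_plane (h : TripleHyp B b U x₀) {w : V}
    (h1 : ∀ i v, B (fderiv ℝ (b i) x₀ v) w = 0) (h2 : ∀ i j, B (b i x₀ - b j x₀) w = 0) :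
    ∃ α β : ℝ, w = α • (b 1 x₀ - b 2 x₀) + β • (b 2 x₀ - b 0 x₀) := by
  have := mem_orthogonal_aux h1 h2
  rw [← h.finrank_aux.2, plane, Submodule.mem_span_pair] at this
  obtain ⟨α, β, hw⟩ := this
  exact ⟨α, β, hw.symm⟩

/-- The orthogonal decomposition of `b i x - b i x₀`. -/
theorem TripleHyp.exists_w (h : TripleHyp B b U x₀) (i : Fin 3) (x : X) :
    ∃ w : V, ∃ v : X, b i x - b i x₀ = fderiv ℝ (b i) x₀ v + w ∧
      ∀ u, B (fderiv ℝ (b i) x₀ u) w = 0 := by
  set S : Submodule ℝ V := (fderiv ℝ (b i) x₀).toLinearMap.range with hS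
  have hrefl : B.IsRefl := h.symm.isRefl
  have hd : Disjoint S (LinearMap.BilinForm.orthogonal B S) := by
    rw [Submodule.disjoint_def]
    rintro y ⟨v, hv⟩ hy
    have hv' : fderiv ℝ (b i) x₀ v = y := hv
    by_contra hne
    have h1 := h.pos i v (by rw [hv']; exact hne)
    rw [LinearMap.BilinForm.mem_orthogonal_iff] at hy
    have h2 : B y y = 0 := hy y ⟨v, hv⟩
    rw [hv'] at h1
    linarith
  have hc := (LinearMap.BilinForm.isCompl_orthogonal_iff_disjoint hrefl).2 hd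
  have hm : b i x - b i x₀ ∈ S ⊔ LinearMap.BilinForm.orthogonal B S := by
    rw [hc.sup_eq_top]; trivial
  obtain ⟨y, ⟨v, hv⟩, w, hw, hyw⟩ := Submodule.mem_sup.1 hm
  have hv' : fderiv ℝ (b i) x₀ v = y := hv
  refine ⟨w, v, by rw [hv', hyw], fun u => ?_⟩
  rw [LinearMap.BilinForm.mem_orthogonal_iff] at hw
  exact hw _ ⟨u, rfl⟩

/-- Identities for the increments. -/
theorem TripleHyp.incr_sq (h : TripleHyp B b U x₀) {i j : Fin 3} (hij : i ≠ j) {x : X}
    (hx : x ∈ U) : B (b i x - b i x₀) (b i x - b i x₀)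
      + 2 * B (b i x₀ - b j x₀) (b i x - b i x₀) = 0 := by
  have h1 := h.null i j hij x hx x₀ h.mem
  have h2 := h.null i j hij x₀ h.mem x₀ h.mem
  have e : b i x - b j x₀ = (b i x₀ - b j x₀) + (b i x - b i x₀) := by abel
  rw [e] at h1
  simp only [map_add, LinearMap.add_apply, h2] at h1
  rw [h.comm (b i x - b i x₀) (b i x₀ - b j x₀)] at h1
  linarith

theorem TripleHyp.incr_orth (h : TripleHyp B b U x₀) {i j : Fin 3} (hij : i ≠ j) {x y : X}
    (hx : x ∈ U) (hy : y ∈ U) : B (b i x - b i x₀) (b j y - b j x₀) = 0 := by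
  have h1 := h.incr_sq hij hx
  have h2 := h.incr_sq hij.symm hy
  have h3 := h.null i j hij x hx y hy
  have h4 := h.null i j hij x₀ h.mem x₀ h.mem
  have e : b i x - b j y = (b i x₀ - b j x₀) + (b i x - b i x₀) - (b j y - b j x₀) := by abel
  have e2 : b j x₀ - b i x₀ = - (b i x₀ - b j x₀) := by abel
  rw [e] at h3
  rw [e2] at h2
  simp only [map_add, map_sub, map_neg, LinearMap.neg_apply, LinearMap.add_apply,
    LinearMap.sub_apply] at h1 h2 h3 h4 ⊢
  simp only [h.comm (b i x) (b i x₀), h.comm (b i x) (b j x₀), h.comm (b j y) (b i x₀),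
    h.comm (b j y) (b j x₀), h.comm (b j y) (b i x), h.comm (b j x₀) (b i x₀)] at h1 h2 h3 h4 ⊢
  linarith

theorem TripleHyp.incr_d (h : TripleHyp B b U x₀) {i j : Fin 3} (hij : i ≠ j) (v : X) {y : X}
    (hy : y ∈ U) : B (fderiv ℝ (b i) x₀ v) (b j y - b j x₀) = 0 := by
  have h1 := h.orth_star hij v hy
  have h2 := h.orth_star hij v h.mem
  simp only [map_sub] at h1 h2 ⊢
  linarith

/-- All the facts on the orthogonal part of an increment. -/
theorem TripleHyp.exists_w' (h : TripleHyp B b U x₀) (i : Fin 3) {x : X} (hx : x ∈ U) :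
    ∃ w : V, ∃ v : X, b i x - b i x₀ = fderiv ℝ (b i) x₀ v + w ∧
      (∀ j u, B (fderiv ℝ (b j) x₀ u) w = 0) ∧
      (∀ j l, j ≠ i → l ≠ i → B (b j x₀ - b l x₀) w = 0) ∧
      (∀ j, j ≠ i → B (fderiv ℝ (b i) x₀ v) (fderiv ℝ (b i) x₀ v) + B w w
        + 2 * B (b i x₀ - b j x₀) w = 0) ∧
      (∀ j, j ≠ i → ∀ y ∈ U, B w (b j y - b j x₀) = 0) := by
  obtain ⟨w, v, hv, hw⟩ := h.exists_w i x
  have hw' : w = (b i x - b i x₀) - fderiv ℝ (b i) x₀ v := by rw [hv]; abel
  refine ⟨w, v, hv, ?_, ?_, ?_, ?_⟩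
  · intro j u
    by_cases hij : j = i
    · subst hij; exact hw u
    · rw [hw', map_sub, h.incr_d hij u hx, h.orth_dd hij, sub_zero]
  · intro j l hj hl
    have h1 := h.incr_sq (Ne.symm hj) hx
    have h2 := h.incr_sq (Ne.symm hl) hx
    rw [hw', map_sub, h.comm _ (fderiv ℝ (b i) x₀ v), h.orth_db, sub_zero]
    simp only [map_sub, LinearMap.sub_apply] at h1 h2 ⊢
    linarith
  · intro j hj
    have h1 := h.incr_sq (Ne.symm hj) hx
    rw [hv] at h1
    simp only [map_add, LinearMap.add_apply] at h1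
    rw [hw v, h.comm w, hw v, h.comm (b i x₀ - b j x₀) (fderiv ℝ (b i) x₀ v), h.orth_db] at h1
    linarith
  · intro j hj y hy
    rw [hw', LinearMap.map_sub₂, h.incr_orth (Ne.symm hj) hx hy,
      h.incr_d (Ne.symm hj) v hy, sub_zero]

/-- The pairings of the orthogonal part of an increment with the plane are not all zero. -/
theorem TripleHyp.exists_normal_aux (h : TripleHyp B b U x₀) (i : Fin 3) :
    ∃ n : V, (∀ j u, B n (fderiv ℝ (b j) x₀ u) = 0) ∧
      (∀ j, j ≠ i → B n (b i x₀ - b j x₀) = 1) ∧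
      (∀ j, j ≠ i → ∀ y ∈ U, B n (b j y - b j x₀) = 0) ∧
      (∃ x ∈ U, ∃ v : X, ∃ t : ℝ, n = t • (b i x - b i x₀ - fderiv ℝ (b i) x₀ v)) := by
  by_contra hcon
  -- all pairings vanish
  have key : ∀ x ∈ U, ∀ w : V, ∀ v : X, b i x - b i x₀ = fderiv ℝ (b i) x₀ v + w →
      (∀ j u, B (fderiv ℝ (b j) x₀ u) w = 0) →
      (∀ j l, j ≠ i → l ≠ i → B (b j x₀ - b l x₀) w = 0) →
      (∀ j, j ≠ i → ∀ y ∈ U, B w (b j y - b j x₀) = 0) →
      ∀ j, j ≠ i → B (b i x₀ - b j x₀) w = 0 := by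
    intro x hx w v h1 h2 h3 h4 j hj
    by_contra hne
    refine hcon ⟨(B (b i x₀ - b j x₀) w)⁻¹ • w, ?_, ?_, ?_, x, hx, v, _,
      by rw [h1, add_sub_cancel_left]⟩
    · intro l u
      rw [LinearMap.map_smul₂, h.comm w, h2, smul_zero]
    · intro l hl
      have h5 := h3 j l hj hl
      have h6 : B w (b i x₀ - b l x₀) = B (b i x₀ - b j x₀) w := by
        rw [h.comm w]
        simp only [map_sub, LinearMap.sub_apply] at h5 ⊢
        linarith
      rw [LinearMap.map_smul₂, h6, smul_eq_mul, inv_mul_cancel₀ hne]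
    · intro l hl y hy
      rw [LinearMap.map_smul₂, h4 l hl y hy, smul_zero]
  -- so all increments lie in the plane
  have hpl : ∀ x ∈ U, ∀ u, B (fderiv ℝ (b i) x₀ u) (b i x - b i x₀) = 0 := by
    intro x hx u
    obtain ⟨w, v, h1, h2, h3, h4, h5⟩ := h.exists_w' i hx
    have h6 := key x hx w v h1 h2 h3 h5
    have h7 : ∀ j l, B (b j x₀ - b l x₀) w = 0 := by
      have h8 : ∀ j, B (b i x₀ - b j x₀) w = 0 := by
        intro j
        by_cases hj : j = i
        · subst hj; simp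
        · exact h6 j hj
      intro j l
      have h9 := h8 j
      have h10 := h8 l
      simp only [map_sub, LinearMap.sub_apply] at h9 h10 ⊢
      linarith
    obtain ⟨α, β, hαβ⟩ := h.mem_plane h2 h7
    have h11 : B w w = 0 := by
      have h0 : B w w = B (α • (b 1 x₀ - b 2 x₀) + β • (b 2 x₀ - b 0 x₀)) w :=
        congrArg (fun z => B z w) hαβ
      rw [h0, LinearMap.map_add₂, LinearMap.map_smul₂, LinearMap.map_smul₂, h7, h7]
      simp
    obtain ⟨j, hj⟩ : ∃ j : Fin 3, j ≠ i := exists_ne i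
    have h12 := h4 j hj
    rw [h11, h6 j hj] at h12
    have h13 : fderiv ℝ (b i) x₀ v = 0 := by
      by_contra hne
      have := h.pos i v hne
      linarith
    rw [h1, h13, zero_add]
    exact h2 i u
  apply h.ne i
  ext u
  by_contra hne
  have h1 := h.pos i u hne
  have h2 := h.deriv_const i (fderiv ℝ (b i) x₀ u) (c := B (fderiv ℝ (b i) x₀ u) (b i x₀))
    (fun y hy => by
      have := hpl y hy u
      rw [map_sub] at this
      linarith) u
  linarith

/-- **Module T'a.** The normal vectors of the direction spaces. -/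
theorem TripleHyp.exists_normal (h : TripleHyp B b U x₀) : ∃ n : Fin 3 → V,
    (∀ i j v, B (n i) (fderiv ℝ (b j) x₀ v) = 0) ∧
    (∀ i j, i ≠ j → B (n i) (n j) = 0) ∧
    (∀ i j, j ≠ i → B (n i) (b i x₀ - b j x₀) = 1) ∧
    (∀ i, ∀ x ∈ U, ∃ v, ∃ y : ℝ, b i x - b i x₀ = fderiv ℝ (b i) x₀ v + y • n i) ∧
    n 2 = B (n 1) (n 1) • (b 1 x₀ - b 2 x₀) - B (n 0) (n 0) • (b 2 x₀ - b 0 x₀) - n 0 - n 1 := by
  choose n hn1 hn2 hn3 hn5 using fun i => h.exists_normal_aux i
  -- the pairing of `n i` with a difference not involving `i`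
  have hn4 : ∀ i j l, j ≠ i → l ≠ i → B (n i) (b j x₀ - b l x₀) = 0 := by
    intro i j l hj hl
    have h1 := hn2 i j hj
    have h2 := hn2 i l hl
    simp only [map_sub] at h1 h2 ⊢
    linarith
  have hn6 : ∀ i j, i ≠ j → B (n i) (n j) = 0 := by
    intro i j hij
    obtain ⟨x, hx, v, t, ht⟩ := hn5 j
    rw [ht, map_smul, map_sub, hn3 i j hij.symm x hx, hn1]
    simp
  have p00 : B (n 0) (b 1 x₀ - b 2 x₀) = 0 := hn4 0 1 2 (by decide) (by decide)
  have p01 : B (n 0) (b 2 x₀ - b 0 x₀) = -1 := by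
    rw [← neg_sub, map_neg, hn2 0 2 (by decide)]
  have p10 : B (n 1) (b 1 x₀ - b 2 x₀) = 1 := hn2 1 2 (by decide)
  have p11 : B (n 1) (b 2 x₀ - b 0 x₀) = 0 := hn4 1 2 0 (by decide) (by decide)
  have p20 : B (n 2) (b 1 x₀ - b 2 x₀) = -1 := by
    rw [← neg_sub, map_neg, hn2 2 1 (by decide)]
  have p21 : B (n 2) (b 2 x₀ - b 0 x₀) = 1 := hn2 2 0 (by decide)
  refine ⟨n, hn1, hn6, hn2, ?_, ?_⟩
  · intro i x hx
    obtain ⟨w, v, h1, h2, h3, h4, h5⟩ := h.exists_w' i hx
    obtain ⟨l, hl⟩ : ∃ l : Fin 3, l ≠ i := exists_ne i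
    refine ⟨v, B (b i x₀ - b l x₀) w, ?_⟩
    rw [h1]
    congr 1
    set t := B (b i x₀ - b l x₀) w with ht
    have hi : ∀ j, B (b i x₀ - b j x₀) (w - t • n i) = 0 := by
      intro j
      by_cases hj : j = i
      · subst hj; simp
      · rw [map_sub, map_smul, h.comm _ (n i), hn2 i j hj, ht]
        have h6 := h3 j l hj hl
        simp only [map_sub, LinearMap.sub_apply, smul_eq_mul, mul_one] at h6 ⊢
        linarith
    have hp : ∀ j l, B (b j x₀ - b l x₀) (w - t • n i) = 0 := by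
      intro j l
      have h9 := hi j
      have h10 := hi l
      simp only [LinearMap.map_sub₂] at h9 h10 ⊢
      linarith
    have hd : ∀ j u, B (fderiv ℝ (b j) x₀ u) (w - t • n i) = 0 := by
      intro j u
      rw [map_sub, map_smul, h2, h.comm _ (n i), hn1]
      simp
    obtain ⟨α, β, hαβ⟩ := h.mem_plane hd hp
    have hnj : ∀ j, j ≠ i → B (n j) (w - t • n i) = 0 := by
      intro j hj
      have hw : w = (b i x - b i x₀) - fderiv ℝ (b i) x₀ v := by rw [h1]; abel
      rw [map_sub, map_smul, hn6 j i hj, hw, map_sub, hn3 j i (Ne.symm hj) x hx, hn1]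
      simp
    rw [hαβ] at hnj
    have hzero : α = 0 ∧ β = 0 := by
      simp only [map_add, map_smul, smul_eq_mul] at hnj
      fin_cases i
      · have a1 := hnj 1 (by decide)
        have a2 := hnj 2 (by decide)
        rw [p10, p11] at a1
        rw [p20, p21] at a2
        constructor <;> linarith
      · have a1 := hnj 0 (by decide)
        have a2 := hnj 2 (by decide)
        rw [p00, p01] at a1
        rw [p20, p21] at a2
        constructor <;> linarith
      · have a1 := hnj 0 (by decide)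
        have a2 := hnj 1 (by decide)
        rw [p00, p01] at a1
        rw [p10, p11] at a2
        constructor <;> linarith
    rw [hzero.1, hzero.2, zero_smul, zero_smul, add_zero, sub_eq_zero] at hαβ
    exact hαβ
  · set μ0 := B (n 0) (n 0) with hμ0
    set μ1 := B (n 1) (n 1) with hμ1
    have hd : ∀ j u, B (fderiv ℝ (b j) x₀ u)
        (n 2 - μ1 • (b 1 x₀ - b 2 x₀) + μ0 • (b 2 x₀ - b 0 x₀) + n 0 + n 1) = 0 := by
      intro j u
      simp only [map_add, map_sub (B (fderiv ℝ (b j) x₀ u)) _ (μ1 • _), map_smul, h.orth_db,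
        h.comm _ (n _), hn1]
      simp
    have hp1 : B (b 1 x₀ - b 2 x₀)
        (n 2 - μ1 • (b 1 x₀ - b 2 x₀) + μ0 • (b 2 x₀ - b 0 x₀) + n 0 + n 1) = 0 := by
      rw [map_add, map_add, map_add, map_sub _ (n 2), map_smul, map_smul, h.orth_bb, h.orth_bb,
        h.comm _ (n 0), h.comm _ (n 1), h.comm _ (n 2), p00, p10, p20]
      simp
    have hp2 : B (b 2 x₀ - b 0 x₀)
        (n 2 - μ1 • (b 1 x₀ - b 2 x₀) + μ0 • (b 2 x₀ - b 0 x₀) + n 0 + n 1) = 0 := by
      rw [map_add, map_add, map_add, map_sub _ (n 2), map_smul, map_smul, h.orth_bb, h.orth_bb,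
        h.comm _ (n 0), h.comm _ (n 1), h.comm _ (n 2), p01, p11, p21]
      simp
    have hp : ∀ j l, B (b j x₀ - b l x₀)
        (n 2 - μ1 • (b 1 x₀ - b 2 x₀) + μ0 • (b 2 x₀ - b 0 x₀) + n 0 + n 1) = 0 := by
      intro j l
      generalize (n 2 - μ1 • (b 1 x₀ - b 2 x₀) + μ0 • (b 2 x₀ - b 0 x₀) + n 0 + n 1) = z
        at hp1 hp2
      simp only [LinearMap.map_sub₂] at hp1 hp2 ⊢
      fin_cases j <;> fin_cases l <;>
        simp only [Fin.zero_eta, Fin.mk_one, Fin.reduceFinMk] <;> linarith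
    obtain ⟨α, β, hαβ⟩ := h.mem_plane hd hp
    have q0 : B (n 0) (n 2 - μ1 • (b 1 x₀ - b 2 x₀) + μ0 • (b 2 x₀ - b 0 x₀) + n 0 + n 1)
        = 0 := by
      rw [map_add, map_add, map_add, map_sub _ (n 2), map_smul, map_smul, p00, p01,
        hn6 0 2 (by decide), hn6 0 1 (by decide), ← hμ0]
      simp
    have q1 : B (n 1) (n 2 - μ1 • (b 1 x₀ - b 2 x₀) + μ0 • (b 2 x₀ - b 0 x₀) + n 0 + n 1)
        = 0 := by
      rw [map_add, map_add, map_add, map_sub _ (n 2), map_smul, map_smul, p10, p11,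
        hn6 1 2 (by decide), hn6 1 0 (by decide), ← hμ1]
      simp
    rw [hαβ, map_add, map_smul, map_smul, p00, p01] at q0
    rw [hαβ, map_add, map_smul, map_smul, p10, p11] at q1
    simp only [smul_eq_mul, mul_zero, mul_neg, mul_one, zero_add, add_zero, neg_eq_zero]
      at q0 q1
    rw [q0, q1, zero_smul, zero_smul, add_zero] at hαβ
    have : n 2 = (n 2 - μ1 • (b 1 x₀ - b 2 x₀) + μ0 • (b 2 x₀ - b 0 x₀) + n 0 + n 1)
        + (μ1 • (b 1 x₀ - b 2 x₀) - μ0 • (b 2 x₀ - b 0 x₀) - n 0 - n 1) := by abel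
    rw [this, hαβ, zero_add]


end

end DupinClass
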