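import Pool.Agent.H31.Dupin.ModelFacts
import Pool.Agent.H31.Dupin.TripleA

open scoped RealInnerProductSpace ContDiff Topology
open Module Set

namespace DupinClass

theorem triFam_eq_pair {X V : Type} [NormedAddCommGroup X] [NormedSpace ℝ X]
    [NormedAddCommGroup V] [NormedSpace ℝ V] (b : Fin 3 → X → V) (x : X) :
    triFam b x = Submodule.span ℝ {b 1 x - b 2 x, b 2 x - b 0 x} := by
  apply le_antisymm
  · rw [triFam, Submodule.span_le]
    rintro _ ⟨⟨i, j⟩, rfl⟩
    rw [SetLike.mem_coe, Submodule.mem_span_pair]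
    fin_cases i <;> fin_cases j
    · exact ⟨0, 0, by simp⟩
    · refine ⟨-1, -1, ?_⟩
      simp only [Fin.zero_eta, Fin.mk_one]; module
    · refine ⟨0, -1, ?_⟩
      simp only [Fin.zero_eta, Fin.reduceFinMk]; module
    · refine ⟨1, 1, ?_⟩
      simp only [Fin.zero_eta, Fin.mk_one]; module
    · exact ⟨0, 0, by simp⟩
    · refine ⟨1, 0, ?_⟩
      simp only [Fin.mk_one, Fin.reduceFinMk]; module
    · refine ⟨0, 1, ?_⟩
      simp only [Fin.zero_eta, Fin.reduceFinMk]; module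
    · refine ⟨-1, 0, ?_⟩
      simp only [Fin.mk_one, Fin.reduceFinMk]; module
    · exact ⟨0, 0, by simp⟩
  · rw [Submodule.span_le]
    rintro v (rfl | rfl)
    · exact Submodule.subset_span ⟨(1, 2), rfl⟩
    · exact Submodule.subset_span ⟨(2, 0), rfl⟩

section

variable {m : Fin 3 → ℕ} {μ : Fin 3 → ℝ}

theorem mb_zero_eq (s : MX m) :
    mb m μ 0 s = (Pi.single 0 (s 0), 0, -1, yfun (μ 0) (‖s 0‖ ^ 2), 0) := by
  simp [mb, mBase, mN]

theorem mb_one_eq (s : MX m) :
    mb m μ 1 s = (Pi.single 1 (s 1), 1, 0, 0, yfun (μ 1) (‖s 1‖ ^ 2)) := by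
  simp [mb, mBase, mN]

theorem mb_two_eq (s : MX m) :
    mb m μ 2 s = (Pi.single 2 (s 2), yfun (μ 2) (‖s 2‖ ^ 2) * μ 1,
      yfun (μ 2) (‖s 2‖ ^ 2) * (-μ 0), -yfun (μ 2) (‖s 2‖ ^ 2), -yfun (μ 2) (‖s 2‖ ^ 2)) := by
  simp [mb, mBase, mN]

theorem mForm_mN_one (v : MV m) : mForm m μ v (mN m μ 1) = v.2.1 + μ 1 * v.2.2.2.2 := by
  simp [mForm, mN]

theorem mForm_mN_zero (v : MV m) : mForm m μ v (mN m μ 0) = -v.2.2.1 + μ 0 * v.2.2.2.1 := by
  simp [mForm, mN]

/-- The curvature vectors of the canonical family are the multiples of the differences. -/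
theorem curvVec_mFam_iff (hμ : μ 0 + μ 1 + μ 2 = 0) (hm : ∀ i, 1 ≤ m i) {s : MX m}
    (hs : s ∈ mU m μ) (v : MV m) :
    CurvVec (mFam m μ) s v ↔ v ≠ 0 ∧ ∃ i : Fin 3, ∃ c : ℝ,
      v = c • (mb m μ (i + 1) s - mb m μ (i + 2) s) := by
  have hnhds : mU m μ ∈ 𝓝 s := isOpen_mU.mem_nhds hs
  have hdb : ∀ i, HasFDerivAt (mb m μ i) (fderiv ℝ (mb m μ i) s) s := fun i =>
    (((smooth_mb i).contDiffAt hnhds).differentiableAt (by simp)).hasFDerivAt
  constructor
  · rintro ⟨hv, σ, hσd, hσ, hσs, w, hw, hdw⟩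
    refine ⟨hv, ?_⟩
    have hT := mb_tripleHyp hμ hm hs
    -- the coefficients
    let α : MX m → ℝ := fun y =>
      ((σ y).2.1 + μ 1 * (σ y).2.2.2.2) * (1 + μ 1 * (mb m μ 1 y).2.2.2.2)⁻¹
    let β : MX m → ℝ := fun y =>
      -(-(σ y).2.2.1 + μ 0 * (σ y).2.2.2.1) * (1 + μ 0 * (mb m μ 0 y).2.2.2.1)⁻¹
    have hσ1 : DifferentiableAt ℝ (fun y => (σ y).2) s := hσd.snd
    have hσ2 : DifferentiableAt ℝ (fun y => (σ y).2.1) s := hσ1.fst
    have hσ3 : DifferentiableAt ℝ (fun y => (σ y).2.2) s := hσ1.snd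
    have hσ4 : DifferentiableAt ℝ (fun y => (σ y).2.2.1) s := hσ3.fst
    have hσ5 : DifferentiableAt ℝ (fun y => (σ y).2.2.2) s := hσ3.snd
    have hσ6 : DifferentiableAt ℝ (fun y => (σ y).2.2.2.1) s := hσ5.fst
    have hσ7 : DifferentiableAt ℝ (fun y => (σ y).2.2.2.2) s := hσ5.snd
    have hm1 : DifferentiableAt ℝ (fun y => (mb m μ 1 y).2.2.2.2) s :=
      (hdb 1).differentiableAt.snd.snd.snd.snd
    have hm0 : DifferentiableAt ℝ (fun y => (mb m μ 0 y).2.2.2.1) s :=
      (hdb 0).differentiableAt.snd.snd.snd.fst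
    have hpos1 : ∀ y ∈ mU m μ, 0 < 1 + μ 1 * (mb m μ 1 y).2.2.2.2 := by
      intro y hy
      rw [mb_one_eq]
      exact (yfun_spec (hy 1)).2.2
    have hpos0 : ∀ y ∈ mU m μ, 0 < 1 + μ 0 * (mb m μ 0 y).2.2.2.1 := by
      intro y hy
      rw [mb_zero_eq]
      exact (yfun_spec (hy 0)).2.2
    have hαd : DifferentiableAt ℝ α s := by
      have h1 : DifferentiableAt ℝ (fun y => (σ y).2.1 + μ 1 * (σ y).2.2.2.2) s :=
        hσ2.add (hσ7.const_mul _)
      have h2 : DifferentiableAt ℝ (fun y => 1 + μ 1 * (mb m μ 1 y).2.2.2.2) s :=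
        (hm1.const_mul _).const_add _
      have h3 : (fun y => 1 + μ 1 * (mb m μ 1 y).2.2.2.2) s ≠ 0 := (hpos1 s hs).ne'
      have h4 := DifferentiableAt.fun_mul h1 (DifferentiableAt.fun_inv h2 h3)
      exact h4
    have hβd : DifferentiableAt ℝ β s := by
      have h1 : DifferentiableAt ℝ (fun y => -(-(σ y).2.2.1 + μ 0 * (σ y).2.2.2.1)) s :=
        (hσ4.neg.add (hσ6.const_mul _)).neg
      have h2 : DifferentiableAt ℝ (fun y => 1 + μ 0 * (mb m μ 0 y).2.2.2.1) s :=
        (hm0.const_mul _).const_add _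
      have h3 : (fun y => 1 + μ 0 * (mb m μ 0 y).2.2.2.1) s ≠ 0 := (hpos0 s hs).ne'
      have h4 := DifferentiableAt.fun_mul h1 (DifferentiableAt.fun_inv h2 h3)
      exact h4
    have hcoef : ∀ y ∈ mU m μ, σ y ∈ mFam m μ y →
        σ y = α y • (mb m μ 1 y - mb m μ 2 y) + β y • (mb m μ 2 y - mb m μ 0 y) := by
      intro y hy hσy
      rw [mFam, triFam_eq_pair, Submodule.mem_span_pair] at hσy
      obtain ⟨a, b, hab⟩ := hσy
      have h1 := hpos1 y hy
      have h0 := hpos0 y hy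
      have ha : α y = a := by
        show ((σ y).2.1 + μ 1 * (σ y).2.2.2.2) * (1 + μ 1 * (mb m μ 1 y).2.2.2.2)⁻¹ = a
        rw [← div_eq_mul_inv, div_eq_iff h1.ne', ← hab, mb_zero_eq, mb_one_eq, mb_two_eq]
        simp only [Prod.snd_add, Prod.fst_add, Prod.smul_snd, Prod.smul_fst, Prod.snd_sub,
          Prod.fst_sub, smul_eq_mul]
        ring
      have hb : β y = b := by
        show -(-(σ y).2.2.1 + μ 0 * (σ y).2.2.2.1) * (1 + μ 0 * (mb m μ 0 y).2.2.2.1)⁻¹ = b
        rw [← div_eq_mul_inv, div_eq_iff h0.ne', ← hab, mb_zero_eq, mb_one_eq, mb_two_eq]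
        simp only [Prod.snd_add, Prod.fst_add, Prod.smul_snd, Prod.smul_fst, Prod.snd_sub,
          Prod.fst_sub, smul_eq_mul]
        ring
      rw [ha, hb, hab]
    have hev : σ =ᶠ[𝓝 s] fun y =>
        α y • (mb m μ 1 y - mb m μ 2 y) + β y • (mb m μ 2 y - mb m μ 0 y) := by
      filter_upwards [hσ, hnhds] with y h1 h2 using hcoef y h2 h1
    have hder : HasFDerivAt (fun y =>
        α y • (mb m μ 1 y - mb m μ 2 y) + β y • (mb m μ 2 y - mb m μ 0 y))
        ((α s • (fderiv ℝ (mb m μ 1) s - fderiv ℝ (mb m μ 2) s) +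
          (fderiv ℝ α s).smulRight (mb m μ 1 s - mb m μ 2 s)) +
         (β s • (fderiv ℝ (mb m μ 2) s - fderiv ℝ (mb m μ 0) s) +
          (fderiv ℝ β s).smulRight (mb m μ 2 s - mb m μ 0 s))) s :=
      (hαd.hasFDerivAt.smul ((hdb 1).sub (hdb 2))).add
        (hβd.hasFDerivAt.smul ((hdb 2).sub (hdb 0)))
    have hfd := hev.fderiv_eq (𝕜 := ℝ)
    rw [hder.fderiv] at hfd
    set F : Fin 3 → MV m := fun i => fderiv ℝ (mb m μ i) s w with hF
    have hE : α s • (F 1 - F 2) + β s • (F 2 - F 0) ∈ mFam m μ s := by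
      have h1 : mb m μ 1 s - mb m μ 2 s ∈ mFam m μ s := Submodule.subset_span ⟨(1, 2), rfl⟩
      have h2 : mb m μ 2 s - mb m μ 0 s ∈ mFam m μ s := Submodule.subset_span ⟨(2, 0), rfl⟩
      have h3 : α s • (F 1 - F 2) + β s • (F 2 - F 0) = fderiv ℝ σ s w -
          (fderiv ℝ α s w) • (mb m μ 1 s - mb m μ 2 s) -
          (fderiv ℝ β s w) • (mb m μ 2 s - mb m μ 0 s) := by
        rw [hfd]
        simp only [add_apply, smul_apply,
          sub_apply, ContinuousLinearMap.smulRight_apply, hF]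
        abel
      rw [h3]
      exact Submodule.sub_mem _ (Submodule.sub_mem _ hdw (Submodule.smul_mem _ _ h1))
        (Submodule.smul_mem _ _ h2)
    have hQ : mForm m μ (α s • (F 1 - F 2) + β s • (F 2 - F 0))
        (α s • (F 1 - F 2) + β s • (F 2 - F 0)) = 0 := by
      rw [mFam, triFam_eq_pair, Submodule.mem_span_pair] at hE
      obtain ⟨a, b, hab⟩ := hE
      rw [← hab]
      have h1 := hT.orth_bb 1 2 2 1
      have h2 := hT.orth_bb 1 2 0 2
      have h3 := hT.orth_bb 2 0 2 1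
      have h4 := hT.orth_bb 2 0 0 2
      simp only [map_add, map_smul, LinearMap.add_apply, LinearMap.smul_apply, smul_eq_mul,
        h1, h2, h3, h4]
      ring
    have hQ2 : β s ^ 2 * mForm m μ (F 0) (F 0) + α s ^ 2 * mForm m μ (F 1) (F 1) +
        (β s - α s) ^ 2 * mForm m μ (F 2) (F 2) = 0 := by
      have h01 : mForm m μ (F 0) (F 1) = 0 := hT.orth_dd (by decide) w w
      have h02 : mForm m μ (F 0) (F 2) = 0 := hT.orth_dd (by decide) w w
      have h10 : mForm m μ (F 1) (F 0) = 0 := hT.orth_dd (by decide) w w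
      have h12 : mForm m μ (F 1) (F 2) = 0 := hT.orth_dd (by decide) w w
      have h20 : mForm m μ (F 2) (F 0) = 0 := hT.orth_dd (by decide) w w
      have h21 : mForm m μ (F 2) (F 1) = 0 := hT.orth_dd (by decide) w w
      rw [← hQ]
      simp only [map_add, map_smul, map_sub, LinearMap.add_apply, LinearMap.smul_apply,
        LinearMap.sub_apply, smul_eq_mul, h01, h02, h10, h12, h20, h21]
      ring
    have hnn : ∀ i, 0 ≤ mForm m μ (F i) (F i) := by
      intro i
      by_cases hwi : w i = 0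
      · have : F i = 0 := mb_deriv_zero hs hwi
        rw [this]; simp
      · exact (mb_pos hμ hs hwi).le
    have hF0 := mul_nonneg (sq_nonneg (β s)) (hnn 0)
    have hF1 := mul_nonneg (sq_nonneg (α s)) (hnn 1)
    have hF2 := mul_nonneg (sq_nonneg (β s - α s)) (hnn 2)
    have hvs : v = α s • (mb m μ 1 s - mb m μ 2 s) + β s • (mb m μ 2 s - mb m μ 0 s) := by
      rw [← hσs]; exact hcoef s hs hσ.self_of_nhds
    obtain ⟨i, hi⟩ : ∃ i, w i ≠ 0 := by
      by_contra hcon
      push Not at hcon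
      exact hw (funext hcon)
    have hp := mb_pos hμ hs hi
    fin_cases i
    · have h1 : β s ^ 2 * mForm m μ (F 0) (F 0) = 0 := by linarith
      rcases mul_eq_zero.1 h1 with h | h
      · refine ⟨0, α s, ?_⟩
        rw [hvs, pow_eq_zero_iff (by norm_num)] at *
        simp [h]
      · exact absurd h hp.ne'
    · have h1 : α s ^ 2 * mForm m μ (F 1) (F 1) = 0 := by linarith
      rcases mul_eq_zero.1 h1 with h | h
      · refine ⟨1, β s, ?_⟩
        rw [hvs, pow_eq_zero_iff (by norm_num)] at *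
        simp [h]
      · exact absurd h hp.ne'
    · have h1 : (β s - α s) ^ 2 * mForm m μ (F 2) (F 2) = 0 := by linarith
      rcases mul_eq_zero.1 h1 with h | h
      · refine ⟨2, -α s, ?_⟩
        have h2 : β s = α s := by
          rw [pow_eq_zero_iff (by norm_num)] at h
          linarith
        rw [hvs, h2]
        show _ = -α s • (mb m μ 0 s - mb m μ 1 s)
        module
      · exact absurd h hp.ne'
  · rintro ⟨hv, i, c, rfl⟩
    refine ⟨hv, fun y => c • (mb m μ (i + 1) y - mb m μ (i + 2) y), ?_, ?_, rfl, ?_⟩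
    · exact (((hdb (i + 1)).sub (hdb (i + 2))).const_smul c).differentiableAt
    · exact Filter.Eventually.of_forall fun y =>
        Submodule.smul_mem _ _ (Submodule.subset_span ⟨(i + 1, i + 2), rfl⟩)
    · have hne : Nonempty (Fin (m i)) := ⟨⟨0, hm i⟩⟩
      obtain ⟨e, he⟩ : ∃ e : EuclideanSpace ℝ (Fin (m i)), e ≠ 0 := exists_ne 0
      refine ⟨Pi.single i e, ?_, ?_⟩
      · intro h
        apply he
        have := congrFun h i
        simpa using this
      · have hd : HasFDerivAt (fun y => c • (mb m μ (i + 1) y - mb m μ (i + 2) y))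
            (c • (fderiv ℝ (mb m μ (i + 1)) s - fderiv ℝ (mb m μ (i + 2)) s)) s :=
          ((hdb (i + 1)).sub (hdb (i + 2))).const_smul c
        rw [hd.fderiv]
        have h1 : i + 1 ≠ i := by fin_cases i <;> decide
        have h2 : i + 2 ≠ i := by fin_cases i <;> decide
        rw [smul_apply, sub_apply,
          mb_deriv_zero hs (Pi.single_eq_of_ne h1 e), mb_deriv_zero hs (Pi.single_eq_of_ne h2 e),
          sub_zero, smul_zero]
        exact Submodule.zero_mem _

end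

end DupinClass
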