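import Pool.Agent.H31.Dupin.ModelFacts
import Pool.Agent.H31.Dupin.Equiv
import Pool.Agent.H31.Dupin.TripleB

open scoped RealInnerProductSpace ContDiff Topology
open Module Set

namespace DupinClass

section

variable {m m' : Fin 3 → ℕ} {μ μ' : Fin 3 → ℝ}

/-- combinations of three affinely independent points -/
theorem rel_li_aux {V : Type} [AddCommGroup V] [Module ℝ V] (P : Fin 3 → V)
    (h : LinearIndependent ℝ ![P 1 - P 2, P 2 - P 0]) (w : Fin 3 → ℝ) (hw : ∑ i, w i = 0)
    (hs : ∑ i, w i • P i = 0) : ∀ i, w i = 0 := by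
  rw [LinearIndependent.pair_iff] at h
  rw [Fin.sum_univ_three] at hw hs
  have h0 : w 0 = -(w 1 + w 2) := by linarith
  have h1 := h (w 1) (w 1 + w 2) (by
    rw [← hs, h0]
    module)
  intro i
  fin_cases i
  · simp only [Fin.zero_eta, Fin.isValue]; linarith [h1.2]
  · exact h1.1
  · simp only [Fin.reduceFinMk]; linarith [h1.1, h1.2]

theorem yfun_zero_rel (a : ℝ) : yfun a 0 = 0 := by simp [yfun]

theorem mb_zero (i : Fin 3) : mb m μ i 0 = mBase m i := by
  simp [mb, yfun_zero_rel]

/-- the linear part of the canonical triple at zero -/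
noncomputable def relD (m : Fin 3 → ℕ) (i : Fin 3) : MX m →L[ℝ] MV m :=
  (ContinuousLinearMap.inl ℝ (MX m) (ℝ × ℝ × ℝ × ℝ)).comp
    ((ContinuousLinearMap.single ℝ (fun i : Fin 3 => EuclideanSpace ℝ (Fin (m i))) i).comp
      (ContinuousLinearMap.proj i))

theorem relD_apply (i : Fin 3) (v : MX m) : relD m i v = (Pi.single i (v i), 0) := rfl

theorem yfun_hasDeriv (a : ℝ) : DifferentiableAt ℝ (yfun a) 0 := by
  unfold yfun
  apply DifferentiableAt.div
  · exact differentiableAt_id.neg
  · apply DifferentiableAt.add (differentiableAt_const _)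
    apply DifferentiableAt.sqrt
    · exact (differentiableAt_const _).sub (differentiableAt_id.const_mul _)
    · simp
  · simp

theorem mb_hasFDerivAt_zero (i : Fin 3) :
    HasFDerivAt (mb m μ i) (relD m i) 0 := by
  have h1 : HasFDerivAt (fun s : MX m => ‖s i‖ ^ 2) (0 : MX m →L[ℝ] ℝ) 0 := by
    have h2 : HasFDerivAt (fun s : MX m => s i)
        (ContinuousLinearMap.proj (R := ℝ) (φ := fun i : Fin 3 => EuclideanSpace ℝ (Fin (m i))) i)
        0 := (ContinuousLinearMap.proj (R := ℝ)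
          (φ := fun i : Fin 3 => EuclideanSpace ℝ (Fin (m i))) i).hasFDerivAt
    have h3 := h2.norm_sq
    refine h3.congr_fderiv ?_
    ext v
    simp
  have h4 : HasFDerivAt (fun s : MX m => yfun (μ i) (‖s i‖ ^ 2)) (0 : MX m →L[ℝ] ℝ) 0 := by
    have h5 : HasFDerivAt (yfun (μ i)) (fderiv ℝ (yfun (μ i)) 0) (‖(0 : MX m) i‖ ^ 2) := by
      have : ‖(0 : MX m) i‖ ^ 2 = 0 := by simp
      rw [this]
      exact (yfun_hasDeriv (μ i)).hasFDerivAt
    have h6 := h5.comp (0 : MX m) h1
    refine h6.congr_fderiv ?_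
    ext v
    simp
  have h7 : HasFDerivAt (fun s : MX m => yfun (μ i) (‖s i‖ ^ 2) • mN m μ i)
      (0 : MX m →L[ℝ] MV m) 0 := by
    have := h4.smul_const (mN m μ i)
    refine this.congr_fderiv ?_
    ext v <;> simp
  have h8 : HasFDerivAt (fun s : MX m => mBase m i + relD m i s) (relD m i) 0 :=
    (relD m i).hasFDerivAt.const_add _
  have h9 := h8.add h7
  rw [add_zero] at h9
  exact h9

theorem mForm_mN_single (i j : Fin 3) (v : MX m) :
    mForm m μ (mN m μ i) (Pi.single j (v j), 0) = 0 := by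
  fin_cases i <;> simp [mForm, mN]

theorem rel_finrank (hμ : μ 0 + μ 1 + μ 2 = 0) (i : Fin 3) :
    finrank ℝ (fderiv ℝ (mb m μ i) 0).toLinearMap.range = m i := by
  rw [(mb_hasFDerivAt_zero (m := m) (μ := μ) i).fderiv]
  have h1 := LinearMap.finrank_range_add_finrank_ker (relD m i).toLinearMap
  let p : MX m →ₗ[ℝ] EuclideanSpace ℝ (Fin (m i)) := LinearMap.proj i
  have h2 := LinearMap.finrank_range_add_finrank_ker p
  have hsurj : Function.Surjective p := LinearMap.proj_surjective i
  have hker : LinearMap.ker (relD m i).toLinearMap = LinearMap.ker p := by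
    ext v
    rw [LinearMap.mem_ker, LinearMap.mem_ker]
    show relD m i v = 0 ↔ v i = 0
    rw [relD_apply, Prod.mk_eq_zero]
    simp
  rw [LinearMap.range_eq_top.2 hsurj, finrank_top, finrank_euclideanSpace, Fintype.card_fin] at h2
  rw [hker] at h1
  omega

/-- the scaled and permuted canonical triple -/
noncomputable def relB (m' : Fin 3 → ℕ) (μ' : Fin 3 → ℝ) (π : Equiv.Perm (Fin 3)) (r : ℝ)
    (i : Fin 3) (s : MX m') : MV m' := r • mb m' μ' (π i) s

theorem relB_fderiv (π : Equiv.Perm (Fin 3)) (r : ℝ) (i : Fin 3) :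
    fderiv ℝ (relB m' μ' π r i) 0 = r • relD m' (π i) :=
  ((mb_hasFDerivAt_zero (m := m') (μ := μ') (π i)).const_smul r).fderiv

theorem rel_triFam (π : Equiv.Perm (Fin 3)) {r : ℝ} (hr : r ≠ 0) :
    triFam (relB m' μ' π r) = mFam m' μ' := by
  funext s
  unfold mFam triFam
  apply le_antisymm
  · rw [Submodule.span_le]
    rintro _ ⟨⟨i, j⟩, rfl⟩
    show r • mb m' μ' (π i) s - r • mb m' μ' (π j) s ∈ _
    rw [← smul_sub]
    exact Submodule.smul_mem _ _ (Submodule.subset_span ⟨(π i, π j), rfl⟩)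
  · rw [Submodule.span_le]
    rintro _ ⟨⟨i, j⟩, rfl⟩
    have h : mb m' μ' i s - mb m' μ' j s =
        r⁻¹ • (relB m' μ' π r (π.symm i) s - relB m' μ' π r (π.symm j) s) := by
      unfold relB
      rw [Equiv.apply_symm_apply, Equiv.apply_symm_apply, ← smul_sub, smul_smul,
        inv_mul_cancel₀ hr, one_smul]
    show mb m' μ' i s - mb m' μ' j s ∈ _
    rw [h]
    exact Submodule.smul_mem _ _ (Submodule.subset_span ⟨(π.symm i, π.symm j), rfl⟩)

theorem rel_tripleHyp (hμ' : μ' 0 + μ' 1 + μ' 2 = 0) (hm' : ∀ i, 1 ≤ m' i)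
    (π : Equiv.Perm (Fin 3)) {r : ℝ} (hr : r ≠ 0) :
    TripleHyp (mForm m' μ') (relB m' μ' π r) (mU m' μ') 0 := by
  have h := mb_tripleHyp (m := m') (μ := μ') hμ' hm' (zero_mem_mU m' μ')
  have hD : ∀ i, fderiv ℝ (mb m' μ' i) 0 = relD m' i := fun i =>
    (mb_hasFDerivAt_zero (m := m') (μ := μ') i).fderiv
  refine ⟨h.symm, h.nondeg, h.dim, h.isOpen_U, h.mem, fun i => (h.smooth (π i)).const_smul r,
    ?_, ?_, ?_, ?_, ?_⟩
  · intro i j hij x hx y hy
    have h1 := h.null (π i) (π j) (fun e => hij (π.injective e)) x hx y hy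
    unfold relB
    rw [← smul_sub, map_smul, map_smul, LinearMap.smul_apply, h1, smul_zero, smul_zero]
  · intro i v hv
    rw [relB_fderiv] at hv ⊢
    have h0 : relD m' (π i) v ≠ 0 := fun e => hv (by
      rw [_root_.smul_apply, e, smul_zero])
    have h1 := h.pos (π i) v (by rw [hD]; exact h0)
    rw [hD] at h1
    rw [_root_.smul_apply, map_smul, map_smul, LinearMap.smul_apply, smul_eq_mul,
      smul_eq_mul, ← mul_assoc]
    exact mul_pos (mul_self_pos.2 hr) h1
  · intro i
    rw [relB_fderiv]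
    have h1 := h.ne (π i)
    rw [hD] at h1
    exact smul_ne_zero hr h1
  · intro v hv
    apply h.inj
    intro i
    have h1 := hv (π.symm i)
    rw [relB_fderiv, Equiv.apply_symm_apply, _root_.smul_apply] at h1
    rw [hD]
    exact (smul_eq_zero.1 h1).resolve_left hr
  · rw [LinearIndependent.pair_iff]
    intro a b hab
    have h1 := rel_li_aux (fun i => mb m' μ' i 0) h.li (fun j => ![-b, a, b - a] (π.symm j))
      (by
        rw [Equiv.sum_comp π.symm (fun i => (![-b, a, b - a] : Fin 3 → ℝ) i),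
          Fin.sum_univ_three]
        simp)
      (by
        have h2 : ∑ j, (![-b, a, b - a] : Fin 3 → ℝ) (π.symm j) • mb m' μ' j 0 =
            ∑ i, (![-b, a, b - a] : Fin 3 → ℝ) i • mb m' μ' (π i) 0 := by
          rw [← Equiv.sum_comp π.symm
            (fun i => (![-b, a, b - a] : Fin 3 → ℝ) i • mb m' μ' (π i) 0)]
          simp
        rw [h2, Fin.sum_univ_three]
        have h3 : r • ((-b) • mb m' μ' (π 0) 0 + a • mb m' μ' (π 1) 0 +
            (b - a) • mb m' μ' (π 2) 0) = 0 := by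
          rw [← hab]
          unfold relB
          module
        have h4 := (smul_eq_zero.1 h3).resolve_left hr
        simpa using h4)
    have h2 := h1 (π 0)
    have h3 := h1 (π 1)
    rw [Equiv.symm_apply_apply] at h2 h3
    simp only [Matrix.cons_val_zero, Matrix.cons_val_one, neg_eq_zero] at h2 h3
    exact ⟨h3, h2⟩

/-- **Module REL.** -/
theorem canonical_rel (hm : ∀ i, 1 ≤ m i) (hμ : μ 0 + μ 1 + μ 2 = 0)
    (π : Equiv.Perm (Fin 3)) {c : ℝ} (hc : 0 < c)
    (h : ∀ i, m' (π i) = m i ∧ μ' (π i) = c * μ i) :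
    ConfEqAt (mForm m μ) (mFam m μ) (mU m μ) 0 (mForm m' μ') (mFam m' μ') (mU m' μ') 0 := by
  have hμ' : μ' 0 + μ' 1 + μ' 2 = 0 := by
    have h1 : ∑ i, μ' (π i) = ∑ i, μ' i := Equiv.sum_comp π μ'
    rw [Fin.sum_univ_three, Fin.sum_univ_three, (h 0).2, (h 1).2, (h 2).2] at h1
    rw [← h1]
    linear_combination c * hμ
  have hm' : ∀ i, 1 ≤ m' i := by
    intro i
    have h1 := (h (π.symm i)).1
    rw [Equiv.apply_symm_apply] at h1
    rw [h1]
    exact hm _
  set r : ℝ := √c with hrdef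
  have hr0 : 0 < r := Real.sqrt_pos.2 hc
  have hr : r ≠ 0 := hr0.ne'
  have hrr : r * r = c := Real.mul_self_sqrt hc.le
  have hT := rel_tripleHyp (m' := m') (μ' := μ') hμ' hm' π hr
  have hrank : ∀ i, finrank ℝ (fderiv ℝ (relB m' μ' π r i) 0).toLinearMap.range = m i := by
    intro i
    rw [relB_fderiv]
    have h1 := rel_finrank (m := m') (μ := μ') hμ' (π i)
    rw [(mb_hasFDerivAt_zero (m := m') (μ := μ') (π i)).fderiv, (h i).1] at h1
    have h2 : (r • relD m' (π i) : MX m' →L[ℝ] MV m').toLinearMap =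
        r • (relD m' (π i)).toLinearMap := rfl
    rw [h2, LinearMap.range_smul _ _ hr]
    exact h1
  obtain ⟨μ'', hsum, hconf, hn⟩ := hT.confEq hrank
  have hμeq : μ'' = μ := by
    funext i
    have h1 := hn i (r⁻¹ • mN m' μ' (π i)) ⟨?_, ?_, ?_⟩
    · rw [h1, map_smul, map_smul, LinearMap.smul_apply, mN_mN hμ', if_pos rfl, (h i).2,
        smul_eq_mul, smul_eq_mul, ← hrr]
      field_simp
    · intro v
      rw [relB_fderiv, _root_.smul_apply, relD_apply, map_smul, map_smul,
        LinearMap.smul_apply, mForm_mN_single, smul_zero, smul_zero]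
    · intro j hj
      unfold relB
      rw [← smul_sub, map_smul, map_smul, LinearMap.smul_apply, mb_zero, mb_zero,
        mN_mBase _ _ (fun e => hj (π.injective e)), smul_smul, mul_inv_cancel₀ hr, one_smul]
    · refine Filter.Eventually.of_forall fun x => ⟨x, r * r * yfun (μ' (π i)) (‖x (π i)‖ ^ 2), ?_⟩
      rw [relB_fderiv, _root_.smul_apply, relD_apply]
      unfold relB
      rw [mb_zero]
      unfold mb
      have h5 : (r * r * yfun (μ' (π i)) (‖x (π i)‖ ^ 2)) • r⁻¹ • mN m' μ' (π i) =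
          r • (yfun (μ' (π i)) (‖x (π i)‖ ^ 2) • mN m' μ' (π i)) := by
        rw [smul_smul, smul_smul]
        congr 1
        field_simp
      rw [h5]
      module
  subst hμeq
  rw [rel_triFam π hr] at hconf
  exact hconf.symm

end

end DupinClass
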