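import Pool.Agent.H31.Dupin.TubeModel

open scoped RealInnerProductSpace ContDiff Topology
open Module Set

namespace DupinClass

section

variable {P : Type} [NormedAddCommGroup P] [InnerProductSpace ℝ P] [FiniteDimensional ℝ P]

theorem norm_sph {α : P} (h : ‖α‖ < 1) : ‖sph α‖ = 1 := by
  have h1 : ‖sph α‖ ^ 2 = 1 := by
    rw [← real_inner_self_eq_norm_sq, sph, WithLp.prod_inner_apply]
    simp only [real_inner_self_eq_norm_sq, Real.norm_eq_abs, sq_abs]
    rw [Real.sq_sqrt]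
    · ring
    · nlinarith [norm_nonneg α]
  nlinarith [norm_nonneg (sph α)]

theorem sqrt_pos_of_lt {A : Type} [NormedAddCommGroup A] {β : A} (h : ‖β‖ < 1) :
    0 < √(1 - ‖β‖ ^ 2) :=
  Real.sqrt_pos.2 (by nlinarith [norm_nonneg β])

theorem sq_sqrt_of_lt {A : Type} [NormedAddCommGroup A] {β : A} (h : ‖β‖ < 1) :
    √(1 - ‖β‖ ^ 2) ^ 2 = 1 - ‖β‖ ^ 2 :=
  Real.sq_sqrt (by nlinarith [norm_nonneg β])

theorem hasFDerivAt_sph {α : P} (h : ‖α‖ < 1) :
    ∃ L : P →L[ℝ] WithLp 2 (ℝ × P),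
      HasFDerivAt sph L α ∧
        ∀ v, L v = WithLp.toLp 2 (-(⟪α, v⟫ / √(1 - ‖α‖ ^ 2)), v) := by
  have h1 : HasFDerivAt (fun x : P => ‖x‖ ^ 2) (2 • (innerSL ℝ α)) α :=
    (hasStrictFDerivAt_norm_sq α).hasFDerivAt
  have h2 : HasFDerivAt (fun x : P => 1 - ‖x‖ ^ 2) (-(2 • (innerSL ℝ α))) α :=
    h1.const_sub 1
  have h3 := h2.sqrt (by nlinarith [norm_nonneg α])
  have h4 := h3.prodMk (hasFDerivAt_id α)
  have h5 := HasFDerivAt.comp (f := fun x : P => (√(1 - ‖x‖ ^ 2), id x))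
    (g := fun y => (WithLp.prodContinuousLinearEquiv 2 ℝ ℝ (P)).symm y) α
    (ContinuousLinearEquiv.hasFDerivAt _) h4
  refine ⟨_, h5, ?_⟩
  intro v
  apply WithLp.ofLp_injective 2
  refine Prod.ext ?_ ?_
  · simp
    have := (sqrt_pos_of_lt h).ne'
    field_simp
  · simp

/-- the embedding of the first factor -/
noncomputable def modelI (P Q R : Type) [NormedAddCommGroup P] [InnerProductSpace ℝ P] [FiniteDimensional ℝ P]
    [NormedAddCommGroup Q] [InnerProductSpace ℝ Q] [FiniteDimensional ℝ Q]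
    [NormedAddCommGroup R] [InnerProductSpace ℝ R] [FiniteDimensional ℝ R] : WithLp 2 (ℝ × P) →ₗ[ℝ]
    (ℝ × WithLp 2 (ℝ × WithLp 2 (WithLp 2 (WithLp 2 (ℝ × P) ×
      Q) × R)) × ℝ) where
  toFun ξ := (0, WithLp.toLp 2 (0, WithLp.toLp 2 (WithLp.toLp 2 (ξ, 0), 0)), 0)
  map_add' := by
    intro x y
    refine Prod.ext ?_ (Prod.ext ?_ ?_)
    · simp
    · apply WithLp.ofLp_injective 2
      refine Prod.ext ?_ ?_
      · simp
      · apply WithLp.ofLp_injective 2
        refine Prod.ext ?_ ?_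
        · apply WithLp.ofLp_injective 2
          refine Prod.ext ?_ ?_
          · simp
          · simp
        · simp
    · simp
  map_smul' := by
    intro t x
    refine Prod.ext ?_ (Prod.ext ?_ ?_)
    · simp
    · apply WithLp.ofLp_injective 2
      refine Prod.ext ?_ ?_
      · simp
      · apply WithLp.ofLp_injective 2
        refine Prod.ext ?_ ?_
        · apply WithLp.ofLp_injective 2
          refine Prod.ext ?_ ?_
          · simp
          · simp
        · simp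
    · simp

variable {Q R : Type} [NormedAddCommGroup Q] [InnerProductSpace ℝ Q] [FiniteDimensional ℝ Q]
    [NormedAddCommGroup R] [InnerProductSpace ℝ R] [FiniteDimensional ℝ R]

theorem lieForm_modelI_tubeJ (r : ℝ) (ξ : WithLp 2 (ℝ × P))
    (v : ℝ × WithLp 2 (ℝ × WithLp 2 (WithLp 2 (ℝ × P) ×
      Q)) × ℝ) :
    lieForm _ (modelI P Q R ξ) (tubeJ (WithLp 2 (WithLp 2 (ℝ × P) ×
      Q)) (R) r v)
      = ⟪ξ, (WithLp.ofLp (WithLp.ofLp v.2.1).2).1⟫ := by
  simp only [lieForm, LinearMap.mk₂_apply, modelI, tubeJ, LinearMap.coe_mk, AddHom.coe_mk]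
  rw [WithLp.prod_inner_apply, WithLp.prod_inner_apply, WithLp.prod_inner_apply]
  simp

theorem lieForm_modelI_tubeS (r a : ℝ) (η : R)
    (ξ : WithLp 2 (ℝ × P)) :
    lieForm _ (modelI P Q R ξ) (tubeS (WithLp 2 (WithLp 2 (ℝ × P) ×
      Q)) r a η) = 0 := by
  simp only [lieForm, LinearMap.mk₂_apply, modelI, tubeS, LinearMap.coe_mk, AddHom.coe_mk]
  rw [WithLp.prod_inner_apply, WithLp.prod_inner_apply, WithLp.prod_inner_apply]
  simp

theorem lieForm_modelI_modelI (ξ ξ' : WithLp 2 (ℝ × P)) :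
    lieForm _ (modelI P Q R ξ) (modelI P Q R ξ') = ⟪ξ, ξ'⟫ := by
  simp only [lieForm, LinearMap.mk₂_apply, modelI, LinearMap.coe_mk, AddHom.coe_mk]
  rw [WithLp.prod_inner_apply, WithLp.prod_inner_apply, WithLp.prod_inner_apply]
  simp

theorem kmap_sph (κ : P × Q → ℝ) {ρ : ℝ} (hρ : 0 < ρ)
    (z : P × Q) :
    (WithLp.ofLp (WithLp.ofLp ((modelW P Q hρ).kmap κ z).2.1).2).1
      = (κ z * (1 + ρ * √(1 - ‖z.2‖ ^ 2)) + √(1 - ‖z.2‖ ^ 2)) • sph z.1 := by
  simp [EHyp.kmap, ptSph, plSph, modelW, smul_smul, add_smul]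
  rw [← add_smul]
  congr 1
  ring

theorem kmap_const {ρ : ℝ} (hρ : 0 < ρ) {z : P × Q}
    (hz : z ∈ (modelW P Q hρ).U) :
    (modelW P Q hρ).kmap (fun _ => -1 / ρ) z = (-1 / ρ + ρ / 2,
      WithLp.toLp 2 (-ρ / 2, WithLp.toLp 2 ((-1 / ρ) • sph z.1, 0)), 1) := by
  have hz1 : ‖z.1‖ < 1 := hz.1
  have hz2 : ‖z.2‖ < 1 := hz.2
  have hs : ⟪sph z.1, sph z.1⟫ = 1 := by
    rw [real_inner_self_eq_norm_sq, norm_sph hz1]; norm_num
  have hx : √(1 - ‖z.2‖ ^ 2) ^ 2 = 1 - ‖z.2‖ ^ 2 := sq_sqrt_of_lt hz2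
  set x := √(1 - ‖z.2‖ ^ 2) with hxdef
  have hww : ‖(modelW P Q hρ).f z‖ ^ 2 = 1 + 2 * ρ * x + ρ ^ 2 := by
    rw [← real_inner_self_eq_norm_sq]
    simp only [modelW]
    rw [WithLp.prod_inner_apply]
    simp only [inner_smul_left, inner_smul_right, RCLike.conj_to_real, hs,
      real_inner_self_eq_norm_sq z.2]
    rw [← hxdef]
    have : ‖z.2‖ ^ 2 = 1 - x ^ 2 := by linarith
    rw [this]; ring
  have hwN : ⟪(modelW P Q hρ).f z, (modelW P Q hρ).ν z⟫ = x + ρ := by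
    simp only [modelW]
    rw [WithLp.prod_inner_apply]
    simp only [inner_smul_left, inner_smul_right, RCLike.conj_to_real, hs,
      real_inner_self_eq_norm_sq z.2]
    rw [← hxdef]
    have : ‖z.2‖ ^ 2 = 1 - x ^ 2 := by linarith
    rw [this]; ring
  have hρ' := hρ.ne'
  simp only [EHyp.kmap, ptSph, plSph, hww, hwN]
  refine Prod.ext ?_ (Prod.ext ?_ ?_)
  · simp
    field_simp
    ring
  · apply WithLp.ofLp_injective 2
    refine Prod.ext ?_ ?_
    · simp
      field_simp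
      ring
    · apply WithLp.ofLp_injective 2
      refine Prod.ext ?_ ?_
      · simp only [modelW]
        simp only [WithLp.ofLp_add, WithLp.ofLp_smul, Prod.fst_add, Prod.smul_fst, Prod.snd_add,
          Prod.smul_snd, smul_smul, ← add_smul]
        congr 1
        rw [← hxdef]
        field_simp
        ring
      · simp only [modelW]
        simp only [WithLp.ofLp_add, WithLp.ofLp_smul, Prod.fst_add, Prod.smul_fst, Prod.snd_add,
          Prod.smul_snd, smul_smul]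
        rw [div_mul_cancel₀ _ hρ']
        simp
  · simp


/-- **Module MC.** -/
theorem modelT_confEq (hp : 1 ≤ finrank ℝ P) (hq : 1 ≤ finrank ℝ Q) (hm : 1 ≤ finrank ℝ R) {ρ r : ℝ} (hρ : 0 < ρ)
    (hr : 0 < r) {y} (hy : y ∈ (modelT P Q R hρ hr).U) :
    ConfEqAt (lieForm _) (modelT P Q R hρ hr).toSphere.lift (modelT P Q R hρ hr).U y
      (mForm ![finrank ℝ P, finrank ℝ Q, finrank ℝ R] ![ρ ^ 2, 1 - ρ ^ 2, -1]) (mFam ![finrank ℝ P, finrank ℝ Q, finrank ℝ R] ![ρ ^ 2, 1 - ρ ^ 2, -1])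
      (mU ![finrank ℝ P, finrank ℝ Q, finrank ℝ R] ![ρ ^ 2, 1 - ρ ^ 2, -1]) 0 := by
  have hy1 : y.1 ∈ (modelW P Q hρ).U := hy.1
  have hy11 : ‖y.1.1‖ < 1 := hy1.1
  have hy2 : ‖y.2‖ < 1 := hy.2
  have hu : ContDiffOn ℝ ∞ (Prod.fst : ((P × Q) ×
      R) → _) (modelT P Q R hρ hr).U := contDiff_fst.contDiffOn
  have hη : ContDiffOn ℝ ∞ (Prod.snd : ((P × Q) ×
      R) → _) (modelT P Q R hρ hr).U := contDiff_snd.contDiffOn
  have ha : ContDiffOn ℝ ∞ (fun z : ((P × Q) ×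
      R) => √(1 - ‖z.2‖ ^ 2)) (modelT P Q R hρ hr).U := by
    refine ContDiffOn.sqrt ?_ ?_
    · exact (contDiff_const.sub (contDiff_snd.norm_sq ℝ)).contDiffOn
    · intro z hz
      have hz2 : ‖z.2‖ < 1 := hz.2
      have : 0 < 1 - ‖z.2‖ ^ 2 := by nlinarith [norm_nonneg z.2]
      exact this.ne'
  have hG : 1 ≤ finrank ℝ (R) := by
    exact hm
  have hW := modelW_twoDupin P Q hρ hp hq
  obtain ⟨μ, hμ, hμ2, hconf, hn⟩ := tube_confEq (X := (P ×
    Q) × R) (G := R) hW hr hG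
    (T := modelT P Q R hρ hr) (u := Prod.fst) (a := fun z => √(1 - ‖z.2‖ ^ 2)) (η := Prod.snd)
    hu ha hη (by
      intro z hz
      have hz2 : ‖z.2‖ < 1 := hz.2
      refine ⟨hz.1, ?_, rfl, rfl⟩
      change √(1 - ‖z.2‖ ^ 2) ^ 2 + ‖z.2‖ ^ 2 = 1
      rw [sq_sqrt_of_lt hz2]
      ring) (x₀ := y) hy (sqrt_pos_of_lt hy2).ne' (m := ![finrank ℝ P, finrank ℝ Q, finrank ℝ R])
    (by simpa using modelW_prin₁ P Q hρ hy1)
    (by simpa using modelW_prin₂ P Q hρ hy1)
    (by simp)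
  have hs1 : ‖sph y.1.1‖ = 1 := norm_sph hy11
  have hs2 : ⟪sph y.1.1, sph y.1.1⟫ = 1 := by
    rw [real_inner_self_eq_norm_sq, hs1]; norm_num
  have hρ' := hρ.ne'
  set z₁ : P × Q → _ := fun z =>
    tubeJ (WithLp 2 (WithLp 2 (ℝ × P) × Q))
      (R) r ((modelW P Q hρ).kmap (fun _ => -1 / ρ) z) with hz₁
  have hz₁diff : ∀ z ∈ (modelW P Q hρ).U, ∀ z' ∈ (modelW P Q hρ).U,
      z₁ z - z₁ z' = modelI P Q R ((-1 / ρ) • (sph z.1 - sph z'.1)) := by
    intro z hz z' hz'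
    rw [hz₁]
    simp only
    rw [← map_sub, kmap_const hρ hz, kmap_const hρ hz']
    refine Prod.ext ?_ (Prod.ext ?_ ?_)
    · simp [tubeJ, modelI]
    · apply WithLp.ofLp_injective 2
      refine Prod.ext ?_ ?_
      · simp [tubeJ, modelI]
      · apply WithLp.ofLp_injective 2
        refine Prod.ext ?_ ?_
        · apply WithLp.ofLp_injective 2
          refine Prod.ext ?_ ?_
          · simp [tubeJ, modelI, smul_sub]
          · simp [tubeJ, modelI]
        · simp [tubeJ, modelI]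
    · simp [tubeJ, modelI]
  obtain ⟨L, hL, hLv⟩ := hasFDerivAt_sph hy11
  have hnhds : (modelW P Q hρ).U ∈ 𝓝 y.1 := (modelW P Q hρ).isOpen_U.mem_nhds hy1
  have hder : ∀ v, fderiv ℝ z₁ y.1 v = modelI P Q R ((-1 / ρ) • L v.1) := by
    intro v
    have e1 : HasFDerivAt (fun z : P × Q => sph z.1)
        (L.comp (ContinuousLinearMap.fst ℝ _ _)) y.1 :=
      HasFDerivAt.comp (f := Prod.fst) y.1 hL hasFDerivAt_fst
    have e2 := ((e1.sub_const (sph y.1.1)).const_smul (-1 / ρ))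
    have e3 := HasFDerivAt.comp (f := fun z : P × Q =>
      (-1 / ρ) • (sph z.1 - sph y.1.1)) (g := fun ξ => (modelI P Q R).toContinuousLinearMap ξ) y.1
      (ContinuousLinearMap.hasFDerivAt _) e2
    have e4 := e3.add_const (z₁ y.1)
    have e5 : HasFDerivAt z₁ _ y.1 := e4.congr_of_eventuallyEq (by
      filter_upwards [hnhds] with z hz
      have := hz₁diff z hz y.1 hy1
      simp only [Function.comp]
      rw [← sub_eq_iff_eq_add]
      exact this)
    rw [e5.fderiv]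
    rfl
  have hμ0 : μ 0 = ρ ^ 2 := by
    have e := hn (modelI P Q R ((-ρ) • sph y.1.1)) ?_ ?_ ?_ ?_
    · rw [e, lieForm_modelI_modelI, inner_smul_left, inner_smul_right, hs2]
      simp
      ring
    · intro v
      change lieForm _ _ (fderiv ℝ z₁ y.1 v) = 0
      rw [hder, lieForm_modelI_modelI, inner_smul_left, inner_smul_right, hLv, sph,
        WithLp.prod_inner_apply]
      have := (sqrt_pos_of_lt hy11).ne'
      simp
      field_simp
      simp
    · rw [map_sub, lieForm_modelI_tubeJ, lieForm_modelI_tubeJ, kmap_sph, kmap_sph]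
      have hx : 0 < √(1 - ‖y.1.2‖ ^ 2) := sqrt_pos_of_lt hy1.2
      have hx' : 1 + ρ * √(1 - ‖y.1.2‖ ^ 2) ≠ 0 := by positivity
      have hz : modelκ P Q ρ y.1 * (1 + ρ * √(1 - ‖y.1.2‖ ^ 2)) + √(1 - ‖y.1.2‖ ^ 2) = 0 := by
        unfold modelκ
        field_simp
        ring
      rw [hz, zero_smul, inner_zero_right, sub_zero, inner_smul_left, inner_smul_right, hs2]
      simp
      field_simp
      ring
    · rw [map_add, lieForm_modelI_tubeJ, lieForm_modelI_tubeS, kmap_sph, inner_smul_left,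
        inner_smul_right, hs2]
      simp
      field_simp
      ring
    · change ∀ᶠ z in 𝓝 y.1, ∃ v, ∃ t : ℝ, z₁ z - z₁ y.1 = fderiv ℝ z₁ y.1 v + t • _
      filter_upwards [hnhds] with z hz
      set x := √(1 - ‖y.1.1‖ ^ 2) with hx
      set x' := √(1 - ‖z.1‖ ^ 2) with hx'
      have hxpos : 0 < x := sqrt_pos_of_lt hy11
      have hxsq : x ^ 2 = 1 - ‖y.1.1‖ ^ 2 := sq_sqrt_of_lt hy11
      set c : ℝ := x * x' + ⟪y.1.1, z.1⟫ - 1 with hc
      refine ⟨(z.1 - y.1.1 - c • y.1.1, 0), c / ρ ^ 2, ?_⟩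
      rw [hz₁diff z hz y.1 hy1, hder, ← LinearMap.map_smul (modelI P Q R) (c / ρ ^ 2),
        ← LinearMap.map_add]
      congr 1
      rw [hLv]
      apply WithLp.ofLp_injective 2
      refine Prod.ext ?_ ?_
      · simp only [sph, WithLp.ofLp_smul, WithLp.ofLp_sub, WithLp.ofLp_add, Prod.smul_fst,
          Prod.fst_sub, Prod.fst_add, smul_eq_mul, inner_sub_right, inner_smul_right,
          real_inner_self_eq_norm_sq]
        rw [← hx, ← hx']
        have hn1 : ‖y.1.1‖ ^ 2 = 1 - x ^ 2 := by linarith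
        rw [hn1]
        field_simp
        rw [hc]
        ring
      · simp only [sph, WithLp.ofLp_smul, WithLp.ofLp_sub, WithLp.ofLp_add, Prod.smul_snd,
          Prod.snd_sub, Prod.snd_add, smul_sub, smul_smul]
        have e1 : c / ρ ^ 2 * -ρ = -1 / ρ * c := by field_simp
        rw [e1]
        abel
  have hμe : μ = ![ρ ^ 2, 1 - ρ ^ 2, -1] := by
    funext i
    fin_cases i
    · simpa using hμ0
    · simp
      linarith
    · simpa using hμ2
  rw [hμe] at hconf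
  exact hconf

end

end DupinClass
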