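import Pool.Agent.H31.Dupin.RedDef
import Pool.Agent.H31.Dupin.TM3_pf
import Pool.Agent.H31.Dupin.Inv
import Pool.Agent.H31.Dupin.Rel

open scoped RealInnerProductSpace ContDiff Topology
open Module Set

namespace DupinClass

section

variable {X H : Type} [NormedAddCommGroup X] [NormedSpace ℝ X] [FiniteDimensional ℝ X]
  [NormedAddCommGroup H] [InnerProductSpace ℝ H] [FiniteDimensional ℝ H]

omit [FiniteDimensional ℝ X] [FiniteDimensional ℝ H] in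
theorem ProperDupinWith.properDupin {f ν : X → H} {U : Set X} {g : ℕ} {m : Fin g → ℕ}
    (h : ProperDupinWith f ν U m) : ProperDupin f ν U g := by
  obtain ⟨κ, h1, h2, h3, h4, h5, h6⟩ := h
  refine ⟨κ, h1, h2, fun x hx i hb => ?_, h5, h6⟩
  have := h4 x hx i
  rw [hb, finrank_bot] at this
  have := h3 i
  omega

/-- A tube which is Lie equivalent to a hypersurface with three principal curvatures has `a ≠ 0`. -/
theorem tube_a_ne_zero {M : SHyp X H} (h3 : ProperDupin M.f M.ν M.U 3) {x : X} (hx : x ∈ M.U)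
    {Y E G X' : Type} [NormedAddCommGroup Y] [NormedSpace ℝ Y] [FiniteDimensional ℝ Y]
    [NormedAddCommGroup E] [InnerProductSpace ℝ E] [FiniteDimensional ℝ E]
    [NormedAddCommGroup G] [InnerProductSpace ℝ G] [FiniteDimensional ℝ G]
    [NormedAddCommGroup X'] [NormedSpace ℝ X'] [FiniteDimensional ℝ X']
    {W : EHyp Y E} {r : ℝ} (hr : 0 < r)
    {T : EHyp X' (WithLp 2 (E × G))} {u : X' → Y} {a : X' → ℝ} {η : X' → G}
    (hu : ContDiffOn ℝ ∞ u T.U) (ha : ContDiffOn ℝ ∞ a T.U) (hη : ContDiffOn ℝ ∞ η T.U)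
    (h : ∀ x ∈ T.U, u x ∈ W.U ∧ a x ^ 2 + ‖η x‖ ^ 2 = 1 ∧
      T.f x = WithLp.toLp 2 (W.f (u x) + (r * a x) • W.ν (u x), r • η x) ∧
      T.ν x = WithLp.toLp 2 (a x • W.ν (u x), η x)) {x' : X'} (hx' : x' ∈ T.U)
    (hL : M.LieEq x T.toSphere x') : a x' ≠ 0 := by
  intro ha0
  obtain ⟨κ, -, hne, hprin, -, -⟩ := h3
  obtain ⟨A, hA, φ, ψ, N, N', hd, hxN, hN, hN', hφ, hLL⟩ := hL
  have key : ∀ i : Fin 3, ∃ k c : ℝ, (k = 0 ∨ k = -1 / r) ∧ c ≠ 0 ∧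
      A (κ i x, κ i x • M.f x + M.ν x, 1) = c • ((1 + ‖T.f x'‖ ^ 2) / 2 * k + ⟪T.f x', T.ν x'⟫,
        ((1 + ‖T.f x'‖ ^ 2) / 2 * k + ⟪T.f x', T.ν x'⟫) • T.toSphere.f x' + T.toSphere.ν x', 1) := by
    intro i
    have h1 := M.curvVec hx (hprin x hx i)
    have h2 := h1.map A hd hxN hLL
    rw [hφ] at h2
    obtain ⟨k, c, hk, hc, hv⟩ := T.toSphere.exists_of_curvVec hx' h2
    have hpos : (1 + ‖T.f x'‖ ^ 2) / 2 ≠ 0 := by positivity
    have hk' : k = (1 + ‖T.f x'‖ ^ 2) / 2 * ((k - ⟪T.f x', T.ν x'⟫) / ((1 + ‖T.f x'‖ ^ 2) / 2))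
        + ⟪T.f x', T.ν x'⟫ := by
      rw [mul_div_cancel₀ _ hpos]; ring
    rw [hk', T.prin_toSphere hx'] at hk
    refine ⟨_, c, tube_prin_of_eq_zero hr hu ha hη h hx' ha0 hk, hc, ?_⟩
    rw [← hk']
    exact hv
  choose k c hk hc hv using key
  obtain ⟨i, j, hij, hkij⟩ : ∃ i j : Fin 3, i ≠ j ∧ k i = k j := by
    rcases hk 0 with h0 | h0 <;> rcases hk 1 with h1 | h1 <;> rcases hk 2 with h2 | h2
    · exact ⟨0, 1, by decide, by rw [h0, h1]⟩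
    · exact ⟨0, 1, by decide, by rw [h0, h1]⟩
    · exact ⟨0, 2, by decide, by rw [h0, h2]⟩
    · exact ⟨1, 2, by decide, by rw [h1, h2]⟩
    · exact ⟨1, 2, by decide, by rw [h1, h2]⟩
    · exact ⟨0, 2, by decide, by rw [h0, h2]⟩
    · exact ⟨0, 1, by decide, by rw [h0, h1]⟩
    · exact ⟨0, 1, by decide, by rw [h0, h1]⟩
  have h1 : c j • A (κ i x, κ i x • M.f x + M.ν x, 1)
      = c i • A (κ j x, κ j x • M.f x + M.ν x, 1) := by
    rw [hv i, hv j, hkij, smul_smul, smul_smul, mul_comm]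
  rw [← map_smul, ← map_smul] at h1
  have h2 := A.injective h1
  have h3 := congrArg (fun v : ℝ × H × ℝ => v.2.2) h2
  have h4 := congrArg (fun v : ℝ × H × ℝ => v.1) h2
  simp only [Prod.smul_mk, smul_eq_mul, mul_one] at h3 h4
  rw [h3] at h4
  exact hne x hx i j hij (mul_left_cancel₀ (hc i) h4)

/-- Lie equivalence of hypersurfaces is a conformal equivalence. -/
theorem SHyp.LieEq.confEqAt {X' H' : Type} [NormedAddCommGroup X'] [NormedSpace ℝ X']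
    [NormedAddCommGroup H'] [InnerProductSpace ℝ H'] [FiniteDimensional ℝ H']
    {M : SHyp X H} {x : X} {M' : SHyp X' H'} {x' : X'}
    (hX : 1 ≤ finrank ℝ X) (h : M.LieEq x M' x') :
    ConfEqAt (lieForm H) M.lift M.U x (lieForm H') M'.lift M'.U x' :=
  LieEqAt.confEqAt h fun A hA => lieForm_conf (by rw [M.dim]; omega) A hA

omit [FiniteDimensional ℝ X] in
theorem SHyp.sum_of_confEqAt {M : SHyp X H} {x : X} {m : Fin 3 → ℕ} {μ : Fin 3 → ℝ}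
    (h : ConfEqAt (lieForm H) M.lift M.U x (mForm m μ) (mFam m μ) (mU m μ) 0) :
    m 0 + m 1 + m 2 = finrank ℝ X := by
  obtain ⟨A, -⟩ := h
  have h1 := LinearEquiv.finrank_eq A
  rw [finrank_MV, finrank_MX, Module.finrank_prod, Module.finrank_prod, Module.finrank_self,
    M.dim] at h1
  omega

/-- Every reducible hypersurface is equivalent to a canonical model with `μ₂ = -1`, `μ₀ > 0`. -/
theorem reducible_confEqAt (M : SHyp X H) (h3 : ProperDupin M.f M.ν M.U 3) {x : X} (hx : x ∈ M.U)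
    (hM : M.ReducibleAt x) :
    ∃ p q m : ℕ, 1 ≤ p ∧ 1 ≤ q ∧ 1 ≤ m ∧ p + q + m = finrank ℝ X ∧ ∃ (ρ : ℝ), 0 < ρ ∧
      ConfEqAt (lieForm H) M.lift M.U x (mForm ![p, q, m] ![ρ ^ 2, 1 - ρ ^ 2, -1])
        (mFam ![p, q, m] ![ρ ^ 2, 1 - ρ ^ 2, -1]) (mU ![p, q, m] ![ρ ^ 2, 1 - ρ ^ 2, -1]) 0 := by
  have hX : 1 ≤ finrank ℝ X := by
    obtain ⟨κ, -, -, hprin, -, -⟩ := h3
    by_contra hlt
    have h0 : finrank ℝ X = 0 := by omega
    have : Subsingleton X := Module.finrank_zero_iff.mp h0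
    exact hprin x hx 0 (Subsingleton.elim _ _)
  obtain ⟨W, hW, hG, r, hr, T, ⟨u, a, η, hu, ha, hη, h⟩, x', hx', hL⟩ := hM
  obtain ⟨κ₁, κ₂, hW2⟩ := hW.twoDupin
  have ha0 := tube_a_ne_zero h3 hx hr hu ha hη h hx' hL
  have hC := hL.confEqAt hX
  obtain ⟨μ, hμ, hμ2, hT, -⟩ := tube_confEq hW2 hr hG hu ha hη h hx' ha0
    (m := ![finrank ℝ (prin W.f W.ν (κ₂ (u x')) (u x')),
      finrank ℝ (prin W.f W.ν (κ₁ (u x')) (u x')), finrank ℝ _]) rfl rfl rfl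
  have hMC := hC.trans hT
  have hm := SHyp.sum_of_confEqAt hMC
  have hp1 : 1 ≤ finrank ℝ (prin W.f W.ν (κ₁ (u x')) (u x')) :=
    Submodule.one_le_finrank_iff.mpr (hW2.ne_bot₁ _ (h x' hx').1)
  have hp2 : 1 ≤ finrank ℝ (prin W.f W.ν (κ₂ (u x')) (u x')) :=
    Submodule.one_le_finrank_iff.mpr (hW2.ne_bot₂ _ (h x' hx').1)
  simp only [Matrix.cons_val_zero, Matrix.cons_val_one, Matrix.cons_val] at hm
  rcases lt_or_ge 0 (μ 0) with h0 | h0
  · refine ⟨_, _, _, hp2, hp1, hG, hm, √(μ 0), Real.sqrt_pos.mpr h0, ?_⟩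
    have hμe : μ = ![√(μ 0) ^ 2, 1 - √(μ 0) ^ 2, -1] := by
      rw [Real.sq_sqrt h0.le]
      funext i
      fin_cases i
      · rfl
      · simp only [Fin.mk_one, Matrix.cons_val_one, Matrix.cons_val_zero]; linarith
      · simpa using hμ2
    rw [hμe] at hMC
    convert hMC using 2
  · have h1 : 0 < μ 1 := by linarith
    refine ⟨_, _, _, hp1, hp2, hG, by omega, √(μ 1), Real.sqrt_pos.mpr h1, ?_⟩
    refine hMC.trans (canonical_rel ?_ hμ (Equiv.swap 0 1) one_pos ?_)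
    · intro i
      fin_cases i
      · exact hp2
      · exact hp1
      · exact hG
    · intro i
      rw [Real.sq_sqrt h1.le]
      fin_cases i
      · simp; linarith
      · simp
      · have : (Equiv.swap (0 : Fin 3) 1) 2 = 2 := by decide
        simp [this, hμ2]

variable {P Q R : Type} [NormedAddCommGroup P] [InnerProductSpace ℝ P] [FiniteDimensional ℝ P]
  [NormedAddCommGroup Q] [InnerProductSpace ℝ Q] [FiniteDimensional ℝ Q]
  [NormedAddCommGroup R] [InnerProductSpace ℝ R] [FiniteDimensional ℝ R]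

theorem modelT_confEq_of {p q m : ℕ} (hP : finrank ℝ P = p) (hQ : finrank ℝ Q = q)
    (hR : finrank ℝ R = m) (hp : 1 ≤ p) (hq : 1 ≤ q) (hm : 1 ≤ m) {ρ r : ℝ} (hρ : 0 < ρ)
    (hr : 0 < r) {y} (hy : y ∈ (modelT P Q R hρ hr).U) :
    ConfEqAt (lieForm _) (modelT P Q R hρ hr).toSphere.lift (modelT P Q R hρ hr).U y
      (mForm ![p, q, m] ![ρ ^ 2, 1 - ρ ^ 2, -1]) (mFam ![p, q, m] ![ρ ^ 2, 1 - ρ ^ 2, -1])
      (mU ![p, q, m] ![ρ ^ 2, 1 - ρ ^ 2, -1]) 0 := by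
  subst hP hQ hR
  exact modelT_confEq hp hq hm hρ hr hy

theorem main₁ (M : SHyp X H) (h3 : ProperDupin M.f M.ν M.U 3) {x : X} (hx : x ∈ M.U)
    (hM : M.ReducibleAt x) :
    ∃ p q m : ℕ, 1 ≤ p ∧ 1 ≤ q ∧ 1 ≤ m ∧ p + q + m = finrank ℝ X ∧ ∃ (ρ : ℝ) (hρ : 0 < ρ),
      ∀ (r : ℝ) (hr : 0 < r), ∀ y ∈ (modelT (EuclideanSpace ℝ (Fin p)) (EuclideanSpace ℝ (Fin q))
        (EuclideanSpace ℝ (Fin m)) hρ hr).U,
        M.LieEq x (modelT (EuclideanSpace ℝ (Fin p)) (EuclideanSpace ℝ (Fin q))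
        (EuclideanSpace ℝ (Fin m)) hρ hr).toSphere y := by
  obtain ⟨p, q, m, hp, hq, hm, hsum, ρ, hρ, hC⟩ := reducible_confEqAt M h3 hx hM
  refine ⟨p, q, m, hp, hq, hm, hsum, ρ, hρ, fun r hr y hy => ?_⟩
  exact (hC.trans (modelT_confEq_of (finrank_euclideanSpace_fin) (finrank_euclideanSpace_fin)
    (finrank_euclideanSpace_fin) hp hq hm hρ hr hy).symm).lieEqAt

theorem main₂ (hp : 1 ≤ finrank ℝ P) (hq : 1 ≤ finrank ℝ Q) (hm : 1 ≤ finrank ℝ R)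
    {ρ r : ℝ} (hρ : 0 < ρ) (hr : 0 < r) :
    ProperDupinWith (modelT P Q R hρ hr).toSphere.f (modelT P Q R hρ hr).toSphere.ν
        (modelT P Q R hρ hr).toSphere.U ![finrank ℝ P, finrank ℝ Q, finrank ℝ R] ∧
      ∀ y ∈ (modelT P Q R hρ hr).U, (modelT P Q R hρ hr).toSphere.ReducibleAt y := by
  have h1 := (modelW P Q hρ).tube_properDupin R hr
    (modelW_prin_pos P Q hρ) hm (modelW_properDupin P Q hρ hp hq)
  refine ⟨EHyp.properDupinWith_toSphere _ h1, fun y hy => ?_⟩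
  exact .tube (modelW P Q hρ) (modelW_properDupin P Q hρ hp hq).properDupin hm r hr
    (modelT P Q R hρ hr) (EHyp.tube_isTube _ _ _ _) y hy
    (ConfEqAt.refl (modelT P Q R hρ hr).isOpen_U hy).lieEqAt

variable {P' Q' R' : Type} [NormedAddCommGroup P'] [InnerProductSpace ℝ P']
  [FiniteDimensional ℝ P'] [NormedAddCommGroup Q'] [InnerProductSpace ℝ Q']
  [FiniteDimensional ℝ Q'] [NormedAddCommGroup R'] [InnerProductSpace ℝ R']
  [FiniteDimensional ℝ R']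

theorem main₃ {p q m p' q' m' : ℕ} (hP : finrank ℝ P = p) (hQ : finrank ℝ Q = q)
    (hR : finrank ℝ R = m) (hP' : finrank ℝ P' = p') (hQ' : finrank ℝ Q' = q')
    (hR' : finrank ℝ R' = m') (hp : 1 ≤ p) (hq : 1 ≤ q) (hm : 1 ≤ m) (hp' : 1 ≤ p')
    (hq' : 1 ≤ q') (hm' : 1 ≤ m') {ρ r ρ' r' : ℝ} (hρ : 0 < ρ) (hr : 0 < r) (hρ' : 0 < ρ')
    (hr' : 0 < r') {y y'} (hy : y ∈ (modelT P Q R hρ hr).U)
    (hy' : y' ∈ (modelT P' Q' R' hρ' hr').U) :
    (modelT P Q R hρ hr).toSphere.LieEq y (modelT P' Q' R' hρ' hr').toSphere y' ↔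
      ∃ (π : Equiv.Perm (Fin 3)) (c : ℝ), 0 < c ∧ ∀ i, ![p', q', m'] (π i) = ![p, q, m] i ∧
        ![ρ' ^ 2, 1 - ρ' ^ 2, -1] (π i) = c * ![ρ ^ 2, 1 - ρ ^ 2, -1] i := by
  have h1 := modelT_confEq_of hP hQ hR hp hq hm hρ hr hy
  have h2 := modelT_confEq_of hP' hQ' hR' hp' hq' hm' hρ' hr' hy'
  have hμ : ∀ ρ : ℝ, ![ρ ^ 2, 1 - ρ ^ 2, -1] (0 : Fin 3) + ![ρ ^ 2, 1 - ρ ^ 2, -1] (1 : Fin 3)
      + ![ρ ^ 2, 1 - ρ ^ 2, -1] (2 : Fin 3) = (0 : ℝ) := by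
    intro ρ
    simp
  have hmm : ∀ i, 1 ≤ ![p, q, m] i := by
    intro i; fin_cases i <;> assumption
  have hmm' : ∀ i, 1 ≤ ![p', q', m'] i := by
    intro i; fin_cases i <;> assumption
  constructor
  · intro h
    have hX : 1 ≤ finrank ℝ ((P × Q) × R) := by
      rw [Module.finrank_prod, Module.finrank_prod]
      omega
    exact canonical_inv hmm hmm' (hμ ρ) (hμ ρ') ((h1.symm.trans (h.confEqAt hX)).trans h2)
  · rintro ⟨π, c, hc, h⟩
    exact ((h1.trans (canonical_rel hmm (hμ ρ) π hc h)).trans h2.symm).lieEqAt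

end

end DupinClass
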