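import Pool.Agent.H31.Dupin.Defs

open scoped RealInnerProductSpace ContDiff Topology
open Module Set

namespace DupinClass

/-! ## Families of lines from null triples -/

section

variable {X V : Type} [NormedAddCommGroup X] [NormedSpace ℝ X]
  [NormedAddCommGroup V] [NormedSpace ℝ V]

/-- The family of subspaces spanned by the differences of `b 0 x, b 1 x, b 2 x`. -/
def triFam (b : Fin 3 → X → V) (x : X) : Submodule ℝ V :=
  Submodule.span ℝ (Set.range fun p : Fin 3 × Fin 3 => b p.1 x - b p.2 x)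

/-- Hypotheses on a null triple `b` near `x₀`. -/
structure TripleHyp (B : LinearMap.BilinForm ℝ V) (b : Fin 3 → X → V) (U : Set X) (x₀ : X) :
    Prop where
  symm : B.IsSymm
  nondeg : B.Nondegenerate
  dim : finrank ℝ V = finrank ℝ X + 4
  isOpen_U : IsOpen U
  mem : x₀ ∈ U
  smooth : ∀ i, ContDiffOn ℝ ∞ (b i) U
  null : ∀ i j, i ≠ j → ∀ x ∈ U, ∀ y ∈ U, B (b i x - b j y) (b i x - b j y) = 0
  pos : ∀ i v, fderiv ℝ (b i) x₀ v ≠ 0 → 0 < B (fderiv ℝ (b i) x₀ v) (fderiv ℝ (b i) x₀ v)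
  ne : ∀ i, fderiv ℝ (b i) x₀ ≠ 0
  inj : ∀ v, (∀ i, fderiv ℝ (b i) x₀ v = 0) → v = 0
  li : LinearIndependent ℝ ![b 1 x₀ - b 2 x₀, b 2 x₀ - b 0 x₀]

end

/-! ## The canonical model -/

/-- Domain space of the canonical model. -/
abbrev MX (m : Fin 3 → ℕ) : Type := ∀ i : Fin 3, EuclideanSpace ℝ (Fin (m i))

/-- The quadratic space of the canonical model: basis vectors `k₀, k₁, n₀, n₁` in the last four
coordinates. -/
abbrev MV (m : Fin 3 → ℕ) : Type := MX m × ℝ × ℝ × ℝ × ℝ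

/-- The form: `⟨n₀,k₁⟩ = -1`, `⟨n₁,k₀⟩ = 1`, `⟨n₀,n₀⟩ = μ₀`, `⟨n₁,n₁⟩ = μ₁`, all the other products
of `k₀, k₁, n₀, n₁` are zero. -/
noncomputable def mForm (m : Fin 3 → ℕ) (μ : Fin 3 → ℝ) : LinearMap.BilinForm ℝ (MV m) :=
  LinearMap.mk₂ ℝ (fun v w => ∑ i, ⟪v.1 i, w.1 i⟫
      + (v.2.2.2.2 * w.2.1 + v.2.1 * w.2.2.2.2) - (v.2.2.2.1 * w.2.2.1 + v.2.2.1 * w.2.2.2.1)
      + μ 0 * v.2.2.2.1 * w.2.2.2.1 + μ 1 * v.2.2.2.2 * w.2.2.2.2)
    (by
      intro a b c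
      simp only [Prod.fst_add, Prod.snd_add, Pi.add_apply, inner_add_left, Finset.sum_add_distrib]
      ring)
    (by
      intro t a b
      simp only [Prod.smul_fst, Prod.smul_snd, Pi.smul_apply, smul_eq_mul, inner_smul_left,
        RCLike.conj_to_real, ← Finset.mul_sum]
      ring)
    (by
      intro a b c
      simp only [Prod.fst_add, Prod.snd_add, Pi.add_apply, inner_add_right, Finset.sum_add_distrib]
      ring)
    (by
      intro t a b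
      simp only [Prod.smul_fst, Prod.smul_snd, Pi.smul_apply, smul_eq_mul, inner_smul_right,
        ← Finset.mul_sum]
      ring)

/-- The vectors `n₀, n₁, n₂ = μ₁ k₀ - μ₀ k₁ - n₀ - n₁`. -/
def mN (m : Fin 3 → ℕ) (μ : Fin 3 → ℝ) : Fin 3 → MV m :=
  ![(0, 0, 0, 1, 0), (0, 0, 0, 0, 1), (0, μ 1, -μ 0, -1, -1)]

/-- The base points: `b₀ = -k₁`, `b₁ = k₀`, `b₂ = 0`. -/
def mBase (m : Fin 3 → ℕ) : Fin 3 → MV m :=
  ![(0, 0, -1, 0, 0), (0, 1, 0, 0, 0), 0]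

/-- The root near zero of `μ y² + 2 y + t = 0`. -/
noncomputable def yfun (μ t : ℝ) : ℝ := -t / (1 + √(1 - μ * t))

/-- The canonical triple. -/
noncomputable def mb (m : Fin 3 → ℕ) (μ : Fin 3 → ℝ) (i : Fin 3) (s : MX m) : MV m :=
  mBase m i + (Pi.single i (s i), 0) + yfun (μ i) (‖s i‖ ^ 2) • mN m μ i

/-- The domain of the canonical triple. -/
def mU (m : Fin 3 → ℕ) (μ : Fin 3 → ℝ) : Set (MX m) := {s | ∀ i, μ i * ‖s i‖ ^ 2 < 1}

/-- The canonical family. -/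
noncomputable def mFam (m : Fin 3 → ℕ) (μ : Fin 3 → ℝ) : MX m → Submodule ℝ (MV m) :=
  triFam (mb m μ)

theorem zero_mem_mU (m : Fin 3 → ℕ) (μ : Fin 3 → ℝ) : (0 : MX m) ∈ mU m μ := by
  intro i; simp

end DupinClass
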