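import Pool.Agent.H31.Dupin.MF1_pf
import Pool.Agent.H31.Dupin.Curv

open scoped RealInnerProductSpace ContDiff Topology
open Module Set

namespace DupinClass

section

variable {m : Fin 3 → ℕ} {μ : Fin 3 → ℝ}

theorem mForm_isSymm : (mForm m μ).IsSymm := mForm_isSymm'

theorem mForm_nondegenerate : (mForm m μ).Nondegenerate := mForm_nondegenerate'

theorem finrank_MX : finrank ℝ (MX m) = m 0 + m 1 + m 2 := finrank_MX'

theorem finrank_MV : finrank ℝ (MV m) = finrank ℝ (MX m) + 4 := finrank_MV'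

theorem isOpen_mU : IsOpen (mU m μ) := isOpen_mU'

/-- `y = yfun μ t` satisfies `μ y² + 2 y + t = 0` and `1 + μ y = √(1 - μ t) > 0`. -/
theorem yfun_spec {μ t : ℝ} (h : μ * t < 1) :
    μ * yfun μ t ^ 2 + 2 * yfun μ t + t = 0 ∧ 1 + μ * yfun μ t = √(1 - μ * t) ∧
      0 < 1 + μ * yfun μ t := yfun_spec' h

theorem mN_mN (hμ : μ 0 + μ 1 + μ 2 = 0) (i j : Fin 3) :
    mForm m μ (mN m μ i) (mN m μ j) = if i = j then μ i else 0 := mN_mN' hμ i j

theorem mN_mBase (i j : Fin 3) (h : j ≠ i) :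
    mForm m μ (mN m μ i) (mBase m i - mBase m j) = 1 := mN_mBase' i j h

theorem smooth_mb (i : Fin 3) : ContDiffOn ℝ ∞ (mb m μ i) (mU m μ) := smooth_mb' i

theorem mb_null (hμ : μ 0 + μ 1 + μ 2 = 0) {i j : Fin 3} (hij : i ≠ j) {s t : MX m}
    (hs : s ∈ mU m μ) (ht : t ∈ mU m μ) :
    mForm m μ (mb m μ i s - mb m μ j t) (mb m μ i s - mb m μ j t) = 0 := mb_null' hμ hij hs ht

/-- The derivative of the canonical triple: it depends on the `i`-th component of the direction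
only, and its norm is positive if this component is not zero. -/
theorem mb_pos (hμ : μ 0 + μ 1 + μ 2 = 0) {i : Fin 3} {s : MX m} (hs : s ∈ mU m μ) {v : MX m}
    (hv : v i ≠ 0) :
    0 < mForm m μ (fderiv ℝ (mb m μ i) s v) (fderiv ℝ (mb m μ i) s v) := mb_pos' hμ hs hv

theorem mb_deriv_zero {i : Fin 3} {s : MX m} (hs : s ∈ mU m μ) {v : MX m} (hv : v i = 0) :
    fderiv ℝ (mb m μ i) s v = 0 := mb_deriv_zero' hs hv

theorem mb_li {s : MX m} (hs : s ∈ mU m μ) (hμ : μ 0 + μ 1 + μ 2 = 0) :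
    LinearIndependent ℝ ![mb m μ 1 s - mb m μ 2 s, mb m μ 2 s - mb m μ 0 s] := mb_li' hs hμ

/-- The canonical triple satisfies the hypotheses at every point of its domain. -/
theorem mb_tripleHyp (hμ : μ 0 + μ 1 + μ 2 = 0) (hm : ∀ i, 1 ≤ m i) {s : MX m}
    (hs : s ∈ mU m μ) : TripleHyp (mForm m μ) (mb m μ) (mU m μ) s := mb_tripleHyp' hμ hm hs

end

end DupinClass
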