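import Mathlib

open scoped ContDiff Topology
open Module Set

namespace DupinClass

/-- linear left inverse along a complement -/
theorem exists_factor {Y V : Type} [NormedAddCommGroup Y] [NormedSpace ℝ Y]
    [FiniteDimensional ℝ Y] [NormedAddCommGroup V] [NormedSpace ℝ V] [FiniteDimensional ℝ V]
    (A : Y →L[ℝ] V) (K : Submodule ℝ Y) (h : IsCompl A.toLinearMap.ker K) :
    ∃ P : V →L[ℝ] Y, (∀ v, P v ∈ K) ∧ (∀ y ∈ K, P (A y) = y) ∧
      ∀ y ∈ A.toLinearMap.ker, P (A y) = 0 := by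
  have hinj : (A.toLinearMap ∘ₗ K.subtype).ker = ⊥ := by
    rw [LinearMap.ker_eq_bot']
    intro x hx
    have h1 : (x : Y) ∈ A.toLinearMap.ker := by simpa using hx
    have h2 := Submodule.disjoint_def.1 h.disjoint (x : Y) h1 x.2
    exact Subtype.ext h2
  obtain ⟨g, hg⟩ := LinearMap.exists_leftInverse_of_injective _ hinj
  refine ⟨LinearMap.toContinuousLinearMap (K.subtype ∘ₗ g), fun v => ?_, fun y hy => ?_,
    fun y hy => ?_⟩
  · simp
  · have := LinearMap.congr_fun hg ⟨y, hy⟩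
    simp only [LinearMap.comp_apply, Submodule.subtype_apply, LinearMap.id_apply] at this
    simp only [LinearMap.coe_toContinuousLinearMap', LinearMap.comp_apply]
    rw [show g (A y) = ⟨y, hy⟩ from this]
    rfl
  · have : A y = 0 := by simpa using hy
    rw [this, map_zero]

/-- **Module F1 (product lemma).** Let `z₁, z₂` be smooth on the open set `U ⊆ Y`, such that
`ker dz₁(y) ⊕ ker dz₂(y) = Y` for all `y ∈ U`. Then every `y₀ ∈ U` has an open neighbourhood `N`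
such that for all `y, y' ∈ N` there is `y'' ∈ U` with `z₁ y'' = z₁ y`, `z₂ y'' = z₂ y'`. -/
theorem exists_prod_nhd {Y V₁ V₂ : Type} [NormedAddCommGroup Y] [NormedSpace ℝ Y]
    [FiniteDimensional ℝ Y] [NormedAddCommGroup V₁] [NormedSpace ℝ V₁] [FiniteDimensional ℝ V₁]
    [NormedAddCommGroup V₂] [NormedSpace ℝ V₂] [FiniteDimensional ℝ V₂]
    {U : Set Y} (hU : IsOpen U) {z₁ : Y → V₁} {z₂ : Y → V₂}
    (h₁ : ContDiffOn ℝ ∞ z₁ U) (h₂ : ContDiffOn ℝ ∞ z₂ U)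
    (hc : ∀ y ∈ U, IsCompl (fderiv ℝ z₁ y).toLinearMap.ker (fderiv ℝ z₂ y).toLinearMap.ker)
    {y₀ : Y} (hy₀ : y₀ ∈ U) :
    ∃ N : Set Y, IsOpen N ∧ y₀ ∈ N ∧ N ⊆ U ∧
      ∀ y ∈ N, ∀ y' ∈ N, ∃ y'' ∈ U, z₁ y'' = z₁ y ∧ z₂ y'' = z₂ y' := by
  set K₁ := (fderiv ℝ z₁ y₀).toLinearMap.ker with hK₁
  set K₂ := (fderiv ℝ z₂ y₀).toLinearMap.ker with hK₂
  have hc0 : IsCompl K₁ K₂ := hc y₀ hy₀
  obtain ⟨P₁, hP₁, hP₁a, hP₁b⟩ := exists_factor (fderiv ℝ z₁ y₀) K₂ hc0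
  obtain ⟨P₂, hP₂, hP₂a, hP₂b⟩ := exists_factor (fderiv ℝ z₂ y₀) K₁ hc0.symm
  -- derivatives
  have hd₁ : ∀ y ∈ U, HasFDerivAt z₁ (fderiv ℝ z₁ y) y := fun y hy =>
    ((h₁.contDiffAt (hU.mem_nhds hy)).differentiableAt (by simp)).hasFDerivAt
  have hd₂ : ∀ y ∈ U, HasFDerivAt z₂ (fderiv ℝ z₂ y) y := fun y hy =>
    ((h₂.contDiffAt (hU.mem_nhds hy)).differentiableAt (by simp)).hasFDerivAt
  set Φ : Y → Y := fun y => P₁ (z₁ y) + P₂ (z₂ y) with hΦ
  have hΦd : ∀ y ∈ U, HasFDerivAt Φ (P₁ ∘L fderiv ℝ z₁ y + P₂ ∘L fderiv ℝ z₂ y) y := fun y hy =>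
    (P₁.hasFDerivAt.comp y (hd₁ y hy)).add (P₂.hasFDerivAt.comp y (hd₂ y hy))
  have hΦc : ContDiffOn ℝ ∞ Φ U :=
    (P₁.contDiff.comp_contDiffOn h₁).add (P₂.contDiff.comp_contDiffOn h₂)
  have hid : P₁ ∘L fderiv ℝ z₁ y₀ + P₂ ∘L fderiv ℝ z₂ y₀ = ContinuousLinearMap.id ℝ Y := by
    ext y
    obtain ⟨a, ha, b, hb, rfl⟩ := Submodule.mem_sup.1
      (show y ∈ K₁ ⊔ K₂ by rw [hc0.sup_eq_top]; trivial)
    simp only [add_apply, ContinuousLinearMap.comp_apply, map_add,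
      ContinuousLinearMap.id_apply]
    rw [hP₁a b hb, hP₁b a ha, hP₂a a ha, hP₂b b hb]
    simp
  have hstrict : HasStrictFDerivAt Φ ((ContinuousLinearEquiv.refl ℝ Y : Y ≃L[ℝ] Y) : Y →L[ℝ] Y) y₀ := by
    refine (hΦc.contDiffAt (hU.mem_nhds hy₀)).hasStrictFDerivAt' ?_ (by simp)
    have := hΦd y₀ hy₀
    rw [hid] at this
    exact this
  set e := hstrict.toOpenPartialHomeomorph Φ with he
  have he_coe : (e : Y → Y) = Φ := hstrict.toOpenPartialHomeomorph_coe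
  have he_mem : y₀ ∈ e.source := hstrict.mem_toOpenPartialHomeomorph_source
  -- the good region
  have hgood : ∀ᶠ y in 𝓝 y₀, y ∈ U ∧ y ∈ e.source ∧
      ∃ L : Y ≃L[ℝ] Y, (L : Y →L[ℝ] Y) = fderiv ℝ Φ y := by
    have hcont : ContinuousAt (fderiv ℝ Φ) y₀ :=
      (hΦc.continuousOn_fderiv_of_isOpen hU (by simp)).continuousAt (hU.mem_nhds hy₀)
    have h0 : fderiv ℝ Φ y₀ = ((ContinuousLinearEquiv.refl ℝ Y : Y ≃L[ℝ] Y) : Y →L[ℝ] Y) :=
      hstrict.hasFDerivAt.fderiv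
    have h1 : range ((↑) : (Y ≃L[ℝ] Y) → (Y →L[ℝ] Y)) ∈ 𝓝 (fderiv ℝ Φ y₀) := by
      rw [h0]; exact ContinuousLinearEquiv.nhds _
    filter_upwards [hU.mem_nhds hy₀, e.open_source.mem_nhds he_mem, hcont h1] with y a b c
    obtain ⟨L, hL⟩ := c
    exact ⟨a, b, L, hL⟩
  set w₀ := Φ y₀ with hw₀
  have hw₀t : w₀ ∈ e.target := by
    have := e.map_source he_mem
    rwa [he_coe] at this
  have hsymm0 : e.symm w₀ = y₀ := by
    have := e.left_inv he_mem
    rwa [he_coe] at this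
  have hgood2 : ∀ᶠ w in 𝓝 w₀, w ∈ e.target ∧ (e.symm w ∈ U ∧ e.symm w ∈ e.source ∧
      ∃ L : Y ≃L[ℝ] Y, (L : Y →L[ℝ] Y) = fderiv ℝ Φ (e.symm w)) := by
    have hc1 : ContinuousAt e.symm w₀ := e.symm.continuousAt hw₀t
    rw [ContinuousAt, hsymm0] at hc1
    filter_upwards [e.open_target.mem_nhds hw₀t, hc1.eventually hgood] with w a b
    exact ⟨a, b⟩
  obtain ⟨δ, hδ, hball⟩ := Metric.eventually_nhds_iff_ball.1 hgood2
  -- kernels
  have hker : ∀ y ∈ U, (∃ L : Y ≃L[ℝ] Y, (L : Y →L[ℝ] Y) = fderiv ℝ Φ y) →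
      (∀ x, P₁ (fderiv ℝ z₁ y x) = 0 → fderiv ℝ z₁ y x = 0) ∧
      (∀ x, P₂ (fderiv ℝ z₂ y x) = 0 → fderiv ℝ z₂ y x = 0) := by
    rintro y hy ⟨L, hL⟩
    set A₁ := fderiv ℝ z₁ y
    set A₂ := fderiv ℝ z₂ y
    have hfd : fderiv ℝ Φ y = P₁ ∘L A₁ + P₂ ∘L A₂ := (hΦd y hy).fderiv
    have hle₁ : A₁.toLinearMap.ker ≤ (P₁ ∘L A₁).toLinearMap.ker := by
      intro x hx
      have : A₁ x = 0 := by simpa using hx
      simp [this]
    have hle₂ : A₂.toLinearMap.ker ≤ (P₂ ∘L A₂).toLinearMap.ker := by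
      intro x hx
      have : A₂ x = 0 := by simpa using hx
      simp [this]
    have hdisj : (P₁ ∘L A₁).toLinearMap.ker ⊓ (P₂ ∘L A₂).toLinearMap.ker = ⊥ := by
      rw [eq_bot_iff]
      rintro x ⟨hx1, hx2⟩
      have h1 : P₁ (A₁ x) = 0 := by simpa using hx1
      have h2 : P₂ (A₂ x) = 0 := by simpa using hx2
      have h3 : L x = 0 := by
        have : (L : Y →L[ℝ] Y) x = (P₁ ∘L A₁ + P₂ ∘L A₂) x := by rw [hL, hfd]
        simpa [h1, h2] using this
      simpa using h3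
    have hd1 : finrank ℝ A₁.toLinearMap.ker + finrank ℝ A₂.toLinearMap.ker = finrank ℝ Y :=
      Submodule.finrank_add_eq_of_isCompl (hc y hy)
    have hd2 : finrank ℝ (P₁ ∘L A₁).toLinearMap.ker + finrank ℝ (P₂ ∘L A₂).toLinearMap.ker ≤
        finrank ℝ Y := by
      have := Submodule.finrank_sup_add_finrank_inf_eq (P₁ ∘L A₁).toLinearMap.ker
        (P₂ ∘L A₂).toLinearMap.ker
      rw [hdisj, finrank_bot, add_zero] at this
      rw [← this]
      exact Submodule.finrank_le _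
    have hf1 := Submodule.finrank_mono hle₁
    have hf2 := Submodule.finrank_mono hle₂
    have he1 : A₁.toLinearMap.ker = (P₁ ∘L A₁).toLinearMap.ker :=
      Submodule.eq_of_le_of_finrank_eq hle₁ (by omega)
    have he2 : A₂.toLinearMap.ker = (P₂ ∘L A₂).toLinearMap.ker :=
      Submodule.eq_of_le_of_finrank_eq hle₂ (by omega)
    constructor
    · intro x hx
      have : x ∈ (P₁ ∘L A₁).toLinearMap.ker := by simpa using hx
      rw [← he1] at this
      simpa using this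
    · intro x hx
      have : x ∈ (P₂ ∘L A₂).toLinearMap.ker := by simpa using hx
      rw [← he2] at this
      simpa using this
  -- continuous projections
  set p₁ : Y →L[ℝ] Y := P₁ ∘L fderiv ℝ z₁ y₀ with hp₁
  set p₂ : Y →L[ℝ] Y := P₂ ∘L fderiv ℝ z₂ y₀ with hp₂
  have hp : ∀ w, p₁ w + p₂ w = w := fun w => by
    have := DFunLike.congr_fun hid w
    simpa using this
  have hp₁K : ∀ w, p₁ w ∈ K₂ := fun w => hP₁ _
  have hp₂K : ∀ w, p₂ w ∈ K₁ := fun w => hP₂ _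
  have hp₁P : ∀ v, p₁ (P₁ v) = P₁ v := fun v => hP₁a _ (hP₁ v)
  have hp₁P' : ∀ v, p₁ (P₂ v) = 0 := fun v => hP₁b _ (hP₂ v)
  have hp₂P : ∀ v, p₂ (P₂ v) = P₂ v := fun v => hP₂a _ (hP₂ v)
  have hp₂P' : ∀ v, p₂ (P₁ v) = 0 := fun v => hP₂b _ (hP₁ v)
  -- `z₁` is constant along `K₁` segments of the ball
  have hderiv : ∀ w ∈ Metric.ball w₀ δ, ∃ S : Y →L[ℝ] Y, HasFDerivAt e.symm S w ∧
      (∀ x, p₁ x = 0 → fderiv ℝ z₁ (e.symm w) (S x) = 0) ∧
      (∀ x, p₂ x = 0 → fderiv ℝ z₂ (e.symm w) (S x) = 0) := by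
    intro w hw
    obtain ⟨ht, hUw, hsw, L, hL⟩ := hball w hw
    have hLd : HasFDerivAt e (L : Y →L[ℝ] Y) (e.symm w) := by
      rw [he_coe, hL]
      exact (hΦd _ hUw).differentiableAt.hasFDerivAt
    refine ⟨(L.symm : Y →L[ℝ] Y), e.hasFDerivAt_symm ht hLd, ?_, ?_⟩
    · intro x hx
      refine (hker _ hUw ⟨L, hL⟩).1 _ ?_
      have h1 : (L : Y →L[ℝ] Y) (L.symm x) = x := by simp
      rw [hL, (hΦd _ hUw).fderiv] at h1
      have h2 := congrArg p₁ h1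
      rw [hx] at h2
      simp only [add_apply, ContinuousLinearMap.comp_apply, map_add] at h2
      rw [hp₁P, hp₁P', add_zero] at h2
      exact h2
    · intro x hx
      refine (hker _ hUw ⟨L, hL⟩).2 _ ?_
      have h1 : (L : Y →L[ℝ] Y) (L.symm x) = x := by simp
      rw [hL, (hΦd _ hUw).fderiv] at h1
      have h2 := congrArg p₂ h1
      rw [hx] at h2
      simp only [add_apply, ContinuousLinearMap.comp_apply, map_add] at h2
      rw [hp₂P, hp₂P', zero_add] at h2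
      exact h2
  have hconst₁ : ∀ w ∈ Metric.ball w₀ δ, ∀ w' ∈ Metric.ball w₀ δ, p₁ (w' - w) = 0 →
      z₁ (e.symm w') = z₁ (e.symm w) := by
    intro w hw w' hw' hp0
    have hseg : ∀ t ∈ Icc (0 : ℝ) 1, w + t • (w' - w) ∈ Metric.ball w₀ δ := by
      intro t ht
      have := (convex_ball w₀ δ).add_smul_sub_mem hw hw' ht
      exact this
    have hD : ∀ t ∈ Icc (0 : ℝ) 1,
        HasDerivWithinAt (fun t : ℝ => z₁ (e.symm (w + t • (w' - w)))) 0 (Icc 0 1) t := by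
      intro t ht
      obtain ⟨S, hS, hS1, _⟩ := hderiv _ (hseg t ht)
      obtain ⟨_, hUw, _⟩ := hball _ (hseg t ht)
      have h1 : HasDerivAt (fun t : ℝ => w + t • (w' - w)) (w' - w) t := by
        have := ((hasDerivAt_id t).smul_const (w' - w)).const_add w
        simpa using this
      have h2 := hS.comp_hasDerivAt t h1
      have h3 := (hd₁ _ hUw).comp_hasDerivAt t h2
      rw [hS1 _ hp0] at h3
      exact h3.hasDerivWithinAt
    have hcst := constant_of_derivWithin_zero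
      (fun t ht => (hD t ht).differentiableWithinAt)
      (fun t ht => (hD t (Ico_subset_Icc_self ht)).derivWithin
        (uniqueDiffOn_Icc zero_lt_one t (Ico_subset_Icc_self ht))) 1 (right_mem_Icc.2 zero_le_one)
    simpa using hcst
  have hconst₂ : ∀ w ∈ Metric.ball w₀ δ, ∀ w' ∈ Metric.ball w₀ δ, p₂ (w' - w) = 0 →
      z₂ (e.symm w') = z₂ (e.symm w) := by
    intro w hw w' hw' hp0
    have hseg : ∀ t ∈ Icc (0 : ℝ) 1, w + t • (w' - w) ∈ Metric.ball w₀ δ := by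
      intro t ht
      have := (convex_ball w₀ δ).add_smul_sub_mem hw hw' ht
      exact this
    have hD : ∀ t ∈ Icc (0 : ℝ) 1,
        HasDerivWithinAt (fun t : ℝ => z₂ (e.symm (w + t • (w' - w)))) 0 (Icc 0 1) t := by
      intro t ht
      obtain ⟨S, hS, _, hS1⟩ := hderiv _ (hseg t ht)
      obtain ⟨_, hUw, _⟩ := hball _ (hseg t ht)
      have h1 : HasDerivAt (fun t : ℝ => w + t • (w' - w)) (w' - w) t := by
        have := ((hasDerivAt_id t).smul_const (w' - w)).const_add w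
        simpa using this
      have h2 := hS.comp_hasDerivAt t h1
      have h3 := (hd₂ _ hUw).comp_hasDerivAt t h2
      rw [hS1 _ hp0] at h3
      exact h3.hasDerivWithinAt
    have hcst := constant_of_derivWithin_zero
      (fun t ht => (hD t ht).differentiableWithinAt)
      (fun t ht => (hD t (Ico_subset_Icc_self ht)).derivWithin
        (uniqueDiffOn_Icc zero_lt_one t (Ico_subset_Icc_self ht))) 1 (right_mem_Icc.2 zero_le_one)
    simpa using hcst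
  -- the neighbourhood
  set C : ℝ := ‖p₁‖ + ‖p₂‖ + 1 with hC
  have hCpos : 1 ≤ C := by
    have := norm_nonneg p₁
    have := norm_nonneg p₂
    linarith
  have hεpos : 0 < δ / C := by positivity
  have hεle : δ / C ≤ δ := div_le_self hδ.le hCpos
  refine ⟨U ∩ (e.source ∩ e ⁻¹' Metric.ball w₀ (δ / C)),
    hU.inter (e.isOpen_inter_preimage Metric.isOpen_ball), ⟨hy₀, he_mem, ?_⟩, inter_subset_left, ?_⟩
  · rw [mem_preimage, he_coe]
    exact Metric.mem_ball_self hεpos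
  rintro y ⟨hyU, hys, hyb⟩ y' ⟨hyU', hys', hyb'⟩
  have hyb1 : e y ∈ Metric.ball w₀ (δ / C) := hyb
  have hyb1' : e y' ∈ Metric.ball w₀ (δ / C) := hyb'
  set w := e y with hw
  set w' := e y' with hw'
  set w'' := p₁ w + p₂ w' with hw''
  have hwB : w ∈ Metric.ball w₀ δ := Metric.ball_subset_ball hεle hyb1
  have hwB' : w' ∈ Metric.ball w₀ δ := Metric.ball_subset_ball hεle hyb1'
  have hwB'' : w'' ∈ Metric.ball w₀ δ := by
    rw [mem_ball_iff_norm] at hyb1 hyb1' ⊢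
    have h1 : w'' - w₀ = p₁ (w - w₀) + p₂ (w' - w₀) := by
      rw [hw'', map_sub, map_sub]
      nth_rewrite 1 [← hp w₀]
      abel
    rw [h1]
    calc ‖p₁ (w - w₀) + p₂ (w' - w₀)‖ ≤ ‖p₁‖ * ‖w - w₀‖ + ‖p₂‖ * ‖w' - w₀‖ :=
          (norm_add_le _ _).trans (add_le_add (p₁.le_opNorm _) (p₂.le_opNorm _))
      _ ≤ ‖p₁‖ * (δ / C) + ‖p₂‖ * (δ / C) := by gcongr
      _ = (C - 1) * (δ / C) := by rw [hC]; ring
      _ < C * (δ / C) := by nlinarith
      _ = δ := by field_simp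
  have hcomp₁ : p₁ (w'' - w) = 0 := by
    have h1 : w'' - w = p₂ (w' - w) := by
      rw [hw'', map_sub]
      nth_rewrite 2 [← hp w]
      abel
    rw [h1]
    exact hP₁b _ (hp₂K _)
  have hcomp₂ : p₂ (w'' - w') = 0 := by
    have h1 : w'' - w' = p₁ (w - w') := by
      rw [hw'', map_sub]
      nth_rewrite 2 [← hp w']
      abel
    rw [h1]
    exact hP₂b _ (hp₁K _)
  refine ⟨e.symm w'', (hball w'' hwB'').2.1, ?_, ?_⟩
  · rw [hconst₁ w hwB w'' hwB'' hcomp₁, hw, e.left_inv hys]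
  · rw [hconst₂ w' hwB' w'' hwB'' hcomp₂, hw', e.left_inv hys']

end DupinClass
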