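import Pool.Agent.H31.Dupin.Defs

open scoped RealInnerProductSpace ContDiff Topology
open Module Set

namespace DupinClass

section

variable {X H : Type} [NormedAddCommGroup X] [NormedSpace ℝ X] [FiniteDimensional ℝ X]
  [NormedAddCommGroup H] [InnerProductSpace ℝ H] [FiniteDimensional ℝ H]

/-- `M` is reducible at `x` (definition of the problem file, for hypersurfaces with three principal
curvatures): near `x` it is Lie equivalent to a tube of constant radius `r > 0`, in `E × G` with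
`dim G ≥ 1`, around a proper Dupin hypersurface `W` of `E` with two principal curvatures. -/
inductive SHyp.ReducibleAt (M : SHyp X H) (x : X) : Prop
  | tube {Y E G X' : Type} [NormedAddCommGroup Y] [NormedSpace ℝ Y] [FiniteDimensional ℝ Y]
      [NormedAddCommGroup E] [InnerProductSpace ℝ E] [FiniteDimensional ℝ E]
      [NormedAddCommGroup G] [InnerProductSpace ℝ G] [FiniteDimensional ℝ G]
      [NormedAddCommGroup X'] [NormedSpace ℝ X'] [FiniteDimensional ℝ X']
      (W : EHyp Y E) (hW : ProperDupin W.f W.ν W.U 2) (hG : 1 ≤ finrank ℝ G) (r : ℝ) (hr : 0 < r)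
      (T : EHyp X' (WithLp 2 (E × G))) (hT : IsTube W r T) (x' : X') (hx' : x' ∈ T.U)
      (hM : M.LieEq x T.toSphere x') : SHyp.ReducibleAt M x

end

/-! ## Pinkall's other three constructions -/

section

variable {X Y E G H : Type} [NormedAddCommGroup X] [NormedSpace ℝ X]
  [NormedAddCommGroup Y] [NormedSpace ℝ Y]
  [NormedAddCommGroup E] [InnerProductSpace ℝ E] [NormedAddCommGroup G] [InnerProductSpace ℝ G]
  [NormedAddCommGroup H] [InnerProductSpace ℝ H]

/-- `T` is (an open piece, reparametrised, of) the cylinder `W × G` in `E × G` over the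
hypersurface `W` of `E`. -/
def IsCylinder (W : EHyp Y E) (T : EHyp X (WithLp 2 (E × G))) : Prop :=
  ∃ (u : X → Y) (t : X → G), ContDiffOn ℝ ∞ u T.U ∧ ContDiffOn ℝ ∞ t T.U ∧
    ∀ x ∈ T.U, u x ∈ W.U ∧ T.f x = WithLp.toLp 2 (W.f (u x), t x) ∧
      T.ν x = WithLp.toLp 2 (W.ν (u x), 0)

/-- `T` is (an open piece of) the hypersurface of `G × E` obtained from the hypersurface
`W = (h, w')` of `ℝ × E`, `h > 0`, by revolution around the axis `E`: the points `(h e, w')` with
`e` in the unit sphere of `G`. -/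
def IsRevolution (W : EHyp Y (WithLp 2 (ℝ × E))) (T : EHyp X (WithLp 2 (G × E))) : Prop :=
  ∃ (u : X → Y) (e : X → G), ContDiffOn ℝ ∞ u T.U ∧ ContDiffOn ℝ ∞ e T.U ∧
    ∀ x ∈ T.U, u x ∈ W.U ∧ 0 < (WithLp.ofLp (W.f (u x))).1 ∧ ‖e x‖ = 1 ∧
      T.f x = WithLp.toLp 2 ((WithLp.ofLp (W.f (u x))).1 • e x, (WithLp.ofLp (W.f (u x))).2) ∧
      T.ν x = WithLp.toLp 2 ((WithLp.ofLp (W.ν (u x))).1 • e x, (WithLp.ofLp (W.ν (u x))).2)

/-- `T` is (an open piece of) the product with `G` of the cone `{t w}`, `t > 0`, over the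
hypersurface `W` of the unit sphere of `H`. -/
def IsCone (W : SHyp Y H) (T : EHyp X (WithLp 2 (H × G))) : Prop :=
  ∃ (u : X → Y) (t : X → ℝ) (y : X → G), ContDiffOn ℝ ∞ u T.U ∧ ContDiffOn ℝ ∞ t T.U ∧
    ContDiffOn ℝ ∞ y T.U ∧
    ∀ x ∈ T.U, u x ∈ W.U ∧ 0 < t x ∧ T.f x = WithLp.toLp 2 (t x • W.f (u x), y x) ∧
      T.ν x = WithLp.toLp 2 (W.ν (u x), 0)

/-- `M` is reducible at `x` (Pinkall's definition, for hypersurfaces with three principal
curvatures): near `x` it is Lie equivalent to a hypersurface obtained by one of the four standard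
constructions (cylinder, hypersurface of revolution, tube, cone) from a proper Dupin hypersurface
`W` with two principal curvatures. -/
inductive SHyp.ReducibleAt' (M : SHyp X H) (x : X) : Prop
  | tube {Y E G X' : Type} [NormedAddCommGroup Y] [NormedSpace ℝ Y] [FiniteDimensional ℝ Y]
      [NormedAddCommGroup E] [InnerProductSpace ℝ E] [FiniteDimensional ℝ E]
      [NormedAddCommGroup G] [InnerProductSpace ℝ G] [FiniteDimensional ℝ G]
      [NormedAddCommGroup X'] [NormedSpace ℝ X'] [FiniteDimensional ℝ X']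
      (W : EHyp Y E) (hW : ProperDupin W.f W.ν W.U 2) (hG : 1 ≤ finrank ℝ G) (r : ℝ) (hr : 0 < r)
      (T : EHyp X' (WithLp 2 (E × G))) (hT : IsTube W r T) (x' : X') (hx' : x' ∈ T.U)
      (hM : M.LieEq x T.toSphere x') : SHyp.ReducibleAt' M x
  | cylinder {Y E G X' : Type} [NormedAddCommGroup Y] [NormedSpace ℝ Y] [FiniteDimensional ℝ Y]
      [NormedAddCommGroup E] [InnerProductSpace ℝ E] [FiniteDimensional ℝ E]
      [NormedAddCommGroup G] [InnerProductSpace ℝ G] [FiniteDimensional ℝ G]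
      [NormedAddCommGroup X'] [NormedSpace ℝ X'] [FiniteDimensional ℝ X']
      (W : EHyp Y E) (hW : ProperDupin W.f W.ν W.U 2) (hG : 1 ≤ finrank ℝ G)
      (T : EHyp X' (WithLp 2 (E × G))) (hT : IsCylinder W T) (x' : X') (hx' : x' ∈ T.U)
      (hM : M.LieEq x T.toSphere x') : SHyp.ReducibleAt' M x
  | revolution {Y E G X' : Type} [NormedAddCommGroup Y] [NormedSpace ℝ Y] [FiniteDimensional ℝ Y]
      [NormedAddCommGroup E] [InnerProductSpace ℝ E] [FiniteDimensional ℝ E]
      [NormedAddCommGroup G] [InnerProductSpace ℝ G] [FiniteDimensional ℝ G]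
      [NormedAddCommGroup X'] [NormedSpace ℝ X'] [FiniteDimensional ℝ X']
      (W : EHyp Y (WithLp 2 (ℝ × E))) (hW : ProperDupin W.f W.ν W.U 2) (hG : 2 ≤ finrank ℝ G)
      (T : EHyp X' (WithLp 2 (G × E))) (hT : IsRevolution W T) (x' : X') (hx' : x' ∈ T.U)
      (hM : M.LieEq x T.toSphere x') : SHyp.ReducibleAt' M x
  | cone {Y H' G X' : Type} [NormedAddCommGroup Y] [NormedSpace ℝ Y] [FiniteDimensional ℝ Y]
      [NormedAddCommGroup H'] [InnerProductSpace ℝ H'] [FiniteDimensional ℝ H']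
      [NormedAddCommGroup G] [InnerProductSpace ℝ G] [FiniteDimensional ℝ G]
      [NormedAddCommGroup X'] [NormedSpace ℝ X'] [FiniteDimensional ℝ X']
      (W : SHyp Y H') (hW : ProperDupin W.f W.ν W.U 2)
      (T : EHyp X' (WithLp 2 (H' × G))) (hT : IsCone W T) (x' : X') (hx' : x' ∈ T.U)
      (hM : M.LieEq x T.toSphere x') : SHyp.ReducibleAt' M x

end

end DupinClass
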