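import Pool.Agent.H31.Dupin.S2ConeD

open scoped RealInnerProductSpace ContDiff Topology
open Module Set

namespace DupinClass

section

variable {X Y G H : Type} [NormedAddCommGroup X] [NormedSpace ℝ X] [FiniteDimensional ℝ X]
  [NormedAddCommGroup Y] [NormedSpace ℝ Y] [FiniteDimensional ℝ Y]
  [NormedAddCommGroup H] [InnerProductSpace ℝ H] [FiniteDimensional ℝ H]
  [NormedAddCommGroup G] [InnerProductSpace ℝ G] [FiniteDimensional ℝ G]

omit [FiniteDimensional ℝ Y] [FiniteDimensional ℝ H] in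
theorem s2cone_hasFDerivAt_f (W : SHyp Y H) {y : Y} (hy : y ∈ W.U) :
    HasFDerivAt W.f (fderiv ℝ W.f y) y :=
  ((W.smooth_f.contDiffAt (W.isOpen_U.mem_nhds hy)).differentiableAt (by simp)).hasFDerivAt

omit [FiniteDimensional ℝ Y] [FiniteDimensional ℝ H] in
theorem s2cone_hasFDerivAt_ν (W : SHyp Y H) {y : Y} (hy : y ∈ W.U) :
    HasFDerivAt W.ν (fderiv ℝ W.ν y) y :=
  ((W.smooth_ν.contDiffAt (W.isOpen_U.mem_nhds hy)).differentiableAt (by simp)).hasFDerivAt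

omit [FiniteDimensional ℝ Y] [FiniteDimensional ℝ H] in
theorem s2cone_inner_df_self (W : SHyp Y H) {y : Y} (hy : y ∈ W.U) (v : Y) :
    ⟪fderiv ℝ W.f y v, W.f y⟫ = 0 := by
  have df := s2cone_hasFDerivAt_f W hy
  have h1 : HasFDerivAt (fun z => ⟪W.f z, W.f z⟫) _ y := df.inner ℝ df
  have h2 : HasFDerivAt (fun z => ⟪W.f z, W.f z⟫) (0 : Y →L[ℝ] ℝ) y := by
    refine (hasFDerivAt_const (1 : ℝ) y).congr_of_eventuallyEq ?_
    filter_upwards [W.isOpen_U.mem_nhds hy] with z hz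
    rw [real_inner_self_eq_norm_sq, W.norm_f z hz, one_pow]
  have h3 := DFunLike.congr_fun (h1.unique h2) v
  simp only [fderivInnerCLM_apply, ContinuousLinearMap.comp_apply, ContinuousLinearMap.prod_apply,
    zero_apply] at h3
  have h4 := real_inner_comm (W.f y) (fderiv ℝ W.f y v)
  linarith

omit [FiniteDimensional ℝ Y] [FiniteDimensional ℝ H] in
theorem s2cone_inner_dν_self (W : SHyp Y H) {y : Y} (hy : y ∈ W.U) (v : Y) :
    ⟪fderiv ℝ W.ν y v, W.ν y⟫ = 0 := by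
  have df := s2cone_hasFDerivAt_ν W hy
  have h1 : HasFDerivAt (fun z => ⟪W.ν z, W.ν z⟫) _ y := df.inner ℝ df
  have h2 : HasFDerivAt (fun z => ⟪W.ν z, W.ν z⟫) (0 : Y →L[ℝ] ℝ) y := by
    refine (hasFDerivAt_const (1 : ℝ) y).congr_of_eventuallyEq ?_
    filter_upwards [W.isOpen_U.mem_nhds hy] with z hz
    rw [real_inner_self_eq_norm_sq, W.norm_ν z hz, one_pow]
  have h3 := DFunLike.congr_fun (h1.unique h2) v
  simp only [fderivInnerCLM_apply, ContinuousLinearMap.comp_apply, ContinuousLinearMap.prod_apply,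
    zero_apply] at h3
  have h4 := real_inner_comm (W.ν y) (fderiv ℝ W.ν y v)
  linarith

omit [FiniteDimensional ℝ Y] [FiniteDimensional ℝ H] in
theorem s2cone_inner_dν_f (W : SHyp Y H) {y : Y} (hy : y ∈ W.U) (v : Y) :
    ⟪fderiv ℝ W.ν y v, W.f y⟫ = 0 := by
  have df := s2cone_hasFDerivAt_f W hy
  have dν := s2cone_hasFDerivAt_ν W hy
  have h1 : HasFDerivAt (fun z => ⟪W.ν z, W.f z⟫) _ y := dν.inner ℝ df
  have h2 : HasFDerivAt (fun z => ⟪W.ν z, W.f z⟫) (0 : Y →L[ℝ] ℝ) y := by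
    refine (hasFDerivAt_const (0 : ℝ) y).congr_of_eventuallyEq ?_
    filter_upwards [W.isOpen_U.mem_nhds hy] with z hz
    rw [real_inner_comm, W.inner_f z hz]
  have h3 := DFunLike.congr_fun (h1.unique h2) v
  simp only [fderivInnerCLM_apply, ContinuousLinearMap.comp_apply, ContinuousLinearMap.prod_apply,
    zero_apply] at h3
  have h4 := real_inner_comm (W.ν y) (fderiv ℝ W.f y v)
  have h5 := W.inner_df y hy v
  linarith

omit [FiniteDimensional ℝ X] [FiniteDimensional ℝ Y] [FiniteDimensional ℝ H]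
  [FiniteDimensional ℝ G] in
theorem cone_fderiv {W : SHyp Y H} {T : EHyp X (WithLp 2 (H × G))} {u : X → Y} {t : X → ℝ}
    {w : X → G} (hu : ContDiffOn ℝ ∞ u T.U) (ht : ContDiffOn ℝ ∞ t T.U)
    (hw : ContDiffOn ℝ ∞ w T.U)
    (h : ∀ x ∈ T.U, u x ∈ W.U ∧ 0 < t x ∧ T.f x = WithLp.toLp 2 (t x • W.f (u x), w x) ∧
      T.ν x = WithLp.toLp 2 (W.ν (u x), 0)) {x₀ : X} (hx₀ : x₀ ∈ T.U) (v : X) :
    fderiv ℝ T.f x₀ v = WithLp.toLp 2 (t x₀ • fderiv ℝ W.f (u x₀) (fderiv ℝ u x₀ v)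
      + fderiv ℝ t x₀ v • W.f (u x₀), fderiv ℝ w x₀ v) ∧
    fderiv ℝ T.ν x₀ v = WithLp.toLp 2 (fderiv ℝ W.ν (u x₀) (fderiv ℝ u x₀ v), 0) := by
  have hU : T.U ∈ 𝓝 x₀ := T.isOpen_U.mem_nhds hx₀
  have hux := (h x₀ hx₀).1
  have du := ((hu.contDiffAt hU).differentiableAt (by simp)).hasFDerivAt
  have dt := ((ht.contDiffAt hU).differentiableAt (by simp)).hasFDerivAt
  have dw := ((hw.contDiffAt hU).differentiableAt (by simp)).hasFDerivAt
  have dwu := (s2cone_hasFDerivAt_f W hux).comp x₀ du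
  have dNu := (s2cone_hasFDerivAt_ν W hux).comp x₀ du
  have dF : HasFDerivAt T.f (((WithLp.prodContinuousLinearEquiv 2 ℝ H G).symm :
      (H × G) →L[ℝ] WithLp 2 (H × G)).comp _) x₀ :=
    ((((WithLp.prodContinuousLinearEquiv 2 ℝ H G).symm :
      (H × G) →L[ℝ] WithLp 2 (H × G)).hasFDerivAt).comp x₀
      ((dt.smul dwu).prodMk dw)).congr_of_eventuallyEq
      (by filter_upwards [hU] with x hx using (h x hx).2.2.1)
  have dν : HasFDerivAt T.ν (((WithLp.prodContinuousLinearEquiv 2 ℝ H G).symm :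
      (H × G) →L[ℝ] WithLp 2 (H × G)).comp _) x₀ :=
    ((((WithLp.prodContinuousLinearEquiv 2 ℝ H G).symm :
      (H × G) →L[ℝ] WithLp 2 (H × G)).hasFDerivAt).comp x₀
      (dNu.prodMk (hasFDerivAt_const (0 : G) x₀))).congr_of_eventuallyEq
      (by filter_upwards [hU] with x hx using (h x hx).2.2.2)
  rw [dF.fderiv, dν.fderiv]
  exact ⟨rfl, rfl⟩

/-- **Module S2CONEA.** -/
theorem cone_prin {W : SHyp Y H} {κ₁ κ₂ : Y → ℝ} (hW : TwoDupinS W κ₁ κ₂)
    {T : EHyp X (WithLp 2 (H × G))} {u : X → Y} {t : X → ℝ} {w : X → G}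
    (hu : ContDiffOn ℝ ∞ u T.U) (ht : ContDiffOn ℝ ∞ t T.U) (hw : ContDiffOn ℝ ∞ w T.U)
    (h : ∀ x ∈ T.U, u x ∈ W.U ∧ 0 < t x ∧ T.f x = WithLp.toLp 2 (t x • W.f (u x), w x) ∧
      T.ν x = WithLp.toLp 2 (W.ν (u x), 0)) {x₀ : X} (hx₀ : x₀ ∈ T.U)
    {k : ℝ} (hk : prin T.f T.ν k x₀ ≠ ⊥) :
    k * t x₀ = κ₁ (u x₀) ∨ k * t x₀ = κ₂ (u x₀) ∨ k = 0 := by
  by_cases hk0 : k = 0
  · exact Or.inr (Or.inr hk0)
  obtain ⟨v, hv, hv0⟩ := Submodule.exists_mem_ne_zero_of_ne_bot hk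
  obtain ⟨hF, hν⟩ := cone_fderiv hu ht hw h hx₀ v
  have hux := (h x₀ hx₀).1
  rw [mem_prin, hF, hν] at hv
  have h1 := congrArg (fun z => (WithLp.ofLp z).1) hv
  have h2 := congrArg (fun z => (WithLp.ofLp z).2) hv
  simp only [WithLp.ofLp_add, WithLp.ofLp_smul, Prod.fst_add, Prod.smul_fst, WithLp.ofLp_zero,
    Prod.fst_zero, Prod.snd_add, Prod.smul_snd, Prod.snd_zero, zero_add] at h1 h2
  have h3 : fderiv ℝ w x₀ v = 0 := (smul_eq_zero.1 h2).resolve_left hk0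
  have h4 := congrArg (fun z => ⟪z, W.f (u x₀)⟫) h1
  simp only [inner_add_left, inner_smul_left, RCLike.conj_to_real, s2cone_inner_dν_f W hux,
    s2cone_inner_df_self W hux, real_inner_self_eq_norm_sq, W.norm_f _ hux,
    inner_zero_left] at h4
  have h5 : fderiv ℝ t x₀ v = 0 := by
    have : k * fderiv ℝ t x₀ v = 0 := by linear_combination h4
    exact (mul_eq_zero.1 this).resolve_left hk0
  rw [h5, zero_smul, add_zero, smul_smul] at h1
  have h6 : fderiv ℝ u x₀ v ≠ 0 := by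
    intro h0
    apply hv0
    apply T.immersion x₀ hx₀
    rw [hF, h0, h3, h5]
    simp
  have h7 := eq_of_mem_prin (W.immersion _ hux) (hW.top _ hux) (hW.ne _ hux) h6
    (mem_prin.2 h1)
  tauto

end

end DupinClass
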