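import Pool.Agent.H31.Dupin.TU2_pf

open scoped RealInnerProductSpace ContDiff Topology
open Module Set

namespace DupinClass

section

variable {X Y E G : Type} [NormedAddCommGroup X] [NormedSpace ℝ X] [FiniteDimensional ℝ X]
  [NormedAddCommGroup Y] [NormedSpace ℝ Y] [FiniteDimensional ℝ Y]
  [NormedAddCommGroup E] [InnerProductSpace ℝ E] [FiniteDimensional ℝ E]
  [NormedAddCommGroup G] [InnerProductSpace ℝ G] [FiniteDimensional ℝ G]

theorem tubeJ_eq_zero {r : ℝ} (hr : r ≠ 0) {v : ℝ × WithLp 2 (ℝ × E) × ℝ} (hv : v.2.2 = 0)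
    (h : tubeJ E G r v = 0) : v = 0 := by
  obtain ⟨t, w, q⟩ := v
  simp only at hv
  subst hv
  obtain ⟨w⟩ := w
  obtain ⟨w0, e⟩ := w
  simp only [tubeJ, LinearMap.coe_mk, AddHom.coe_mk, Prod.mk_eq_zero] at h
  obtain ⟨h1, h2, h3⟩ := h
  have h4 : t + w0 = 0 := by
    rcases mul_eq_zero.1 h3 with h | h
    · exact absurd (neg_eq_zero.1 h) hr
    · exact h
  rw [h4] at h1 h2
  have h5 := congrArg WithLp.ofLp h2
  simp only [WithLp.ofLp_zero, zero_mul, zero_div, add_zero, Prod.mk_eq_zero] at h5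
  have h6 := congrArg WithLp.ofLp h5.2
  simp only [WithLp.ofLp_zero, Prod.mk_eq_zero] at h6
  have h7 : t = 0 := by simpa using h1
  rw [h7, h5.1, h6.1]
  rfl

theorem fderiv_tubeJ_kmap (W : EHyp Y E) {κ : Y → ℝ} (hκ : ContDiffOn ℝ ∞ κ W.U) {r : ℝ} {y : Y}
    (hy : y ∈ W.U) (v : Y) :
    fderiv ℝ (fun y => tubeJ E G r (W.kmap κ y)) y v = tubeJ E G r (fderiv ℝ (W.kmap κ) y v) := by
  have hd : DifferentiableAt ℝ (W.kmap κ) y :=
    ((W.kmap_smooth hκ).contDiffAt (W.isOpen_U.mem_nhds hy)).differentiableAt (by simp)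
  have h := ((tubeJ E G r).toContinuousLinearMap.hasFDerivAt (x := W.kmap κ y)).comp y hd.hasFDerivAt
  have h2 : HasFDerivAt (fun y => tubeJ E G r (W.kmap κ y))
      ((tubeJ E G r).toContinuousLinearMap.comp (fderiv ℝ (W.kmap κ) y)) y := h
  rw [h2.fderiv]
  rfl

theorem ker_fderiv_tubeJ_kmap (W : EHyp Y E) {κ : Y → ℝ} (hκ : ContDiffOn ℝ ∞ κ W.U) {r : ℝ}
    (hr : r ≠ 0) {y : Y} (hy : y ∈ W.U)
    (hd : ∀ v ∈ prin W.f W.ν (κ y) y, fderiv ℝ κ y v = 0) :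
    (fderiv ℝ (fun y => tubeJ E G r (W.kmap κ y)) y).toLinearMap.ker = prin W.f W.ν (κ y) y := by
  ext v
  rw [LinearMap.mem_ker]
  change fderiv ℝ (fun y => tubeJ E G r (W.kmap κ y)) y v = 0 ↔ _
  rw [fderiv_tubeJ_kmap W hκ hy]
  have hprin : v ∈ prin W.f W.ν (κ y) y ↔ fderiv ℝ W.ν y v + κ y • fderiv ℝ W.f y v = 0 := by
    unfold prin
    rw [LinearMap.mem_ker]
    rfl
  constructor
  · intro h
    have h0 := tubeJ_eq_zero hr (W.fderiv_kmap_snd hκ hy v) h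
    have h1 := W.fderiv_fderiv_kmap hκ hy v
    rw [h0] at h1
    rw [hprin]
    have h2 : ‖fderiv ℝ W.ν y v + κ y • fderiv ℝ W.f y v‖ ^ 2 = 0 := by
      rw [← h1]; simp
    exact norm_eq_zero.1 (pow_eq_zero_iff (two_ne_zero) |>.1 h2)
  · intro h
    rw [W.fderiv_kmap hκ hy, hd v h, (hprin.1 h)]
    simp [tubeJ]

/-- the four coordinates of `tubeS` -/
noncomputable def tubeI (E G : Type) [NormedAddCommGroup E] [InnerProductSpace ℝ E]
    [NormedAddCommGroup G] [InnerProductSpace ℝ G] (r : ℝ) :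
    (G × ℝ) →ₗ[ℝ] (ℝ × WithLp 2 (ℝ × WithLp 2 (E × G)) × ℝ) where
  toFun p := (r * p.2, WithLp.toLp 2 (-(r * p.2), WithLp.toLp 2 (0, p.1)), p.2)
  map_add' := by
    intro p q
    refine Prod.ext ?_ (Prod.ext ?_ ?_)
    · simp [mul_add]
    · refine (WithLp.ofLp_injective 2) ?_
      refine Prod.ext ?_ ?_
      · simp [mul_add]; ring
      · refine (WithLp.ofLp_injective 2) ?_
        refine Prod.ext ?_ ?_
        · simp
        · simp
    · simp
  map_smul' := by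
    intro t p
    refine Prod.ext ?_ (Prod.ext ?_ ?_)
    · simp; ring
    · refine (WithLp.ofLp_injective 2) ?_
      refine Prod.ext ?_ ?_
      · simp; ring
      · refine (WithLp.ofLp_injective 2) ?_
        refine Prod.ext ?_ ?_
        · simp
        · simp
    · simp

theorem tubeS_eq (r a : ℝ) (η : G) : tubeS E r a η = tubeI E G r (a⁻¹ • η, a⁻¹) := by
  simp only [tubeS, tubeI, LinearMap.coe_mk, AddHom.coe_mk, div_eq_mul_inv]

theorem lieForm_tubeI (r : ℝ) (p q : G × ℝ) :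
    lieForm _ (tubeI E G r p) (tubeI E G r q) = ⟪p.1, q.1⟫ - p.2 * q.2 := by
  simp only [lieForm, LinearMap.mk₂_apply, tubeI, LinearMap.coe_mk, AddHom.coe_mk,
    WithLp.prod_inner_apply, inner_zero_left, inner_zero_right]
  simp
  ring

theorem lieForm_tubeJ_tubeI (r : ℝ) (v : ℝ × WithLp 2 (ℝ × E) × ℝ) (q : G × ℝ) :
    lieForm _ (tubeJ E G r v) (tubeI E G r q) = 0 := by
  simp only [lieForm, LinearMap.mk₂_apply, tubeI, tubeJ, LinearMap.coe_mk, AddHom.coe_mk,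
    WithLp.prod_inner_apply, inner_zero_left, inner_zero_right]
  simp
  ring

theorem lieForm_comm' {H : Type} [NormedAddCommGroup H] [InnerProductSpace ℝ H]
    (v w : ℝ × H × ℝ) : lieForm H v w = lieForm H w v := by
  simp only [lieForm, LinearMap.mk₂_apply]
  rw [real_inner_comm]
  ring

theorem finrank_wlp {A A' : Type} [NormedAddCommGroup A] [InnerProductSpace ℝ A]
    [FiniteDimensional ℝ A] [NormedAddCommGroup A'] [InnerProductSpace ℝ A']
    [FiniteDimensional ℝ A'] : finrank ℝ (WithLp 2 (A × A')) = finrank ℝ A + finrank ℝ A' := by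
  rw [(WithLp.linearEquiv 2 ℝ (A × A')).finrank_eq, Module.finrank_prod]

/-- **Module TUBE.** -/
theorem tube_confEq {W : EHyp Y E} {κ₁ κ₂ : Y → ℝ} (hW : TwoDupin W κ₁ κ₂) {r : ℝ} (hr : 0 < r)
    (hG : 1 ≤ finrank ℝ G) {T : EHyp X (WithLp 2 (E × G))} {u : X → Y} {a : X → ℝ} {η : X → G}
    (hu : ContDiffOn ℝ ∞ u T.U) (ha : ContDiffOn ℝ ∞ a T.U) (hη : ContDiffOn ℝ ∞ η T.U)
    (h : ∀ x ∈ T.U, u x ∈ W.U ∧ a x ^ 2 + ‖η x‖ ^ 2 = 1 ∧
      T.f x = WithLp.toLp 2 (W.f (u x) + (r * a x) • W.ν (u x), r • η x) ∧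
      T.ν x = WithLp.toLp 2 (a x • W.ν (u x), η x)) {x₀ : X} (hx₀ : x₀ ∈ T.U) (ha₀ : a x₀ ≠ 0)
    {m : Fin 3 → ℕ} (h0 : finrank ℝ (prin W.f W.ν (κ₂ (u x₀)) (u x₀)) = m 0)
    (h1 : finrank ℝ (prin W.f W.ν (κ₁ (u x₀)) (u x₀)) = m 1) (h2 : finrank ℝ G = m 2) :
    ∃ μ : Fin 3 → ℝ, μ 0 + μ 1 + μ 2 = 0 ∧ μ 2 = -1 ∧
      ConfEqAt (lieForm _) T.toSphere.lift T.U x₀ (mForm m μ) (mFam m μ) (mU m μ) 0 ∧
      (∀ n, (∀ v, lieForm _ n (fderiv ℝ (fun y => tubeJ E G r (W.kmap κ₁ y)) (u x₀) v) = 0) →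
        lieForm _ n (tubeJ E G r (W.kmap κ₁ (u x₀)) - tubeJ E G r (W.kmap κ₂ (u x₀))) = 1 →
        lieForm _ n (tubeJ E G r (W.kmap κ₁ (u x₀)) + tubeS E r (a x₀) (η x₀)) = 1 →
        (∀ᶠ y in 𝓝 (u x₀), ∃ v, ∃ t : ℝ,
          tubeJ E G r (W.kmap κ₁ y) - tubeJ E G r (W.kmap κ₁ (u x₀))
            = fderiv ℝ (fun y => tubeJ E G r (W.kmap κ₁ y)) (u x₀) v + t • n) →
        μ 0 = lieForm _ n n) := by
  have hS := tube_starHyp hW hr hG hu ha hη h hx₀ ha₀
  have hy₀ : u x₀ ∈ W.U := (h x₀ hx₀).1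
  have hdimX : finrank ℝ X = finrank ℝ Y + finrank ℝ G := by
    have e1 := T.dim
    have e2 := W.dim
    rw [finrank_wlp] at e1
    omega
  -- ranks of the two Gauss type maps
  have hcompl : IsCompl (prin W.f W.ν (κ₁ (u x₀)) (u x₀)) (prin W.f W.ν (κ₂ (u x₀)) (u x₀)) :=
    ⟨W.disjoint_prin hy₀ (hW.ne _ hy₀), codisjoint_iff.2 (hW.top _ hy₀)⟩
  have hsumY := Submodule.finrank_add_eq_of_isCompl hcompl
  have r1 : finrank ℝ (fderiv ℝ (fun y => tubeJ E G r (W.kmap κ₁ y)) (u x₀)).toLinearMap.range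
      = m 0 := by
    have e := LinearMap.finrank_range_add_finrank_ker
      (fderiv ℝ (fun y => tubeJ E G r (W.kmap κ₁ y)) (u x₀)).toLinearMap
    rw [ker_fderiv_tubeJ_kmap W hW.smooth₁ hr.ne' hy₀ (hW.deriv₁ _ hy₀)] at e
    omega
  have r2 : finrank ℝ (fderiv ℝ (fun y => tubeJ E G r (W.kmap κ₂ y)) (u x₀)).toLinearMap.range
      = m 1 := by
    have e := LinearMap.finrank_range_add_finrank_ker
      (fderiv ℝ (fun y => tubeJ E G r (W.kmap κ₂ y)) (u x₀)).toLinearMap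
    rw [ker_fderiv_tubeJ_kmap W hW.smooth₂ hr.ne' hy₀ (hW.deriv₂ _ hy₀)] at e
    omega
  -- the third map
  set U' : Set X := T.U ∩ {x | a x ≠ 0} with hU'
  have hx₀' : x₀ ∈ U' := ⟨hx₀, ha₀⟩
  have hU'o : IsOpen U' := hS.isOpen_U
  set p : X → G × ℝ := fun x => ((a x)⁻¹ • η x, (a x)⁻¹) with hp
  have hinv : ContDiffOn ℝ ∞ (fun x => (a x)⁻¹) U' :=
    (ha.mono inter_subset_left).inv (fun x hx => hx.2)
  have hpsm : ContDiffOn ℝ ∞ p U' := (hinv.smul (hη.mono inter_subset_left)).prodMk hinv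
  have hpd : HasFDerivAt p (fderiv ℝ p x₀) x₀ :=
    ((hpsm.contDiffAt (hU'o.mem_nhds hx₀')).differentiableAt (by simp)).hasFDerivAt
  set D := fderiv ℝ p x₀ with hD
  have hseq : (fun x => tubeS E r (a x) (η x)) = fun x => (tubeI E G r) (p x) := by
    funext x
    exact tubeS_eq r (a x) (η x)
  have hsd : ∀ v, fderiv ℝ (fun x => tubeS E r (a x) (η x)) x₀ v = tubeI E G r (D v) := by
    intro v
    rw [hseq]
    have e1 := ((tubeI E G r).toContinuousLinearMap.hasFDerivAt (x := p x₀)).comp x₀ hpd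
    have e2 : HasFDerivAt (fun x => (tubeI E G r) (p x))
      ((tubeI E G r).toContinuousLinearMap.comp D) x₀ := e1
    rw [e2.fderiv]
    rfl
  have hIinj : Function.Injective (tubeI E G r) := by
    intro q q' hq
    have e1 : q.2 = q'.2 := congrArg (fun z : ℝ × WithLp 2 (ℝ × WithLp 2 (E × G)) × ℝ => z.2.2) hq
    have e2 : q.1 = q'.1 :=
      congrArg (fun z : ℝ × WithLp 2 (ℝ × WithLp 2 (E × G)) × ℝ =>
        (WithLp.ofLp (WithLp.ofLp z.2.1).2).2) hq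
    exact Prod.ext e2 e1
  have hnorm : ∀ x ∈ U', ⟪(p x).1, (p x).1⟫ - (p x).2 * (p x).2 = -1 := by
    intro x hx
    have e1 := (h x hx.1).2.1
    have e2 : a x ≠ 0 := hx.2
    simp only [hp, inner_smul_left, inner_smul_right, RCLike.conj_to_real, real_inner_self_eq_norm_sq]
    field_simp
    linarith
  have hconstr : ∀ v, ⟪(p x₀).1, (D v).1⟫ - (p x₀).2 * (D v).2 = 0 := by
    intro v
    have d1 := hpd.fst
    have d2 := hpd.snd
    have d3 := (d1.inner ℝ d1).sub (d2.mul d2)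
    have d4 : HasFDerivAt (fun x => ⟪(p x).1, (p x).1⟫ - (p x).2 * (p x).2) (0 : X →L[ℝ] ℝ) x₀ := by
      refine (hasFDerivAt_const (-1 : ℝ) x₀).congr_of_eventuallyEq ?_
      filter_upwards [hU'o.mem_nhds hx₀'] with x hx
      exact hnorm x hx
    have d5 := d3.unique d4
    have d6 := congrArg (fun L : X →L[ℝ] ℝ => L v) d5
    simp [fderivInnerCLM_apply] at d6
    rw [real_inner_comm (p x₀).1 (D v).1] at d6
    linarith
  have hp2 : (p x₀).2 ≠ 0 := inv_ne_zero ha₀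
  set ℓ : (G × ℝ) →ₗ[ℝ] ℝ := (innerₗ G (p x₀).1) ∘ₗ (LinearMap.fst ℝ G ℝ)
    - (p x₀).2 • (LinearMap.snd ℝ G ℝ) with hℓ
  have hℓa : ∀ q, ℓ q = ⟪(p x₀).1, q.1⟫ - (p x₀).2 * q.2 := by
    intro q
    simp [hℓ]
  have hℓr : finrank ℝ ℓ.range = 1 := by
    have : ℓ.range = ⊤ := by
      rw [LinearMap.range_eq_top]
      intro t
      refine ⟨(0, -(t / (p x₀).2)), ?_⟩
      rw [hℓa]
      simp
      field_simp
    rw [this, finrank_top, Module.finrank_self]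
  have hKdim : finrank ℝ ℓ.ker = finrank ℝ G := by
    have e := LinearMap.finrank_range_add_finrank_ker ℓ
    rw [hℓr, Module.finrank_prod, Module.finrank_self] at e
    omega
  have hDle : D.toLinearMap.range ≤ ℓ.ker := by
    rintro _ ⟨v, rfl⟩
    rw [LinearMap.mem_ker, hℓa]
    exact hconstr v
  have hDge : finrank ℝ G ≤ finrank ℝ D.toLinearMap.range := by
    have hi : Function.Injective
        ((fderiv ℝ u x₀).toLinearMap.prod D.toLinearMap.rangeRestrict) := by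
      rw [← LinearMap.ker_eq_bot, LinearMap.ker_eq_bot']
      intro v hv
      have e1 : fderiv ℝ u x₀ v = 0 := congrArg Prod.fst hv
      have e2 : D v = 0 := congrArg (fun z => (z.2 : G × ℝ)) hv
      refine hS.inj v e1 ?_
      rw [hsd, e2, map_zero]
    have e := LinearMap.finrank_le_finrank_of_injective hi
    rw [Module.finrank_prod] at e
    omega
  have hDeq : D.toLinearMap.range = ℓ.ker :=
    Submodule.eq_of_le_of_finrank_le hDle (by rw [hKdim]; exact hDge)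
  have hrange : (fderiv ℝ (fun x => tubeS E r (a x) (η x)) x₀).toLinearMap.range
      = Submodule.map (tubeI E G r) D.toLinearMap.range := by
    ext w
    constructor
    · rintro ⟨v, rfl⟩
      exact ⟨D v, ⟨v, rfl⟩, (hsd v).symm⟩
    · rintro ⟨_, ⟨v, rfl⟩, rfl⟩
      exact ⟨v, hsd v⟩
  have r3 : finrank ℝ (fderiv ℝ (fun x => tubeS E r (a x) (η x)) x₀).toLinearMap.range = m 2 := by
    rw [hrange, (Submodule.equivMapOfInjective (tubeI E G r) hIinj D.toLinearMap.range).symm.finrank_eq,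
      hDeq, hKdim, h2]
  obtain ⟨μ, hμ, ⟨A, hA, φ, ψ, N, N', hφ, hxN, hNU, hNU', hφx, hL⟩, hn0, hn2⟩ :=
    hS.confEq r1 r2 r3
  refine ⟨μ, hμ, ?_, ⟨A, hA, φ, ψ, N, N', hφ, hxN, fun x hx => (hNU hx).1, hNU', hφx, ?_⟩, hn0⟩
  · -- the normal of the third map is its value
    have e := hn2 (tubeS E r (a x₀) (η x₀)) ?_ ?_ ?_ ?_
    · rw [e, tubeS_eq, lieForm_tubeI]
      exact hnorm x₀ hx₀'
    · intro v
      rw [hsd, tubeS_eq, lieForm_tubeI]
      exact hconstr v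
    · rw [map_add, tubeS_eq, lieForm_comm', lieForm_tubeJ_tubeI, lieForm_tubeI, zero_add]
      exact hnorm x₀ hx₀'
    · rw [map_add, tubeS_eq, lieForm_comm', lieForm_tubeJ_tubeI, lieForm_tubeI, zero_add]
      exact hnorm x₀ hx₀'
    · refine Filter.Eventually.of_forall ?_
      intro x
      set q : G × ℝ := p x - p x₀ with hq
      have hk : q + (ℓ q) • p x₀ ∈ ℓ.ker := by
        rw [LinearMap.mem_ker, map_add, map_smul, hℓa (p x₀), hnorm x₀ hx₀']
        simp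
      rw [← hDeq] at hk
      obtain ⟨v, hv⟩ := hk
      refine ⟨v, -(ℓ q), ?_⟩
      have hv' : D v = q + (ℓ q) • p x₀ := hv
      rw [hsd, hv', tubeS_eq, tubeS_eq, ← map_sub, ← map_smul, ← map_add]
      congr 1
      change q = q + (ℓ q) • p x₀ + (-(ℓ q)) • p x₀
      rw [neg_smul, add_neg_cancel_right]
  · intro x hx
    have hxU := hNU hx
    rw [← hL x hx]
    congr 1
    exact tube_lift hW hxU.1 (h x hxU.1).1 hxU.2 (h x hxU.1).2.1 (h x hxU.1).2.2.1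
      (h x hxU.1).2.2.2

end

end DupinClass
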