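import Pool.Agent.H31.Dupin.S2ConeD
import Pool.Agent.H31.Dupin.TU3_pf

open scoped RealInnerProductSpace ContDiff Topology
open Module Set

namespace DupinClass

section

variable {X Y G H : Type} [NormedAddCommGroup X] [NormedSpace ℝ X] [FiniteDimensional ℝ X]
  [NormedAddCommGroup Y] [NormedSpace ℝ Y] [FiniteDimensional ℝ Y]
  [NormedAddCommGroup H] [InnerProductSpace ℝ H] [FiniteDimensional ℝ H]
  [NormedAddCommGroup G] [InnerProductSpace ℝ G] [FiniteDimensional ℝ G]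

variable (G) in
/-- the embedding of the space of the first two members -/
noncomputable def s2coneb_J : (H × ℝ) →ₗ[ℝ] (ℝ × WithLp 2 (ℝ × WithLp 2 (H × G)) × ℝ) where
  toFun p := (0, WithLp.toLp 2 (0, WithLp.toLp 2 (p.1, 0)), p.2)
  map_add' := by
    intro p q
    refine Prod.ext ?_ (Prod.ext ?_ ?_)
    · simp
    · refine WithLp.ofLp_injective 2 (Prod.ext ?_ ?_)
      · simp
      · refine WithLp.ofLp_injective 2 (Prod.ext ?_ ?_) <;> simp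
    · simp
  map_smul' := by
    intro t p
    refine Prod.ext ?_ (Prod.ext ?_ ?_)
    · simp
    · refine WithLp.ofLp_injective 2 (Prod.ext ?_ ?_)
      · simp
      · refine WithLp.ofLp_injective 2 (Prod.ext ?_ ?_) <;> simp
    · simp

variable (H) in
/-- the embedding of the space of the third member -/
noncomputable def s2coneb_I : (ℝ × ℝ × G) →ₗ[ℝ] (ℝ × WithLp 2 (ℝ × WithLp 2 (H × G)) × ℝ) where
  toFun p := (p.1, WithLp.toLp 2 (p.2.1, WithLp.toLp 2 (0, p.2.2)), 0)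
  map_add' := by
    intro p q
    refine Prod.ext ?_ (Prod.ext ?_ ?_)
    · simp
    · refine WithLp.ofLp_injective 2 (Prod.ext ?_ ?_)
      · simp
      · refine WithLp.ofLp_injective 2 (Prod.ext ?_ ?_) <;> simp
    · simp
  map_smul' := by
    intro t p
    refine Prod.ext ?_ (Prod.ext ?_ ?_)
    · simp
    · refine WithLp.ofLp_injective 2 (Prod.ext ?_ ?_)
      · simp
      · refine WithLp.ofLp_injective 2 (Prod.ext ?_ ?_) <;> simp
    · simp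

omit [FiniteDimensional ℝ H] [FiniteDimensional ℝ G] in
theorem s2coneb_JJ (p q : H × ℝ) :
    lieForm _ (s2coneb_J G p) (s2coneb_J G q) = ⟪p.1, q.1⟫ - p.2 * q.2 := by
  simp only [lieForm, s2coneb_J, LinearMap.mk₂_apply, LinearMap.coe_mk, AddHom.coe_mk,
    WithLp.prod_inner_apply]
  simp

omit [FiniteDimensional ℝ H] [FiniteDimensional ℝ G] in
theorem s2coneb_II (p q : ℝ × ℝ × G) :
    lieForm _ (s2coneb_I H p) (s2coneb_I H q) = -(p.1 * q.1) + (p.2.1 * q.2.1 + ⟪p.2.2, q.2.2⟫) := by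
  simp only [lieForm, s2coneb_I, LinearMap.mk₂_apply, LinearMap.coe_mk, AddHom.coe_mk,
    WithLp.prod_inner_apply]
  simp
  ring

omit [FiniteDimensional ℝ H] [FiniteDimensional ℝ G] in
theorem s2coneb_JI (p : H × ℝ) (q : ℝ × ℝ × G) :
    lieForm _ (s2coneb_J G p) (s2coneb_I H q) = 0 := by
  simp only [lieForm, s2coneb_I, s2coneb_J, LinearMap.mk₂_apply, LinearMap.coe_mk, AddHom.coe_mk,
    WithLp.prod_inner_apply]
  simp

omit [FiniteDimensional ℝ H] [FiniteDimensional ℝ G] in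
theorem s2coneb_IJ (p : H × ℝ) (q : ℝ × ℝ × G) :
    lieForm _ (s2coneb_I H q) (s2coneb_J G p) = 0 := by
  rw [lieForm_comm', s2coneb_JI]

omit [FiniteDimensional ℝ H] [FiniteDimensional ℝ G] in
theorem s2coneb_J_inj : Function.Injective (s2coneb_J G : (H × ℝ) →ₗ[ℝ] _) := by
  intro p q hpq
  have e1 : p.2 = q.2 := congrArg (fun z : ℝ × WithLp 2 (ℝ × WithLp 2 (H × G)) × ℝ => z.2.2) hpq
  have e2 : p.1 = q.1 :=
    congrArg (fun z : ℝ × WithLp 2 (ℝ × WithLp 2 (H × G)) × ℝ =>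
      (WithLp.ofLp (WithLp.ofLp z.2.1).2).1) hpq
  exact Prod.ext e2 e1

/-! ### the first two members -/

/-- `(f + κ⁻¹ ν, κ⁻¹)` -/
noncomputable def s2coneb_p (W : SHyp Y H) (κ : Y → ℝ) (y : Y) : H × ℝ :=
  (W.f y + (κ y)⁻¹ • W.ν y, (κ y)⁻¹)

omit [FiniteDimensional ℝ Y] [FiniteDimensional ℝ H] [FiniteDimensional ℝ G] in
theorem s2coneb_Z_eq (W : SHyp Y H) (κ : Y → ℝ) :
    coneZ G W κ = fun y => s2coneb_J G (s2coneb_p W κ y) := by
  funext y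
  rfl

omit [FiniteDimensional ℝ Y] [FiniteDimensional ℝ H] [FiniteDimensional ℝ G] in
theorem s2coneb_ZZ (W : SHyp Y H) (κ κ' : Y → ℝ) {y : Y} (hy : y ∈ W.U) :
    lieForm _ (coneZ G W κ y) (coneZ G W κ' y) = 1 := by
  rw [s2coneb_Z_eq, s2coneb_Z_eq]
  simp only [s2coneb_JJ, s2coneb_p]
  rw [inner_add_left, inner_add_right, inner_add_right, inner_smul_left, inner_smul_left,
    inner_smul_right, inner_smul_right, real_inner_comm (W.f y) (W.ν y), W.inner_f y hy,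
    real_inner_self_eq_norm_sq, real_inner_self_eq_norm_sq, W.norm_f y hy, W.norm_ν y hy]
  simp

omit [FiniteDimensional ℝ Y] [FiniteDimensional ℝ H] in
theorem s2coneb_inner_dν (W : SHyp Y H) {y : Y} (hy : y ∈ W.U) (v : Y) :
    ⟪fderiv ℝ W.ν y v, W.ν y⟫ = 0 := by
  have h1 : HasFDerivAt W.ν (fderiv ℝ W.ν y) y :=
    ((W.smooth_ν.contDiffAt (W.isOpen_U.mem_nhds hy)).differentiableAt (by simp)).hasFDerivAt
  have h2 := h1.inner ℝ h1
  have h3 : HasFDerivAt (fun y => ⟪W.ν y, W.ν y⟫) (0 : Y →L[ℝ] ℝ) y := by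
    refine (hasFDerivAt_const (1 : ℝ) y).congr_of_eventuallyEq ?_
    filter_upwards [W.isOpen_U.mem_nhds hy] with z hz
    rw [real_inner_self_eq_norm_sq, W.norm_ν z hz]
    norm_num
  have h4 := congrArg (fun L : Y →L[ℝ] ℝ => L v) (h2.unique h3)
  simp [fderivInnerCLM_apply] at h4
  rw [real_inner_comm (fderiv ℝ W.ν y v) (W.ν y)] at h4
  linarith

omit [FiniteDimensional ℝ Y] [FiniteDimensional ℝ H] in
theorem s2coneb_hasFDerivAt_p (W : SHyp Y H) {κ : Y → ℝ} (hκ : ContDiffOn ℝ ∞ κ W.U) {y : Y}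
    (hy : y ∈ W.U) (h0 : κ y ≠ 0) :
    HasFDerivAt (s2coneb_p W κ)
      ((fderiv ℝ W.f y + ((κ y)⁻¹ • fderiv ℝ W.ν y +
        (-((κ y) ^ 2)⁻¹ • fderiv ℝ κ y).smulRight (W.ν y))).prod
          (-((κ y) ^ 2)⁻¹ • fderiv ℝ κ y)) y := by
  have h1 : HasFDerivAt W.ν (fderiv ℝ W.ν y) y :=
    ((W.smooth_ν.contDiffAt (W.isOpen_U.mem_nhds hy)).differentiableAt (by simp)).hasFDerivAt
  have h2 : HasFDerivAt W.f (fderiv ℝ W.f y) y :=
    ((W.smooth_f.contDiffAt (W.isOpen_U.mem_nhds hy)).differentiableAt (by simp)).hasFDerivAt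
  have h3 : HasFDerivAt κ (fderiv ℝ κ y) y :=
    ((hκ.contDiffAt (W.isOpen_U.mem_nhds hy)).differentiableAt (by simp)).hasFDerivAt
  have h4 : HasFDerivAt (fun y => (κ y)⁻¹) (-((κ y) ^ 2)⁻¹ • fderiv ℝ κ y) y :=
    (hasDerivAt_inv h0).comp_hasFDerivAt y h3
  exact (h2.add (h4.smul h1)).prodMk h4

omit [FiniteDimensional ℝ Y] [FiniteDimensional ℝ G] in
theorem s2coneb_fderiv_Z (W : SHyp Y H) {κ : Y → ℝ} (hκ : ContDiffOn ℝ ∞ κ W.U) {y : Y}
    (hy : y ∈ W.U) (h0 : κ y ≠ 0) (v : Y) :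
    fderiv ℝ (coneZ G W κ) y v = s2coneb_J G
      (fderiv ℝ W.f y v + ((κ y)⁻¹ • fderiv ℝ W.ν y v +
        (-((κ y) ^ 2)⁻¹ * fderiv ℝ κ y v) • (W.ν y)), -((κ y) ^ 2)⁻¹ * fderiv ℝ κ y v) := by
  have h1 := s2coneb_hasFDerivAt_p W hκ hy h0
  have h2 := ((s2coneb_J G : (H × ℝ) →ₗ[ℝ] _).toContinuousLinearMap.hasFDerivAt
    (x := s2coneb_p W κ y)).comp y h1
  have h3 : coneZ G W κ = (s2coneb_J G : (H × ℝ) →ₗ[ℝ] _).toContinuousLinearMap ∘
    s2coneb_p W κ := rfl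
  rw [h3, h2.fderiv]
  rfl

omit [FiniteDimensional ℝ Y] [FiniteDimensional ℝ G] in
theorem s2coneb_dZdZ (W : SHyp Y H) {κ : Y → ℝ} (hκ : ContDiffOn ℝ ∞ κ W.U) {y : Y}
    (hy : y ∈ W.U) (h0 : κ y ≠ 0) (v : Y) :
    lieForm _ (fderiv ℝ (coneZ G W κ) y v) (fderiv ℝ (coneZ G W κ) y v) =
      ‖fderiv ℝ W.f y v + (κ y)⁻¹ • fderiv ℝ W.ν y v‖ ^ 2 := by
  rw [s2coneb_fderiv_Z W hκ hy h0, s2coneb_JJ]
  set c := -((κ y) ^ 2)⁻¹ * fderiv ℝ κ y v
  have h1 : ⟪fderiv ℝ W.f y v + (κ y)⁻¹ • fderiv ℝ W.ν y v, W.ν y⟫ = 0 := by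
    rw [inner_add_left, inner_smul_left, s2coneb_inner_dν W hy, W.inner_df y hy]
    simp
  dsimp only
  rw [← add_assoc, real_inner_self_eq_norm_sq, norm_add_sq_real, inner_smul_right, h1, norm_smul,
    W.norm_ν y hy]
  simp
  ring

omit [FiniteDimensional ℝ Y] [FiniteDimensional ℝ G] in
theorem s2coneb_ker (W : SHyp Y H) {κ : Y → ℝ} (hκ : ContDiffOn ℝ ∞ κ W.U) {y : Y}
    (hy : y ∈ W.U) (h0 : κ y ≠ 0) (hd : ∀ v ∈ prin W.f W.ν (κ y) y, fderiv ℝ κ y v = 0) (v : Y) :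
    fderiv ℝ (coneZ G W κ) y v = 0 ↔ v ∈ prin W.f W.ν (κ y) y := by
  constructor
  · intro h
    have h1 := s2coneb_dZdZ (G := G) W hκ hy h0 v
    rw [h] at h1
    simp only [map_zero] at h1
    have h2 : fderiv ℝ W.f y v + (κ y)⁻¹ • fderiv ℝ W.ν y v = 0 := by
      rw [← norm_eq_zero]
      exact pow_eq_zero_iff (two_ne_zero) |>.1 h1.symm
    rw [mem_prin]
    have h3 : fderiv ℝ W.ν y v + κ y • fderiv ℝ W.f y v =
        κ y • (fderiv ℝ W.f y v + (κ y)⁻¹ • fderiv ℝ W.ν y v) := by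
      rw [smul_add, smul_smul, mul_inv_cancel₀ h0, one_smul, add_comm]
    rw [h3, h2, smul_zero]
  · intro h
    have h1 := hd v h
    rw [mem_prin] at h
    rw [s2coneb_fderiv_Z W hκ hy h0, h1]
    have h3 : fderiv ℝ W.f y v + (κ y)⁻¹ • fderiv ℝ W.ν y v = 0 := by
      have : fderiv ℝ W.f y v + (κ y)⁻¹ • fderiv ℝ W.ν y v =
          (κ y)⁻¹ • (fderiv ℝ W.ν y v + κ y • fderiv ℝ W.f y v) := by
        rw [smul_add, smul_smul, inv_mul_cancel₀ h0, one_smul, add_comm]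
      rw [this, h, smul_zero]
    rw [mul_zero, zero_smul, add_zero, h3]
    exact map_zero _

/-! ### the third member -/

/-- the coordinates of `coneS` -/
noncomputable def s2coneb_q (t : ℝ) (y : G) : ℝ × ℝ × G :=
  ((1 + (t ^ 2 + ‖y‖ ^ 2)) * (2 * t)⁻¹, (1 - (t ^ 2 + ‖y‖ ^ 2)) * (2 * t)⁻¹, t⁻¹ • y)

omit [FiniteDimensional ℝ H] [FiniteDimensional ℝ G] in
theorem s2coneb_S_eq (t : ℝ) (y : G) : coneS H t y = s2coneb_I H (s2coneb_q t y) := by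
  simp only [coneS, s2coneb_I, s2coneb_q, LinearMap.coe_mk, AddHom.coe_mk, div_eq_mul_inv]

omit [FiniteDimensional ℝ H] [FiniteDimensional ℝ G] in
theorem s2coneb_SS {t : ℝ} (ht : 0 < t) (y : G) :
    lieForm _ (coneS H t y) (coneS H t y) = -1 := by
  rw [s2coneb_S_eq, s2coneb_II]
  simp only [s2coneb_q, inner_smul_left, inner_smul_right, real_inner_self_eq_norm_sq,
    RCLike.conj_to_real]
  field_simp
  ring

/-- The derivative of the coordinates of `coneS` along the direction `t'`, `y'`. -/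
noncomputable def s2coneb_q' (t : ℝ) (y : G) (t' : ℝ) (y' : G) : ℝ × ℝ × G :=
  ((2 * t * t' + 2 * ⟪y, y'⟫) * (2 * t)⁻¹ + (1 + (t ^ 2 + ‖y‖ ^ 2)) * (-(2 * t') * ((2 * t) ^ 2)⁻¹),
    -(2 * t * t' + 2 * ⟪y, y'⟫) * (2 * t)⁻¹ +
      (1 - (t ^ 2 + ‖y‖ ^ 2)) * (-(2 * t') * ((2 * t) ^ 2)⁻¹),
    t⁻¹ • y' + (-t' * (t ^ 2)⁻¹) • y)

omit [FiniteDimensional ℝ G] in
theorem s2coneb_q'_zero (t : ℝ) (y : G) : s2coneb_q' t y 0 0 = 0 := by
  simp [s2coneb_q']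

omit [FiniteDimensional ℝ H] [FiniteDimensional ℝ G] in
theorem s2coneb_q'q' {t : ℝ} (ht : 0 < t) (y : G) (t' : ℝ) (y' : G) :
    lieForm _ (s2coneb_I H (s2coneb_q' t y t' y')) (s2coneb_I H (s2coneb_q' t y t' y')) =
      (t' ^ 2 + ‖y'‖ ^ 2) / t ^ 2 := by
  rw [s2coneb_II]
  simp only [s2coneb_q', inner_add_left, inner_add_right, inner_smul_left, inner_smul_right,
    real_inner_self_eq_norm_sq, RCLike.conj_to_real, real_inner_comm y y']
  field_simp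
  ring

omit [FiniteDimensional ℝ X] [FiniteDimensional ℝ G] in
theorem s2coneb_hasFDerivAt_q {t : X → ℝ} {w : X → G} {x : X} {t' : X →L[ℝ] ℝ} {w' : X →L[ℝ] G}
    (ht : HasFDerivAt t t' x) (hw : HasFDerivAt w w' x) (h0 : t x ≠ 0) :
    ∃ q' : X →L[ℝ] ℝ × ℝ × G, HasFDerivAt (fun x => s2coneb_q (t x) (w x)) q' x ∧
      ∀ v, q' v = s2coneb_q' (t x) (w x) (t' v) (w' v) := by
  have h1 : HasFDerivAt (fun x => t x ^ 2 + ‖w x‖ ^ 2) _ x := (ht.pow 2).add hw.norm_sq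
  have h2 : HasFDerivAt (fun x => 2 * t x) _ x := ht.const_mul 2
  have h3 : HasFDerivAt (fun x => (2 * t x)⁻¹) _ x :=
    (hasDerivAt_inv (by positivity : 2 * t x ≠ 0)).comp_hasFDerivAt x h2
  have h4 : HasFDerivAt (fun x => (t x)⁻¹) _ x := (hasDerivAt_inv h0).comp_hasFDerivAt x ht
  have h5 := (((hasFDerivAt_const (1 : ℝ) x).add h1).mul h3).prodMk
    ((((hasFDerivAt_const (1 : ℝ) x).sub h1).mul h3).prodMk (h4.smul hw))
  refine ⟨_, h5, fun v => ?_⟩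
  simp only [s2coneb_q']
  refine Prod.ext ?_ (Prod.ext ?_ ?_)
  · simp
    ring
  · simp
    ring
  · simp [mul_comm]

omit [FiniteDimensional ℝ X] [FiniteDimensional ℝ H] in
theorem s2coneb_hasFDerivAt_S {t : X → ℝ} {w : X → G} {x : X} {t' : X →L[ℝ] ℝ} {w' : X →L[ℝ] G}
    (ht : HasFDerivAt t t' x) (hw : HasFDerivAt w w' x) (h0 : t x ≠ 0) (v : X) :
    fderiv ℝ (fun x => coneS H (t x) (w x)) x v =
      s2coneb_I H (s2coneb_q' (t x) (w x) (t' v) (w' v)) := by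
  obtain ⟨q', h1, h2⟩ := s2coneb_hasFDerivAt_q ht hw h0
  have h3 := ((s2coneb_I H : (ℝ × ℝ × G) →ₗ[ℝ] _).toContinuousLinearMap.hasFDerivAt
    (x := s2coneb_q (t x) (w x))).comp x h1
  have h4 : (fun x => coneS H (t x) (w x)) =
      (s2coneb_I H : (ℝ × ℝ × G) →ₗ[ℝ] _).toContinuousLinearMap ∘
        (fun x => s2coneb_q (t x) (w x)) := by
    funext x
    exact s2coneb_S_eq _ _
  rw [h4, h3.fderiv, ← h2]
  rfl

/-! ### the lift of a cone -/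

omit [FiniteDimensional ℝ H] [FiniteDimensional ℝ G] in
theorem s2coneb_vec {f N : H} {t κ : ℝ} {w : G} (hf1 : ‖f‖ = 1) (hfN : ⟪f, N⟫ = 0) (ht : t ≠ 0)
    (h0 : κ ≠ 0) {F ν : WithLp 2 (H × G)} (hf : F = WithLp.toLp 2 (t • f, w))
    (hν : ν = WithLp.toLp 2 (N, 0)) :
    (0, WithLp.toLp 2 (0, WithLp.toLp 2 (f + κ⁻¹ • N, 0)), κ⁻¹) + coneS H t w
      = κ⁻¹ • ((κ / t) • ptSph F + plSph F ν) := by
  have hF : ‖F‖ ^ 2 = t ^ 2 + ‖w‖ ^ 2 := by
    rw [hf, WithLp.prod_norm_sq_eq_of_L2]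
    simp only [WithLp.toLp_fst, WithLp.toLp_snd, norm_smul, mul_pow, Real.norm_eq_abs, sq_abs, hf1]
    ring
  have hFν : ⟪F, ν⟫ = 0 := by
    rw [hf, hν, WithLp.prod_inner_apply]
    simp only [inner_smul_left, hfN, inner_zero_right, mul_zero, add_zero]
  refine Prod.ext ?_ (Prod.ext ?_ ?_)
  · simp only [coneS, ptSph, plSph, hF, hFν]
    simp
    field_simp
  · refine WithLp.ofLp_injective 2 (Prod.ext ?_ ?_)
    · simp only [coneS, ptSph, plSph, hF, hFν]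
      simp
      field_simp
    · refine WithLp.ofLp_injective 2 (Prod.ext ?_ ?_)
      · simp only [coneS, ptSph, plSph, hf, hν]
        simp
        match_scalars
        field_simp
      · simp only [coneS, ptSph, plSph, hf, hν]
        simp
        match_scalars
        field_simp
  · simp only [coneS, ptSph, plSph]
    simp

/-- **Module S2CONEB.** -/
theorem cone_canon {W : SHyp Y H} {κ₁ κ₂ : Y → ℝ} (hW : TwoDupinS W κ₁ κ₂)
    {T : EHyp X (WithLp 2 (H × G))} {u : X → Y} {t : X → ℝ} {w : X → G}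
    (hu : ContDiffOn ℝ ∞ u T.U) (ht : ContDiffOn ℝ ∞ t T.U) (hw : ContDiffOn ℝ ∞ w T.U)
    (h : ∀ x ∈ T.U, u x ∈ W.U ∧ 0 < t x ∧ T.f x = WithLp.toLp 2 (t x • W.f (u x), w x) ∧
      T.ν x = WithLp.toLp 2 (W.ν (u x), 0)) {x₀ : X} (hx₀ : x₀ ∈ T.U)
    (h1 : κ₁ (u x₀) ≠ 0) (h2 : κ₂ (u x₀) ≠ 0) {m : Fin 3 → ℕ}
    (m0 : finrank ℝ (prin W.f W.ν (κ₂ (u x₀)) (u x₀)) = m 0)
    (m1 : finrank ℝ (prin W.f W.ν (κ₁ (u x₀)) (u x₀)) = m 1)
    (m2 : finrank ℝ G + 1 = m 2) :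
    ∃ μ : Fin 3 → ℝ, μ 0 + μ 1 + μ 2 = 0 ∧
      ConfEqAt (lieForm (WithLp 2 (ℝ × WithLp 2 (H × G)))) T.toSphere.lift T.U x₀
        (mForm m μ) (mFam m μ) (mU m μ) 0 := by
  have hmeq : m = ![finrank ℝ (prin W.f W.ν (κ₂ (u x₀)) (u x₀)),
      finrank ℝ (prin W.f W.ν (κ₁ (u x₀)) (u x₀)), finrank ℝ (ℝ × G)] := by
    funext i
    fin_cases i
    · exact m0.symm
    · exact m1.symm
    · change m 2 = finrank ℝ (ℝ × G)
      rw [← m2, Module.finrank_prod, Module.finrank_self]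
      omega
  -- the open sets
  set N : Set Y := W.U ∩ (fun y => κ₁ y * κ₂ y) ⁻¹' {0}ᶜ with hN
  have hNo : IsOpen N := (hW.smooth₁.mul hW.smooth₂).continuousOn.isOpen_inter_preimage W.isOpen_U
    isOpen_compl_singleton
  have hN1 : ∀ y ∈ N, κ₁ y ≠ 0 := fun y hy h0 => hy.2 (by simp [h0])
  have hN2 : ∀ y ∈ N, κ₂ y ≠ 0 := fun y hy h0 => hy.2 (by simp [h0])
  set U : Set X := T.U ∩ u ⁻¹' N with hU
  have hUo : IsOpen U := hu.continuousOn.isOpen_inter_preimage T.isOpen_U hNo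
  have hxU : x₀ ∈ U := ⟨hx₀, (h x₀ hx₀).1, mul_ne_zero h1 h2⟩
  have hy₀ : u x₀ ∈ W.U := (h x₀ hx₀).1
  have ht0 : 0 < t x₀ := (h x₀ hx₀).2.1
  -- derivatives at `x₀`
  have dt : HasFDerivAt t (fderiv ℝ t x₀) x₀ :=
    ((ht.contDiffAt (T.isOpen_U.mem_nhds hx₀)).differentiableAt (by simp)).hasFDerivAt
  have dw : HasFDerivAt w (fderiv ℝ w x₀) x₀ :=
    ((hw.contDiffAt (T.isOpen_U.mem_nhds hx₀)).differentiableAt (by simp)).hasFDerivAt
  have du : HasFDerivAt u (fderiv ℝ u x₀) x₀ :=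
    ((hu.contDiffAt (T.isOpen_U.mem_nhds hx₀)).differentiableAt (by simp)).hasFDerivAt
  have dWf : HasFDerivAt W.f (fderiv ℝ W.f (u x₀)) (u x₀) :=
    ((W.smooth_f.contDiffAt (W.isOpen_U.mem_nhds hy₀)).differentiableAt (by simp)).hasFDerivAt
  have key : ∀ v, fderiv ℝ u x₀ v = 0 → fderiv ℝ t x₀ v = 0 → fderiv ℝ w x₀ v = 0 → v = 0 := by
    intro v e1 e2 e3
    apply T.immersion x₀ hx₀
    have d1 : HasFDerivAt (fun x => (t x • W.f (u x), w x))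
        ((t x₀ • ((fderiv ℝ W.f (u x₀)).comp (fderiv ℝ u x₀)) +
          (fderiv ℝ t x₀).smulRight (W.f (u x₀))).prod (fderiv ℝ w x₀)) x₀ :=
      (dt.smul (dWf.comp x₀ du)).prodMk dw
    have d2 := ((WithLp.prodContinuousLinearEquiv 2 ℝ H G).symm.toContinuousLinearMap.hasFDerivAt
      (x := (t x₀ • W.f (u x₀), w x₀))).comp x₀ d1
    have d3 : HasFDerivAt T.f ((WithLp.prodContinuousLinearEquiv 2 ℝ H G).symm.toContinuousLinearMap.comp
        ((t x₀ • ((fderiv ℝ W.f (u x₀)).comp (fderiv ℝ u x₀)) +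
          (fderiv ℝ t x₀).smulRight (W.f (u x₀))).prod (fderiv ℝ w x₀))) x₀ := by
      refine d2.congr_of_eventuallyEq ?_
      filter_upwards [T.isOpen_U.mem_nhds hx₀] with x hx
      rw [(h x hx).2.2.1]
      rfl
    rw [d3.fderiv]
    have e4 : ((t x₀ • ((fderiv ℝ W.f (u x₀)).comp (fderiv ℝ u x₀)) +
          (fderiv ℝ t x₀).smulRight (W.f (u x₀))).prod (fderiv ℝ w x₀)) v = 0 := by
      simp [e1, e2, e3]
    change (WithLp.prodContinuousLinearEquiv 2 ℝ H G).symm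
      (((t x₀ • ((fderiv ℝ W.f (u x₀)).comp (fderiv ℝ u x₀)) +
          (fderiv ℝ t x₀).smulRight (W.f (u x₀))).prod (fderiv ℝ w x₀)) v) = 0
    rw [e4, map_zero]
  have hds : ∀ v, fderiv ℝ (fun x => coneS H (t x) (w x)) x₀ v =
      s2coneb_I H (s2coneb_q' (t x₀) (w x₀) (fderiv ℝ t x₀ v) (fderiv ℝ w x₀ v)) :=
    fun v => s2coneb_hasFDerivAt_S dt dw ht0.ne' v
  have hdsds : ∀ v, lieForm _ (fderiv ℝ (fun x => coneS H (t x) (w x)) x₀ v)
      (fderiv ℝ (fun x => coneS H (t x) (w x)) x₀ v) =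
      ((fderiv ℝ t x₀ v) ^ 2 + ‖fderiv ℝ w x₀ v‖ ^ 2) / t x₀ ^ 2 := by
    intro v
    rw [hds, s2coneb_q'q' ht0]
  -- the lift
  have hlift : ∀ x ∈ U, T.toSphere.lift x = Submodule.span ℝ
      {coneZ G W κ₁ (u x) + coneS H (t x) (w x), coneZ G W κ₂ (u x) + coneS H (t x) (w x)} ∧
      LinearIndependent ℝ ![coneZ G W κ₁ (u x) + coneS H (t x) (w x),
        coneZ G W κ₂ (u x) + coneS H (t x) (w x)] := by
    intro x hx
    obtain ⟨a1, a2, a3, a4⟩ := h x hx.1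
    have hne : κ₁ (u x) / t x ≠ κ₂ (u x) / t x := by
      intro e
      apply hW.ne _ a1
      field_simp at e
      exact e
    exact T.lift_eq_of hx.1 hne (inv_ne_zero (hN1 _ hx.2)) (inv_ne_zero (hN2 _ hx.2))
      (s2coneb_vec (W.norm_f _ a1) (W.inner_f _ a1) a2.ne' (hN1 _ hx.2) a3 a4)
      (s2coneb_vec (W.norm_f _ a1) (W.inner_f _ a1) a2.ne' (hN2 _ hx.2) a3 a4)
  have hcompl : ∀ y ∈ N, IsCompl (prin W.f W.ν (κ₁ y) y) (prin W.f W.ν (κ₂ y) y) :=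
    fun y hy => isCompl_prin (W.immersion y hy.1) (hW.ne y hy.1) (hW.top y hy.1)
  have hsmZ : ∀ κ : Y → ℝ, ContDiffOn ℝ ∞ κ W.U → (∀ y ∈ N, κ y ≠ 0) →
      ContDiffOn ℝ ∞ (coneZ G W κ) N := by
    intro κ hκ h0
    have e1 : ContDiffOn ℝ ∞ (fun y => (κ y)⁻¹) N := (hκ.mono inter_subset_left).inv h0
    have e2 : ContDiffOn ℝ ∞ (s2coneb_p W κ) N :=
      ((W.smooth_f.mono inter_subset_left).add
        (e1.smul (W.smooth_ν.mono inter_subset_left))).prodMk e1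
    exact (s2coneb_J G : (H × ℝ) →ₗ[ℝ] _).toContinuousLinearMap.contDiff.comp_contDiffOn e2
  have hsmS : ContDiffOn ℝ ∞ (fun x => coneS H (t x) (w x)) U := by
    have et := ht.mono (inter_subset_left : U ⊆ T.U)
    have ew := hw.mono (inter_subset_left : U ⊆ T.U)
    have e0 : ∀ x ∈ U, t x ≠ 0 := fun x hx => (h x hx.1).2.1.ne'
    have e1 : ContDiffOn ℝ ∞ (fun x => t x ^ 2 + ‖w x‖ ^ 2) U := (et.pow 2).add (ew.norm_sq ℝ)
    have e2 : ContDiffOn ℝ ∞ (fun x => (2 * t x)⁻¹) U :=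
      (contDiffOn_const.mul et).inv (fun x hx => mul_ne_zero two_ne_zero (e0 x hx))
    have e3 : ContDiffOn ℝ ∞ (fun x => s2coneb_q (t x) (w x)) U :=
      ((contDiffOn_const.add e1).mul e2).prodMk
        (((contDiffOn_const.sub e1).mul e2).prodMk ((et.inv e0).smul ew))
    have e4 := (s2coneb_I H : (ℝ × ℝ × G) →ₗ[ℝ] _).toContinuousLinearMap.contDiff.comp_contDiffOn e3
    refine e4.congr fun x _ => ?_
    exact s2coneb_S_eq _ _
  have hZS : ∀ κ : Y → ℝ, ∀ y ∈ N, ∀ x ∈ U,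
      lieForm _ (coneZ G W κ y + coneS H (t x) (w x)) (coneZ G W κ y + coneS H (t x) (w x)) = 0 := by
    intro κ y hy x hx
    have e1 : lieForm _ (coneZ G W κ y) (coneS H (t x) (w x)) = 0 := by
      rw [s2coneb_Z_eq, s2coneb_S_eq, s2coneb_JI]
    have e2 : lieForm _ (coneS H (t x) (w x)) (coneZ G W κ y) = 0 := by
      rw [s2coneb_Z_eq, s2coneb_S_eq, s2coneb_IJ]
    simp only [map_add, LinearMap.add_apply]
    rw [e1, e2, s2coneb_ZZ W κ κ hy.1, s2coneb_SS (h x hx.1).2.1]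
    norm_num
  have hposZ : ∀ κ : Y → ℝ, ContDiffOn ℝ ∞ κ W.U → κ (u x₀) ≠ 0 →
      (∀ v ∈ prin W.f W.ν (κ (u x₀)) (u x₀), fderiv ℝ κ (u x₀) v = 0) →
      ∀ v, fderiv ℝ (coneZ G W κ) (u x₀) v ≠ 0 →
      0 < lieForm _ (fderiv ℝ (coneZ G W κ) (u x₀) v) (fderiv ℝ (coneZ G W κ) (u x₀) v) := by
    intro κ hκ h0 hd v hv
    rw [s2coneb_dZdZ W hκ hy₀ h0]
    have e0 : fderiv ℝ W.f (u x₀) v + (κ (u x₀))⁻¹ • fderiv ℝ W.ν (u x₀) v ≠ 0 := by
      intro e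
      apply hv
      rw [s2coneb_ker W hκ hy₀ h0 hd, mem_prin]
      have h3 : fderiv ℝ W.ν (u x₀) v + κ (u x₀) • fderiv ℝ W.f (u x₀) v =
          κ (u x₀) • (fderiv ℝ W.f (u x₀) v + (κ (u x₀))⁻¹ • fderiv ℝ W.ν (u x₀) v) := by
        rw [smul_add, smul_smul, mul_inv_cancel₀ h0, one_smul, add_comm]
      rw [h3, e, smul_zero]
    positivity
  have hzero : ∀ v, lieForm _ (fderiv ℝ (fun x => coneS H (t x) (w x)) x₀ v)
      (fderiv ℝ (fun x => coneS H (t x) (w x)) x₀ v) = 0 →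
      fderiv ℝ t x₀ v = 0 ∧ fderiv ℝ w x₀ v = 0 := by
    intro v hv
    rw [hdsds, div_eq_zero_iff, or_iff_left (by positivity)] at hv
    have e1 := sq_nonneg (fderiv ℝ t x₀ v)
    have e2 := sq_nonneg ‖fderiv ℝ w x₀ v‖
    refine ⟨?_, ?_⟩
    · exact pow_eq_zero_iff (two_ne_zero) |>.1 (by linarith)
    · exact norm_eq_zero.1 (pow_eq_zero_iff (two_ne_zero) |>.1 (by linarith))
  have hpos3 : ∀ v, fderiv ℝ (fun x => coneS H (t x) (w x)) x₀ v ≠ 0 →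
      0 < lieForm _ (fderiv ℝ (fun x => coneS H (t x) (w x)) x₀ v)
        (fderiv ℝ (fun x => coneS H (t x) (w x)) x₀ v) := by
    intro v hv
    refine lt_of_le_of_ne (by rw [hdsds]; positivity) fun e => hv ?_
    obtain ⟨e1, e2⟩ := hzero v e.symm
    rw [hds, e1, e2, s2coneb_q'_zero, map_zero]
  have hdimX : finrank ℝ X = finrank ℝ Y + finrank ℝ (ℝ × G) := by
    have e1 := T.dim
    have e2 := W.dim
    rw [finrank_wlp] at e1
    rw [Module.finrank_prod, Module.finrank_self]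
    omega
  obtain ⟨μ, hμ, ⟨A, hA, φ, ψ, N₁, N', hφ, hxN, hNU, hNU', hφx, hL⟩, -, -⟩ :=
    star_canon (B := lieForm (WithLp 2 (ℝ × WithLp 2 (H × G)))) (U := U) (x₀ := x₀) (u := u)
      (N := N) (z₁ := coneZ G W κ₁) (z₂ := coneZ G W κ₂) (s := fun x => coneS H (t x) (w x))
      (K₁ := fun y => prin W.f W.ν (κ₁ y) y) (K₂ := fun y => prin W.f W.ν (κ₂ y) y)
      ((fderiv ℝ t x₀).toLinearMap.prod (fderiv ℝ w x₀).toLinearMap)
      lieForm_isSymm lieForm_nondegenerate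
      (by
        have e1 := T.dim
        rw [Module.finrank_prod, Module.finrank_prod, finrank_wlp, Module.finrank_self, e1]
        omega)
      hUo hxU hNo (fun x hx => hx.2) (hu.mono inter_subset_left) (hsmZ κ₁ hW.smooth₁ hN1)
      (hsmZ κ₂ hW.smooth₂ hN2) hsmS hcompl (hW.ne_bot₁ _ hy₀) (hW.ne_bot₂ _ hy₀)
      (fun y hy v => s2coneb_ker W hW.smooth₁ hy.1 (hN1 y hy) (hW.deriv₁ y hy.1) v)
      (fun y hy v => s2coneb_ker W hW.smooth₂ hy.1 (hN2 y hy) (hW.deriv₂ y hy.1) v)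
      (fun y hy => by
        simp only [map_sub, LinearMap.sub_apply]
        rw [s2coneb_ZZ W κ₁ κ₁ hy.1, s2coneb_ZZ W κ₁ κ₂ hy.1, s2coneb_ZZ W κ₂ κ₁ hy.1,
          s2coneb_ZZ W κ₂ κ₂ hy.1]
        norm_num)
      (hZS κ₁) (hZS κ₂)
      (hposZ κ₁ hW.smooth₁ h1 (hW.deriv₁ _ hy₀)) (hposZ κ₂ hW.smooth₂ h2 (hW.deriv₂ _ hy₀)) hpos3
      (fun v e1 e2 => by
        obtain ⟨e3, e4⟩ := hzero v (by rw [e2]; simp)
        exact key v e1 e3 e4)
      (fun v e1 e2 => key v e1 (congrArg Prod.fst e2) (congrArg Prod.snd e2))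
      hdimX (by rw [Module.finrank_prod, Module.finrank_self]; omega) (hlift x₀ hxU).2
  rw [hmeq]
  refine ⟨μ, hμ, A, hA, φ, ψ, N₁, N', hφ, hxN, fun x hx => (hNU hx).1, hNU', hφx, fun x hx => ?_⟩
  rw [← hL x hx, (hlift x (hNU hx)).1]

end

end DupinClass
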