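import Pool.Agent.H31.Dupin.S2CylD

open scoped RealInnerProductSpace ContDiff Topology
open Module Set

namespace DupinClass

section

variable {X Y E G : Type} [NormedAddCommGroup X] [NormedSpace ℝ X] [FiniteDimensional ℝ X]
  [NormedAddCommGroup Y] [NormedSpace ℝ Y] [FiniteDimensional ℝ Y]
  [NormedAddCommGroup E] [InnerProductSpace ℝ E] [FiniteDimensional ℝ E]
  [NormedAddCommGroup G] [InnerProductSpace ℝ G] [FiniteDimensional ℝ G]

omit [FiniteDimensional ℝ X] [FiniteDimensional ℝ Y] [FiniteDimensional ℝ E]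
  [FiniteDimensional ℝ G] in
theorem s2_differentiableAt {A : Type} [NormedAddCommGroup A] [NormedSpace ℝ A] {f : X → A}
    {U : Set X} (hf : ContDiffOn ℝ ∞ f U) (hU : IsOpen U) {x : X} (hx : x ∈ U) :
    HasFDerivAt f (fderiv ℝ f x) x :=
  ((hf.contDiffAt (hU.mem_nhds hx)).differentiableAt (by simp)).hasFDerivAt

theorem cyl_fderiv {W : EHyp Y E} {T : EHyp X (WithLp 2 (E × G))} {u : X → Y} {t : X → G}
    (hu : ContDiffOn ℝ ∞ u T.U) (ht : ContDiffOn ℝ ∞ t T.U)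
    (h : ∀ x ∈ T.U, u x ∈ W.U ∧ T.f x = WithLp.toLp 2 (W.f (u x), t x) ∧
      T.ν x = WithLp.toLp 2 (W.ν (u x), 0)) {x₀ : X} (hx₀ : x₀ ∈ T.U) (v : X) :
    fderiv ℝ T.f x₀ v = WithLp.toLp 2 (fderiv ℝ W.f (u x₀) (fderiv ℝ u x₀ v), fderiv ℝ t x₀ v) ∧
    fderiv ℝ T.ν x₀ v = WithLp.toLp 2 (fderiv ℝ W.ν (u x₀) (fderiv ℝ u x₀ v), 0) := by
  have hU : T.U ∈ 𝓝 x₀ := T.isOpen_U.mem_nhds hx₀
  have hux := (h x₀ hx₀).1
  have du := s2_differentiableAt hu T.isOpen_U hx₀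
  have dt := s2_differentiableAt ht T.isOpen_U hx₀
  have dwu := (W.wf_hasFDerivAt_f hux).comp x₀ du
  have dNu := (W.wf_hasFDerivAt_ν hux).comp x₀ du
  have dF : HasFDerivAt T.f (((WithLp.prodContinuousLinearEquiv 2 ℝ E G).symm :
      (E × G) →L[ℝ] WithLp 2 (E × G)).comp _) x₀ :=
    ((((WithLp.prodContinuousLinearEquiv 2 ℝ E G).symm :
      (E × G) →L[ℝ] WithLp 2 (E × G)).hasFDerivAt).comp x₀
      (dwu.prodMk dt)).congr_of_eventuallyEq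
      (by filter_upwards [hU] with x hx using (h x hx).2.1)
  have dν : HasFDerivAt T.ν (((WithLp.prodContinuousLinearEquiv 2 ℝ E G).symm :
      (E × G) →L[ℝ] WithLp 2 (E × G)).comp _) x₀ :=
    ((((WithLp.prodContinuousLinearEquiv 2 ℝ E G).symm :
      (E × G) →L[ℝ] WithLp 2 (E × G)).hasFDerivAt).comp x₀
      (dNu.prodMk (hasFDerivAt_const (0 : G) x₀))).congr_of_eventuallyEq
      (by filter_upwards [hU] with x hx using (h x hx).2.2)
  rw [dF.fderiv, dν.fderiv]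
  exact ⟨rfl, rfl⟩

/-- **Module S2CYLA.** -/
theorem cylinder_prin {W : EHyp Y E} {κ₁ κ₂ : Y → ℝ} (hW : TwoDupin W κ₁ κ₂)
    {T : EHyp X (WithLp 2 (E × G))} {u : X → Y} {t : X → G}
    (hu : ContDiffOn ℝ ∞ u T.U) (ht : ContDiffOn ℝ ∞ t T.U)
    (h : ∀ x ∈ T.U, u x ∈ W.U ∧ T.f x = WithLp.toLp 2 (W.f (u x), t x) ∧
      T.ν x = WithLp.toLp 2 (W.ν (u x), 0)) {x₀ : X} (hx₀ : x₀ ∈ T.U)
    {k : ℝ} (hk : prin T.f T.ν k x₀ ≠ ⊥) :
    k = κ₁ (u x₀) ∨ k = κ₂ (u x₀) ∨ k = 0 := by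
  by_cases hk0 : k = 0
  · exact Or.inr (Or.inr hk0)
  obtain ⟨v, hv, hv0⟩ := Submodule.exists_mem_ne_zero_of_ne_bot hk
  obtain ⟨hF, hν⟩ := cyl_fderiv hu ht h hx₀ v
  have hux := (h x₀ hx₀).1
  rw [mem_prin, hF, hν] at hv
  have h1 := congrArg (fun z => (WithLp.ofLp z).1) hv
  have h2 := congrArg (fun z => (WithLp.ofLp z).2) hv
  simp only [WithLp.ofLp_add, WithLp.ofLp_smul, Prod.fst_add, Prod.smul_fst, WithLp.ofLp_zero,
    Prod.fst_zero, Prod.snd_add, Prod.smul_snd, Prod.snd_zero, zero_add] at h1 h2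
  have h3 : fderiv ℝ t x₀ v = 0 := (smul_eq_zero.1 h2).resolve_left hk0
  have h4 : fderiv ℝ u x₀ v ≠ 0 := by
    intro h0
    apply hv0
    apply T.immersion x₀ hx₀
    rw [hF, h0, h3]
    simp
  have h5 := eq_of_mem_prin (W.immersion _ hux) (hW.top _ hux) (hW.ne _ hux) h4
    (mem_prin.2 h1)
  tauto

end

end DupinClass
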