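import Pool.Agent.H31.Dupin.S2CylDef

open scoped RealInnerProductSpace ContDiff Topology
open Module Set

namespace DupinClass

/-! ## Module S2CYLP: the cylinder over a proper Dupin hypersurface is proper Dupin -/

section

variable {Y E : Type} [NormedAddCommGroup Y] [NormedSpace ℝ Y] [FiniteDimensional ℝ Y]
  [NormedAddCommGroup E] [InnerProductSpace ℝ E] [FiniteDimensional ℝ E]
  (W : EHyp Y E) (G : Type) [NormedAddCommGroup G] [InnerProductSpace ℝ G] [FiniteDimensional ℝ G]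

theorem s2cylp_mem_prin_iff {z : Y × G} (hz : z.1 ∈ W.U) (k : ℝ) (v : Y × G) :
    v ∈ prin (W.cyl G).f (W.cyl G).ν k z ↔ v.1 ∈ prin W.f W.ν k z.1 ∧ k • v.2 = 0 := by
  rw [mem_prin, mem_prin]
  change fderiv ℝ (fun z : Y × G => (WithLp.toLp 2 (W.ν z.1, 0) : WithLp 2 (E × G))) z v
    + k • fderiv ℝ (fun z : Y × G => (WithLp.toLp 2 (W.f z.1, z.2) : WithLp 2 (E × G))) z v = 0 ↔ _
  rw [cyl_fderiv_f W G hz, cyl_fderiv_ν W G hz]
  constructor
  · intro h
    have h1 := congrArg WithLp.ofLp h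
    have h2 := congrArg Prod.fst h1
    have h3 := congrArg Prod.snd h1
    simp only [WithLp.ofLp_add, WithLp.ofLp_smul, Prod.fst_add, Prod.snd_add, Prod.smul_fst,
      Prod.smul_snd, WithLp.ofLp_zero, Prod.fst_zero, Prod.snd_zero, zero_add] at h2 h3
    exact ⟨h2, h3⟩
  · rintro ⟨h2, h3⟩
    apply WithLp.ofLp_injective 2
    apply Prod.ext
    · simpa only [WithLp.ofLp_add, WithLp.ofLp_smul, Prod.fst_add, Prod.smul_fst,
        WithLp.ofLp_zero, Prod.fst_zero] using h2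
    · simpa only [WithLp.ofLp_add, WithLp.ofLp_smul, Prod.snd_add,
        Prod.smul_snd, WithLp.ofLp_zero, Prod.snd_zero, zero_add] using h3

theorem s2cylp_prin_left {z : Y × G} (hz : z.1 ∈ W.U) {k : ℝ} (hk : k ≠ 0) :
    prin (W.cyl G).f (W.cyl G).ν k z = (prin W.f W.ν k z.1).map (LinearMap.inl ℝ Y G) := by
  ext v
  rw [s2cylp_mem_prin_iff W G hz, Submodule.mem_map]
  constructor
  · rintro ⟨h1, h2⟩
    exact ⟨v.1, h1, Prod.ext rfl ((smul_eq_zero.1 h2).resolve_left hk).symm⟩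
  · rintro ⟨x, hx, rfl⟩
    exact ⟨hx, smul_zero k⟩

theorem s2cylp_prin_right (h0 : ∀ y ∈ W.U, prin W.f W.ν 0 y = ⊥) {z : Y × G} (hz : z.1 ∈ W.U) :
    prin (W.cyl G).f (W.cyl G).ν 0 z = LinearMap.range (LinearMap.inr ℝ Y G) := by
  ext v
  rw [s2cylp_mem_prin_iff W G hz, h0 _ hz, Submodule.mem_bot, LinearMap.mem_range]
  constructor
  · rintro ⟨h1, -⟩
    exact ⟨v.2, Prod.ext h1.symm rfl⟩
  · rintro ⟨x, rfl⟩
    exact ⟨rfl, zero_smul _ _⟩

omit [FiniteDimensional ℝ G] in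
theorem s2cylp_fderiv {κ : Y → ℝ} (hκ : ContDiffOn ℝ ∞ κ W.U) {z : Y × G} (hz : z.1 ∈ W.U)
    {x : Y} (hx : fderiv ℝ κ z.1 x = 0) :
    fderiv ℝ (fun z : Y × G => κ z.1) z (x, 0) = 0 := by
  have hd : HasFDerivAt κ (fderiv ℝ κ z.1) z.1 :=
    ((hκ.contDiffAt (W.isOpen_U.mem_nhds hz)).differentiableAt (by simp)).hasFDerivAt
  have h1 : HasFDerivAt (fun z : Y × G => κ z.1)
      ((fderiv ℝ κ z.1).comp (ContinuousLinearMap.fst ℝ Y G)) z := hd.comp z hasFDerivAt_fst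
  rw [h1.fderiv, ContinuousLinearMap.comp_apply]
  exact hx

/-- **Module S2CYLP.** -/
theorem EHyp.cyl_properDupin (hG : 1 ≤ finrank ℝ G)
    (h0 : ∀ y ∈ W.U, prin W.f W.ν 0 y = ⊥) {m₁ m₂ : ℕ}
    (h : ProperDupinWith W.f W.ν W.U ![m₁, m₂]) :
    ProperDupinWith (W.cyl G).f (W.cyl G).ν (W.cyl G).U ![m₁, m₂, finrank ℝ G] := by
  obtain ⟨κ, hs, hne, hm, hrk, htop, hder⟩ := h
  have hκ0 : ∀ i, ∀ y ∈ W.U, κ i y ≠ 0 := by
    intro i y hy h1
    have h2 := hrk y hy i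
    rw [h1, h0 y hy, finrank_bot] at h2
    have := hm i
    omega
  have hdiff : ∀ z ∈ (W.cyl G).U, κ 0 z.1 ≠ κ 1 z.1 := fun z hz => hne z.1 hz 0 1 (by decide)
  refine ⟨![fun z => κ 0 z.1, fun z => κ 1 z.1, fun _ => 0], ?_, ?_, ?_, ?_, ?_, ?_⟩
  · intro i
    fin_cases i
    · exact (hs 0).comp contDiff_fst.contDiffOn (fun _ hz => hz)
    · exact (hs 1).comp contDiff_fst.contDiffOn (fun _ hz => hz)
    · exact contDiffOn_const
  · intro z hz i j hij
    fin_cases i <;> fin_cases j <;> first | exact absurd rfl hij | skip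
    · exact hdiff z hz
    · exact hκ0 0 z.1 hz
    · exact (hdiff z hz).symm
    · exact hκ0 1 z.1 hz
    · exact (hκ0 0 z.1 hz).symm
    · exact (hκ0 1 z.1 hz).symm
  · intro i
    fin_cases i
    · exact hm 0
    · exact hm 1
    · exact hG
  · intro z hz i
    fin_cases i
    · show finrank ℝ (prin _ _ (κ 0 z.1) z) = m₁
      rw [s2cylp_prin_left W G hz (hκ0 0 z.1 hz),
        ← (Submodule.equivMapOfInjective _ (LinearMap.inl_injective (R := ℝ) (M := Y) (M₂ := G))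
          _).finrank_eq]
      exact hrk z.1 hz 0
    · show finrank ℝ (prin _ _ (κ 1 z.1) z) = m₂
      rw [s2cylp_prin_left W G hz (hκ0 1 z.1 hz),
        ← (Submodule.equivMapOfInjective _ (LinearMap.inl_injective (R := ℝ) (M := Y) (M₂ := G))
          _).finrank_eq]
      exact hrk z.1 hz 1
    · show finrank ℝ (prin _ _ 0 z) = finrank ℝ G
      rw [s2cylp_prin_right W G h0 hz]
      exact LinearMap.finrank_range_of_inj LinearMap.inr_injective
  · intro z hz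
    have h1 := htop z.1 hz
    rw [eq_top_iff]
    rintro ⟨x, γ⟩ -
    have hx : x ∈ prin W.f W.ν (κ 0 z.1) z.1 ⊔ prin W.f W.ν (κ 1 z.1) z.1 := by
      have h2 : (⨆ i, prin W.f W.ν (κ i z.1) z.1)
          ≤ prin W.f W.ν (κ 0 z.1) z.1 ⊔ prin W.f W.ν (κ 1 z.1) z.1 := by
        apply iSup_le
        intro i
        fin_cases i
        · exact le_sup_left
        · exact le_sup_right
      exact h2 (h1 ▸ Submodule.mem_top)
    obtain ⟨x₀, hx₀, x₁, hx₁, rfl⟩ := Submodule.mem_sup.1 hx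
    have e : ((x₀ + x₁, γ) : Y × G) = (x₀, 0) + (x₁, 0) + (0, γ) := by
      simp
    rw [e]
    refine Submodule.add_mem _ (Submodule.add_mem _ ?_ ?_) ?_
    · refine (le_iSup (fun i => prin (W.cyl G).f (W.cyl G).ν
        ((![fun z => κ 0 z.1, fun z => κ 1 z.1, fun _ => 0] : Fin 3 → Y × G → ℝ) i z) z) 0) ?_
      show _ ∈ prin _ _ (κ 0 z.1) z
      rw [s2cylp_prin_left W G hz (hκ0 0 z.1 hz)]
      exact ⟨x₀, hx₀, rfl⟩
    · refine (le_iSup (fun i => prin (W.cyl G).f (W.cyl G).ν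
        ((![fun z => κ 0 z.1, fun z => κ 1 z.1, fun _ => 0] : Fin 3 → Y × G → ℝ) i z) z) 1) ?_
      show _ ∈ prin _ _ (κ 1 z.1) z
      rw [s2cylp_prin_left W G hz (hκ0 1 z.1 hz)]
      exact ⟨x₁, hx₁, rfl⟩
    · refine (le_iSup (fun i => prin (W.cyl G).f (W.cyl G).ν
        ((![fun z => κ 0 z.1, fun z => κ 1 z.1, fun _ => 0] : Fin 3 → Y × G → ℝ) i z) z) 2) ?_
      show _ ∈ prin _ _ 0 z
      rw [s2cylp_prin_right W G h0 hz]
      exact ⟨γ, rfl⟩
  · intro z hz i v hv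
    fin_cases i
    · change v ∈ prin _ _ (κ 0 z.1) z at hv
      rw [s2cylp_prin_left W G hz (hκ0 0 z.1 hz)] at hv
      obtain ⟨x, hx, rfl⟩ := hv
      exact s2cylp_fderiv W G (hs 0) hz (hder z.1 hz 0 x hx)
    · change v ∈ prin _ _ (κ 1 z.1) z at hv
      rw [s2cylp_prin_left W G hz (hκ0 1 z.1 hz)] at hv
      obtain ⟨x, hx, rfl⟩ := hv
      exact s2cylp_fderiv W G (hs 1) hz (hder z.1 hz 1 x hx)
    · show fderiv ℝ (fun _ : Y × G => (0 : ℝ)) z v = 0
      simp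

end

end DupinClass
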