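import Pool.Agent.H31.Dupin.S2Defs

open scoped RealInnerProductSpace ContDiff Topology
open Module Set

namespace DupinClass

section

variable {Y E : Type} [NormedAddCommGroup Y] [NormedSpace ℝ Y]
  [NormedAddCommGroup E] [InnerProductSpace ℝ E]

theorem mem_prin {f ν : Y → E} {y : Y} {k : ℝ} {v : Y} :
    v ∈ prin f ν k y ↔ fderiv ℝ ν y v + k • fderiv ℝ f y v = 0 := by
  simp [prin]

/-- Distinct principal curvatures have disjoint spaces of principal vectors. -/
theorem disjoint_prin {f ν : Y → E} {y : Y} (himm : ∀ v, fderiv ℝ f y v = 0 → v = 0) {k k' : ℝ}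
    (hk : k ≠ k') : Disjoint (prin f ν k y) (prin f ν k' y) := by
  rw [Submodule.disjoint_def]
  intro v h1 h2
  rw [mem_prin] at h1 h2
  apply himm
  have h3 : (k - k') • fderiv ℝ f y v = 0 := by
    rw [sub_smul, ← sub_eq_zero.2 (h1.trans h2.symm)]
    module
  exact (smul_eq_zero.1 h3).resolve_left (sub_ne_zero.2 hk)

theorem isCompl_prin {f ν : Y → E} {y : Y} (himm : ∀ v, fderiv ℝ f y v = 0 → v = 0) {k₁ k₂ : ℝ}
    (hk : k₁ ≠ k₂) (htop : prin f ν k₁ y ⊔ prin f ν k₂ y = ⊤) :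
    IsCompl (prin f ν k₁ y) (prin f ν k₂ y) :=
  ⟨disjoint_prin himm hk, codisjoint_iff.2 htop⟩

/-- If the principal spaces of `k₁`, `k₂` span, then there is no other principal curvature. -/
theorem eq_of_mem_prin {f ν : Y → E} {y : Y} (himm : ∀ v, fderiv ℝ f y v = 0 → v = 0) {k₁ k₂ k : ℝ}
    (htop : prin f ν k₁ y ⊔ prin f ν k₂ y = ⊤) (h12 : k₁ ≠ k₂) {v : Y} (hv0 : v ≠ 0)
    (hv : v ∈ prin f ν k y) : k = k₁ ∨ k = k₂ := by
  by_contra hcon
  push Not at hcon
  obtain ⟨a, ha, b, hb, hab⟩ := Submodule.mem_sup.1 (htop ▸ Submodule.mem_top : v ∈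
    prin f ν k₁ y ⊔ prin f ν k₂ y)
  have ha' := mem_prin.1 ha
  have hb' := mem_prin.1 hb
  have hv' := mem_prin.1 hv
  rw [← hab, map_add, map_add] at hv'
  have h1 : (k - k₁) • fderiv ℝ f y a + (k - k₂) • fderiv ℝ f y b = 0 := by
    have e1 : fderiv ℝ ν y a = -(k₁ • fderiv ℝ f y a) := eq_neg_of_add_eq_zero_left ha'
    have e2 : fderiv ℝ ν y b = -(k₂ • fderiv ℝ f y b) := eq_neg_of_add_eq_zero_left hb'
    rw [e1, e2] at hv'
    rw [← hv']
    module
  have h2 : (k - k₁) • a + (k - k₂) • b = 0 := by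
    apply himm
    rw [map_add, map_smul, map_smul, h1]
  have hd := disjoint_prin (ν := ν) himm h12
  rw [Submodule.disjoint_def] at hd
  have h3 : (k - k₁) • a = 0 := by
    apply hd _ (Submodule.smul_mem _ _ ha)
    have : (k - k₁) • a = -((k - k₂) • b) := eq_neg_of_add_eq_zero_left h2
    rw [this]
    exact Submodule.neg_mem _ (Submodule.smul_mem _ _ hb)
  rw [h3, zero_add] at h2
  have h4 := (smul_eq_zero.1 h3).resolve_left (sub_ne_zero.2 hcon.1)
  have h5 := (smul_eq_zero.1 h2).resolve_left (sub_ne_zero.2 hcon.2)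
  apply hv0
  rw [← hab, h4, h5, add_zero]

end

end DupinClass
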