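import Pool.Agent.H31.Dupin.S2Cases

open scoped RealInnerProductSpace ContDiff Topology
open Module Set

namespace DupinClass

section

variable {X Y G H : Type} [NormedAddCommGroup X] [NormedSpace ℝ X] [FiniteDimensional ℝ X]
  [NormedAddCommGroup Y] [NormedSpace ℝ Y] [FiniteDimensional ℝ Y]
  [NormedAddCommGroup H] [InnerProductSpace ℝ H] [FiniteDimensional ℝ H]
  [NormedAddCommGroup G] [InnerProductSpace ℝ G] [FiniteDimensional ℝ G]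

/-- Two pairwise distinct smooth functions as in the definition of proper Dupin, for `g = 2`, on a
hypersurface of a sphere. -/
structure TwoDupinS (W : SHyp Y H) (κ₁ κ₂ : Y → ℝ) : Prop where
  smooth₁ : ContDiffOn ℝ ∞ κ₁ W.U
  smooth₂ : ContDiffOn ℝ ∞ κ₂ W.U
  ne : ∀ y ∈ W.U, κ₁ y ≠ κ₂ y
  ne_bot₁ : ∀ y ∈ W.U, prin W.f W.ν (κ₁ y) y ≠ ⊥
  ne_bot₂ : ∀ y ∈ W.U, prin W.f W.ν (κ₂ y) y ≠ ⊥
  top : ∀ y ∈ W.U, prin W.f W.ν (κ₁ y) y ⊔ prin W.f W.ν (κ₂ y) y = ⊤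
  deriv₁ : ∀ y ∈ W.U, ∀ v ∈ prin W.f W.ν (κ₁ y) y, fderiv ℝ κ₁ y v = 0
  deriv₂ : ∀ y ∈ W.U, ∀ v ∈ prin W.f W.ν (κ₂ y) y, fderiv ℝ κ₂ y v = 0

omit [FiniteDimensional ℝ Y] [FiniteDimensional ℝ H] in
theorem ProperDupin.twoDupinS {W : SHyp Y H} (h : ProperDupin W.f W.ν W.U 2) :
    ∃ κ₁ κ₂, TwoDupinS W κ₁ κ₂ := by
  obtain ⟨κ, h1, h2, h3, h4, h5⟩ := h
  refine ⟨κ 0, κ 1, ⟨h1 0, h1 1, fun y hy => h2 y hy 0 1 (by decide), fun y hy => h3 y hy 0,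
    fun y hy => h3 y hy 1, fun y hy => ?_, fun y hy => h5 y hy 0, fun y hy => h5 y hy 1⟩⟩
  rw [eq_top_iff, ← h4 y hy]
  exact iSup_le (Fin.forall_fin_two.2 ⟨le_sup_left, le_sup_right⟩)

variable (G) in
/-- The first two members of the triple of a cone over `W`. -/
noncomputable def coneZ (W : SHyp Y H) (κ : Y → ℝ) (y : Y) :
    ℝ × WithLp 2 (ℝ × WithLp 2 (H × G)) × ℝ :=
  (0, WithLp.toLp 2 (0, WithLp.toLp 2 (W.f y + (κ y)⁻¹ • W.ν y, 0)), (κ y)⁻¹)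

variable (H) in
/-- The third member of the triple (with the opposite sign) of a cone. -/
noncomputable def coneS (t : ℝ) (y : G) : ℝ × WithLp 2 (ℝ × WithLp 2 (H × G)) × ℝ :=
  ((1 + (t ^ 2 + ‖y‖ ^ 2)) / (2 * t), WithLp.toLp 2 ((1 - (t ^ 2 + ‖y‖ ^ 2)) / (2 * t),
    WithLp.toLp 2 (0, t⁻¹ • y)), 0)

end

end DupinClass
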