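import Pool.Agent.H31.Dupin.S2Cases

open scoped RealInnerProductSpace ContDiff Topology
open Module Set

namespace DupinClass

section

variable {Y E : Type} [NormedAddCommGroup Y] [NormedSpace ℝ Y] [FiniteDimensional ℝ Y]
  [NormedAddCommGroup E] [InnerProductSpace ℝ E] [FiniteDimensional ℝ E]
  (W : EHyp Y E) (G : Type) [NormedAddCommGroup G] [InnerProductSpace ℝ G] [FiniteDimensional ℝ G]

omit [FiniteDimensional ℝ Y] [FiniteDimensional ℝ E] [FiniteDimensional ℝ G] in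
theorem cyl_smooth_f : ContDiffOn ℝ ∞ (fun z : Y × G => (WithLp.toLp 2 (W.f z.1, z.2) :
    WithLp 2 (E × G))) {z | z.1 ∈ W.U} :=
  (WithLp.prodContinuousLinearEquiv 2 ℝ E G).symm.contDiff.comp_contDiffOn
    ((W.smooth_f.comp contDiff_fst.contDiffOn fun _ hz => hz).prodMk contDiff_snd.contDiffOn)

omit [FiniteDimensional ℝ Y] [FiniteDimensional ℝ E] [FiniteDimensional ℝ G] in
theorem cyl_smooth_ν : ContDiffOn ℝ ∞ (fun z : Y × G => (WithLp.toLp 2 (W.ν z.1, 0) :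
    WithLp 2 (E × G))) {z | z.1 ∈ W.U} :=
  (WithLp.prodContinuousLinearEquiv 2 ℝ E G).symm.contDiff.comp_contDiffOn
    ((W.smooth_ν.comp contDiff_fst.contDiffOn fun _ hz => hz).prodMk contDiffOn_const)

omit [FiniteDimensional ℝ G] in
theorem cyl_fderiv_f {z : Y × G} (hz : z.1 ∈ W.U) (v : Y × G) :
    fderiv ℝ (fun z : Y × G => (WithLp.toLp 2 (W.f z.1, z.2) : WithLp 2 (E × G))) z v
      = WithLp.toLp 2 (fderiv ℝ W.f z.1 v.1, v.2) := by
  have h1 := (W.wf_hasFDerivAt_f hz).comp z hasFDerivAt_fst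
  have h2 := h1.prodMk (hasFDerivAt_snd (𝕜 := ℝ) (p := z))
  have h3 := ((WithLp.prodContinuousLinearEquiv 2 ℝ E G).symm :
    (E × G) →L[ℝ] WithLp 2 (E × G)).hasFDerivAt.comp z h2
  have h4 : HasFDerivAt (fun z : Y × G => (WithLp.toLp 2 (W.f z.1, z.2) : WithLp 2 (E × G))) _ z :=
    h3
  rw [h4.fderiv]
  rfl

omit [FiniteDimensional ℝ G] in
theorem cyl_fderiv_ν {z : Y × G} (hz : z.1 ∈ W.U) (v : Y × G) :
    fderiv ℝ (fun z : Y × G => (WithLp.toLp 2 (W.ν z.1, 0) : WithLp 2 (E × G))) z v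
      = WithLp.toLp 2 (fderiv ℝ W.ν z.1 v.1, 0) := by
  have h1 := (W.wf_hasFDerivAt_ν hz).comp z hasFDerivAt_fst
  have h2 := h1.prodMk (hasFDerivAt_const (0 : G) z)
  have h3 := ((WithLp.prodContinuousLinearEquiv 2 ℝ E G).symm :
    (E × G) →L[ℝ] WithLp 2 (E × G)).hasFDerivAt.comp z h2
  have h4 : HasFDerivAt (fun z : Y × G => (WithLp.toLp 2 (W.ν z.1, 0) : WithLp 2 (E × G))) _ z :=
    h3
  rw [h4.fderiv]
  rfl

theorem isEHyp_cyl_aux : IsEHyp {z : Y × G | z.1 ∈ W.U}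
    (fun z => WithLp.toLp 2 (W.f z.1, z.2)) (fun z => WithLp.toLp 2 (W.ν z.1, 0)) where
  isOpen_U := W.isOpen_U.preimage continuous_fst
  smooth_f := cyl_smooth_f W G
  smooth_ν := cyl_smooth_ν W G
  norm_ν := fun z hz => by
    rw [← sq_eq_sq₀ (norm_nonneg _) zero_le_one, WithLp.prod_norm_sq_eq_of_L2]
    simp [W.norm_ν z.1 hz]
  inner_df := fun z hz v => by
    rw [cyl_fderiv_f W G hz, WithLp.prod_inner_apply]
    simp [W.inner_df z.1 hz]
  immersion := fun z hz v hv => by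
    rw [cyl_fderiv_f W G hz] at hv
    have h1 := congrArg (fun w => (WithLp.ofLp w).1) hv
    have h2 := congrArg (fun w => (WithLp.ofLp w).2) hv
    exact Prod.ext (W.immersion z.1 hz _ h1) h2
  dim := by
    rw [(WithLp.linearEquiv 2 ℝ (E × G)).finrank_eq, Module.finrank_prod, Module.finrank_prod,
      W.dim]
    omega

end

end DupinClass
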