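import Pool.Agent.H31.Dupin.S2Cases

open scoped RealInnerProductSpace ContDiff Topology
open Module Set

namespace DupinClass

section

variable {X Y E G : Type} [NormedAddCommGroup X] [NormedSpace ℝ X] [FiniteDimensional ℝ X]
  [NormedAddCommGroup Y] [NormedSpace ℝ Y] [FiniteDimensional ℝ Y]
  [NormedAddCommGroup E] [InnerProductSpace ℝ E] [FiniteDimensional ℝ E]
  [NormedAddCommGroup G] [InnerProductSpace ℝ G] [FiniteDimensional ℝ G]

variable (E G) in
/-- The embedding of the Lie space of `E` in that of `E × G`. -/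
noncomputable def cylJ :
    (ℝ × WithLp 2 (ℝ × E) × ℝ) →ₗ[ℝ] (ℝ × WithLp 2 (ℝ × WithLp 2 (E × G)) × ℝ) where
  toFun v := (v.1, WithLp.toLp 2 ((WithLp.ofLp v.2.1).1,
      WithLp.toLp 2 ((WithLp.ofLp v.2.1).2, 0)), v.2.2)
  map_add' := by
    intro v w
    refine Prod.ext ?_ (Prod.ext ?_ ?_)
    · simp
    · refine WithLp.ofLp_injective 2 (Prod.ext ?_ ?_)
      · simp
      · refine WithLp.ofLp_injective 2 (Prod.ext ?_ ?_) <;> simp
    · simp
  map_smul' := by
    intro t v
    refine Prod.ext ?_ (Prod.ext ?_ ?_)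
    · simp
    · refine WithLp.ofLp_injective 2 (Prod.ext ?_ ?_)
      · simp
      · refine WithLp.ofLp_injective 2 (Prod.ext ?_ ?_) <;> simp
    · simp

variable (E) in
/-- The third member of the triple (with the opposite sign) of a cylinder. -/
noncomputable def cylS (t : G) : ℝ × WithLp 2 (ℝ × WithLp 2 (E × G)) × ℝ :=
  (‖t‖ ^ 2 / 2, WithLp.toLp 2 (-(‖t‖ ^ 2 / 2), WithLp.toLp 2 (0, t)), 0)

end

end DupinClass
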