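import Pool.Agent.H31.Dupin.S2ModDef

open scoped RealInnerProductSpace ContDiff Topology
open Module Set

namespace DupinClass

section

variable {Y E : Type} [NormedAddCommGroup Y] [NormedSpace ℝ Y] [FiniteDimensional ℝ Y]
  [NormedAddCommGroup E] [InnerProductSpace ℝ E] [FiniteDimensional ℝ E]
  (W : EHyp Y E) (G : Type) [NormedAddCommGroup G] [InnerProductSpace ℝ G] [FiniteDimensional ℝ G]

theorem EHyp.cyl_isCylinder : IsCylinder W (W.cyl G) :=
  ⟨Prod.fst, Prod.snd, contDiff_fst.contDiffOn, contDiff_snd.contDiffOn,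
    fun _ hz => ⟨hz, rfl, rfl⟩⟩

end

end DupinClass
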