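import Pool.Agent.H31.Dupin.Defs
import Pool.Agent.H31.Dupin.Curv

open scoped RealInnerProductSpace ContDiff Topology
open Module Set

namespace DupinClass

section

variable {X E : Type} [NormedAddCommGroup X] [NormedSpace ℝ X] [FiniteDimensional ℝ X]
  [NormedAddCommGroup E] [InnerProductSpace ℝ E] [FiniteDimensional ℝ E]

/-- The point sphere of the point `p` of `E`, in the Lie space of `ℝ × E`. -/
noncomputable def ptSph (p : E) : ℝ × WithLp 2 (ℝ × E) × ℝ :=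
  ((1 + ‖p‖ ^ 2) / 2, WithLp.toLp 2 ((1 - ‖p‖ ^ 2) / 2, p), 0)

/-- The oriented hyperplane through the point `p` of `E` with the unit normal vector `n`. -/
noncomputable def plSph (p n : E) : ℝ × WithLp 2 (ℝ × E) × ℝ :=
  (⟪p, n⟫, WithLp.toLp 2 (-⟪p, n⟫, n), 1)

/-! ### Auxiliary facts on the components of the stereographic lift -/

variable (E) in
/-- the continuous linear map `ℝ × E → WithLp 2 (ℝ × E)`. -/
noncomputable def toLC : (ℝ × E) →L[ℝ] WithLp 2 (ℝ × E) :=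
  ((WithLp.prodContinuousLinearEquiv 2 ℝ ℝ E).symm : (ℝ × E) →L[ℝ] WithLp 2 (ℝ × E))

omit [FiniteDimensional ℝ E] in
lemma toLC_apply (z : ℝ × E) : toLC E z = WithLp.toLp 2 z := rfl

omit [FiniteDimensional ℝ E] in
lemma toLC_eq_zero (z : ℝ × E) : toLC E z = 0 ↔ z = 0 := by
  rw [toLC_apply]
  constructor
  · intro h
    have := congrArg WithLp.ofLp h
    simpa using this
  · rintro rfl; rfl

omit [FiniteDimensional ℝ E] [InnerProductSpace ℝ E] in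
lemma one_add_norm_sq_pos (p : E) : 0 < 1 + ‖p‖ ^ 2 := by positivity

omit [FiniteDimensional ℝ X] [FiniteDimensional ℝ E] in
lemma EHyp.toSphere_f_eq (T : EHyp X E) (y : X) :
    T.toSphere.f y = toLC E
      ((1 + ‖T.f y‖ ^ 2)⁻¹ * (1 - ‖T.f y‖ ^ 2), (2 * (1 + ‖T.f y‖ ^ 2)⁻¹) • T.f y) := by
  have h : T.toSphere.f y = (1 + ‖T.f y‖ ^ 2)⁻¹ •
      WithLp.toLp 2 (1 - ‖T.f y‖ ^ 2, (2 : ℝ) • T.f y) := rfl
  rw [h, toLC_apply, ← WithLp.toLp_smul]
  simp only [Prod.smul_mk, smul_eq_mul, smul_smul, mul_comm]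

omit [FiniteDimensional ℝ X] [FiniteDimensional ℝ E] in
lemma EHyp.toSphere_ν_eq (T : EHyp X E) (y : X) :
    T.toSphere.ν y = toLC E
      (-(2 * ⟪T.f y, T.ν y⟫ * (1 + ‖T.f y‖ ^ 2)⁻¹),
        T.ν y - (2 * ⟪T.f y, T.ν y⟫ * (1 + ‖T.f y‖ ^ 2)⁻¹) • T.f y) := by
  have h : T.toSphere.ν y = WithLp.toLp 2 ((0 : ℝ), T.ν y)
    - (2 * ⟪T.f y, T.ν y⟫ * (1 + ‖T.f y‖ ^ 2)⁻¹) • WithLp.toLp 2 ((1 : ℝ), T.f y) := rfl
  rw [h, toLC_apply, ← WithLp.toLp_smul, ← WithLp.toLp_sub]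
  simp only [Prod.smul_mk, smul_eq_mul, Prod.mk_sub_mk, mul_one, zero_sub]

omit [FiniteDimensional ℝ X] [FiniteDimensional ℝ E] in
lemma EHyp.differentiableAt_f (T : EHyp X E) {x : X} (hx : x ∈ T.U) :
    DifferentiableAt ℝ T.f x :=
  (T.smooth_f.contDiffAt (T.isOpen_U.mem_nhds hx)).differentiableAt (by simp)

omit [FiniteDimensional ℝ X] [FiniteDimensional ℝ E] in
lemma EHyp.differentiableAt_ν (T : EHyp X E) {x : X} (hx : x ∈ T.U) :
    DifferentiableAt ℝ T.ν x :=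
  (T.smooth_ν.contDiffAt (T.isOpen_U.mem_nhds hx)).differentiableAt (by simp)

omit [FiniteDimensional ℝ X] [FiniteDimensional ℝ E] in
/-- derivative of `1 + |F|^2`. -/
lemma EHyp.hasFDerivAt_g (T : EHyp X E) {x : X} (hx : x ∈ T.U) :
    HasFDerivAt (fun y => 1 + ‖T.f y‖ ^ 2)
      ((2 : ℝ) • (innerSL ℝ (T.f x)).comp (fderiv ℝ T.f x)) x := by
  have h := (T.differentiableAt_f hx).hasFDerivAt.norm_sq
  refine (h.const_add (1 : ℝ)).congr_fderiv ?_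
  ext v
  simp [two_smul]

omit [FiniteDimensional ℝ X] [FiniteDimensional ℝ E] in
/-- derivative of `⟪F, N⟫`. -/
lemma EHyp.hasFDerivAt_s (T : EHyp X E) {x : X} (hx : x ∈ T.U) :
    HasFDerivAt (fun y => ⟪T.f y, T.ν y⟫)
      ((innerSL ℝ (T.f x)).comp (fderiv ℝ T.ν x)) x := by
  have h := (T.differentiableAt_f hx).hasFDerivAt.inner ℝ (T.differentiableAt_ν hx).hasFDerivAt
  refine h.congr_fderiv ?_
  ext v
  simp [fderivInnerCLM_apply, T.inner_df x hx v]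

omit [FiniteDimensional ℝ X] [FiniteDimensional ℝ E] in
/-- derivative of `(1 + |F|^2)⁻¹`. -/
lemma EHyp.hasFDerivAt_c (T : EHyp X E) {x : X} (hx : x ∈ T.U) :
    HasFDerivAt (fun y => (1 + ‖T.f y‖ ^ 2)⁻¹)
      (-(2 * ((1 + ‖T.f x‖ ^ 2) ^ 2)⁻¹) • (innerSL ℝ (T.f x)).comp (fderiv ℝ T.f x)) x := by
  have h := (hasDerivAt_inv (one_add_norm_sq_pos (T.f x)).ne').comp_hasFDerivAt x
    (T.hasFDerivAt_g hx)
  refine h.congr_fderiv ?_
  ext v
  simp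
  ring

omit [FiniteDimensional ℝ X] [FiniteDimensional ℝ E] in
lemma EHyp.fderiv_toSphere_f (T : EHyp X E) {x : X} (hx : x ∈ T.U) (v : X) :
    fderiv ℝ T.toSphere.f x v = toLC E
      (-(4 * ((1 + ‖T.f x‖ ^ 2)⁻¹) ^ 2) * ⟪T.f x, fderiv ℝ T.f x v⟫,
        (2 * (1 + ‖T.f x‖ ^ 2)⁻¹) • fderiv ℝ T.f x v
          - (4 * ((1 + ‖T.f x‖ ^ 2)⁻¹) ^ 2 * ⟪T.f x, fderiv ℝ T.f x v⟫) • T.f x) := by
  have hp := one_add_norm_sq_pos (T.f x)
  have hf : T.toSphere.f = fun y => toLC E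
      ((1 + ‖T.f y‖ ^ 2)⁻¹ * (1 - ‖T.f y‖ ^ 2), (2 * (1 + ‖T.f y‖ ^ 2)⁻¹) • T.f y) := by
    funext y; exact T.toSphere_f_eq y
  have h1 : HasFDerivAt (fun y => (1 + ‖T.f y‖ ^ 2)⁻¹ * (1 - ‖T.f y‖ ^ 2)) _ x :=
    (T.hasFDerivAt_c hx).mul ((T.differentiableAt_f hx).hasFDerivAt.norm_sq.const_sub (1 : ℝ))
  have h2 : HasFDerivAt (fun y => (2 * (1 + ‖T.f y‖ ^ 2)⁻¹) • T.f y) _ x :=
    ((T.hasFDerivAt_c hx).const_mul (2 : ℝ)).smul (T.differentiableAt_f hx).hasFDerivAt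
  have h3 := (toLC E).hasFDerivAt.comp x (h1.prodMk h2)
  rw [hf]
  refine (congrArg (fun l : X →L[ℝ] WithLp 2 (ℝ × E) => l v) h3.fderiv).trans ?_
  simp only [ContinuousLinearMap.coe_comp, Function.comp_apply]
  congr 1
  ext
  · simp
    field_simp
    ring
  · simp only [ContinuousLinearMap.prod_apply, add_apply,
      smul_apply, ContinuousLinearMap.smulRight_apply,
      ContinuousLinearMap.comp_apply, innerSL_apply_apply, smul_eq_mul]
    match_scalars <;> field_simp <;> ring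

omit [FiniteDimensional ℝ X] [FiniteDimensional ℝ E] in
lemma EHyp.fderiv_toSphere_ν (T : EHyp X E) {x : X} (hx : x ∈ T.U) (v : X) :
    fderiv ℝ T.toSphere.ν x v = toLC E
      (-(2 * (1 + ‖T.f x‖ ^ 2)⁻¹ * ⟪T.f x, fderiv ℝ T.ν x v⟫)
          + 4 * ⟪T.f x, T.ν x⟫ * ((1 + ‖T.f x‖ ^ 2)⁻¹) ^ 2 * ⟪T.f x, fderiv ℝ T.f x v⟫,
        fderiv ℝ T.ν x v
          - (2 * (1 + ‖T.f x‖ ^ 2)⁻¹ * ⟪T.f x, fderiv ℝ T.ν x v⟫
            - 4 * ⟪T.f x, T.ν x⟫ * ((1 + ‖T.f x‖ ^ 2)⁻¹) ^ 2 * ⟪T.f x, fderiv ℝ T.f x v⟫) • T.f x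
          - (2 * ⟪T.f x, T.ν x⟫ * (1 + ‖T.f x‖ ^ 2)⁻¹) • fderiv ℝ T.f x v) := by
  have hp := one_add_norm_sq_pos (T.f x)
  have hf : T.toSphere.ν = fun y => toLC E
      (-(2 * ⟪T.f y, T.ν y⟫ * (1 + ‖T.f y‖ ^ 2)⁻¹),
        T.ν y - (2 * ⟪T.f y, T.ν y⟫ * (1 + ‖T.f y‖ ^ 2)⁻¹) • T.f y) := by
    funext y; exact T.toSphere_ν_eq y
  have h0 : HasFDerivAt (fun y => 2 * ⟪T.f y, T.ν y⟫ * (1 + ‖T.f y‖ ^ 2)⁻¹) _ x :=
    ((T.hasFDerivAt_s hx).const_mul (2 : ℝ)).mul (T.hasFDerivAt_c hx)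
  have h2 : HasFDerivAt (fun y => T.ν y - (2 * ⟪T.f y, T.ν y⟫ * (1 + ‖T.f y‖ ^ 2)⁻¹) • T.f y) _ x :=
    (T.differentiableAt_ν hx).hasFDerivAt.sub (h0.smul (T.differentiableAt_f hx).hasFDerivAt)
  have h3 := (toLC E).hasFDerivAt.comp x (h0.neg.prodMk h2)
  rw [hf]
  refine (congrArg (fun l : X →L[ℝ] WithLp 2 (ℝ × E) => l v) h3.fderiv).trans ?_
  simp only [ContinuousLinearMap.coe_comp, Function.comp_apply]
  congr 1
  ext
  · simp
    field_simp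
    ring
  · simp only [ContinuousLinearMap.prod_apply, add_apply,
      sub_apply, smul_apply,
      ContinuousLinearMap.smulRight_apply,
      ContinuousLinearMap.comp_apply, innerSL_apply_apply, smul_eq_mul]
    match_scalars <;> field_simp <;> ring

omit [FiniteDimensional ℝ X] [FiniteDimensional ℝ E] in
lemma EHyp.ptSph_eq (T : EHyp X E) (x : X) :
    ptSph (T.f x) = ((1 + ‖T.f x‖ ^ 2) / 2) • ((1 : ℝ), T.toSphere.f x, (0 : ℝ)) := by
  have hp := one_add_norm_sq_pos (T.f x)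
  rw [T.toSphere_f_eq x, toLC_apply]
  unfold ptSph
  refine Prod.ext ?_ (Prod.ext ?_ ?_)
  · simp
  · simp only [Prod.smul_mk]
    rw [← WithLp.toLp_smul]
    congr 1
    refine Prod.ext ?_ ?_
    · simp only [Prod.smul_mk, smul_eq_mul]
      field_simp
    · simp only [Prod.smul_mk]
      match_scalars
      field_simp
  · simp

omit [FiniteDimensional ℝ X] [FiniteDimensional ℝ E] in
lemma EHyp.plSph_eq (T : EHyp X E) (x : X) :
    plSph (T.f x) (T.ν x) = ((0 : ℝ), T.toSphere.ν x, (1 : ℝ))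
      + ⟪T.f x, T.ν x⟫ • ((1 : ℝ), T.toSphere.f x, (0 : ℝ)) := by
  have hp := one_add_norm_sq_pos (T.f x)
  rw [T.toSphere_f_eq x, T.toSphere_ν_eq x, toLC_apply, toLC_apply]
  unfold plSph
  refine Prod.ext ?_ (Prod.ext ?_ ?_)
  · simp
  · simp only [Prod.smul_mk, Prod.mk_add_mk]
    rw [← WithLp.toLp_smul, ← WithLp.toLp_add]
    congr 1
    refine Prod.ext ?_ ?_
    · simp only [Prod.smul_mk, smul_eq_mul, Prod.mk_add_mk]
      field_simp
      ring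
    · simp only [Prod.smul_mk, Prod.mk_add_mk]
      match_scalars <;> field_simp <;> ring
  · simp

theorem EHyp.lift_toSphere (T : EHyp X E) {x : X} (hx : x ∈ T.U) :
    T.toSphere.lift x = Submodule.span ℝ {ptSph (T.f x), plSph (T.f x) (T.ν x)} := by
  have hp := one_add_norm_sq_pos (T.f x)
  have h1 := T.ptSph_eq x
  have h2 := T.plSph_eq x
  have h3 : ((1 : ℝ), T.toSphere.f x, (0 : ℝ)) = (2 / (1 + ‖T.f x‖ ^ 2)) • ptSph (T.f x) := by
    rw [h1, smul_smul]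
    rw [show 2 / (1 + ‖T.f x‖ ^ 2) * ((1 + ‖T.f x‖ ^ 2) / 2) = 1 by field_simp, one_smul]
  have h4 : ((0 : ℝ), T.toSphere.ν x, (1 : ℝ)) = plSph (T.f x) (T.ν x)
      - ⟪T.f x, T.ν x⟫ • ((1 : ℝ), T.toSphere.f x, (0 : ℝ)) := by
    rw [h2]; abel
  unfold SHyp.lift
  apply le_antisymm
  · rw [Submodule.span_le]
    intro z hz
    simp only [Set.mem_insert_iff, Set.mem_singleton_iff] at hz
    have hpt : ptSph (T.f x) ∈ Submodule.span ℝ {ptSph (T.f x), plSph (T.f x) (T.ν x)} :=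
      Submodule.subset_span (by simp)
    have hpl : plSph (T.f x) (T.ν x) ∈
        Submodule.span ℝ {ptSph (T.f x), plSph (T.f x) (T.ν x)} :=
      Submodule.subset_span (by simp)
    rcases hz with rfl | rfl
    · rw [h3]
      exact Submodule.smul_mem _ _ hpt
    · rw [h4, h3]
      exact Submodule.sub_mem _ hpl (Submodule.smul_mem _ _ (Submodule.smul_mem _ _ hpt))
  · rw [Submodule.span_le]
    intro z hz
    simp only [Set.mem_insert_iff, Set.mem_singleton_iff] at hz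
    have ha : ((1 : ℝ), T.toSphere.f x, (0 : ℝ)) ∈
        Submodule.span ℝ {((1 : ℝ), T.toSphere.f x, (0 : ℝ)), ((0 : ℝ), T.toSphere.ν x, (1 : ℝ))} :=
      Submodule.subset_span (by simp)
    have hb : ((0 : ℝ), T.toSphere.ν x, (1 : ℝ)) ∈
        Submodule.span ℝ {((1 : ℝ), T.toSphere.f x, (0 : ℝ)), ((0 : ℝ), T.toSphere.ν x, (1 : ℝ))} :=
      Submodule.subset_span (by simp)
    rcases hz with rfl | rfl
    · rw [h1]
      exact Submodule.smul_mem _ _ ha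
    · rw [h2]
      exact Submodule.add_mem _ hb (Submodule.smul_mem _ _ ha)

omit [FiniteDimensional ℝ X] [FiniteDimensional ℝ E] in
lemma EHyp.key_toSphere (T : EHyp X E) {x : X} (hx : x ∈ T.U) (k : ℝ) (v : X) :
    fderiv ℝ T.toSphere.ν x v
        + ((1 + ‖T.f x‖ ^ 2) / 2 * k + ⟪T.f x, T.ν x⟫) • fderiv ℝ T.toSphere.f x v
      = toLC E (-(2 * (1 + ‖T.f x‖ ^ 2)⁻¹ *
            ⟪T.f x, fderiv ℝ T.ν x v + k • fderiv ℝ T.f x v⟫),
          (fderiv ℝ T.ν x v + k • fderiv ℝ T.f x v) - (2 * (1 + ‖T.f x‖ ^ 2)⁻¹ *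
            ⟪T.f x, fderiv ℝ T.ν x v + k • fderiv ℝ T.f x v⟫) • T.f x) := by
  have hp := one_add_norm_sq_pos (T.f x)
  rw [T.fderiv_toSphere_ν hx, T.fderiv_toSphere_f hx, ← (toLC E).map_smul, ← (toLC E).map_add]
  congr 1
  rw [inner_add_right, inner_smul_right]
  refine Prod.ext ?_ ?_
  · simp only [Prod.smul_mk, Prod.mk_add_mk, smul_eq_mul]
    field_simp
    ring
  · simp only [Prod.smul_mk, Prod.mk_add_mk]
    match_scalars <;> field_simp <;> ring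

theorem EHyp.prin_toSphere (T : EHyp X E) {x : X} (hx : x ∈ T.U) (k : ℝ) :
    prin T.toSphere.f T.toSphere.ν ((1 + ‖T.f x‖ ^ 2) / 2 * k + ⟪T.f x, T.ν x⟫) x
      = prin T.f T.ν k x := by
  have hp := one_add_norm_sq_pos (T.f x)
  ext v
  unfold prin
  rw [LinearMap.mem_ker, LinearMap.mem_ker]
  have h1 : (fderiv ℝ T.toSphere.ν x
      + ((1 + ‖T.f x‖ ^ 2) / 2 * k + ⟪T.f x, T.ν x⟫) • fderiv ℝ T.toSphere.f x).toLinearMap v
      = fderiv ℝ T.toSphere.ν x v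
        + ((1 + ‖T.f x‖ ^ 2) / 2 * k + ⟪T.f x, T.ν x⟫) • fderiv ℝ T.toSphere.f x v := rfl
  have h2 : (fderiv ℝ T.ν x + k • fderiv ℝ T.f x).toLinearMap v
      = fderiv ℝ T.ν x v + k • fderiv ℝ T.f x v := rfl
  rw [h1, h2, T.key_toSphere hx, toLC_eq_zero]
  set Z := fderiv ℝ T.ν x v + k • fderiv ℝ T.f x v with hZ
  constructor
  · intro h
    rw [Prod.mk_eq_zero] at h
    have h3 : 2 * (1 + ‖T.f x‖ ^ 2)⁻¹ * ⟪T.f x, Z⟫ = 0 := by linarith [h.1]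
    have h4 := h.2
    rw [h3, zero_smul, sub_zero] at h4
    exact h4
  · intro h
    rw [h]
    simp

theorem EHyp.properDupinWith_toSphere (T : EHyp X E) {g : ℕ} {m : Fin g → ℕ}
    (h : ProperDupinWith T.f T.ν T.U m) :
    ProperDupinWith T.toSphere.f T.toSphere.ν T.toSphere.U m := by
  obtain ⟨κ, hκ, hne, hm, hfin, htop, hd⟩ := h
  have hU : T.toSphere.U = T.U := rfl
  refine ⟨fun i y => (1 + ‖T.f y‖ ^ 2) / 2 * κ i y + ⟪T.f y, T.ν y⟫, ?_, ?_, hm, ?_, ?_, ?_⟩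
  · intro i
    rw [hU]
    exact (((contDiffOn_const.add (T.smooth_f.norm_sq ℝ)).div_const 2).mul (hκ i)).add
      (T.smooth_f.inner ℝ T.smooth_ν)
  · intro x hx i j hij h
    have hp := one_add_norm_sq_pos (T.f x)
    apply hne x hx i j hij
    have h1 : (1 + ‖T.f x‖ ^ 2) / 2 * κ i x = (1 + ‖T.f x‖ ^ 2) / 2 * κ j x := by
      simpa using h
    exact mul_left_cancel₀ (by positivity) h1
  · intro x hx i
    have h1 := T.prin_toSphere hx (κ i x)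
    simp only
    rw [h1]
    exact hfin x hx i
  · intro x hx
    have h1 : ∀ i, prin T.toSphere.f T.toSphere.ν
        ((1 + ‖T.f x‖ ^ 2) / 2 * κ i x + ⟪T.f x, T.ν x⟫) x = prin T.f T.ν (κ i x) x :=
      fun i => T.prin_toSphere hx (κ i x)
    simp only [h1]
    exact htop x hx
  · intro x hx i v hv
    have hx' : x ∈ T.U := hx
    simp only at hv
    rw [T.prin_toSphere hx'] at hv
    have hκd : HasFDerivAt (κ i) (fderiv ℝ (κ i) x) x :=
      (((hκ i).contDiffAt (T.isOpen_U.mem_nhds hx')).differentiableAt (by simp)).hasFDerivAt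
    have h1 := (((T.hasFDerivAt_g hx').mul_const (2 : ℝ)⁻¹).mul hκd).add (T.hasFDerivAt_s hx')
    have h2 : (fun y => (1 + ‖T.f y‖ ^ 2) / 2 * κ i y + ⟪T.f y, T.ν y⟫)
        = ((fun y => (1 + ‖T.f y‖ ^ 2) * (2 : ℝ)⁻¹) * κ i + fun y => ⟪T.f y, T.ν y⟫) := by
      funext y
      simp [div_eq_mul_inv]
    change fderiv ℝ (fun y => (1 + ‖T.f y‖ ^ 2) / 2 * κ i y + ⟪T.f y, T.ν y⟫) x v = 0
    rw [h2, h1.fderiv]
    have h3 : fderiv ℝ T.ν x v + κ i x • fderiv ℝ T.f x v = 0 := by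
      have := LinearMap.mem_ker.mp hv
      exact this
    have h4 : ⟪T.f x, fderiv ℝ T.ν x v⟫ = -(κ i x * ⟪T.f x, fderiv ℝ T.f x v⟫) := by
      have h5 : fderiv ℝ T.ν x v = -(κ i x • fderiv ℝ T.f x v) := eq_neg_of_add_eq_zero_left h3
      rw [h5, inner_neg_right, inner_smul_right]
    simp only [add_apply, smul_apply,
      ContinuousLinearMap.comp_apply, innerSL_apply_apply, smul_eq_mul]
    rw [hd x hx' i v hv, h4]
    ring

end

end DupinClass
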