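import Pool.Agent.H31.Dupin.Star
import Pool.Agent.H31.Dupin.Stereo
import Pool.Agent.H31.Dupin.ModelFacts

open scoped RealInnerProductSpace ContDiff Topology
open Module Set

namespace DupinClass

section

variable {X Y Z V : Type} [NormedAddCommGroup X] [NormedSpace ℝ X] [FiniteDimensional ℝ X]
  [NormedAddCommGroup Y] [NormedSpace ℝ Y] [FiniteDimensional ℝ Y]
  [NormedAddCommGroup V] [NormedSpace ℝ V] [FiniteDimensional ℝ V]
  [AddCommGroup Z] [Module ℝ Z] [FiniteDimensional ℝ Z]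

/-- General form of `StarHyp.confEq`: the kernels of the derivatives of `z₁`, `z₂` are given
subspaces `K₁`, `K₂`, and `q` is a linear map which is injective on the kernel of `du`. -/
theorem star_canon {B : LinearMap.BilinForm ℝ V} {U : Set X} {x₀ : X} {u : X → Y} {N : Set Y}
    {z₁ z₂ : Y → V} {s : X → V} {K₁ K₂ : Y → Submodule ℝ Y} (q : X →ₗ[ℝ] Z)
    (symm : B.IsSymm) (nondeg : B.Nondegenerate) (dim : finrank ℝ V = finrank ℝ X + 4)
    (isOpen_U : IsOpen U) (mem : x₀ ∈ U) (isOpen_N : IsOpen N) (maps : ∀ x ∈ U, u x ∈ N)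
    (smooth_u : ContDiffOn ℝ ∞ u U) (smooth_z₁ : ContDiffOn ℝ ∞ z₁ N)
    (smooth_z₂ : ContDiffOn ℝ ∞ z₂ N) (smooth_s : ContDiffOn ℝ ∞ s U)
    (isCompl : ∀ y ∈ N, IsCompl (K₁ y) (K₂ y)) (hK₁ : K₁ (u x₀) ≠ ⊥) (hK₂ : K₂ (u x₀) ≠ ⊥)
    (hker₁ : ∀ y ∈ N, ∀ v, fderiv ℝ z₁ y v = 0 ↔ v ∈ K₁ y)
    (hker₂ : ∀ y ∈ N, ∀ v, fderiv ℝ z₂ y v = 0 ↔ v ∈ K₂ y)
    (null₁₂ : ∀ y ∈ N, B (z₁ y - z₂ y) (z₁ y - z₂ y) = 0)
    (null₁ : ∀ y ∈ N, ∀ x ∈ U, B (z₁ y + s x) (z₁ y + s x) = 0)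
    (null₂ : ∀ y ∈ N, ∀ x ∈ U, B (z₂ y + s x) (z₂ y + s x) = 0)
    (pos₁ : ∀ v, fderiv ℝ z₁ (u x₀) v ≠ 0 → 0 < B (fderiv ℝ z₁ (u x₀) v) (fderiv ℝ z₁ (u x₀) v))
    (pos₂ : ∀ v, fderiv ℝ z₂ (u x₀) v ≠ 0 → 0 < B (fderiv ℝ z₂ (u x₀) v) (fderiv ℝ z₂ (u x₀) v))
    (pos₃ : ∀ v, fderiv ℝ s x₀ v ≠ 0 → 0 < B (fderiv ℝ s x₀ v) (fderiv ℝ s x₀ v))
    (inj : ∀ v, fderiv ℝ u x₀ v = 0 → fderiv ℝ s x₀ v = 0 → v = 0)
    (hq : ∀ v, fderiv ℝ u x₀ v = 0 → q v = 0 → v = 0)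
    (hX : finrank ℝ X = finrank ℝ Y + finrank ℝ Z) (hZ : 1 ≤ finrank ℝ Z)
    (li : LinearIndependent ℝ ![z₁ (u x₀) + s x₀, z₂ (u x₀) + s x₀]) :
    ∃ μ : Fin 3 → ℝ, μ 0 + μ 1 + μ 2 = 0 ∧
      ConfEqAt B (fun x => Submodule.span ℝ {z₁ (u x) + s x, z₂ (u x) + s x}) U x₀
        (mForm ![finrank ℝ (K₂ (u x₀)), finrank ℝ (K₁ (u x₀)), finrank ℝ Z] μ)
        (mFam ![finrank ℝ (K₂ (u x₀)), finrank ℝ (K₁ (u x₀)), finrank ℝ Z] μ)
        (mU ![finrank ℝ (K₂ (u x₀)), finrank ℝ (K₁ (u x₀)), finrank ℝ Z] μ) 0 ∧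
      (∀ n, (∀ v, B n (fderiv ℝ z₁ (u x₀) v) = 0) → B n (z₁ (u x₀) - z₂ (u x₀)) = 1 →
        B n (z₁ (u x₀) + s x₀) = 1 →
        (∀ᶠ y in 𝓝 (u x₀), ∃ v, ∃ t : ℝ,
          z₁ y - z₁ (u x₀) = fderiv ℝ z₁ (u x₀) v + t • n) → μ 0 = B n n) ∧
      (∀ n, (∀ v, B n (fderiv ℝ s x₀ v) = 0) → B n (z₁ (u x₀) + s x₀) = -1 →
        B n (z₂ (u x₀) + s x₀) = -1 →
        (∀ᶠ x in 𝓝 x₀, ∃ v, ∃ t : ℝ, s x - s x₀ = fderiv ℝ s x₀ v + t • n) → μ 2 = B n n) := by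
  have hN₀ : u x₀ ∈ N := maps _ mem
  have hc := isCompl _ hN₀
  have k₁ : ∀ y ∈ N, (fderiv ℝ z₁ y).toLinearMap.ker = K₁ y := by
    intro y hy; ext v; exact hker₁ y hy v
  have k₂ : ∀ y ∈ N, (fderiv ℝ z₂ y).toLinearMap.ker = K₂ y := by
    intro y hy; ext v; exact hker₂ y hy v
  -- surjectivity of the derivative of `u`
  have hΛ : Function.Injective ((fderiv ℝ u x₀).toLinearMap.prod q) := by
    rw [← LinearMap.ker_eq_bot, LinearMap.ker_eq_bot']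
    intro v hv
    exact hq v (congrArg Prod.fst hv) (congrArg Prod.snd hv)
  have hΛs : Function.Surjective ((fderiv ℝ u x₀).toLinearMap.prod q) :=
    (LinearMap.injective_iff_surjective_of_finrank_eq_finrank
      (by rw [hX, Module.finrank_prod])).1 hΛ
  have surj : ∀ w, ∃ v, fderiv ℝ u x₀ v = w := by
    intro w
    obtain ⟨v, hv⟩ := hΛs (w, 0)
    exact ⟨v, congrArg Prod.fst hv⟩
  have ne₃ : fderiv ℝ s x₀ ≠ 0 := by
    intro h0
    have : Nontrivial Z := Module.nontrivial_of_finrank_pos (R := ℝ) (by omega)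
    obtain ⟨w, hw⟩ := exists_ne (0 : Z)
    obtain ⟨v, hv⟩ := hΛs (0, w)
    have h1 : v = 0 := inj v (congrArg Prod.fst hv) (by rw [h0]; rfl)
    apply hw
    have h2 : q v = w := congrArg Prod.snd hv
    rw [← h2, h1, map_zero]
  have ne₁ : fderiv ℝ z₁ (u x₀) ≠ 0 := by
    intro h0
    have h1 : K₁ (u x₀) = ⊤ := by
      rw [eq_top_iff]
      intro v _
      rw [← hker₁ _ hN₀, h0]
      rfl
    apply hK₂
    have := hc.inf_eq_bot
    rwa [h1, top_inf_eq] at this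
  have ne₂ : fderiv ℝ z₂ (u x₀) ≠ 0 := by
    intro h0
    have h1 : K₂ (u x₀) = ⊤ := by
      rw [eq_top_iff]
      intro v _
      rw [← hker₂ _ hN₀, h0]
      rfl
    apply hK₁
    have := hc.inf_eq_bot
    rwa [h1, inf_top_eq] at this
  have hS : StarHyp B U x₀ u N z₁ z₂ s :=
    { symm := symm
      nondeg := nondeg
      dim := dim
      isOpen_U := isOpen_U
      mem := mem
      isOpen_N := isOpen_N
      maps := maps
      smooth_u := smooth_u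
      smooth_z₁ := smooth_z₁
      smooth_z₂ := smooth_z₂
      smooth_s := smooth_s
      isCompl := fun y hy => by rw [k₁ y hy, k₂ y hy]; exact isCompl y hy
      ne₁ := ne₁
      ne₂ := ne₂
      ne₃ := ne₃
      null₁₂ := null₁₂
      null₁ := null₁
      null₂ := null₂
      pos₁ := pos₁
      pos₂ := pos₂
      pos₃ := pos₃
      surj := surj
      inj := inj
      li := li }
  have hsum := Submodule.finrank_add_eq_of_isCompl hc
  have e1 := LinearMap.finrank_range_add_finrank_ker (fderiv ℝ z₁ (u x₀)).toLinearMap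
  have e2 := LinearMap.finrank_range_add_finrank_ker (fderiv ℝ z₂ (u x₀)).toLinearMap
  rw [k₁ _ hN₀] at e1
  rw [k₂ _ hN₀] at e2
  obtain ⟨μ, hμ, hC, h0, h2⟩ := hS.confEq (m := ![finrank ℝ (K₂ (u x₀)), finrank ℝ (K₁ (u x₀)),
    finrank ℝ (fderiv ℝ s x₀).toLinearMap.range]) (by simp; omega) (by simp; omega) (by simp)
  have h3 : finrank ℝ (fderiv ℝ s x₀).toLinearMap.range = finrank ℝ Z := by
    obtain ⟨A, -⟩ := hC
    have h1 := LinearEquiv.finrank_eq A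
    rw [finrank_MV, finrank_MX, dim] at h1
    simp only [Matrix.cons_val_zero, Matrix.cons_val_one, Matrix.cons_val] at h1
    omega
  rw [h3] at hC
  exact ⟨μ, hμ, hC, h0, h2⟩

end

section

variable {X E : Type} [NormedAddCommGroup X] [NormedSpace ℝ X] [FiniteDimensional ℝ X]
  [NormedAddCommGroup E] [InnerProductSpace ℝ E] [FiniteDimensional ℝ E]

omit [FiniteDimensional ℝ E] in
theorem pt_pl_li (p n : E) {a b : ℝ} (h : a • ptSph p + b • plSph p n = 0) : a = 0 ∧ b = 0 := by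
  have h2 := congrArg (fun v : ℝ × WithLp 2 (ℝ × E) × ℝ => v.2.2) h
  have hb : b = 0 := by simpa [ptSph, plSph] using h2
  rw [hb, zero_smul, add_zero] at h
  have h1 := congrArg (fun v : ℝ × WithLp 2 (ℝ × E) × ℝ => v.1) h
  have h3 : a * ((1 + ‖p‖ ^ 2) / 2) = 0 := by simpa [ptSph] using h1
  have h4 : (1 + ‖p‖ ^ 2) / 2 ≠ 0 := by positivity
  exact ⟨(mul_eq_zero.1 h3).resolve_right h4, hb⟩

/-- The lift in terms of two members of the pencil of spheres. -/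
theorem EHyp.lift_eq_of (T : EHyp X E) {x : X} (hx : x ∈ T.U) {k₁ k₂ c₁ c₂ : ℝ} (hk : k₁ ≠ k₂)
    (h1 : c₁ ≠ 0) (h2 : c₂ ≠ 0) {a₁ a₂ : ℝ × WithLp 2 (ℝ × E) × ℝ}
    (ha₁ : a₁ = c₁ • (k₁ • ptSph (T.f x) + plSph (T.f x) (T.ν x)))
    (ha₂ : a₂ = c₂ • (k₂ • ptSph (T.f x) + plSph (T.f x) (T.ν x))) :
    T.toSphere.lift x = Submodule.span ℝ {a₁, a₂} ∧ LinearIndependent ℝ ![a₁, a₂] := by
  rw [T.lift_toSphere hx]
  set P := ptSph (T.f x) with hP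
  set K := plSph (T.f x) (T.ν x) with hK
  have hne : k₁ - k₂ ≠ 0 := sub_ne_zero.2 hk
  constructor
  · apply le_antisymm
    · rw [Submodule.span_le, Set.insert_subset_iff, Set.singleton_subset_iff]
      simp only [SetLike.mem_coe, Submodule.mem_span_pair]
      refine ⟨⟨(k₁ - k₂)⁻¹ * c₁⁻¹, -((k₁ - k₂)⁻¹ * c₂⁻¹), ?_⟩,
        ⟨-(k₁ - k₂)⁻¹ * k₂ * c₁⁻¹, (k₁ - k₂)⁻¹ * k₁ * c₂⁻¹, ?_⟩⟩
      · rw [ha₁, ha₂]
        match_scalars
        · field_simp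
          ring
        · field_simp
          ring
      · rw [ha₁, ha₂]
        match_scalars
        · field_simp
          ring
        · field_simp
          ring
    · rw [Submodule.span_le, Set.insert_subset_iff, Set.singleton_subset_iff]
      simp only [SetLike.mem_coe, Submodule.mem_span_pair]
      exact ⟨⟨c₁ * k₁, c₁, by rw [ha₁]; module⟩, ⟨c₂ * k₂, c₂, by rw [ha₂]; module⟩⟩
  · rw [LinearIndependent.pair_iff]
    intro a b hab
    rw [ha₁, ha₂] at hab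
    have h3 : (a * c₁ * k₁ + b * c₂ * k₂) • P + (a * c₁ + b * c₂) • K = 0 := by
      rw [← hab]; module
    obtain ⟨h4, h5⟩ := pt_pl_li _ _ h3
    have h6 : a * c₁ = -(b * c₂) := by linarith
    have h7 : b * c₂ * (k₂ - k₁) = 0 := by
      rw [h6] at h4; linarith
    have h8 : b = 0 := by
      have h9 := (mul_eq_zero.1 h7).resolve_right (sub_ne_zero.2 hk.symm)
      exact (mul_eq_zero.1 h9).resolve_right h2
    refine ⟨?_, h8⟩
    rw [h8, zero_mul, neg_zero] at h6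
    exact (mul_eq_zero.1 h6).resolve_right h1

end

end DupinClass
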