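import Pool.Agent.H31.Dupin.Main
import Pool.Agent.H31.Dupin.S2Star

open scoped RealInnerProductSpace ContDiff Topology
open Module Set

namespace DupinClass

/-! ## Three distinct principal curvatures -/

section

variable {X X' E H : Type} [NormedAddCommGroup X] [NormedSpace ℝ X]
  [NormedAddCommGroup H] [InnerProductSpace ℝ H]
  [NormedAddCommGroup X'] [NormedSpace ℝ X'] [FiniteDimensional ℝ X']
  [NormedAddCommGroup E] [InnerProductSpace ℝ E] [FiniteDimensional ℝ E]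

/-- A hypersurface of Euclidean space which is Lie equivalent to a hypersurface with three principal
curvatures has, besides any two given numbers, a third one which is a principal curvature. -/
theorem exists_third [FiniteDimensional ℝ X] [FiniteDimensional ℝ H]
    {M : SHyp X H} (h3 : ProperDupin M.f M.ν M.U 3) {x : X} (hx : x ∈ M.U)
    {T : EHyp X' E} {x' : X'} (hx' : x' ∈ T.U) (hL : M.LieEq x T.toSphere x') (a b : ℝ) :
    ∃ k : ℝ, k ≠ a ∧ k ≠ b ∧ prin T.f T.ν k x' ≠ ⊥ := by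
  by_contra hcon
  push Not at hcon
  obtain ⟨κ, -, hne, hprin, -, -⟩ := h3
  obtain ⟨A, hA, φ, ψ, N, N', hd, hxN, hN, hN', hφ, hLL⟩ := hL
  have key : ∀ i : Fin 3, ∃ k c : ℝ, (k = a ∨ k = b) ∧ c ≠ 0 ∧
      A (κ i x, κ i x • M.f x + M.ν x, 1) = c • ((1 + ‖T.f x'‖ ^ 2) / 2 * k + ⟪T.f x', T.ν x'⟫,
        ((1 + ‖T.f x'‖ ^ 2) / 2 * k + ⟪T.f x', T.ν x'⟫) • T.toSphere.f x' + T.toSphere.ν x', 1) := by
    intro i
    have h1 := M.curvVec hx (hprin x hx i)
    have h2 := h1.map A hd hxN hLL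
    rw [hφ] at h2
    obtain ⟨k, c, hk, hc, hv⟩ := T.toSphere.exists_of_curvVec hx' h2
    have hpos : (1 + ‖T.f x'‖ ^ 2) / 2 ≠ 0 := by positivity
    have hk' : k = (1 + ‖T.f x'‖ ^ 2) / 2 * ((k - ⟪T.f x', T.ν x'⟫) / ((1 + ‖T.f x'‖ ^ 2) / 2))
        + ⟪T.f x', T.ν x'⟫ := by
      rw [mul_div_cancel₀ _ hpos]; ring
    rw [hk', T.prin_toSphere hx'] at hk
    refine ⟨(k - ⟪T.f x', T.ν x'⟫) / ((1 + ‖T.f x'‖ ^ 2) / 2), c, ?_, hc, ?_⟩
    · by_contra hab
      push Not at hab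
      exact hk (hcon _ hab.1 hab.2)
    · rw [← hk']
      exact hv
  choose k c hk hc hv using key
  obtain ⟨i, j, hij, hkij⟩ : ∃ i j : Fin 3, i ≠ j ∧ k i = k j := by
    rcases hk 0 with h0 | h0 <;> rcases hk 1 with h1 | h1 <;> rcases hk 2 with h2 | h2
    · exact ⟨0, 1, by decide, by rw [h0, h1]⟩
    · exact ⟨0, 1, by decide, by rw [h0, h1]⟩
    · exact ⟨0, 2, by decide, by rw [h0, h2]⟩
    · exact ⟨1, 2, by decide, by rw [h1, h2]⟩
    · exact ⟨1, 2, by decide, by rw [h1, h2]⟩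
    · exact ⟨0, 2, by decide, by rw [h0, h2]⟩
    · exact ⟨0, 1, by decide, by rw [h0, h1]⟩
    · exact ⟨0, 1, by decide, by rw [h0, h1]⟩
  have h1 : c j • A (κ i x, κ i x • M.f x + M.ν x, 1)
      = c i • A (κ j x, κ j x • M.f x + M.ν x, 1) := by
    rw [hv i, hv j, hkij, smul_smul, smul_smul, mul_comm]
  rw [← map_smul, ← map_smul] at h1
  have h2 := A.injective h1
  have h3 := congrArg (fun v : ℝ × H × ℝ => v.2.2) h2
  have h4 := congrArg (fun v : ℝ × H × ℝ => v.1) h2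
  simp only [Prod.smul_mk, smul_eq_mul, mul_one] at h3 h4
  rw [h3] at h4
  exact hne x hx i j hij (mul_left_cancel₀ (hc i) h4)

end

end DupinClass
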