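import Pool.Agent.H31.Dupin.S2RevD

open scoped RealInnerProductSpace ContDiff Topology
open Module Set

namespace DupinClass

section

variable {X Y E G : Type} [NormedAddCommGroup X] [NormedSpace ℝ X] [FiniteDimensional ℝ X]
  [NormedAddCommGroup Y] [NormedSpace ℝ Y] [FiniteDimensional ℝ Y]
  [NormedAddCommGroup E] [InnerProductSpace ℝ E] [FiniteDimensional ℝ E]
  [NormedAddCommGroup G] [InnerProductSpace ℝ G] [FiniteDimensional ℝ G]

variable (E) in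
/-- the component along the first factor of `ℝ × E` -/
noncomputable def s2revb_h : (ℝ × WithLp 2 (ℝ × WithLp 2 (ℝ × E)) × ℝ) →ₗ[ℝ] ℝ where
  toFun v := (WithLp.ofLp (WithLp.ofLp v.2.1).2).1
  map_add' := by intro v w; simp
  map_smul' := by intro t v; simp

variable (E G) in
/-- `revS` as a linear map -/
noncomputable def s2revb_S : G →ₗ[ℝ] ℝ × WithLp 2 (ℝ × WithLp 2 (G × E)) × ℝ where
  toFun e := revS E e
  map_add' := by
    intro v w
    refine Prod.ext ?_ (Prod.ext ?_ ?_)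
    · simp [revS]
    · refine WithLp.ofLp_injective 2 (Prod.ext ?_ ?_)
      · simp [revS]
      · refine WithLp.ofLp_injective 2 (Prod.ext ?_ ?_) <;> simp [revS]
    · simp [revS]
  map_smul' := by
    intro t v
    refine Prod.ext ?_ (Prod.ext ?_ ?_)
    · simp [revS]
    · refine WithLp.ofLp_injective 2 (Prod.ext ?_ ?_)
      · simp [revS]
      · refine WithLp.ofLp_injective 2 (Prod.ext ?_ ?_) <;> simp [revS]
    · simp [revS]

omit [FiniteDimensional ℝ E] [FiniteDimensional ℝ G] in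
theorem s2revb_JJ (v w : ℝ × WithLp 2 (ℝ × WithLp 2 (ℝ × E)) × ℝ) :
    lieForm _ (revJ E G v) (revJ E G w) = lieForm _ v w - s2revb_h E v * s2revb_h E w := by
  simp only [lieForm, revJ, s2revb_h, LinearMap.mk₂_apply, LinearMap.coe_mk, AddHom.coe_mk,
    WithLp.prod_inner_apply]
  simp
  ring

omit [FiniteDimensional ℝ E] [FiniteDimensional ℝ G] in
theorem s2revb_SS (e e' : G) :
    lieForm _ (revS E e) (revS E e') = ⟪e, e'⟫ := by
  simp only [lieForm, revS, LinearMap.mk₂_apply, WithLp.prod_inner_apply]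
  simp

omit [FiniteDimensional ℝ E] [FiniteDimensional ℝ G] in
theorem s2revb_JS (v : ℝ × WithLp 2 (ℝ × WithLp 2 (ℝ × E)) × ℝ) (e : G) :
    lieForm _ (revJ E G v) (revS E e) = 0 := by
  simp only [lieForm, revJ, revS, LinearMap.mk₂_apply, LinearMap.coe_mk, AddHom.coe_mk,
    WithLp.prod_inner_apply]
  simp

omit [FiniteDimensional ℝ Y] [FiniteDimensional ℝ E] in
theorem s2revb_h_kmap (W : EHyp Y (WithLp 2 (ℝ × E))) (κ : Y → ℝ) (y : Y) :
    s2revb_h E (W.kmap κ y) = κ y * (WithLp.ofLp (W.f y)).1 + (WithLp.ofLp (W.ν y)).1 := by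
  simp [s2revb_h, EHyp.kmap, ptSph, plSph]

omit [FiniteDimensional ℝ E] [FiniteDimensional ℝ G] in
/-- the pencil of spheres of the hypersurface of revolution -/
theorem s2revb_vec {w N : WithLp 2 (ℝ × E)} {κ : ℝ} {e : G} (he : ‖e‖ = 1)
    {F ν : WithLp 2 (G × E)}
    (hf : F = WithLp.toLp 2 ((WithLp.ofLp w).1 • e, (WithLp.ofLp w).2))
    (hν : ν = WithLp.toLp 2 ((WithLp.ofLp N).1 • e, (WithLp.ofLp N).2)) :
    revJ E G (κ • ptSph w + plSph w N) +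
      (κ * (WithLp.ofLp w).1 + (WithLp.ofLp N).1) • revS E e = κ • ptSph F + plSph F ν := by
  have hF : ‖F‖ ^ 2 = ‖w‖ ^ 2 := by
    rw [hf, WithLp.prod_norm_sq_eq_of_L2, WithLp.prod_norm_sq_eq_of_L2]
    simp [norm_smul, he]
  have hFν : ⟪F, ν⟫ = ⟪w, N⟫ := by
    rw [hf, hν, WithLp.prod_inner_apply, WithLp.prod_inner_apply]
    simp [inner_smul_left, inner_smul_right, he]
  refine Prod.ext ?_ (Prod.ext ?_ ?_)
  · simp only [revJ, revS, ptSph, plSph, hF, hFν]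
    simp
  · refine WithLp.ofLp_injective 2 (Prod.ext ?_ ?_)
    · simp only [revJ, revS, ptSph, plSph, hF, hFν]
      simp
    · refine WithLp.ofLp_injective 2 (Prod.ext ?_ ?_)
      · simp only [revJ, revS, ptSph, plSph, hf, hν]
        simp
        module
      · simp only [revJ, revS, ptSph, plSph, hf, hν]
        simp
  · simp only [revJ, revS, ptSph, plSph]
    simp

/-- the first members of the triple -/
noncomputable def s2revb_z (G : Type) [NormedAddCommGroup G] [InnerProductSpace ℝ G]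
    (W : EHyp Y (WithLp 2 (ℝ × E))) (κ : Y → ℝ) (y : Y) :
    ℝ × WithLp 2 (ℝ × WithLp 2 (G × E)) × ℝ :=
  (s2revb_h E (W.kmap κ y))⁻¹ • revJ E G (W.kmap κ y)

theorem s2revb_z_smooth {W : EHyp Y (WithLp 2 (ℝ × E))} {κ : Y → ℝ}
    (hκ : ContDiffOn ℝ ∞ κ W.U) {N : Set Y} (hN : N ⊆ W.U)
    (h0 : ∀ y ∈ N, s2revb_h E (W.kmap κ y) ≠ 0) :
    ContDiffOn ℝ ∞ (s2revb_z G W κ) N := by
  have h1 : ContDiffOn ℝ ∞ (fun y => s2revb_h E (W.kmap κ y)) N :=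
    (s2revb_h E).toContinuousLinearMap.contDiff.comp_contDiffOn ((W.kmap_smooth hκ).mono hN)
  have h2 : ContDiffOn ℝ ∞ (fun y => revJ E G (W.kmap κ y)) N :=
    (revJ E G).toContinuousLinearMap.contDiff.comp_contDiffOn ((W.kmap_smooth hκ).mono hN)
  exact (h1.inv h0).smul h2

theorem s2revb_z_fderiv {W : EHyp Y (WithLp 2 (ℝ × E))} {κ : Y → ℝ}
    (hκ : ContDiffOn ℝ ∞ κ W.U) {y : Y} (hy : y ∈ W.U)
    (h0 : s2revb_h E (W.kmap κ y) ≠ 0) (v : Y) :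
    fderiv ℝ (s2revb_z G W κ) y v = (s2revb_h E (W.kmap κ y))⁻¹ •
        revJ E G (fderiv ℝ (W.kmap κ) y v) +
      (-(s2revb_h E (W.kmap κ y) ^ 2)⁻¹ * s2revb_h E (fderiv ℝ (W.kmap κ) y v)) •
        revJ E G (W.kmap κ y) := by
  have hK := (differentiableAt_kmap hκ hy).hasFDerivAt
  have h1 := ((s2revb_h E).toContinuousLinearMap.hasFDerivAt (x := W.kmap κ y)).comp y hK
  have h2 := ((revJ E G).toContinuousLinearMap.hasFDerivAt (x := W.kmap κ y)).comp y hK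
  have h3 := (hasDerivAt_inv h0).comp_hasFDerivAt y h1
  have h4 := h3.smul h2
  have h5 : HasFDerivAt (s2revb_z G W κ) _ y := h4
  rw [h5.fderiv]
  rfl

theorem s2revb_z_pos {W : EHyp Y (WithLp 2 (ℝ × E))} {κ : Y → ℝ}
    (hκ : ContDiffOn ℝ ∞ κ W.U) {y : Y} (hy : y ∈ W.U)
    (h0 : s2revb_h E (W.kmap κ y) ≠ 0) (v : Y) :
    lieForm _ (fderiv ℝ (s2revb_z G W κ) y v) (fderiv ℝ (s2revb_z G W κ) y v) =
      (s2revb_h E (W.kmap κ y) ^ 2)⁻¹ * ‖fderiv ℝ W.ν y v + κ y • fderiv ℝ W.f y v‖ ^ 2 := by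
  have a1 := W.kmap_fderiv hκ hy v
  have a2 : lieForm _ (fderiv ℝ (W.kmap κ) y v) (W.kmap κ y) = 0 := by
    rw [lieForm_isSymm.eq]; exact a1
  have a3 := W.fderiv_fderiv_kmap hκ hy v
  have a4 := W.kmap_kmap (κ := κ) (κ' := κ) hy
  rw [s2revb_z_fderiv hκ hy h0]
  simp only [map_add, map_smul, LinearMap.add_apply, LinearMap.smul_apply, s2revb_JJ, a1, a2, a3,
    a4, smul_eq_mul]
  field_simp
  ring

theorem s2revb_z_zero {W : EHyp Y (WithLp 2 (ℝ × E))} {κ : Y → ℝ}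
    (hκ : ContDiffOn ℝ ∞ κ W.U) {y : Y} (hy : y ∈ W.U)
    (h0 : s2revb_h E (W.kmap κ y) ≠ 0)
    (hd : ∀ v ∈ prin W.f W.ν (κ y) y, fderiv ℝ κ y v = 0) (v : Y) :
    fderiv ℝ (s2revb_z G W κ) y v = 0 ↔ v ∈ prin W.f W.ν (κ y) y := by
  constructor
  · intro h
    have h1 := s2revb_z_pos (G := G) hκ hy h0 v
    rw [h] at h1
    simp only [map_zero] at h1
    have h2 : (s2revb_h E (W.kmap κ y) ^ 2)⁻¹ ≠ 0 := inv_ne_zero (pow_ne_zero 2 h0)
    have h3 := (mul_eq_zero.1 h1.symm).resolve_left h2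
    rw [mem_prin]
    exact norm_eq_zero.1 (pow_eq_zero_iff two_ne_zero |>.1 h3)
  · intro h
    have h1 := (kmap_fderiv_eq_zero_iff hκ hy hd v).2 h
    rw [s2revb_z_fderiv hκ hy h0, h1]
    simp

/-- derivative of the unit vector field is orthogonal to it -/
theorem s2revb_orth {U : Set X} (hU : IsOpen U) {e : X → G} (he : ContDiffOn ℝ ∞ e U)
    (h : ∀ x ∈ U, ‖e x‖ = 1) {x₀ : X} (hx₀ : x₀ ∈ U) (v : X) : ⟪e x₀, fderiv ℝ e x₀ v⟫ = 0 := by
  have hU' : U ∈ 𝓝 x₀ := hU.mem_nhds hx₀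
  have de := (((he x₀ hx₀).contDiffAt hU').differentiableAt (by simp)).hasFDerivAt
  have h1 := de.norm_sq
  have h2 : HasFDerivAt (fun _ : X => (1 : ℝ)) (0 : X →L[ℝ] ℝ) x₀ := hasFDerivAt_const _ _
  have h3 : (fun _ : X => (1 : ℝ)) =ᶠ[𝓝 x₀] (fun x => ‖e x‖ ^ 2) := by
    filter_upwards [hU'] with x hx
    rw [h x hx, one_pow]
  have h4 := (h1.congr_of_eventuallyEq h3).unique h2
  have h5 := congrArg (fun L : X →L[ℝ] ℝ => L v) h4
  simp only [smul_apply, ContinuousLinearMap.comp_apply,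
    innerSL_apply_apply, zero_apply, nsmul_eq_mul, Nat.cast_ofNat] at h5
  linarith

theorem s2revb_inj {W : EHyp Y (WithLp 2 (ℝ × E))}
    {T : EHyp X (WithLp 2 (G × E))} {u : X → Y} {e : X → G}
    (hu : ContDiffOn ℝ ∞ u T.U) (he : ContDiffOn ℝ ∞ e T.U)
    (h : ∀ x ∈ T.U, u x ∈ W.U ∧ 0 < (WithLp.ofLp (W.f (u x))).1 ∧ ‖e x‖ = 1 ∧
      T.f x = WithLp.toLp 2 ((WithLp.ofLp (W.f (u x))).1 • e x, (WithLp.ofLp (W.f (u x))).2) ∧
      T.ν x = WithLp.toLp 2 ((WithLp.ofLp (W.ν (u x))).1 • e x, (WithLp.ofLp (W.ν (u x))).2))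
    {x₀ : X} (hx₀ : x₀ ∈ T.U) (v : X) (hv₁ : fderiv ℝ u x₀ v = 0) (hv₂ : fderiv ℝ e x₀ v = 0) :
    v = 0 := by
  have hU : T.U ∈ 𝓝 x₀ := T.isOpen_U.mem_nhds hx₀
  obtain ⟨hux, -, -, -⟩ := h x₀ hx₀
  have hWU : W.U ∈ 𝓝 (u x₀) := W.isOpen_U.mem_nhds hux
  have du := (((hu x₀ hx₀).contDiffAt hU).differentiableAt (by simp)).hasFDerivAt
  have de := (((he x₀ hx₀).contDiffAt hU).differentiableAt (by simp)).hasFDerivAt
  have dw := (((W.smooth_f _ hux).contDiffAt hWU).differentiableAt (by simp)).hasFDerivAt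
  have dwu := dw.comp x₀ du
  have dL := (((WithLp.prodContinuousLinearEquiv 2 ℝ ℝ E) :
      WithLp 2 (ℝ × E) →L[ℝ] (ℝ × E)).hasFDerivAt (x := W.f (u x₀))).comp x₀ dwu
  have d1 := dL.fst
  have d2 := dL.snd
  have dF : HasFDerivAt T.f (((WithLp.prodContinuousLinearEquiv 2 ℝ G E).symm :
      (G × E) →L[ℝ] WithLp 2 (G × E)).comp _) x₀ :=
    ((((WithLp.prodContinuousLinearEquiv 2 ℝ G E).symm :
      (G × E) →L[ℝ] WithLp 2 (G × E)).hasFDerivAt).comp x₀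
      ((d1.smul de).prodMk d2)).congr_of_eventuallyEq
      (by filter_upwards [hU] with x hx using (h x hx).2.2.2.1)
  apply T.immersion x₀ hx₀
  rw [dF.fderiv]
  simp [hv₁, hv₂]

/-- **Module S2REVB.** The first component of `κ P + H` in the direction of `ℝ` is `κ h + N_h`. -/
theorem revolution_canon {W : EHyp Y (WithLp 2 (ℝ × E))} {κ₁ κ₂ : Y → ℝ} (hW : TwoDupin W κ₁ κ₂)
    (hG : 2 ≤ finrank ℝ G) {T : EHyp X (WithLp 2 (G × E))} {u : X → Y} {e : X → G}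
    (hu : ContDiffOn ℝ ∞ u T.U) (he : ContDiffOn ℝ ∞ e T.U)
    (h : ∀ x ∈ T.U, u x ∈ W.U ∧ 0 < (WithLp.ofLp (W.f (u x))).1 ∧ ‖e x‖ = 1 ∧
      T.f x = WithLp.toLp 2 ((WithLp.ofLp (W.f (u x))).1 • e x, (WithLp.ofLp (W.f (u x))).2) ∧
      T.ν x = WithLp.toLp 2 ((WithLp.ofLp (W.ν (u x))).1 • e x, (WithLp.ofLp (W.ν (u x))).2))
    {x₀ : X} (hx₀ : x₀ ∈ T.U)
    (h1 : κ₁ (u x₀) * (WithLp.ofLp (W.f (u x₀))).1 + (WithLp.ofLp (W.ν (u x₀))).1 ≠ 0)
    (h2 : κ₂ (u x₀) * (WithLp.ofLp (W.f (u x₀))).1 + (WithLp.ofLp (W.ν (u x₀))).1 ≠ 0)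
    {m : Fin 3 → ℕ}
    (m0 : finrank ℝ (prin W.f W.ν (κ₂ (u x₀)) (u x₀)) = m 0)
    (m1 : finrank ℝ (prin W.f W.ν (κ₁ (u x₀)) (u x₀)) = m 1)
    (m2 : finrank ℝ G = m 2 + 1) :
    ∃ μ : Fin 3 → ℝ, μ 0 + μ 1 + μ 2 = 0 ∧
      ConfEqAt (lieForm (WithLp 2 (ℝ × WithLp 2 (G × E)))) T.toSphere.lift T.U x₀
        (mForm m μ) (mFam m μ) (mU m μ) 0 := by
  have hy₀ : u x₀ ∈ W.U := (h x₀ hx₀).1
  set ℓ₁ : Y → ℝ := fun y => s2revb_h E (W.kmap κ₁ y) with hℓ₁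
  set ℓ₂ : Y → ℝ := fun y => s2revb_h E (W.kmap κ₂ y) with hℓ₂
  have c1 : ContinuousOn ℓ₁ W.U := ((s2revb_h E).toContinuousLinearMap.contDiff.comp_contDiffOn
    (W.kmap_smooth hW.smooth₁)).continuousOn
  have c2 : ContinuousOn ℓ₂ W.U := ((s2revb_h E).toContinuousLinearMap.contDiff.comp_contDiffOn
    (W.kmap_smooth hW.smooth₂)).continuousOn
  set N : Set Y := (W.U ∩ {y | ℓ₁ y ≠ 0}) ∩ {y | ℓ₂ y ≠ 0} with hN
  have hN1 : IsOpen (W.U ∩ {y | ℓ₁ y ≠ 0}) := c1.isOpen_inter_preimage W.isOpen_U isOpen_ne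
  have hNo : IsOpen N := (c2.mono inter_subset_left).isOpen_inter_preimage hN1 isOpen_ne
  have hNW : N ⊆ W.U := fun y hy => hy.1.1
  have hN₀ : u x₀ ∈ N := by
    refine ⟨⟨hy₀, ?_⟩, ?_⟩
    · change s2revb_h E (W.kmap κ₁ (u x₀)) ≠ 0
      rw [s2revb_h_kmap]; exact h1
    · change s2revb_h E (W.kmap κ₂ (u x₀)) ≠ 0
      rw [s2revb_h_kmap]; exact h2
  set U : Set X := T.U ∩ u ⁻¹' N with hU
  have hUo : IsOpen U := hu.continuousOn.isOpen_inter_preimage T.isOpen_U hNo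
  have hUT : U ⊆ T.U := inter_subset_left
  have hxU : x₀ ∈ U := ⟨hx₀, hN₀⟩
  have de := (((he x₀ hx₀).contDiffAt (T.isOpen_U.mem_nhds hx₀)).differentiableAt
    (by simp)).hasFDerivAt
  have horth := s2revb_orth T.isOpen_U he (fun x hx => (h x hx).2.2.1) hx₀
  -- the linear map `q`
  have hqmem : ∀ v, (fderiv ℝ e x₀).toLinearMap v ∈ (ℝ ∙ (e x₀))ᗮ := by
    intro v
    rw [Submodule.mem_orthogonal_singleton_iff_inner_right]
    exact horth v
  set q : X →ₗ[ℝ] (ℝ ∙ (e x₀))ᗮ := (fderiv ℝ e x₀).toLinearMap.codRestrict _ hqmem with hq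
  have he0 : e x₀ ≠ 0 := by
    intro h0
    have := (h x₀ hx₀).2.2.1
    rw [h0, norm_zero] at this
    exact zero_ne_one this
  have hZ : finrank ℝ (ℝ ∙ (e x₀))ᗮ = m 2 := by
    haveI : Fact (finrank ℝ G = m 2 + 1) := ⟨m2⟩
    exact Submodule.finrank_orthogonal_span_singleton he0
  -- the third map
  have hs : (fun x => revS E (e x)) = fun x => s2revb_S E G (e x) := rfl
  have hsd : ∀ v, fderiv ℝ (fun x => revS E (e x)) x₀ v = revS E (fderiv ℝ e x₀ v) := by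
    intro v
    have e1 := ((s2revb_S E G).toContinuousLinearMap.hasFDerivAt (x := e x₀)).comp x₀ de
    have e2 : HasFDerivAt (fun x => revS E (e x))
      ((s2revb_S E G).toContinuousLinearMap.comp (fderiv ℝ e x₀)) x₀ := e1
    rw [e2.fderiv]
    rfl
  have hS0 : ∀ w : G, revS E w = 0 → w = 0 := by
    intro w hw
    have := s2revb_SS (E := E) w w
    rw [hw] at this
    simp only [map_zero] at this
    exact inner_self_eq_zero.1 this.symm
  have hsmooth : ContDiffOn ℝ ∞ (fun x => revS E (e x)) T.U :=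
    (s2revb_S E G).toContinuousLinearMap.contDiff.comp_contDiffOn he
  -- values of the form
  have hzz : ∀ κ κ' : Y → ℝ, ∀ y ∈ W.U, s2revb_h E (W.kmap κ y) ≠ 0 →
      s2revb_h E (W.kmap κ' y) ≠ 0 →
      lieForm _ (s2revb_z G W κ y) (s2revb_z G W κ' y) = -1 := by
    intro κ κ' y hy hk hk'
    unfold s2revb_z
    rw [map_smul, map_smul, LinearMap.smul_apply, s2revb_JJ, W.kmap_kmap hy]
    simp only [smul_eq_mul]
    field_simp
    ring
  have hzs : ∀ κ : Y → ℝ, ∀ y, ∀ w : G, lieForm _ (s2revb_z G W κ y) (revS E w) = 0 := by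
    intro κ y w
    unfold s2revb_z
    rw [map_smul, LinearMap.smul_apply, s2revb_JS, smul_zero]
  have hsym := (lieForm_isSymm (H := WithLp 2 (ℝ × WithLp 2 (G × E)))).eq
  have hnull : ∀ κ : Y → ℝ, ∀ y ∈ W.U, s2revb_h E (W.kmap κ y) ≠ 0 → ∀ x ∈ T.U,
      lieForm _ (s2revb_z G W κ y + revS E (e x)) (s2revb_z G W κ y + revS E (e x)) = 0 := by
    intro κ y hy hk x hx
    simp only [map_add, LinearMap.add_apply]
    rw [hzz κ κ y hy hk hk, hzs, hsym (revS E (e x)), hzs, s2revb_SS,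
      real_inner_self_eq_norm_sq, (h x hx).2.2.1]
    norm_num
  -- the lift
  have hlift : ∀ x ∈ U, T.toSphere.lift x = Submodule.span ℝ
      {s2revb_z G W κ₁ (u x) + revS E (e x), s2revb_z G W κ₂ (u x) + revS E (e x)} ∧
      LinearIndependent ℝ ![s2revb_z G W κ₁ (u x) + revS E (e x),
        s2revb_z G W κ₂ (u x) + revS E (e x)] := by
    intro x hx
    obtain ⟨hux, -, he1, hf, hν⟩ := h x hx.1
    have n1 : s2revb_h E (W.kmap κ₁ (u x)) ≠ 0 := hx.2.1.2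
    have n2 : s2revb_h E (W.kmap κ₂ (u x)) ≠ 0 := hx.2.2
    refine T.lift_eq_of hx.1 (hW.ne _ hux) (inv_ne_zero n1) (inv_ne_zero n2) ?_ ?_
    · rw [← s2revb_vec he1 hf hν, smul_add, ← s2revb_h_kmap, smul_smul, inv_mul_cancel₀ n1,
        one_smul]
      rfl
    · rw [← s2revb_vec he1 hf hν, smul_add, ← s2revb_h_kmap, smul_smul, inv_mul_cancel₀ n2,
        one_smul]
      rfl
  have hTd := T.dim
  have hWd := W.dim
  rw [(WithLp.linearEquiv 2 ℝ (G × E)).finrank_eq, Module.finrank_prod] at hTd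
  rw [(WithLp.linearEquiv 2 ℝ (ℝ × E)).finrank_eq, Module.finrank_prod, Module.finrank_self] at hWd
  have hpos : ∀ κ : Y → ℝ, ContDiffOn ℝ ∞ κ W.U → s2revb_h E (W.kmap κ (u x₀)) ≠ 0 →
      (∀ v ∈ prin W.f W.ν (κ (u x₀)) (u x₀), fderiv ℝ κ (u x₀) v = 0) →
      ∀ v, fderiv ℝ (s2revb_z G W κ) (u x₀) v ≠ 0 →
      0 < lieForm _ (fderiv ℝ (s2revb_z G W κ) (u x₀) v) (fderiv ℝ (s2revb_z G W κ) (u x₀) v) := by
    intro κ hκ hk hd v hv
    rw [s2revb_z_pos hκ hy₀ hk]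
    have h3 : fderiv ℝ W.ν (u x₀) v + κ (u x₀) • fderiv ℝ W.f (u x₀) v ≠ 0 := by
      intro h4
      apply hv
      rw [s2revb_z_zero hκ hy₀ hk hd, mem_prin]
      exact h4
    positivity
  obtain ⟨μ, hμ, hC, -, -⟩ := star_canon (B := lieForm (WithLp 2 (ℝ × WithLp 2 (G × E))))
    (U := U) (x₀ := x₀) (u := u) (N := N) (z₁ := s2revb_z G W κ₁) (z₂ := s2revb_z G W κ₂)
    (s := fun x => revS E (e x)) (K₁ := fun y => prin W.f W.ν (κ₁ y) y)
    (K₂ := fun y => prin W.f W.ν (κ₂ y) y) q lieForm_isSymm lieForm_nondegenerate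
    (by
      rw [Module.finrank_prod, Module.finrank_prod,
        (WithLp.linearEquiv 2 ℝ (ℝ × WithLp 2 (G × E))).finrank_eq, Module.finrank_prod,
        (WithLp.linearEquiv 2 ℝ (G × E)).finrank_eq, Module.finrank_prod, Module.finrank_self]
      omega)
    hUo hxU hNo (fun x hx => hx.2) (hu.mono hUT)
    (s2revb_z_smooth hW.smooth₁ hNW (fun y hy => hy.1.2))
    (s2revb_z_smooth hW.smooth₂ hNW (fun y hy => hy.2)) (hsmooth.mono hUT)
    (fun y hy => isCompl_prin (W.immersion y (hNW hy)) (hW.ne y (hNW hy)) (hW.top y (hNW hy)))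
    (hW.ne_bot₁ _ hy₀) (hW.ne_bot₂ _ hy₀)
    (fun y hy v => s2revb_z_zero hW.smooth₁ (hNW hy) hy.1.2 (hW.deriv₁ y (hNW hy)) v)
    (fun y hy v => s2revb_z_zero hW.smooth₂ (hNW hy) hy.2 (hW.deriv₂ y (hNW hy)) v)
    (fun y hy => by
      simp only [map_sub, LinearMap.sub_apply]
      rw [hzz _ _ y (hNW hy) hy.1.2 hy.1.2, hzz _ _ y (hNW hy) hy.2 hy.1.2,
        hzz _ _ y (hNW hy) hy.1.2 hy.2, hzz _ _ y (hNW hy) hy.2 hy.2]
      ring)
    (fun y hy x hx => hnull κ₁ y (hNW hy) hy.1.2 x hx.1)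
    (fun y hy x hx => hnull κ₂ y (hNW hy) hy.2 x hx.1)
    (hpos κ₁ hW.smooth₁ hN₀.1.2 (hW.deriv₁ _ hy₀)) (hpos κ₂ hW.smooth₂ hN₀.2 (hW.deriv₂ _ hy₀))
    (fun v hv => by
      rw [hsd] at hv ⊢
      rw [s2revb_SS, real_inner_self_eq_norm_sq]
      have : fderiv ℝ e x₀ v ≠ 0 := by
        intro h0
        apply hv
        rw [h0]
        exact (s2revb_S E G).map_zero
      positivity)
    (fun v hv1 hv2 => by
      rw [hsd] at hv2
      exact s2revb_inj hu he h hx₀ v hv1 (hS0 _ hv2))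
    (fun v hv1 hv2 => s2revb_inj hu he h hx₀ v hv1 (congrArg Subtype.val hv2))
    (by rw [hZ]; omega) (by rw [hZ]; omega) (hlift x₀ hxU).2
  have hm : ![finrank ℝ (prin W.f W.ν (κ₂ (u x₀)) (u x₀)),
      finrank ℝ (prin W.f W.ν (κ₁ (u x₀)) (u x₀)), finrank ℝ (ℝ ∙ (e x₀))ᗮ] = m := by
    funext i
    fin_cases i
    · exact m0
    · exact m1
    · exact hZ
  rw [hm] at hC
  refine ⟨μ, hμ, ?_⟩
  obtain ⟨A, hA, φ, ψ, N₁, N', hφ, hxN, hNU, hNU', hφx, hL⟩ := hC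
  refine ⟨A, hA, φ, ψ, N₁, N', hφ, hxN, fun x hx => (hNU hx).1, hNU', hφx, ?_⟩
  intro x hx
  rw [← hL x hx]
  congr 1
  exact (hlift x (hNU hx)).1

end

end DupinClass
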