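import Pool.Agent.H31.Dupin.S2Zero
import Pool.Agent.H31.Dupin.S2Cyl
import Pool.Agent.H31.Dupin.S2Rev
import Pool.Agent.H31.Dupin.S2Cone
import Pool.Agent.H31.Dupin.S2CylP
import Pool.Agent.H31.Dupin.S2Norm

open scoped RealInnerProductSpace ContDiff Topology
open Module Set

namespace DupinClass

section

variable {X H : Type} [NormedAddCommGroup X] [NormedSpace ℝ X] [FiniteDimensional ℝ X]
  [NormedAddCommGroup H] [InnerProductSpace ℝ H] [FiniteDimensional ℝ H]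

omit [FiniteDimensional ℝ H] in
theorem one_le_finrank_of_dupin {M : SHyp X H} (h3 : ProperDupin M.f M.ν M.U 3) {x : X}
    (hx : x ∈ M.U) : 1 ≤ finrank ℝ X := by
  obtain ⟨κ, -, -, hprin, -, -⟩ := h3
  by_contra hlt
  have h0 : finrank ℝ X = 0 := by omega
  have : Subsingleton X := Module.finrank_zero_iff.mp h0
  exact hprin x hx 0 (Subsingleton.elim _ _)

/-- Every hypersurface which is reducible in the sense of Pinkall is equivalent to a canonical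
model. -/
theorem reducible'_canon (M : SHyp X H) (h3 : ProperDupin M.f M.ν M.U 3) {x : X} (hx : x ∈ M.U)
    (hM : M.ReducibleAt' x) :
    ∃ (m : Fin 3 → ℕ) (μ : Fin 3 → ℝ), (∀ i, 1 ≤ m i) ∧ μ 0 + μ 1 + μ 2 = 0 ∧
      ConfEqAt (lieForm H) M.lift M.U x (mForm m μ) (mFam m μ) (mU m μ) 0 := by
  have hX := one_le_finrank_of_dupin h3 hx
  rcases hM with ⟨W, hW, hG, r, hr, T, hT, x', hx', hL⟩ |
    ⟨W, hW, hG, T, ⟨u, t, hu, ht, h⟩, x', hx', hL⟩ |
    ⟨W, hW, hG, T, ⟨u, e, hu, he, h⟩, x', hx', hL⟩ |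
    ⟨W, hW, T, ⟨u, t, w, hu, ht, hw, h⟩, x', hx', hL⟩
  · obtain ⟨p, q, m, hp, hq, hm, -, ρ, hρ, hC⟩ := reducible_confEqAt M h3 hx
      (.tube W hW hG r hr T hT x' hx' hL)
    refine ⟨_, _, ?_, ?_, hC⟩
    · intro i; fin_cases i <;> assumption
    · simp
  · obtain ⟨κ₁, κ₂, hW2⟩ := hW.twoDupin
    have hy := (h x' hx').1
    have h1 : κ₁ (u x') ≠ 0 := by
      intro h0
      obtain ⟨k, hk1, hk2, hk⟩ := exists_third h3 hx hx' hL 0 (κ₂ (u x'))
      rcases cylinder_prin hW2 hu ht h hx' hk with h4 | h4 | h4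
      · exact hk1 (h4.trans h0)
      · exact hk2 h4
      · exact hk1 h4
    have h2 : κ₂ (u x') ≠ 0 := by
      intro h0
      obtain ⟨k, hk1, hk2, hk⟩ := exists_third h3 hx hx' hL 0 (κ₁ (u x'))
      rcases cylinder_prin hW2 hu ht h hx' hk with h4 | h4 | h4
      · exact hk2 h4
      · exact hk1 (h4.trans h0)
      · exact hk1 h4
    obtain ⟨μ, hμ, -, hC, -⟩ := cylinder_canon hW2 hG hu ht h hx' h1 h2
      (m := ![finrank ℝ (prin W.f W.ν (κ₂ (u x')) (u x')),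
        finrank ℝ (prin W.f W.ν (κ₁ (u x')) (u x')), finrank ℝ _]) rfl rfl rfl
    refine ⟨_, μ, ?_, hμ, (hL.confEqAt hX).trans hC⟩
    intro i
    fin_cases i
    · exact Submodule.one_le_finrank_iff.mpr (hW2.ne_bot₂ _ hy)
    · exact Submodule.one_le_finrank_iff.mpr (hW2.ne_bot₁ _ hy)
    · exact hG
  · obtain ⟨κ₁, κ₂, hW2⟩ := hW.twoDupin
    have hy := (h x' hx').1
    have hpos := (h x' hx').2.1
    have h1 : κ₁ (u x') * (WithLp.ofLp (W.f (u x'))).1 + (WithLp.ofLp (W.ν (u x'))).1 ≠ 0 := by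
      intro h0
      obtain ⟨k, hk1, hk2, hk⟩ := exists_third h3 hx hx' hL (κ₁ (u x')) (κ₂ (u x'))
      rcases revolution_prin hW2 hu he h hx' hk with h4 | h4 | h4
      · exact hk1 h4
      · exact hk2 h4
      · apply hk1
        have h5 : (k - κ₁ (u x')) * (WithLp.ofLp (W.f (u x'))).1 = 0 := by linarith
        exact sub_eq_zero.1 ((mul_eq_zero.1 h5).resolve_right hpos.ne')
    have h2 : κ₂ (u x') * (WithLp.ofLp (W.f (u x'))).1 + (WithLp.ofLp (W.ν (u x'))).1 ≠ 0 := by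
      intro h0
      obtain ⟨k, hk1, hk2, hk⟩ := exists_third h3 hx hx' hL (κ₁ (u x')) (κ₂ (u x'))
      rcases revolution_prin hW2 hu he h hx' hk with h4 | h4 | h4
      · exact hk1 h4
      · exact hk2 h4
      · apply hk2
        have h5 : (k - κ₂ (u x')) * (WithLp.ofLp (W.f (u x'))).1 = 0 := by linarith
        exact sub_eq_zero.1 ((mul_eq_zero.1 h5).resolve_right hpos.ne')
    rename_i G X' _ _ _ _ _ _ _ _ _ _ _ _
    obtain ⟨μ, hμ, hC⟩ := revolution_canon hW2 hG hu he h hx' h1 h2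
      (m := ![finrank ℝ (prin W.f W.ν (κ₂ (u x')) (u x')),
        finrank ℝ (prin W.f W.ν (κ₁ (u x')) (u x')), finrank ℝ G - 1]) rfl rfl
        (by simp; omega)
    refine ⟨_, μ, ?_, hμ, (hL.confEqAt hX).trans hC⟩
    intro i
    fin_cases i
    · exact Submodule.one_le_finrank_iff.mpr (hW2.ne_bot₂ _ hy)
    · exact Submodule.one_le_finrank_iff.mpr (hW2.ne_bot₁ _ hy)
    · simp; omega
  · obtain ⟨κ₁, κ₂, hW2⟩ := hW.twoDupinS
    have hy := (h x' hx').1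
    have hpos := (h x' hx').2.1
    have h1 : κ₁ (u x') ≠ 0 := by
      intro h0
      obtain ⟨k, hk1, hk2, hk⟩ := exists_third h3 hx hx' hL 0 (κ₂ (u x') / t x')
      rcases cone_prin hW2 hu ht hw h hx' hk with h4 | h4 | h4
      · rw [h0] at h4
        exact hk1 ((mul_eq_zero.1 h4).resolve_right hpos.ne')
      · exact hk2 (by rw [← h4]; field_simp)
      · exact hk1 h4
    have h2 : κ₂ (u x') ≠ 0 := by
      intro h0
      obtain ⟨k, hk1, hk2, hk⟩ := exists_third h3 hx hx' hL 0 (κ₁ (u x') / t x')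
      rcases cone_prin hW2 hu ht hw h hx' hk with h4 | h4 | h4
      · exact hk2 (by rw [← h4]; field_simp)
      · rw [h0] at h4
        exact hk1 ((mul_eq_zero.1 h4).resolve_right hpos.ne')
      · exact hk1 h4
    obtain ⟨μ, hμ, hC⟩ := cone_canon hW2 hu ht hw h hx' h1 h2
      (m := ![finrank ℝ (prin W.f W.ν (κ₂ (u x')) (u x')),
        finrank ℝ (prin W.f W.ν (κ₁ (u x')) (u x')), finrank ℝ _ + 1]) rfl rfl rfl
    refine ⟨_, μ, ?_, hμ, (hL.confEqAt hX).trans hC⟩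
    intro i
    fin_cases i
    · exact Submodule.one_le_finrank_iff.mpr (hW2.ne_bot₂ _ hy)
    · exact Submodule.one_le_finrank_iff.mpr (hW2.ne_bot₁ _ hy)
    · simp

variable {P Q R : Type} [NormedAddCommGroup P] [InnerProductSpace ℝ P] [FiniteDimensional ℝ P]
  [NormedAddCommGroup Q] [InnerProductSpace ℝ Q] [FiniteDimensional ℝ Q]
  [NormedAddCommGroup R] [InnerProductSpace ℝ R] [FiniteDimensional ℝ R]

theorem modelZ_confEq_of {p q m : ℕ} (hP : finrank ℝ P = p) (hQ : finrank ℝ Q = q)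
    (hR : finrank ℝ R = m) (hp : 1 ≤ p) (hq : 1 ≤ q) (hm : 1 ≤ m) {y}
    (hy : y ∈ (modelZ P Q R).U) :
    ConfEqAt (lieForm _) (modelZ P Q R).toSphere.lift (modelZ P Q R).U y
      (mForm ![p, q, m] 0) (mFam ![p, q, m] 0) (mU ![p, q, m] 0) 0 := by
  subst hP hQ hR
  exact modelZ_confEq hp hq hm hy

theorem main₁' (M : SHyp X H) (h3 : ProperDupin M.f M.ν M.U 3) {x : X} (hx : x ∈ M.U)
    (hM : M.ReducibleAt' x) :
    (∃ p q m : ℕ, 1 ≤ p ∧ 1 ≤ q ∧ 1 ≤ m ∧ p + q + m = finrank ℝ X ∧ ∃ (ρ : ℝ) (hρ : 0 < ρ),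
      ∀ (r : ℝ) (hr : 0 < r), ∀ y ∈ (modelT (EuclideanSpace ℝ (Fin p)) (EuclideanSpace ℝ (Fin q))
        (EuclideanSpace ℝ (Fin m)) hρ hr).U,
        M.LieEq x (modelT (EuclideanSpace ℝ (Fin p)) (EuclideanSpace ℝ (Fin q))
        (EuclideanSpace ℝ (Fin m)) hρ hr).toSphere y) ∨
    (∃ p q m : ℕ, 1 ≤ p ∧ 1 ≤ q ∧ 1 ≤ m ∧ p + q + m = finrank ℝ X ∧
      ∀ y ∈ (modelZ (EuclideanSpace ℝ (Fin p)) (EuclideanSpace ℝ (Fin q))
        (EuclideanSpace ℝ (Fin m))).U,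
        M.LieEq x (modelZ (EuclideanSpace ℝ (Fin p)) (EuclideanSpace ℝ (Fin q))
        (EuclideanSpace ℝ (Fin m))).toSphere y) := by
  obtain ⟨m, μ, hm, hμ, hC⟩ := reducible'_canon M h3 hx hM
  by_cases h0 : μ = 0
  · right
    have hsum := SHyp.sum_of_confEqAt hC
    refine ⟨m 0, m 1, m 2, hm 0, hm 1, hm 2, hsum, fun y hy => ?_⟩
    have hmm : m = ![m 0, m 1, m 2] := by
      funext i; fin_cases i <;> rfl
    rw [h0] at hC
    have h2 := modelZ_confEq_of (finrank_euclideanSpace_fin (𝕜 := ℝ) (n := m 0))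
      (finrank_euclideanSpace_fin (𝕜 := ℝ) (n := m 1))
      (finrank_euclideanSpace_fin (𝕜 := ℝ) (n := m 2)) (hm 0) (hm 1) (hm 2) hy
    rw [← hmm] at h2
    exact (hC.trans h2.symm).lieEqAt
  · left
    obtain ⟨p, q, r, hp, hq, hr, ρ, hρ, hN⟩ := canonical_normal hm hμ h0
    have hC' := hC.trans hN
    have hsum := SHyp.sum_of_confEqAt hC'
    refine ⟨p, q, r, hp, hq, hr, hsum, ρ, hρ, fun r' hr' y hy => ?_⟩
    exact (hC'.trans (modelT_confEq_of (finrank_euclideanSpace_fin) (finrank_euclideanSpace_fin)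
      (finrank_euclideanSpace_fin) hp hq hr hρ hr' hy).symm).lieEqAt

theorem main₂' (hp : 1 ≤ finrank ℝ P) (hq : 1 ≤ finrank ℝ Q) (hm : 1 ≤ finrank ℝ R) :
    ProperDupinWith (modelZ P Q R).toSphere.f (modelZ P Q R).toSphere.ν
        (modelZ P Q R).toSphere.U ![finrank ℝ P, finrank ℝ Q, finrank ℝ R] ∧
      ∀ y ∈ (modelZ P Q R).U, (modelZ P Q R).toSphere.ReducibleAt' y := by
  have h1 := (zeroW P Q).cyl_properDupin R hm (fun y _ => zero_prin_zero)
    (zeroW_properDupin hp hq)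
  refine ⟨EHyp.properDupinWith_toSphere _ h1, fun y hy => ?_⟩
  exact .cylinder (zeroW P Q) (zeroW_properDupin hp hq).properDupin hm
    (modelZ P Q R) (EHyp.cyl_isCylinder _ _) y hy
    (ConfEqAt.refl (modelZ P Q R).isOpen_U hy).lieEqAt

/-- Tubes are reducible in the sense of Pinkall. -/
theorem SHyp.ReducibleAt.reducibleAt' {X H : Type} [NormedAddCommGroup X] [NormedSpace ℝ X]
    [NormedAddCommGroup H] [InnerProductSpace ℝ H] {M : SHyp X H} {x : X} (h : M.ReducibleAt x) :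
    M.ReducibleAt' x := by
  obtain ⟨W, hW, hG, r, hr, T, hT, x', hx', hL⟩ := h
  exact .tube W hW hG r hr T hT x' hx' hL

variable {P' Q' R' : Type} [NormedAddCommGroup P'] [InnerProductSpace ℝ P']
  [FiniteDimensional ℝ P'] [NormedAddCommGroup Q'] [InnerProductSpace ℝ Q']
  [FiniteDimensional ℝ Q'] [NormedAddCommGroup R'] [InnerProductSpace ℝ R']
  [FiniteDimensional ℝ R']

theorem main₃' {p q m p' q' m' : ℕ} (hP : finrank ℝ P = p) (hQ : finrank ℝ Q = q)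
    (hR : finrank ℝ R = m) (hP' : finrank ℝ P' = p') (hQ' : finrank ℝ Q' = q')
    (hR' : finrank ℝ R' = m') (hp : 1 ≤ p) (hq : 1 ≤ q) (hm : 1 ≤ m) (hp' : 1 ≤ p')
    (hq' : 1 ≤ q') (hm' : 1 ≤ m') {y y'} (hy : y ∈ (modelZ P Q R).U)
    (hy' : y' ∈ (modelZ P' Q' R').U) :
    (modelZ P Q R).toSphere.LieEq y (modelZ P' Q' R').toSphere y' ↔
      ∃ (π : Equiv.Perm (Fin 3)), ∀ i, ![p', q', m'] (π i) = ![p, q, m] i := by
  have h1 := modelZ_confEq_of hP hQ hR hp hq hm hy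
  have h2 := modelZ_confEq_of hP' hQ' hR' hp' hq' hm' hy'
  have hmm : ∀ i, 1 ≤ ![p, q, m] i := by
    intro i; fin_cases i <;> assumption
  have hmm' : ∀ i, 1 ≤ ![p', q', m'] i := by
    intro i; fin_cases i <;> assumption
  have h0 : (0 : Fin 3 → ℝ) 0 + (0 : Fin 3 → ℝ) 1 + (0 : Fin 3 → ℝ) 2 = 0 := by simp
  constructor
  · intro h
    have hX : 1 ≤ finrank ℝ ((P × Q) × R) := by
      rw [Module.finrank_prod, Module.finrank_prod]
      omega
    obtain ⟨π, c, -, hπ⟩ := canonical_inv hmm hmm' h0 h0 ((h1.symm.trans (h.confEqAt hX)).trans h2)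
    exact ⟨π, fun i => (hπ i).1⟩
  · rintro ⟨π, h⟩
    exact ((h1.trans (canonical_rel hmm h0 π one_pos
      (fun i => ⟨h i, by simp⟩))).trans h2.symm).lieEqAt

theorem main₄' {p q m p' q' m' : ℕ} (hP : finrank ℝ P = p) (hQ : finrank ℝ Q = q)
    (hR : finrank ℝ R = m) (hP' : finrank ℝ P' = p') (hQ' : finrank ℝ Q' = q')
    (hR' : finrank ℝ R' = m') (hp : 1 ≤ p) (hq : 1 ≤ q) (hm : 1 ≤ m) (hp' : 1 ≤ p')
    (hq' : 1 ≤ q') (hm' : 1 ≤ m') {ρ r : ℝ} (hρ : 0 < ρ) (hr : 0 < r) {y y'}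
    (hy : y ∈ (modelZ P Q R).U) (hy' : y' ∈ (modelT P' Q' R' hρ hr).U) :
    ¬ (modelZ P Q R).toSphere.LieEq y (modelT P' Q' R' hρ hr).toSphere y' := by
  have h1 := modelZ_confEq_of hP hQ hR hp hq hm hy
  have h2 := modelT_confEq_of hP' hQ' hR' hp' hq' hm' hρ hr hy'
  have hmm : ∀ i, 1 ≤ ![p, q, m] i := by
    intro i; fin_cases i <;> assumption
  have hmm' : ∀ i, 1 ≤ ![p', q', m'] i := by
    intro i; fin_cases i <;> assumption
  have h0 : (0 : Fin 3 → ℝ) 0 + (0 : Fin 3 → ℝ) 1 + (0 : Fin 3 → ℝ) 2 = 0 := by simp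
  intro h
  have hX : 1 ≤ finrank ℝ ((P × Q) × R) := by
    rw [Module.finrank_prod, Module.finrank_prod]
    omega
  obtain ⟨π, c, -, hπ⟩ := canonical_inv hmm hmm' h0 (by simp)
    ((h1.symm.trans (h.confEqAt hX)).trans h2)
  have h3 := (hπ (π.symm 2)).2
  rw [Equiv.apply_symm_apply] at h3
  simp at h3

end

end DupinClass
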