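import Pool.Agent.H31.Dupin.Rel

open scoped RealInnerProductSpace ContDiff Topology
open Module Set

namespace DupinClass

theorem s2norm_pos_neg {μ : Fin 3 → ℝ} (hμ : μ 0 + μ 1 + μ 2 = 0) (h0 : μ ≠ 0) :
    (∃ i, 0 < μ i) ∧ ∃ j, μ j < 0 := by
  constructor
  · by_contra hcon
    push Not at hcon
    apply h0
    funext i
    have h1 := hcon 0
    have h2 := hcon 1
    have h3 := hcon 2
    fin_cases i <;> simp <;> linarith
  · by_contra hcon
    push Not at hcon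
    apply h0
    funext i
    have h1 := hcon 0
    have h2 := hcon 1
    have h3 := hcon 2
    fin_cases i <;> simp <;> linarith

/-- there is a permutation sending `i` to `0` and `j` to `2`. -/
theorem s2norm_perm : ∀ i j : Fin 3, i ≠ j → ∃ π : Equiv.Perm (Fin 3), π i = 0 ∧ π j = 2 := by
  decide

/-- **Module S2NORM.** -/
theorem canonical_normal {m : Fin 3 → ℕ} {μ : Fin 3 → ℝ} (hm : ∀ i, 1 ≤ m i)
    (hμ : μ 0 + μ 1 + μ 2 = 0) (h0 : μ ≠ 0) :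
    ∃ p q r : ℕ, 1 ≤ p ∧ 1 ≤ q ∧ 1 ≤ r ∧ ∃ ρ : ℝ, 0 < ρ ∧
      ConfEqAt (mForm m μ) (mFam m μ) (mU m μ) 0 (mForm ![p, q, r] ![ρ ^ 2, 1 - ρ ^ 2, -1])
        (mFam ![p, q, r] ![ρ ^ 2, 1 - ρ ^ 2, -1]) (mU ![p, q, r] ![ρ ^ 2, 1 - ρ ^ 2, -1]) 0 := by
  obtain ⟨⟨i, hi⟩, j, hj⟩ := s2norm_pos_neg hμ h0
  have hij : i ≠ j := by rintro rfl; linarith
  obtain ⟨π, hπi, hπj⟩ := s2norm_perm i j hij
  set c : ℝ := 1 / (-μ j) with hc
  have hc0 : 0 < c := by rw [hc]; exact one_div_pos.2 (by linarith)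
  have hcj : c * μ j = -1 := by
    have hj' : μ j ≠ 0 := hj.ne
    rw [hc, one_div, inv_neg, neg_mul, inv_mul_cancel₀ hj']
  have hcs : c * μ 0 + c * μ 1 + c * μ 2 = 0 := by linear_combination c * hμ
  have hsum : ∑ l, c * μ (π.symm l) = 0 := by
    rw [Equiv.sum_comp π.symm (fun l => c * μ l), Fin.sum_univ_three, hcs]
  rw [Fin.sum_univ_three] at hsum
  have h20 : π.symm 2 = j := by rw [← hπj, Equiv.symm_apply_apply]
  have h00 : π.symm 0 = i := by rw [← hπi, Equiv.symm_apply_apply]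
  rw [h20, h00, hcj] at hsum
  have hρ : 0 < c * μ i := mul_pos hc0 hi
  refine ⟨m (π.symm 0), m (π.symm 1), m (π.symm 2), hm _, hm _, hm _, √(c * μ i),
    Real.sqrt_pos.2 hρ, canonical_rel hm hμ π hc0 fun l => ?_⟩
  rw [Real.sq_sqrt hρ.le]
  obtain ⟨l', rfl⟩ := π.symm.surjective l
  rw [Equiv.apply_symm_apply]
  fin_cases l'
  · exact ⟨rfl, by simp [h00]⟩
  · refine ⟨rfl, ?_⟩
    simp
    linarith
  · refine ⟨rfl, ?_⟩
    change (-1 : ℝ) = c * μ (π.symm 2)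
    rw [h20, hcj]

end DupinClass
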