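import Pool.Agent.H31.Dupin.S2RevD

open scoped RealInnerProductSpace ContDiff Topology
open Module Set

namespace DupinClass

section

variable {X Y E G : Type} [NormedAddCommGroup X] [NormedSpace ℝ X] [FiniteDimensional ℝ X]
  [NormedAddCommGroup Y] [NormedSpace ℝ Y] [FiniteDimensional ℝ Y]
  [NormedAddCommGroup E] [InnerProductSpace ℝ E] [FiniteDimensional ℝ E]
  [NormedAddCommGroup G] [InnerProductSpace ℝ G] [FiniteDimensional ℝ G]

variable (E) in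
/-- projection to the first factor -/
noncomputable def s2revP : WithLp 2 (ℝ × E) →L[ℝ] ℝ :=
  (ContinuousLinearMap.fst ℝ ℝ E).comp
    ((WithLp.prodContinuousLinearEquiv 2 ℝ ℝ E) : WithLp 2 (ℝ × E) →L[ℝ] ℝ × E)

variable (E) in
/-- projection to the second factor -/
noncomputable def s2revQ : WithLp 2 (ℝ × E) →L[ℝ] E :=
  (ContinuousLinearMap.snd ℝ ℝ E).comp
    ((WithLp.prodContinuousLinearEquiv 2 ℝ ℝ E) : WithLp 2 (ℝ × E) →L[ℝ] ℝ × E)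

omit [FiniteDimensional ℝ X] [FiniteDimensional ℝ G] in
theorem rev_inner {T : EHyp X (WithLp 2 (G × E))} {e : X → G} (he : ContDiffOn ℝ ∞ e T.U)
    (h : ∀ x ∈ T.U, ‖e x‖ = 1) {x₀ : X} (hx₀ : x₀ ∈ T.U) (v : X) :
    ⟪fderiv ℝ e x₀ v, e x₀⟫ = 0 := by
  have hU : T.U ∈ 𝓝 x₀ := T.isOpen_U.mem_nhds hx₀
  have df := ((he.contDiffAt hU).differentiableAt (by simp)).hasFDerivAt
  have h1 : HasFDerivAt (fun z => ⟪e z, e z⟫) _ x₀ := df.inner ℝ df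
  have h2 : HasFDerivAt (fun z => ⟪e z, e z⟫) (0 : X →L[ℝ] ℝ) x₀ := by
    refine (hasFDerivAt_const (1 : ℝ) x₀).congr_of_eventuallyEq ?_
    filter_upwards [hU] with z hz
    rw [real_inner_self_eq_norm_sq, h z hz, one_pow]
  have h3 := DFunLike.congr_fun (h1.unique h2) v
  simp only [fderivInnerCLM_apply, ContinuousLinearMap.comp_apply, ContinuousLinearMap.prod_apply,
    zero_apply] at h3
  have h4 := real_inner_comm (e x₀) (fderiv ℝ e x₀ v)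
  linarith

omit [FiniteDimensional ℝ X] [FiniteDimensional ℝ G] in
theorem rev_fderiv {W : EHyp Y (WithLp 2 (ℝ × E))} {T : EHyp X (WithLp 2 (G × E))} {u : X → Y}
    {e : X → G} (hu : ContDiffOn ℝ ∞ u T.U) (he : ContDiffOn ℝ ∞ e T.U)
    (h : ∀ x ∈ T.U, u x ∈ W.U ∧ 0 < (WithLp.ofLp (W.f (u x))).1 ∧ ‖e x‖ = 1 ∧
      T.f x = WithLp.toLp 2 ((WithLp.ofLp (W.f (u x))).1 • e x, (WithLp.ofLp (W.f (u x))).2) ∧
      T.ν x = WithLp.toLp 2 ((WithLp.ofLp (W.ν (u x))).1 • e x, (WithLp.ofLp (W.ν (u x))).2))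
    {x₀ : X} (hx₀ : x₀ ∈ T.U) (v : X) :
    fderiv ℝ T.f x₀ v = WithLp.toLp 2 ((WithLp.ofLp (W.f (u x₀))).1 • fderiv ℝ e x₀ v
      + (WithLp.ofLp (fderiv ℝ W.f (u x₀) (fderiv ℝ u x₀ v))).1 • e x₀,
      (WithLp.ofLp (fderiv ℝ W.f (u x₀) (fderiv ℝ u x₀ v))).2) ∧
    fderiv ℝ T.ν x₀ v = WithLp.toLp 2 ((WithLp.ofLp (W.ν (u x₀))).1 • fderiv ℝ e x₀ v
      + (WithLp.ofLp (fderiv ℝ W.ν (u x₀) (fderiv ℝ u x₀ v))).1 • e x₀,
      (WithLp.ofLp (fderiv ℝ W.ν (u x₀) (fderiv ℝ u x₀ v))).2) := by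
  have hU : T.U ∈ 𝓝 x₀ := T.isOpen_U.mem_nhds hx₀
  have hux := (h x₀ hx₀).1
  have du := ((hu.contDiffAt hU).differentiableAt (by simp)).hasFDerivAt
  have de := ((he.contDiffAt hU).differentiableAt (by simp)).hasFDerivAt
  have dwu := (W.wf_hasFDerivAt_f hux).comp x₀ du
  have dNu := (W.wf_hasFDerivAt_ν hux).comp x₀ du
  have dF : HasFDerivAt T.f (((WithLp.prodContinuousLinearEquiv 2 ℝ G E).symm :
      (G × E) →L[ℝ] WithLp 2 (G × E)).comp _) x₀ :=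
    ((((WithLp.prodContinuousLinearEquiv 2 ℝ G E).symm :
      (G × E) →L[ℝ] WithLp 2 (G × E)).hasFDerivAt).comp x₀
      ((((s2revP E).hasFDerivAt.comp x₀ dwu).smul de).prodMk
        ((s2revQ E).hasFDerivAt.comp x₀ dwu))).congr_of_eventuallyEq
      (by filter_upwards [hU] with x hx using (h x hx).2.2.2.1)
  have dν : HasFDerivAt T.ν (((WithLp.prodContinuousLinearEquiv 2 ℝ G E).symm :
      (G × E) →L[ℝ] WithLp 2 (G × E)).comp _) x₀ :=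
    ((((WithLp.prodContinuousLinearEquiv 2 ℝ G E).symm :
      (G × E) →L[ℝ] WithLp 2 (G × E)).hasFDerivAt).comp x₀
      ((((s2revP E).hasFDerivAt.comp x₀ dNu).smul de).prodMk
        ((s2revQ E).hasFDerivAt.comp x₀ dNu))).congr_of_eventuallyEq
      (by filter_upwards [hU] with x hx using (h x hx).2.2.2.2)
  rw [dF.fderiv, dν.fderiv]
  exact ⟨rfl, rfl⟩

/-- **Module S2REVA.** -/
theorem revolution_prin {W : EHyp Y (WithLp 2 (ℝ × E))} {κ₁ κ₂ : Y → ℝ} (hW : TwoDupin W κ₁ κ₂)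
    {T : EHyp X (WithLp 2 (G × E))} {u : X → Y} {e : X → G}
    (hu : ContDiffOn ℝ ∞ u T.U) (he : ContDiffOn ℝ ∞ e T.U)
    (h : ∀ x ∈ T.U, u x ∈ W.U ∧ 0 < (WithLp.ofLp (W.f (u x))).1 ∧ ‖e x‖ = 1 ∧
      T.f x = WithLp.toLp 2 ((WithLp.ofLp (W.f (u x))).1 • e x, (WithLp.ofLp (W.f (u x))).2) ∧
      T.ν x = WithLp.toLp 2 ((WithLp.ofLp (W.ν (u x))).1 • e x, (WithLp.ofLp (W.ν (u x))).2))
    {x₀ : X} (hx₀ : x₀ ∈ T.U) {k : ℝ} (hk : prin T.f T.ν k x₀ ≠ ⊥) :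
    k = κ₁ (u x₀) ∨ k = κ₂ (u x₀) ∨
      k * (WithLp.ofLp (W.f (u x₀))).1 + (WithLp.ofLp (W.ν (u x₀))).1 = 0 := by
  by_cases hk0 : k * (WithLp.ofLp (W.f (u x₀))).1 + (WithLp.ofLp (W.ν (u x₀))).1 = 0
  · exact Or.inr (Or.inr hk0)
  obtain ⟨v, hv, hv0⟩ := Submodule.exists_mem_ne_zero_of_ne_bot hk
  obtain ⟨hF, hν⟩ := rev_fderiv hu he h hx₀ v
  have hux := (h x₀ hx₀).1
  have hee : ⟪e x₀, e x₀⟫ = 1 := by
    rw [real_inner_self_eq_norm_sq, (h x₀ hx₀).2.2.1, one_pow]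
  have hde := rev_inner he (fun x hx => (h x hx).2.2.1) hx₀ v
  rw [mem_prin, hF, hν] at hv
  have h1 := congrArg (fun z => (WithLp.ofLp z).1) hv
  have h2 := congrArg (fun z => (WithLp.ofLp z).2) hv
  simp only [WithLp.ofLp_add, WithLp.ofLp_smul, Prod.fst_add, Prod.smul_fst, WithLp.ofLp_zero,
    Prod.fst_zero, Prod.snd_add, Prod.smul_snd, Prod.snd_zero] at h1 h2
  have h4 := congrArg (fun z => ⟪z, e x₀⟫) h1
  simp only [inner_add_left, inner_smul_left, RCLike.conj_to_real, hde, hee,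
    inner_zero_left] at h4
  have h5 : (WithLp.ofLp (fderiv ℝ W.ν (u x₀) (fderiv ℝ u x₀ v))).1
      + k * (WithLp.ofLp (fderiv ℝ W.f (u x₀) (fderiv ℝ u x₀ v))).1 = 0 := by
    linear_combination h4
  have h6 : (k * (WithLp.ofLp (W.f (u x₀))).1 + (WithLp.ofLp (W.ν (u x₀))).1) •
      fderiv ℝ e x₀ v = 0 := by
    have e1 : (WithLp.ofLp (fderiv ℝ W.ν (u x₀) (fderiv ℝ u x₀ v))).1
      = -(k * (WithLp.ofLp (fderiv ℝ W.f (u x₀) (fderiv ℝ u x₀ v))).1) := by linarith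
    rw [e1] at h1
    rw [← h1]
    module
  have h7 : fderiv ℝ e x₀ v = 0 := (smul_eq_zero.1 h6).resolve_left hk0
  have h8 : fderiv ℝ u x₀ v ≠ 0 := by
    intro h0
    apply hv0
    apply T.immersion x₀ hx₀
    rw [hF, h0, h7]
    simp
  have h9 := eq_of_mem_prin (W.immersion _ hux) (hW.top _ hux) (hW.ne _ hux) h8 (k := k)
    (mem_prin.2 (by
      apply WithLp.ofLp_injective 2
      refine Prod.ext ?_ ?_
      · simpa using h5
      · simpa using h2))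
  tauto

end

end DupinClass
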