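import Pool.Agent.H31.Dupin.S2ZeroB

open scoped RealInnerProductSpace ContDiff Topology
open Module Set

namespace DupinClass

/-! ## Module S2W0B: the hypersurface `W₀` is proper Dupin -/

section

variable {P Q : Type} [NormedAddCommGroup P] [InnerProductSpace ℝ P] [FiniteDimensional ℝ P]
  [NormedAddCommGroup Q] [InnerProductSpace ℝ Q] [FiniteDimensional ℝ Q]

theorem s2w0b_prin₁_eq (z : P × Q) : prin (zeroW P Q).f (zeroW P Q).ν (zκ₁ z) z
    = LinearMap.range (LinearMap.inr ℝ P Q) := by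
  ext v
  rw [zero_prin₁, LinearMap.mem_range]
  constructor
  · intro h
    exact ⟨v.2, Prod.ext h.symm rfl⟩
  · rintro ⟨x, rfl⟩
    rfl

theorem s2w0b_prin₂_eq {z : P × Q} (hz : z.2 ≠ 0) :
    prin (zeroW P Q).f (zeroW P Q).ν (zκ₂ z) z = LinearMap.range (LinearMap.inl ℝ P Q) := by
  ext v
  rw [zero_prin₂ hz, LinearMap.mem_range]
  constructor
  · intro h
    exact ⟨v.1, Prod.ext rfl h.symm⟩
  · rintro ⟨x, rfl⟩
    rfl

theorem zeroW_finrank₁ {z : P × Q} :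
    finrank ℝ (prin (zeroW P Q).f (zeroW P Q).ν (zκ₁ z) z) = finrank ℝ Q := by
  rw [s2w0b_prin₁_eq]
  exact LinearMap.finrank_range_of_inj LinearMap.inr_injective

theorem zeroW_finrank₂ {z : P × Q} (hz : z.2 ≠ 0) :
    finrank ℝ (prin (zeroW P Q).f (zeroW P Q).ν (zκ₂ z) z) = finrank ℝ P := by
  rw [s2w0b_prin₂_eq hz]
  exact LinearMap.finrank_range_of_inj LinearMap.inl_injective

theorem s2w0b_smooth₁ : ContDiff ℝ ∞ (zκ₁ : P × Q → ℝ) := by
  refine contDiff_const.div (contDiff_const.add (contDiff_fst.norm_sq ℝ)) ?_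
  intro z
  positivity

theorem s2w0b_smooth₂ : ContDiffOn ℝ ∞ (zκ₂ : P × Q → ℝ) (zeroW P Q).U := by
  refine contDiffOn_const.div (contDiff_snd.norm_sq ℝ).contDiffOn ?_
  intro z hz
  have : 0 < ‖z.2‖ := norm_pos_iff.2 hz
  positivity

theorem s2w0b_ne {z : P × Q} (hz : z.2 ≠ 0) : zκ₁ z < 0 ∧ 0 < zκ₂ z := by
  have h1 : 0 < ‖z.2‖ := norm_pos_iff.2 hz
  constructor
  · unfold zκ₁
    apply div_neg_of_neg_of_pos
    · norm_num
    · positivity
  · unfold zκ₂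
    positivity

theorem s2w0b_deriv₁ {z v : P × Q} (hv : v.1 = 0) : fderiv ℝ (zκ₁ : P × Q → ℝ) z v = 0 := by
  have h1 : Differentiable ℝ (fun σ : P => -2 / (1 + ‖σ‖ ^ 2)) := by
    have h2 : ContDiff ℝ ∞ (fun σ : P => -2 / (1 + ‖σ‖ ^ 2)) :=
      contDiff_const.div (contDiff_const.add (contDiff_id.norm_sq ℝ)) (fun z => by positivity)
    exact h2.differentiable (by simp)
  have h3 := (h1 z.1).hasFDerivAt.comp z hasFDerivAt_fst
  have h4 : HasFDerivAt (zκ₁ : P × Q → ℝ) _ z := h3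
  rw [h4.fderiv, ContinuousLinearMap.comp_apply, ContinuousLinearMap.coe_fst', hv, map_zero]

theorem s2w0b_deriv₂ {z v : P × Q} (hz : z.2 ≠ 0) (hv : v.2 = 0) :
    fderiv ℝ (zκ₂ : P × Q → ℝ) z v = 0 := by
  have h1 : DifferentiableAt ℝ (fun τ : Q => 2 / ‖τ‖ ^ 2) z.2 := by
    have h2 : ContDiffAt ℝ ∞ (fun τ : Q => 2 / ‖τ‖ ^ 2) z.2 :=
      contDiffAt_const.div (contDiffAt_id.norm_sq ℝ) (by
        have : 0 < ‖z.2‖ := norm_pos_iff.2 hz
        simpa using hz)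
    exact h2.differentiableAt (by simp)
  have h3 := h1.hasFDerivAt.comp z hasFDerivAt_snd
  have h4 : HasFDerivAt (zκ₂ : P × Q → ℝ) _ z := h3
  rw [h4.fderiv, ContinuousLinearMap.comp_apply, ContinuousLinearMap.coe_snd', hv, map_zero]

theorem s2w0b_top {z : P × Q} (hz : z.2 ≠ 0) :
    prin (zeroW P Q).f (zeroW P Q).ν (zκ₁ z) z ⊔ prin (zeroW P Q).f (zeroW P Q).ν (zκ₂ z) z = ⊤ := by
  rw [eq_top_iff]
  intro v _
  have e : v = (0, v.2) + (v.1, 0) := by simp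
  rw [e]
  exact Submodule.add_mem_sup ((zero_prin₁ _).2 rfl) ((zero_prin₂ hz _).2 rfl)

/-- **Module S2W0B.** -/
theorem zeroW_twoDupin (hp : 1 ≤ finrank ℝ P) (hq : 1 ≤ finrank ℝ Q) :
    TwoDupin (zeroW P Q) zκ₁ zκ₂ where
  smooth₁ := s2w0b_smooth₁.contDiffOn
  smooth₂ := s2w0b_smooth₂
  ne := fun z hz => ((s2w0b_ne hz).1.trans (s2w0b_ne hz).2).ne
  ne_bot₁ := fun z _ h => by
    have h1 := zeroW_finrank₁ (z := z)
    rw [h, finrank_bot] at h1
    omega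
  ne_bot₂ := fun z hz h => by
    have h1 := zeroW_finrank₂ (z := z) hz
    rw [h, finrank_bot] at h1
    omega
  top := fun z hz => s2w0b_top hz
  deriv₁ := fun z _ v hv => s2w0b_deriv₁ ((zero_prin₁ v).1 hv)
  deriv₂ := fun z hz v hv => s2w0b_deriv₂ hz ((zero_prin₂ hz v).1 hv)

theorem zeroW_properDupin (hp : 1 ≤ finrank ℝ P) (hq : 1 ≤ finrank ℝ Q) :
    ProperDupinWith (zeroW P Q).f (zeroW P Q).ν (zeroW P Q).U ![finrank ℝ P, finrank ℝ Q] := by
  have h := zeroW_twoDupin hp hq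
  refine ⟨![zκ₂, zκ₁], ?_, ?_, ?_, ?_, ?_, ?_⟩
  · intro i
    fin_cases i
    · exact h.smooth₂
    · exact h.smooth₁
  · intro z hz i j hij
    fin_cases i <;> fin_cases j <;> first | exact absurd rfl hij | skip
    · exact (h.ne z hz).symm
    · exact h.ne z hz
  · intro i
    fin_cases i
    · exact hp
    · exact hq
  · intro z hz i
    fin_cases i
    · exact zeroW_finrank₂ hz
    · exact zeroW_finrank₁
  · intro z hz
    rw [eq_top_iff, ← h.top z hz]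
    apply sup_le
    · exact le_iSup (fun i => prin (zeroW P Q).f (zeroW P Q).ν ((![zκ₂, zκ₁] : Fin 2 → _) i z) z) 1
    · exact le_iSup (fun i => prin (zeroW P Q).f (zeroW P Q).ν ((![zκ₂, zκ₁] : Fin 2 → _) i z) z) 0
  · intro z hz i v hv
    fin_cases i
    · exact h.deriv₂ z hz v hv
    · exact h.deriv₁ z hz v hv

end

end DupinClass
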