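import Pool.Agent.H31.Dupin.S2ZeroM

open scoped RealInnerProductSpace ContDiff Topology
open Module Set

namespace DupinClass

/-! ## Module S2ZC: the model `Z(p, q, m)` has `μ = 0` -/

section

variable {P Q : Type} [NormedAddCommGroup P] [InnerProductSpace ℝ P] [FiniteDimensional ℝ P]
  [NormedAddCommGroup Q] [InnerProductSpace ℝ Q] [FiniteDimensional ℝ Q]

variable {R : Type} [NormedAddCommGroup R] [InnerProductSpace ℝ R] [FiniteDimensional ℝ R]

/-- The embedding `(ξ, c) ↦ (0, (0, (((ξ, 0), c), 0)), c)`. -/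
noncomputable def s2zcI (P Q R : Type) [NormedAddCommGroup P] [InnerProductSpace ℝ P]
    [NormedAddCommGroup Q] [InnerProductSpace ℝ Q]
    [NormedAddCommGroup R] [InnerProductSpace ℝ R] : P × ℝ →ₗ[ℝ]
    (ℝ × WithLp 2 (ℝ × WithLp 2 (WithLp 2 (WithLp 2 (P × Q) × ℝ) × R)) × ℝ) where
  toFun ξ := (0, WithLp.toLp 2 (0, WithLp.toLp 2 (WithLp.toLp 2 (WithLp.toLp 2 (ξ.1, 0), ξ.2), 0)),
    ξ.2)
  map_add' := by
    intro x y
    refine Prod.ext ?_ (Prod.ext ?_ ?_)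
    · simp
    · apply WithLp.ofLp_injective 2
      refine Prod.ext ?_ ?_
      · simp
      · apply WithLp.ofLp_injective 2
        refine Prod.ext ?_ ?_
        · apply WithLp.ofLp_injective 2
          refine Prod.ext ?_ ?_
          · apply WithLp.ofLp_injective 2
            refine Prod.ext ?_ ?_ <;> simp
          · simp
        · simp
    · simp
  map_smul' := by
    intro t x
    refine Prod.ext ?_ (Prod.ext ?_ ?_)
    · simp
    · apply WithLp.ofLp_injective 2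
      refine Prod.ext ?_ ?_
      · simp
      · apply WithLp.ofLp_injective 2
        refine Prod.ext ?_ ?_
        · apply WithLp.ofLp_injective 2
          refine Prod.ext ?_ ?_
          · apply WithLp.ofLp_injective 2
            refine Prod.ext ?_ ?_ <;> simp
          · simp
        · simp
    · simp

omit [FiniteDimensional ℝ P] [FiniteDimensional ℝ Q] [FiniteDimensional ℝ R] in
theorem s2zcI_I (ξ ξ' : P × ℝ) :
    lieForm _ (s2zcI P Q R ξ) (s2zcI P Q R ξ') = ⟪ξ.1, ξ'.1⟫ := by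
  simp only [lieForm, LinearMap.mk₂_apply, s2zcI, LinearMap.coe_mk, AddHom.coe_mk]
  rw [WithLp.prod_inner_apply, WithLp.prod_inner_apply, WithLp.prod_inner_apply,
    WithLp.prod_inner_apply]
  simp
  ring

omit [FiniteDimensional ℝ P] [FiniteDimensional ℝ Q] [FiniteDimensional ℝ R] in
theorem s2zcI_cylJ (ξ : P × ℝ) (v : ℝ × WithLp 2 (ℝ × WithLp 2 (WithLp 2 (P × Q) × ℝ)) × ℝ) :
    lieForm _ (s2zcI P Q R ξ) (cylJ _ R v)
      = ⟪ξ.1, (WithLp.ofLp (WithLp.ofLp (WithLp.ofLp v.2.1).2).1).1⟫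
        + ξ.2 * (WithLp.ofLp (WithLp.ofLp v.2.1).2).2 - ξ.2 * v.2.2 := by
  simp only [lieForm, LinearMap.mk₂_apply, s2zcI, cylJ, LinearMap.coe_mk, AddHom.coe_mk]
  rw [WithLp.prod_inner_apply, WithLp.prod_inner_apply, WithLp.prod_inner_apply,
    WithLp.prod_inner_apply]
  simp
  ring

omit [FiniteDimensional ℝ P] [FiniteDimensional ℝ Q] [FiniteDimensional ℝ R] in
theorem s2zcI_cylS (ξ : P × ℝ) (t : R) :
    lieForm _ (s2zcI P Q R ξ) (cylS _ t) = 0 := by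
  simp only [lieForm, LinearMap.mk₂_apply, s2zcI, cylS, LinearMap.coe_mk, AddHom.coe_mk]
  rw [WithLp.prod_inner_apply, WithLp.prod_inner_apply, WithLp.prod_inner_apply,
    WithLp.prod_inner_apply]
  simp

omit [FiniteDimensional ℝ P] [FiniteDimensional ℝ Q] in
theorem s2zc_norm_sq (z : P × Q) :
    ‖zf z‖ ^ 2 = ‖z.2‖ ^ 2 * (1 + ‖z.1‖ ^ 2) / (1 + ‖z.1‖ ^ 2 + ‖z.2‖ ^ 2) := by
  have h : (1 + ‖z.1‖ ^ 2 + ‖z.2‖ ^ 2) ≠ 0 := by positivity
  unfold zf
  rw [norm_smul, mul_pow, WithLp.prod_norm_sq_eq_of_L2, WithLp.toLp_fst, WithLp.toLp_snd,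
    WithLp.prod_norm_sq_eq_of_L2, WithLp.toLp_fst, WithLp.toLp_snd, norm_smul, norm_smul,
    Real.norm_eq_abs, Real.norm_eq_abs, Real.norm_eq_abs, mul_pow, mul_pow,
    sq_abs, sq_abs, sq_abs]
  field_simp
  ring

omit [FiniteDimensional ℝ P] [FiniteDimensional ℝ Q] in
theorem s2zc_inner (z : P × Q) :
    ⟪zf z, zν z⟫ = ‖z.2‖ ^ 2 / (1 + ‖z.1‖ ^ 2 + ‖z.2‖ ^ 2) := by
  have h : (1 + ‖z.1‖ ^ 2 + ‖z.2‖ ^ 2) ≠ 0 := by positivity
  unfold zf zν
  rw [inner_smul_left, inner_smul_right, WithLp.prod_inner_apply]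
  simp only [WithLp.prod_inner_apply, inner_smul_left, inner_smul_right,
    real_inner_self_eq_norm_sq]
  simp
  field_simp
  ring

omit [FiniteDimensional ℝ R] in
/-- `κ₁⁻¹ K₁`. -/
theorem s2zc_z₁ (z : P × Q) :
    (zκ₁ z)⁻¹ • cylJ (WithLp 2 (WithLp 2 (P × Q) × ℝ)) R ((zeroW P Q).kmap zκ₁ z)
      = (1 / 2, WithLp.toLp 2 (1 / 2, WithLp.toLp 2 (WithLp.toLp 2
          (WithLp.toLp 2 (0, 0), 1 / 2), 0)), -1 / 2)
        + s2zcI P Q R (z.1, -(‖z.1‖ ^ 2 / 2)) := by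
  have h : (1 + ‖z.1‖ ^ 2 + ‖z.2‖ ^ 2) ≠ 0 := by positivity
  have h' : (1 + ‖z.1‖ ^ 2) ≠ 0 := by positivity
  have e1 : (zκ₁ z)⁻¹ * zκ₁ z = 1 := by
    unfold zκ₁; field_simp
  have e2 : (zκ₁ z)⁻¹ = -((1 + ‖z.1‖ ^ 2) / 2) := by
    unfold zκ₁; field_simp
  have e3 : (zκ₁ z)⁻¹ • (zeroW P Q).kmap zκ₁ z
      = ptSph (zf z) + (-((1 + ‖z.1‖ ^ 2) / 2)) • plSph (zf z) (zν z) := by
    change (zκ₁ z)⁻¹ • (zκ₁ z • ptSph (zf z) + plSph (zf z) (zν z)) = _
    rw [smul_add, smul_smul, e1, one_smul, e2]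
  rw [← map_smul, e3]
  unfold ptSph plSph
  rw [s2zc_norm_sq, s2zc_inner]
  refine Prod.ext ?_ (Prod.ext ?_ ?_)
  · simp [cylJ, s2zcI]
    field_simp
    ring
  · apply WithLp.ofLp_injective 2
    refine Prod.ext ?_ ?_
    · simp [cylJ, s2zcI]
      field_simp
      ring
    · apply WithLp.ofLp_injective 2
      refine Prod.ext ?_ ?_
      · apply WithLp.ofLp_injective 2
        refine Prod.ext ?_ ?_
        · apply WithLp.ofLp_injective 2
          refine Prod.ext ?_ ?_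
          · simp [cylJ, s2zcI, zf, zν, smul_smul]
            match_scalars
            field_simp
            ring
          · simp [cylJ, s2zcI, zf, zν, smul_smul]
            match_scalars
            field_simp
            ring
        · simp [cylJ, s2zcI, zf, zν]
          field_simp
          ring
      · simp [cylJ, s2zcI]
  · simp [cylJ, s2zcI]
    ring

/-- `κ₂⁻¹ K₂`. -/
theorem s2zc_z₂ {z : P × Q} (hz : z.2 ≠ 0) :
    (zκ₂ z)⁻¹ • (zeroW P Q).kmap zκ₂ z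
      = ptSph (zf z) + (‖z.2‖ ^ 2 / 2) • plSph (zf z) (zν z) := by
  have h0 : 0 < ‖z.2‖ := norm_pos_iff.2 hz
  have e1 : (zκ₂ z)⁻¹ * zκ₂ z = 1 := by
    unfold zκ₂; field_simp
  have e2 : (zκ₂ z)⁻¹ = ‖z.2‖ ^ 2 / 2 := by
    unfold zκ₂; field_simp
  change (zκ₂ z)⁻¹ • (zκ₂ z • ptSph (zf z) + plSph (zf z) (zν z)) = _
  rw [smul_add, smul_smul, e1, one_smul, e2]

omit [FiniteDimensional ℝ R] in
theorem s2zc_I_z₂ {z : P × Q} (hz : z.2 ≠ 0) :
    lieForm _ (s2zcI P Q R (0, 1)) ((zκ₂ z)⁻¹ • cylJ _ R ((zeroW P Q).kmap zκ₂ z)) = 0 := by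
  have h : (1 + ‖z.1‖ ^ 2 + ‖z.2‖ ^ 2) ≠ 0 := by positivity
  rw [← map_smul, s2zc_z₂ hz, s2zcI_cylJ]
  simp [ptSph, plSph, zf, zν]
  field_simp
  ring

theorem s2zc_fderiv (z v : P × Q) :
    fderiv ℝ (fun z : P × Q => (zκ₁ z)⁻¹ •
      cylJ (WithLp 2 (WithLp 2 (P × Q) × ℝ)) R ((zeroW P Q).kmap zκ₁ z)) z v
      = s2zcI P Q R (v.1, -⟪z.1, v.1⟫) := by
  have e0 : (fun z : P × Q => (zκ₁ z)⁻¹ •
      cylJ (WithLp 2 (WithLp 2 (P × Q) × ℝ)) R ((zeroW P Q).kmap zκ₁ z)) = fun z =>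
        (1 / 2, WithLp.toLp 2 (1 / 2, WithLp.toLp 2 (WithLp.toLp 2
          (WithLp.toLp 2 (0, 0), 1 / 2), 0)), -1 / 2)
        + (s2zcI P Q R).toContinuousLinearMap (z.1, -(‖z.1‖ ^ 2 / 2)) := by
    funext z
    exact s2zc_z₁ z
  have h1 : HasFDerivAt (fun z : P × Q => ‖z.1‖ ^ 2) _ z :=
    (hasFDerivAt_fst (𝕜 := ℝ) (p := z)).norm_sq
  have h2 := (hasFDerivAt_fst (𝕜 := ℝ) (p := z)).prodMk (h1.mul_const (2 : ℝ)⁻¹).neg
  have h3 := ((s2zcI P Q R).toContinuousLinearMap.hasFDerivAt.comp z h2).const_add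
    (1 / 2, WithLp.toLp 2 (1 / 2, WithLp.toLp 2 (WithLp.toLp 2
          (WithLp.toLp 2 (0, 0), 1 / 2), 0)), -1 / 2)
  have h4 : HasFDerivAt (fun z : P × Q => (1 / 2, WithLp.toLp 2 (1 / 2, WithLp.toLp 2
      (WithLp.toLp 2 (WithLp.toLp 2 (0, 0), 1 / 2), 0)), -1 / 2)
        + (s2zcI P Q R).toContinuousLinearMap (z.1, -(‖z.1‖ ^ 2 / 2))) _ z := h3
  rw [e0, h4.fderiv]
  rw [ContinuousLinearMap.comp_apply]
  change s2zcI P Q R _ = _
  congr 1
  refine Prod.ext rfl ?_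
  simp

omit [InnerProductSpace ℝ P] [FiniteDimensional ℝ P] [InnerProductSpace ℝ Q]
  [FiniteDimensional ℝ Q] in
theorem s2zc_ne {z : P × Q} (hz : z.2 ≠ 0) : zκ₁ z ≠ 0 ∧ zκ₂ z ≠ 0 := by
  have h1 : 0 < ‖z.2‖ := norm_pos_iff.2 hz
  constructor
  · unfold zκ₁
    apply div_ne_zero
    · norm_num
    · positivity
  · unfold zκ₂
    positivity

/-- **Module S2ZC.** Use `cylinder_canon` and its last clause (which gives `μ 0`). -/
theorem modelZ_confEq (hp : 1 ≤ finrank ℝ P) (hq : 1 ≤ finrank ℝ Q) (hm : 1 ≤ finrank ℝ R)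
    {y} (hy : y ∈ (modelZ P Q R).U) :
    ConfEqAt (lieForm _) (modelZ P Q R).toSphere.lift (modelZ P Q R).U y
      (mForm ![finrank ℝ P, finrank ℝ Q, finrank ℝ R] 0)
      (mFam ![finrank ℝ P, finrank ℝ Q, finrank ℝ R] 0)
      (mU ![finrank ℝ P, finrank ℝ Q, finrank ℝ R] 0) 0 := by
  have hy2 : y.1.2 ≠ 0 := hy
  have hκ := s2zc_ne hy2
  obtain ⟨μ, hμ, hμ2, hconf, hn⟩ := cylinder_canon (X := (P × Q) × R) (G := R)
    (zeroW_twoDupin hp hq) hm (T := modelZ P Q R) (u := Prod.fst) (t := Prod.snd)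
    contDiff_fst.contDiffOn contDiff_snd.contDiffOn (fun x hx => ⟨hx, rfl, rfl⟩) (x₀ := y) hy
    hκ.1 hκ.2 (m := ![finrank ℝ P, finrank ℝ Q, finrank ℝ R])
    (by simpa using zeroW_finrank₂ hy2) (by simpa using zeroW_finrank₁ (z := y.1)) (by simp)
  have hμ0 : μ 0 = 0 := by
    have e := hn (s2zcI P Q R (0, 1)) ?_ ?_ ?_ ?_
    · rw [e, s2zcI_I, inner_zero_left]
    · intro v
      rw [s2zc_fderiv, s2zcI_I, inner_zero_left]
    · rw [map_sub, s2zc_I_z₂ hy2, s2zc_z₁, map_add, s2zcI_I, inner_zero_left]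
      simp only [lieForm, LinearMap.mk₂_apply, s2zcI, LinearMap.coe_mk, AddHom.coe_mk]
      rw [WithLp.prod_inner_apply, WithLp.prod_inner_apply, WithLp.prod_inner_apply,
        WithLp.prod_inner_apply]
      simp
      norm_num
    · rw [map_add, s2zcI_cylS, s2zc_z₁, map_add, s2zcI_I, inner_zero_left]
      simp only [lieForm, LinearMap.mk₂_apply, s2zcI, LinearMap.coe_mk, AddHom.coe_mk]
      rw [WithLp.prod_inner_apply, WithLp.prod_inner_apply, WithLp.prod_inner_apply,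
        WithLp.prod_inner_apply]
      simp
      norm_num
    · refine Filter.Eventually.of_forall fun z =>
        ⟨(z.1 - y.1.1, 0), -(‖z.1 - y.1.1‖ ^ 2 / 2), ?_⟩
      rw [s2zc_fderiv, s2zc_z₁, s2zc_z₁, add_sub_add_left_eq_sub, ← map_sub, ← map_smul,
        ← map_add]
      congr 1
      refine Prod.ext ?_ ?_
      · simp
      · simp only [Prod.snd_sub, Prod.snd_add, Prod.smul_snd, smul_eq_mul, inner_sub_right,
          real_inner_self_eq_norm_sq, norm_sub_sq_real, real_inner_comm y.1.1 z.1]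
        ring
  have hμe : μ = 0 := by
    funext i
    fin_cases i
    · simpa using hμ0
    · simp
      linarith
    · simpa using hμ2
  rw [hμe] at hconf
  exact hconf

end

end DupinClass
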