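import Pool.Agent.H31.Dupin.S2ModDef

open scoped RealInnerProductSpace ContDiff Topology
open Module Set

namespace DupinClass

section

variable (P Q : Type) [NormedAddCommGroup P] [InnerProductSpace ℝ P] [FiniteDimensional ℝ P]
  [NormedAddCommGroup Q] [InnerProductSpace ℝ Q] [FiniteDimensional ℝ Q]

variable {P Q}

/-- The principal curvature of multiplicity `q`. -/
noncomputable def zκ₁ (z : P × Q) : ℝ := -2 / (1 + ‖z.1‖ ^ 2)

/-- The principal curvature of multiplicity `p`. -/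
noncomputable def zκ₂ (z : P × Q) : ℝ := 2 / ‖z.2‖ ^ 2

theorem zero_mem_prin_iff {z : P × Q} {k : ℝ} (v : P × Q) : v ∈ prin (zeroW P Q).f (zeroW P Q).ν k z ↔
    (1 - k * (‖z.2‖ ^ 2 / 2)) • v.1 = 0 ∧ (1 + k * ((1 + ‖z.1‖ ^ 2) / 2)) • v.2 = 0 := by
  rw [mem_prin]
  change fderiv ℝ zν z v + k • fderiv ℝ zf z v = 0 ↔ _
  rw [zf_fderiv, ← map_smul, ← map_add]
  constructor
  · intro h
    have h1 := zν_fderiv_inj h
    constructor
    · refine Eq.trans ?_ (congrArg Prod.fst h1)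
      simp only [Prod.fst_add, Prod.smul_fst]
      module
    · refine Eq.trans ?_ (congrArg Prod.snd h1)
      simp only [Prod.snd_add, Prod.smul_snd]
      module
  · rintro ⟨h1, h2⟩
    rw [← map_zero (fderiv ℝ zν z)]
    congr 1
    refine Prod.ext ?_ ?_
    · refine Eq.trans ?_ h1
      simp only [Prod.fst_add, Prod.smul_fst]
      module
    · refine Eq.trans ?_ h2
      simp only [Prod.snd_add, Prod.smul_snd]
      module

theorem zero_prin₁ {z : P × Q} (v : P × Q) :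
    v ∈ prin (zeroW P Q).f (zeroW P Q).ν (zκ₁ z) z ↔ v.1 = 0 := by
  have h0 : 0 < 1 + ‖z.1‖ ^ 2 := by positivity
  have h1 : 1 + zκ₁ z * ((1 + ‖z.1‖ ^ 2) / 2) = 0 := by
    unfold zκ₁; field_simp; ring
  have h2 : 1 - zκ₁ z * (‖z.2‖ ^ 2 / 2) ≠ 0 := by
    have : 0 ≤ ‖z.2‖ ^ 2 / (1 + ‖z.1‖ ^ 2) := by positivity
    have h3 : 1 - zκ₁ z * (‖z.2‖ ^ 2 / 2) = 1 + ‖z.2‖ ^ 2 / (1 + ‖z.1‖ ^ 2) := by
      unfold zκ₁; field_simp; ring
    rw [h3]; positivity
  rw [zero_mem_prin_iff, h1, zero_smul, smul_eq_zero, or_iff_right h2]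
  simp

theorem zero_prin₂ {z : P × Q} (hz : z.2 ≠ 0) (v : P × Q) :
    v ∈ prin (zeroW P Q).f (zeroW P Q).ν (zκ₂ z) z ↔ v.2 = 0 := by
  have h0 : 0 < ‖z.2‖ := norm_pos_iff.2 hz
  have h1 : 1 - zκ₂ z * (‖z.2‖ ^ 2 / 2) = 0 := by
    unfold zκ₂; field_simp; ring
  have h2 : 1 + zκ₂ z * ((1 + ‖z.1‖ ^ 2) / 2) ≠ 0 := by
    have : 0 < zκ₂ z := by unfold zκ₂; positivity
    positivity
  rw [zero_mem_prin_iff, h1, zero_smul, smul_eq_zero, or_iff_right h2]
  simp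

theorem zero_prin_zero {z : P × Q} : prin (zeroW P Q).f (zeroW P Q).ν 0 z = ⊥ := by
  rw [eq_bot_iff]
  intro v hv
  rw [zero_mem_prin_iff] at hv
  simp only [zero_mul, sub_zero, add_zero, one_smul] at hv
  exact Prod.ext hv.1 hv.2

end

end DupinClass
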