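import Pool.Agent.H31.Dupin.S2ZeroA

open scoped RealInnerProductSpace ContDiff Topology
open Module Set

namespace DupinClass

section

variable (P Q : Type) [NormedAddCommGroup P] [InnerProductSpace ℝ P] [FiniteDimensional ℝ P]
  [NormedAddCommGroup Q] [InnerProductSpace ℝ Q] [FiniteDimensional ℝ Q]

variable {P Q} in
theorem zν_fderiv_inj {z v : P × Q} (h : fderiv ℝ zν z v = 0) : v = 0 := by
  have h1 := zν_conf z v
  rw [h, norm_zero] at h1
  have h2 : (1 + ‖z.1‖ ^ 2 + ‖z.2‖ ^ 2) ^ 2 ≠ 0 := by positivity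
  have h3 : ‖v.1‖ ^ 2 + ‖v.2‖ ^ 2 = 0 := by
    have h4 : 4 * (‖v.1‖ ^ 2 + ‖v.2‖ ^ 2) = 0 :=
      (div_eq_zero_iff.1 (by rw [← h1]; norm_num)).resolve_right h2
    linarith
  have h5 : ‖v.1‖ ^ 2 = 0 := by nlinarith [sq_nonneg ‖v.1‖, sq_nonneg ‖v.2‖]
  have h6 : ‖v.2‖ ^ 2 = 0 := by nlinarith [sq_nonneg ‖v.1‖, sq_nonneg ‖v.2‖]
  exact Prod.ext (norm_eq_zero.1 (pow_eq_zero_iff two_ne_zero |>.1 h5))
    (norm_eq_zero.1 (pow_eq_zero_iff two_ne_zero |>.1 h6))

variable {P Q} in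
theorem zν_inner_fderiv (z v : P × Q) : ⟪fderiv ℝ zν z v, zν z⟫ = 0 := by
  have h0 : HasFDerivAt (zν : P × Q → _) (fderiv ℝ zν z) z :=
    (zν_smooth.differentiable (by simp) z).hasFDerivAt
  have h1 : HasFDerivAt (fun z : P × Q => ⟪zν z, zν z⟫) _ z := h0.inner ℝ h0
  have h2 : HasFDerivAt (fun z : P × Q => ⟪zν z, zν z⟫) (0 : P × Q →L[ℝ] ℝ) z := by
    have : (fun z : P × Q => ⟪zν z, zν z⟫) = fun _ => (1 : ℝ) := by
      funext z
      rw [real_inner_self_eq_norm_sq, zν_norm, one_pow]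
    rw [this]
    exact hasFDerivAt_const _ _
  have h3 := DFunLike.congr_fun (h1.unique h2) v
  simp only [fderivInnerCLM_apply, ContinuousLinearMap.comp_apply, ContinuousLinearMap.prod_apply,
    zero_apply] at h3
  rw [real_inner_comm (zν z) (fderiv ℝ zν z v)]
  linarith [real_inner_comm (zν z) (fderiv ℝ zν z v)]

theorem isEHyp_zeroW_aux : IsEHyp (H := WithLp 2 (WithLp 2 (P × Q) × ℝ)) {z : P × Q | z.2 ≠ 0}
    zf zν where
  isOpen_U := isOpen_ne.preimage continuous_snd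
  smooth_f := zf_smooth.contDiffOn
  smooth_ν := zν_smooth.contDiffOn
  norm_ν := fun z _ => zν_norm z
  inner_df := fun z _ v => by rw [zf_fderiv, zν_inner_fderiv]
  immersion := fun z hz v hv => by
    rw [zf_fderiv] at hv
    have h1 := zν_fderiv_inj hv
    have h2 : -(‖z.2‖ ^ 2 / 2) ≠ 0 := by
      have : 0 < ‖z.2‖ := norm_pos_iff.2 hz
      have : 0 < ‖z.2‖ ^ 2 / 2 := by positivity
      linarith
    have h3 : (1 + ‖z.1‖ ^ 2) / 2 ≠ 0 := by positivity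
    exact Prod.ext ((smul_eq_zero.1 (congrArg Prod.fst h1)).resolve_left h2)
      ((smul_eq_zero.1 (congrArg Prod.snd h1)).resolve_left h3)
  dim := by
    rw [(WithLp.linearEquiv 2 ℝ (WithLp 2 (P × Q) × ℝ)).finrank_eq, Module.finrank_prod,
      (WithLp.linearEquiv 2 ℝ (P × Q)).finrank_eq, Module.finrank_self]

end

end DupinClass
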