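import Pool.Agent.H31.Dupin.S2ZeroC
import Pool.Agent.H31.Dupin.S2CylDef
import Pool.Agent.H31.Dupin.S2Cyl
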