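import Pool.Agent.H31.Dupin.TripleB
import Pool.Agent.H31.Dupin.Equiv
import Pool.Agent.H31.Dupin.Prod

open scoped RealInnerProductSpace ContDiff Topology
open Module Set

namespace DupinClass

section

variable {X Y V : Type} [NormedAddCommGroup X] [NormedSpace ℝ X] [FiniteDimensional ℝ X]
  [NormedAddCommGroup Y] [NormedSpace ℝ Y] [FiniteDimensional ℝ Y]
  [NormedAddCommGroup V] [NormedSpace ℝ V] [FiniteDimensional ℝ V]

/-- Hypotheses: the family `x ↦ span {z₁ (u x) + s x, z₂ (u x) + s x}`. -/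
structure StarHyp (B : LinearMap.BilinForm ℝ V) (U : Set X) (x₀ : X) (u : X → Y) (N : Set Y)
    (z₁ z₂ : Y → V) (s : X → V) : Prop where
  symm : B.IsSymm
  nondeg : B.Nondegenerate
  dim : finrank ℝ V = finrank ℝ X + 4
  isOpen_U : IsOpen U
  mem : x₀ ∈ U
  isOpen_N : IsOpen N
  maps : ∀ x ∈ U, u x ∈ N
  smooth_u : ContDiffOn ℝ ∞ u U
  smooth_z₁ : ContDiffOn ℝ ∞ z₁ N
  smooth_z₂ : ContDiffOn ℝ ∞ z₂ N
  smooth_s : ContDiffOn ℝ ∞ s U
  isCompl : ∀ y ∈ N, IsCompl (fderiv ℝ z₁ y).toLinearMap.ker (fderiv ℝ z₂ y).toLinearMap.ker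
  ne₁ : fderiv ℝ z₁ (u x₀) ≠ 0
  ne₂ : fderiv ℝ z₂ (u x₀) ≠ 0
  ne₃ : fderiv ℝ s x₀ ≠ 0
  null₁₂ : ∀ y ∈ N, B (z₁ y - z₂ y) (z₁ y - z₂ y) = 0
  null₁ : ∀ y ∈ N, ∀ x ∈ U, B (z₁ y + s x) (z₁ y + s x) = 0
  null₂ : ∀ y ∈ N, ∀ x ∈ U, B (z₂ y + s x) (z₂ y + s x) = 0
  pos₁ : ∀ v, fderiv ℝ z₁ (u x₀) v ≠ 0 → 0 < B (fderiv ℝ z₁ (u x₀) v) (fderiv ℝ z₁ (u x₀) v)
  pos₂ : ∀ v, fderiv ℝ z₂ (u x₀) v ≠ 0 → 0 < B (fderiv ℝ z₂ (u x₀) v) (fderiv ℝ z₂ (u x₀) v)
  pos₃ : ∀ v, fderiv ℝ s x₀ v ≠ 0 → 0 < B (fderiv ℝ s x₀ v) (fderiv ℝ s x₀ v)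
  surj : ∀ w, ∃ v, fderiv ℝ u x₀ v = w
  inj : ∀ v, fderiv ℝ u x₀ v = 0 → fderiv ℝ s x₀ v = 0 → v = 0
  li : LinearIndependent ℝ ![z₁ (u x₀) + s x₀, z₂ (u x₀) + s x₀]

variable {B : LinearMap.BilinForm ℝ V} {U : Set X} {x₀ : X} {u : X → Y} {N : Set Y}
    {z₁ z₂ : Y → V} {s : X → V}

theorem StarHyp.fderiv_comp₁ (h : StarHyp B U x₀ u N z₁ z₂ s) :
    fderiv ℝ (fun x => z₁ (u x)) x₀ = (fderiv ℝ z₁ (u x₀)).comp (fderiv ℝ u x₀) := by
  have hu : DifferentiableAt ℝ u x₀ :=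
    (h.smooth_u.contDiffAt (h.isOpen_U.mem_nhds h.mem)).differentiableAt (by simp)
  have hz : DifferentiableAt ℝ z₁ (u x₀) :=
    (h.smooth_z₁.contDiffAt (h.isOpen_N.mem_nhds (h.maps _ h.mem))).differentiableAt (by simp)
  exact fderiv_comp x₀ hz hu

theorem StarHyp.fderiv_comp₂ (h : StarHyp B U x₀ u N z₁ z₂ s) :
    fderiv ℝ (fun x => z₂ (u x)) x₀ = (fderiv ℝ z₂ (u x₀)).comp (fderiv ℝ u x₀) := by
  have hu : DifferentiableAt ℝ u x₀ :=
    (h.smooth_u.contDiffAt (h.isOpen_U.mem_nhds h.mem)).differentiableAt (by simp)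
  have hz : DifferentiableAt ℝ z₂ (u x₀) :=
    (h.smooth_z₂.contDiffAt (h.isOpen_N.mem_nhds (h.maps _ h.mem))).differentiableAt (by simp)
  exact fderiv_comp x₀ hz hu

/-- The null triple of a star family. -/
def starTriple (u : X → Y) (z₁ z₂ : Y → V) (s : X → V) : Fin 3 → X → V :=
  ![fun x => z₁ (u x), fun x => z₂ (u x), fun x => -s x]

theorem triFam_starTriple (u : X → Y) (z₁ z₂ : Y → V) (s : X → V) :
    triFam (starTriple u z₁ z₂ s) =
      fun x => Submodule.span ℝ {z₁ (u x) + s x, z₂ (u x) + s x} := by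
  funext x
  set S : Submodule ℝ V := Submodule.span ℝ {z₁ (u x) + s x, z₂ (u x) + s x} with hS
  have h1 : z₁ (u x) + s x ∈ S := Submodule.subset_span (by simp)
  have h2 : z₂ (u x) + s x ∈ S := Submodule.subset_span (by simp)
  have hb0 : starTriple u z₁ z₂ s 0 x = z₁ (u x) := rfl
  have hb1 : starTriple u z₁ z₂ s 1 x = z₂ (u x) := rfl
  have hb2 : starTriple u z₁ z₂ s 2 x = -s x := rfl
  have h12 : z₁ (u x) - z₂ (u x) ∈ S := by
    have := S.sub_mem h1 h2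
    rwa [add_sub_add_right_eq_sub] at this
  apply le_antisymm
  · unfold triFam
    rw [Submodule.span_le]
    rintro _ ⟨⟨i, j⟩, rfl⟩
    simp only [SetLike.mem_coe]
    have key : ∀ i : Fin 3, starTriple u z₁ z₂ s i x - starTriple u z₁ z₂ s 2 x ∈ S := by
      intro i
      fin_cases i
      · change starTriple u z₁ z₂ s 0 x - _ ∈ S
        rw [hb0, hb2, sub_neg_eq_add]
        exact h1
      · change starTriple u z₁ z₂ s 1 x - _ ∈ S
        rw [hb1, hb2, sub_neg_eq_add]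
        exact h2
      · change starTriple u z₁ z₂ s 2 x - _ ∈ S
        rw [sub_self]
        exact S.zero_mem
    have := S.sub_mem (key i) (key j)
    rwa [sub_sub_sub_cancel_right] at this
  · rw [hS, Submodule.span_le]
    intro v hv
    rcases hv with rfl | hv
    · have : z₁ (u x) + s x =
          starTriple u z₁ z₂ s 0 x - starTriple u z₁ z₂ s 2 x := by
        rw [hb0, hb2, sub_neg_eq_add]
      rw [this]
      exact Submodule.subset_span ⟨(0, 2), rfl⟩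
    · rw [Set.mem_singleton_iff] at hv
      have : v = starTriple u z₁ z₂ s 1 x - starTriple u z₁ z₂ s 2 x := by
        rw [hv, hb1, hb2, sub_neg_eq_add]
      rw [this]
      exact Submodule.subset_span ⟨(1, 2), rfl⟩

theorem StarHyp.tripleHyp (h : StarHyp B U x₀ u N z₁ z₂ s) :
    ∃ U₁ : Set X, U₁ ⊆ U ∧ TripleHyp B (starTriple u z₁ z₂ s) U₁ x₀ := by
  obtain ⟨N₁, hN₁o, hy₀, hN₁N, hprod⟩ := exists_prod_nhd h.isOpen_N h.smooth_z₁ h.smooth_z₂
    h.isCompl (h.maps _ h.mem)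
  have hd0 : fderiv ℝ (starTriple u z₁ z₂ s 0) x₀ =
      (fderiv ℝ z₁ (u x₀)).comp (fderiv ℝ u x₀) := h.fderiv_comp₁
  have hd1 : fderiv ℝ (starTriple u z₁ z₂ s 1) x₀ =
      (fderiv ℝ z₂ (u x₀)).comp (fderiv ℝ u x₀) := h.fderiv_comp₂
  have hd2 : fderiv ℝ (starTriple u z₁ z₂ s 2) x₀ = -fderiv ℝ s x₀ := fderiv_neg
  have hneg : ∀ a b : V, B (a - b) (a - b) = B (b - a) (b - a) := by
    intro a b
    have : a - b = -(b - a) := (neg_sub b a).symm
    rw [this, map_neg, map_neg, LinearMap.neg_apply, neg_neg]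
  have hU₁o : IsOpen (U ∩ u ⁻¹' N₁) :=
    h.smooth_u.continuousOn.isOpen_inter_preimage h.isOpen_U hN₁o
  refine ⟨U ∩ u ⁻¹' N₁, Set.inter_subset_left, ?_⟩
  refine ⟨h.symm, h.nondeg, h.dim, hU₁o, ⟨h.mem, hy₀⟩, ?_, ?_, ?_, ?_, ?_, ?_⟩
  · intro i
    fin_cases i
    · exact h.smooth_z₁.comp (h.smooth_u.mono Set.inter_subset_left)
        (fun x hx => hN₁N hx.2)
    · exact h.smooth_z₂.comp (h.smooth_u.mono Set.inter_subset_left)
        (fun x hx => hN₁N hx.2)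
    · exact (h.smooth_s.mono Set.inter_subset_left).neg
  · have h01 : ∀ x ∈ U ∩ u ⁻¹' N₁, ∀ y ∈ U ∩ u ⁻¹' N₁,
        B (z₁ (u x) - z₂ (u y)) (z₁ (u x) - z₂ (u y)) = 0 := by
      intro x hx y hy
      obtain ⟨y'', hy'', e1, e2⟩ := hprod (u x) hx.2 (u y) hy.2
      rw [← e1, ← e2]
      exact h.null₁₂ y'' hy''
    have h02 : ∀ x ∈ U ∩ u ⁻¹' N₁, ∀ y ∈ U ∩ u ⁻¹' N₁,
        B (z₁ (u x) - -s y) (z₁ (u x) - -s y) = 0 := by
      intro x hx y hy
      rw [sub_neg_eq_add]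
      exact h.null₁ (u x) (hN₁N hx.2) y hy.1
    have h12 : ∀ x ∈ U ∩ u ⁻¹' N₁, ∀ y ∈ U ∩ u ⁻¹' N₁,
        B (z₂ (u x) - -s y) (z₂ (u x) - -s y) = 0 := by
      intro x hx y hy
      rw [sub_neg_eq_add]
      exact h.null₂ (u x) (hN₁N hx.2) y hy.1
    intro i j hij x hx y hy
    fin_cases i <;> fin_cases j
    · exact absurd rfl hij
    · exact h01 x hx y hy
    · exact h02 x hx y hy
    · exact (hneg _ _).trans (h01 y hy x hx)
    · exact absurd rfl hij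
    · exact h12 x hx y hy
    · exact (hneg _ _).trans (h02 y hy x hx)
    · exact (hneg _ _).trans (h12 y hy x hx)
    · exact absurd rfl hij
  · intro i v hv
    fin_cases i
    · change fderiv ℝ (starTriple u z₁ z₂ s 0) x₀ v ≠ 0 at hv
      change 0 < B (fderiv ℝ (starTriple u z₁ z₂ s 0) x₀ v)
        (fderiv ℝ (starTriple u z₁ z₂ s 0) x₀ v)
      rw [hd0] at hv ⊢
      exact h.pos₁ _ hv
    · change fderiv ℝ (starTriple u z₁ z₂ s 1) x₀ v ≠ 0 at hv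
      change 0 < B (fderiv ℝ (starTriple u z₁ z₂ s 1) x₀ v)
        (fderiv ℝ (starTriple u z₁ z₂ s 1) x₀ v)
      rw [hd1] at hv ⊢
      exact h.pos₂ _ hv
    · change fderiv ℝ (starTriple u z₁ z₂ s 2) x₀ v ≠ 0 at hv
      change 0 < B (fderiv ℝ (starTriple u z₁ z₂ s 2) x₀ v)
        (fderiv ℝ (starTriple u z₁ z₂ s 2) x₀ v)
      rw [hd2] at hv ⊢
      have hv' : fderiv ℝ s x₀ v ≠ 0 := by
        intro h0
        apply hv
        rw [neg_apply, h0, neg_zero]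
      have := h.pos₃ v hv'
      rwa [neg_apply, map_neg, map_neg, LinearMap.neg_apply, neg_neg]
  · intro i
    fin_cases i
    · change fderiv ℝ (starTriple u z₁ z₂ s 0) x₀ ≠ 0
      rw [hd0]
      intro h0
      apply h.ne₁
      ext w
      obtain ⟨v, rfl⟩ := h.surj w
      exact DFunLike.congr_fun h0 v
    · change fderiv ℝ (starTriple u z₁ z₂ s 1) x₀ ≠ 0
      rw [hd1]
      intro h0
      apply h.ne₂
      ext w
      obtain ⟨v, rfl⟩ := h.surj w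
      exact DFunLike.congr_fun h0 v
    · change fderiv ℝ (starTriple u z₁ z₂ s 2) x₀ ≠ 0
      rw [hd2]
      exact neg_ne_zero.2 h.ne₃
  · intro v hv
    have e0 := hv 0
    have e1 := hv 1
    have e2 := hv 2
    rw [hd0] at e0
    rw [hd1] at e1
    rw [hd2, neg_apply, neg_eq_zero] at e2
    have hc := (h.isCompl (u x₀) (h.maps _ h.mem)).disjoint
    have hdu : fderiv ℝ u x₀ v = 0 := by
      have := Submodule.disjoint_def.1 hc (fderiv ℝ u x₀ v)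
        (LinearMap.mem_ker.2 e0) (LinearMap.mem_ker.2 e1)
      exact this
    exact h.inj v hdu e2
  · have hli := h.li
    rw [LinearIndependent.pair_iff] at hli ⊢
    intro p q hpq
    have e : p • (starTriple u z₁ z₂ s 1 x₀ - starTriple u z₁ z₂ s 2 x₀) +
        q • (starTriple u z₁ z₂ s 2 x₀ - starTriple u z₁ z₂ s 0 x₀) =
        (-q) • (z₁ (u x₀) + s x₀) + p • (z₂ (u x₀) + s x₀) := by
      change p • (z₂ (u x₀) - -s x₀) + q • (-s x₀ - z₁ (u x₀)) = _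
      module
    rw [e] at hpq
    obtain ⟨h1, h2⟩ := hli (-q) p hpq
    exact ⟨h2, neg_eq_zero.1 h1⟩

/-- **Module T\*.** -/
theorem StarHyp.confEq (h : StarHyp B U x₀ u N z₁ z₂ s) {m : Fin 3 → ℕ}
    (h0 : finrank ℝ (fderiv ℝ z₁ (u x₀)).toLinearMap.range = m 0)
    (h1 : finrank ℝ (fderiv ℝ z₂ (u x₀)).toLinearMap.range = m 1)
    (h2 : finrank ℝ (fderiv ℝ s x₀).toLinearMap.range = m 2) :
    ∃ μ : Fin 3 → ℝ, μ 0 + μ 1 + μ 2 = 0 ∧
      ConfEqAt B (fun x => Submodule.span ℝ {z₁ (u x) + s x, z₂ (u x) + s x}) U x₀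
        (mForm m μ) (mFam m μ) (mU m μ) 0 ∧
      (∀ n, (∀ v, B n (fderiv ℝ z₁ (u x₀) v) = 0) → B n (z₁ (u x₀) - z₂ (u x₀)) = 1 →
        B n (z₁ (u x₀) + s x₀) = 1 →
        (∀ᶠ y in 𝓝 (u x₀), ∃ v, ∃ t : ℝ,
          z₁ y - z₁ (u x₀) = fderiv ℝ z₁ (u x₀) v + t • n) → μ 0 = B n n) ∧
      (∀ n, (∀ v, B n (fderiv ℝ s x₀ v) = 0) → B n (z₁ (u x₀) + s x₀) = -1 →
        B n (z₂ (u x₀) + s x₀) = -1 →
        (∀ᶠ x in 𝓝 x₀, ∃ v, ∃ t : ℝ, s x - s x₀ = fderiv ℝ s x₀ v + t • n) → μ 2 = B n n) := by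
  obtain ⟨U₁, hU₁, hT⟩ := h.tripleHyp
  have hd0 : fderiv ℝ (starTriple u z₁ z₂ s 0) x₀ =
      (fderiv ℝ z₁ (u x₀)).comp (fderiv ℝ u x₀) := h.fderiv_comp₁
  have hd1 : fderiv ℝ (starTriple u z₁ z₂ s 1) x₀ =
      (fderiv ℝ z₂ (u x₀)).comp (fderiv ℝ u x₀) := h.fderiv_comp₂
  have hd2 : fderiv ℝ (starTriple u z₁ z₂ s 2) x₀ = -fderiv ℝ s x₀ := fderiv_neg
  have hsurj : (fderiv ℝ u x₀).toLinearMap.range = ⊤ := by
    rw [LinearMap.range_eq_top]
    intro w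
    obtain ⟨v, hv⟩ := h.surj w
    exact ⟨v, hv⟩
  have hm : ∀ i, finrank ℝ (fderiv ℝ (starTriple u z₁ z₂ s i) x₀).toLinearMap.range = m i := by
    intro i
    fin_cases i
    · change finrank ℝ (fderiv ℝ (starTriple u z₁ z₂ s 0) x₀).toLinearMap.range = m 0
      rw [hd0, ContinuousLinearMap.toLinearMap_comp, LinearMap.range_comp, hsurj,
        Submodule.map_top]
      exact h0
    · change finrank ℝ (fderiv ℝ (starTriple u z₁ z₂ s 1) x₀).toLinearMap.range = m 1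
      rw [hd1, ContinuousLinearMap.toLinearMap_comp, LinearMap.range_comp, hsurj,
        Submodule.map_top]
      exact h1
    · change finrank ℝ (fderiv ℝ (starTriple u z₁ z₂ s 2) x₀).toLinearMap.range = m 2
      have hr : (-fderiv ℝ s x₀).toLinearMap.range = (fderiv ℝ s x₀).toLinearMap.range := by
        ext w
        simp only [LinearMap.mem_range]
        constructor
        · rintro ⟨v, hv⟩
          refine ⟨-v, ?_⟩
          rw [← hv]
          simp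
        · rintro ⟨v, hv⟩
          refine ⟨-v, ?_⟩
          rw [← hv]
          simp
      rw [hd2, hr]
      exact h2
  obtain ⟨μ, hμ, hconf, hnorm⟩ := hT.confEq hm
  rw [triFam_starTriple] at hconf
  refine ⟨μ, hμ, hconf.mono hU₁, ?_, ?_⟩
  · intro n hn1 hn2 hn3 hn4
    apply hnorm 0 n
    refine ⟨?_, ?_, ?_⟩
    · intro v
      rw [hd0]
      exact hn1 _
    · intro j hj
      fin_cases j
      · exact absurd rfl hj
      · exact hn2
      · change B n (z₁ (u x₀) - -s x₀) = 1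
        rw [sub_neg_eq_add]
        exact hn3
    · have hcont : Filter.Tendsto u (𝓝 x₀) (𝓝 (u x₀)) :=
        (h.smooth_u.contDiffAt (h.isOpen_U.mem_nhds h.mem)).continuousAt
      filter_upwards [hcont.eventually hn4] with x hx
      obtain ⟨w, t, hw⟩ := hx
      obtain ⟨v, rfl⟩ := h.surj w
      refine ⟨v, t, ?_⟩
      rw [hd0]
      exact hw
  · intro n hn1 hn2 hn3 hn4
    apply hnorm 2 n
    refine ⟨?_, ?_, ?_⟩
    · intro v
      rw [hd2, neg_apply, map_neg, hn1, neg_zero]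
    · intro j hj
      fin_cases j
      · change B n (-s x₀ - z₁ (u x₀)) = 1
        have : -s x₀ - z₁ (u x₀) = -(z₁ (u x₀) + s x₀) := by abel
        rw [this, map_neg, hn2, neg_neg]
      · change B n (-s x₀ - z₂ (u x₀)) = 1
        have : -s x₀ - z₂ (u x₀) = -(z₂ (u x₀) + s x₀) := by abel
        rw [this, map_neg, hn3, neg_neg]
      · exact absurd rfl hj
    · filter_upwards [hn4] with x hx
      obtain ⟨v, t, hv⟩ := hx
      refine ⟨v, -t, ?_⟩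
      rw [hd2]
      change -s x - -s x₀ = (-fderiv ℝ s x₀) v + (-t) • n
      rw [neg_apply, neg_smul, ← neg_add, ← hv]
      abel

end

end DupinClass
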