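import Pool.Agent.H31.Dupin.Tube

open scoped RealInnerProductSpace ContDiff Topology
open Module Set

namespace DupinClass

namespace TM2

section general

variable {F : Type} [NormedAddCommGroup F] [InnerProductSpace ℝ F]

omit [InnerProductSpace ℝ F] in
theorem pos_of_lt {β : F} (hβ : ‖β‖ < 1) : 0 < 1 - ‖β‖ ^ 2 := by
  have := norm_nonneg β
  nlinarith

omit [InnerProductSpace ℝ F] in
theorem x0_pos {β : F} (hβ : ‖β‖ < 1) : 0 < √(1 - ‖β‖ ^ 2) := Real.sqrt_pos.2 (pos_of_lt hβ)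

omit [InnerProductSpace ℝ F] in
theorem x0_sq {β : F} (hβ : ‖β‖ < 1) : √(1 - ‖β‖ ^ 2) * √(1 - ‖β‖ ^ 2) = 1 - ‖β‖ ^ 2 :=
  Real.mul_self_sqrt (pos_of_lt hβ).le

/-- Derivative of `β ↦ √(1 - |β|²)`. -/
theorem hasFDerivAt_x0 {β : F} (hβ : ‖β‖ < 1) :
    HasFDerivAt (fun β : F => √(1 - ‖β‖ ^ 2)) (-((√(1 - ‖β‖ ^ 2))⁻¹ • innerSL ℝ β)) β := by
  have h1 : HasFDerivAt (fun β : F => ‖β‖ ^ 2) (2 • innerSL ℝ β) β :=
    (hasStrictFDerivAt_norm_sq β).hasFDerivAt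
  have h2 := (h1.const_sub 1).sqrt (pos_of_lt hβ).ne'
  refine h2.congr_fderiv ?_
  ext v
  have := (x0_pos hβ).ne'
  simp
  field_simp

theorem contDiffAt_x0 {β : F} (hβ : ‖β‖ < 1) :
    ContDiffAt ℝ ∞ (fun β : F => √(1 - ‖β‖ ^ 2)) β :=
  (contDiffAt_const.sub (contDiff_norm_sq ℝ).contDiffAt).sqrt (pos_of_lt hβ).ne'

end general

section sphere

/-- The inclusion of pairs. -/
noncomputable def J (E G : Type) [NormedAddCommGroup E] [InnerProductSpace ℝ E]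
    [NormedAddCommGroup G] [InnerProductSpace ℝ G] : (E × G) →L[ℝ] WithLp 2 (E × G) :=
  (WithLp.prodContinuousLinearEquiv 2 ℝ E G).symm.toContinuousLinearMap

theorem J_apply {E G : Type} [NormedAddCommGroup E] [InnerProductSpace ℝ E]
    [NormedAddCommGroup G] [InnerProductSpace ℝ G] (z : E × G) : J E G z = WithLp.toLp 2 z := rfl

variable {P : Type} [NormedAddCommGroup P] [InnerProductSpace ℝ P]

/-- The chart `α ↦ (√(1 - |α|²), α)` of an open half of the unit sphere. -/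
noncomputable def sph {P : Type} [NormedAddCommGroup P] [InnerProductSpace ℝ P] (α : P) :
    WithLp 2 (ℝ × P) :=
  WithLp.toLp 2 (√(1 - ‖α‖ ^ 2), α)

/-- Derivative of the chart of the sphere. -/
noncomputable def dsph (α : P) :
    P →L[ℝ] WithLp 2 (ℝ × P) :=
  (J ℝ (P)).comp
    ((-((√(1 - ‖α‖ ^ 2))⁻¹ • innerSL ℝ α)).prod (ContinuousLinearMap.id ℝ _))

theorem sph_eq : (sph : P → _) =
    (J ℝ (P)) ∘ fun α => (√(1 - ‖α‖ ^ 2), α) := rfl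

theorem hasFDerivAt_sph {α : P} (hα : ‖α‖ < 1) :
    HasFDerivAt (sph : P → _) (dsph α) α := by
  rw [sph_eq]
  exact (J ℝ (P)).hasFDerivAt.comp α
    ((hasFDerivAt_x0 hα).prodMk (hasFDerivAt_id α))

theorem contDiffAt_sph {α : P} (hα : ‖α‖ < 1) :
    ContDiffAt ℝ ∞ (sph : P → _) α := by
  rw [sph_eq]
  exact (J ℝ (P)).contDiff.contDiffAt.comp α
    ((contDiffAt_x0 hα).prodMk contDiffAt_id)

theorem dsph_apply (α A : P) :
    dsph α A = WithLp.toLp 2 (-((√(1 - ‖α‖ ^ 2))⁻¹ * ⟪α, A⟫), A) := by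
  simp [dsph, J_apply]

theorem dsph_inj {α A : P} (h : dsph α A = 0) : A = 0 := by
  rw [dsph_apply] at h
  exact congrArg (fun z => (WithLp.ofLp z).2) h

theorem inner_pair {E G : Type} [NormedAddCommGroup E] [InnerProductSpace ℝ E]
    [NormedAddCommGroup G] [InnerProductSpace ℝ G] (a a' : E) (b b' : G) :
    ⟪(WithLp.toLp 2 (a, b) : WithLp 2 (E × G)), WithLp.toLp 2 (a', b')⟫ = ⟪a, a'⟫ + ⟪b, b'⟫ := by
  rw [WithLp.prod_inner_apply]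

theorem inner_mul_real (a b : ℝ) : (⟪a, b⟫ : ℝ) = a * b := by
  simp [mul_comm]

theorem pair_smul {E G : Type} [NormedAddCommGroup E] [InnerProductSpace ℝ E]
    [NormedAddCommGroup G] [InnerProductSpace ℝ G] (c : ℝ) (a : E) (b : G) :
    c • (WithLp.toLp 2 (a, b) : WithLp 2 (E × G)) = WithLp.toLp 2 (c • a, c • b) := rfl

theorem pair_add {E G : Type} [NormedAddCommGroup E] [InnerProductSpace ℝ E]
    [NormedAddCommGroup G] [InnerProductSpace ℝ G] (a a' : E) (b b' : G) :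
    (WithLp.toLp 2 (a, b) : WithLp 2 (E × G)) + WithLp.toLp 2 (a', b') =
      WithLp.toLp 2 (a + a', b + b') := rfl

theorem inner_sph_self {α : P} (hα : ‖α‖ < 1) : ⟪sph α, sph α⟫ = 1 := by
  unfold sph
  rw [inner_pair, real_inner_self_eq_norm_sq α]
  rw [inner_mul_real, x0_sq hα]
  ring

theorem inner_dsph {α : P} (hα : ‖α‖ < 1)
    (A : P) : ⟪dsph α A, sph α⟫ = 0 := by
  rw [dsph_apply]
  unfold sph
  rw [inner_pair, inner_mul_real, real_inner_comm α A]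
  have := (x0_pos hα).ne'
  field_simp
  ring

end sphere

section model

variable (P Q : Type) [NormedAddCommGroup P] [InnerProductSpace ℝ P] [FiniteDimensional ℝ P]
  [NormedAddCommGroup Q] [InnerProductSpace ℝ Q] [FiniteDimensional ℝ Q] (ρ : ℝ)

/-- Domain. -/
abbrev XX := P × Q

/-- Target. -/
abbrev EE := WithLp 2 (WithLp 2 (ℝ × P) × Q)

/-- The immersion. -/
noncomputable def mf (z : XX P Q) : EE P Q :=
  WithLp.toLp 2 ((1 + ρ * √(1 - ‖z.2‖ ^ 2)) • sph z.1, ρ • z.2)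

/-- The normal. -/
noncomputable def mν (z : XX P Q) : EE P Q :=
  WithLp.toLp 2 (√(1 - ‖z.2‖ ^ 2) • sph z.1, z.2)

variable {P Q ρ} {z : XX P Q}

theorem hasFDerivAt_mf (h1 : ‖z.1‖ < 1) (h2 : ‖z.2‖ < 1) :
    ∃ D : XX P Q →L[ℝ] EE P Q, HasFDerivAt (mf P Q ρ) D z ∧ ∀ v, D v =
      WithLp.toLp 2 ((1 + ρ * √(1 - ‖z.2‖ ^ 2)) • dsph z.1 v.1 -
        (ρ * ((√(1 - ‖z.2‖ ^ 2))⁻¹ * ⟪z.2, v.2⟫)) • sph z.1, ρ • v.2) := by
  have e1 : HasFDerivAt (fun z : XX P Q => √(1 - ‖z.2‖ ^ 2)) _ z :=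
    (hasFDerivAt_x0 h2).comp z (hasFDerivAt_snd (𝕜 := ℝ) (p := z))
  have e2 : HasFDerivAt (fun z : XX P Q => sph z.1) _ z :=
    (hasFDerivAt_sph h1).comp z (hasFDerivAt_fst (𝕜 := ℝ) (p := z))
  have e3 := ((e1.const_mul ρ).const_add 1).smul e2
  have e4 : HasFDerivAt (fun z : XX P Q => ρ • z.2) _ z :=
    (hasFDerivAt_snd (𝕜 := ℝ) (p := z)).const_smul ρ
  have e5 := (J _ _).hasFDerivAt.comp z (e3.prodMk e4)
  refine ⟨_, e5, fun v => ?_⟩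
  simp [J_apply, sub_eq_add_neg]

theorem hasFDerivAt_mν (h1 : ‖z.1‖ < 1) (h2 : ‖z.2‖ < 1) :
    ∃ D : XX P Q →L[ℝ] EE P Q, HasFDerivAt (mν P Q) D z ∧ ∀ v, D v =
      WithLp.toLp 2 (√(1 - ‖z.2‖ ^ 2) • dsph z.1 v.1 -
        ((√(1 - ‖z.2‖ ^ 2))⁻¹ * ⟪z.2, v.2⟫) • sph z.1, v.2) := by
  have e1 : HasFDerivAt (fun z : XX P Q => √(1 - ‖z.2‖ ^ 2)) _ z :=
    (hasFDerivAt_x0 h2).comp z (hasFDerivAt_snd (𝕜 := ℝ) (p := z))
  have e2 : HasFDerivAt (fun z : XX P Q => sph z.1) _ z :=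
    (hasFDerivAt_sph h1).comp z (hasFDerivAt_fst (𝕜 := ℝ) (p := z))
  have e3 := e1.smul e2
  have e4 : HasFDerivAt (fun z : XX P Q => z.2) _ z := hasFDerivAt_snd (𝕜 := ℝ) (p := z)
  have e5 := (J _ _).hasFDerivAt.comp z (e3.prodMk e4)
  refine ⟨_, e5, fun v => ?_⟩
  simp [J_apply, sub_eq_add_neg]

theorem contDiffAt_mf (h1 : ‖z.1‖ < 1) (h2 : ‖z.2‖ < 1) : ContDiffAt ℝ ∞ (mf P Q ρ) z := by
  have e1 : ContDiffAt ℝ ∞ (fun z : XX P Q => √(1 - ‖z.2‖ ^ 2)) z :=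
    (contDiffAt_x0 h2).comp z contDiffAt_snd
  have e2 : ContDiffAt ℝ ∞ (fun z : XX P Q => sph z.1) z :=
    (contDiffAt_sph h1).comp z contDiffAt_fst
  have e3 := (contDiffAt_const (c := (1 : ℝ))).add ((contDiffAt_const (c := ρ)).mul e1)
  have e4 : ContDiffAt ℝ ∞ (fun z : XX P Q => ρ • z.2) z := contDiffAt_snd.const_smul ρ
  exact (J _ _).contDiff.contDiffAt.comp z ((e3.smul e2).prodMk e4)

theorem contDiffAt_mν (h1 : ‖z.1‖ < 1) (h2 : ‖z.2‖ < 1) : ContDiffAt ℝ ∞ (mν P Q) z := by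
  have e1 : ContDiffAt ℝ ∞ (fun z : XX P Q => √(1 - ‖z.2‖ ^ 2)) z :=
    (contDiffAt_x0 h2).comp z contDiffAt_snd
  have e2 : ContDiffAt ℝ ∞ (fun z : XX P Q => sph z.1) z :=
    (contDiffAt_sph h1).comp z contDiffAt_fst
  exact (J _ _).contDiff.contDiffAt.comp z ((e1.smul e2).prodMk contDiffAt_snd)

/-- The two equations for principal vectors. -/
theorem mem_prin_iff (h1 : ‖z.1‖ < 1) (h2 : ‖z.2‖ < 1) (k : ℝ) (v : XX P Q) :
    v ∈ prin (mf P Q ρ) (mν P Q) k z ↔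
      (√(1 - ‖z.2‖ ^ 2) + k * (1 + ρ * √(1 - ‖z.2‖ ^ 2))) • v.1 = 0 ∧ (1 + k * ρ) • v.2 = 0 := by
  obtain ⟨D, hD, hD'⟩ := hasFDerivAt_mf (ρ := ρ) h1 h2
  obtain ⟨N, hN, hN'⟩ := hasFDerivAt_mν h1 h2
  have e0 : v ∈ prin (mf P Q ρ) (mν P Q) k z ↔ N v + k • D v = 0 := by
    unfold prin
    rw [hD.fderiv, hN.fderiv]
    rfl
  set x := √(1 - ‖z.2‖ ^ 2) with hx
  set t := x⁻¹ * ⟪z.2, v.2⟫ with ht
  have e1 : N v + k • D v = WithLp.toLp 2 ((x + k * (1 + ρ * x)) • dsph z.1 v.1 -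
      ((1 + k * ρ) * t) • sph z.1, (1 + k * ρ) • v.2) := by
    rw [hD', hN', pair_smul, pair_add, ← ht]
    refine congrArg (WithLp.toLp 2) (Prod.ext ?_ ?_)
    · show x • dsph z.1 v.1 - t • sph z.1 +
        k • ((1 + ρ * x) • dsph z.1 v.1 - (ρ * t) • sph z.1) = _
      module
    · show v.2 + k • ρ • v.2 = _
      module
  rw [e0, e1]
  constructor
  · intro h
    have h3 : (1 + k * ρ) • v.2 = 0 := congrArg (fun z => (WithLp.ofLp z).2) h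
    have h4 : (x + k * (1 + ρ * x)) • dsph z.1 v.1 - ((1 + k * ρ) * t) • sph z.1 = 0 :=
      congrArg (fun z => (WithLp.ofLp z).1) h
    have h5 : (1 + k * ρ) * t = 0 := by
      have : (1 + k * ρ) * t = x⁻¹ * ⟪z.2, (1 + k * ρ) • v.2⟫ := by
        rw [inner_smul_right, ht]; ring
      rw [this, h3, inner_zero_right, mul_zero]
    rw [h5, zero_smul, sub_zero, ← map_smul] at h4
    exact ⟨dsph_inj h4, h3⟩
  · rintro ⟨h3, h4⟩
    have h5 : (1 + k * ρ) * t = 0 := by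
      have : (1 + k * ρ) * t = x⁻¹ * ⟪z.2, (1 + k * ρ) • v.2⟫ := by
        rw [inner_smul_right, ht]; ring
      rw [this, h4, inner_zero_right, mul_zero]
    rw [h5, h4, zero_smul, sub_zero, ← map_smul, h3, map_zero]
    rfl

theorem immersion_mf (hρ : 0 < ρ) (h1 : ‖z.1‖ < 1) (h2 : ‖z.2‖ < 1) (v : XX P Q)
    (hv : fderiv ℝ (mf P Q ρ) z v = 0) : v = 0 := by
  obtain ⟨D, hD, hD'⟩ := hasFDerivAt_mf (ρ := ρ) h1 h2
  rw [hD.fderiv, hD'] at hv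
  have h3 : ρ • v.2 = 0 := congrArg (fun z => (WithLp.ofLp z).2) hv
  have h4 : v.2 = 0 := (smul_eq_zero.1 h3).resolve_left hρ.ne'
  have h5 : (1 + ρ * √(1 - ‖z.2‖ ^ 2)) • dsph z.1 v.1 -
      (ρ * ((√(1 - ‖z.2‖ ^ 2))⁻¹ * ⟪z.2, v.2⟫)) • sph z.1 = 0 :=
    congrArg (fun z => (WithLp.ofLp z).1) hv
  rw [h4, inner_zero_right, mul_zero, mul_zero, zero_smul, sub_zero] at h5
  have h6 : 0 < 1 + ρ * √(1 - ‖z.2‖ ^ 2) := by
    have := x0_pos h2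
    positivity
  have h7 := dsph_inj ((smul_eq_zero.1 h5).resolve_left h6.ne')
  exact Prod.ext h7 h4

theorem inner_mf (h1 : ‖z.1‖ < 1) (h2 : ‖z.2‖ < 1) (v : XX P Q) :
    ⟪fderiv ℝ (mf P Q ρ) z v, mν P Q z⟫ = 0 := by
  obtain ⟨D, hD, hD'⟩ := hasFDerivAt_mf (ρ := ρ) h1 h2
  rw [hD.fderiv, hD']
  unfold mν
  rw [inner_pair]
  simp only [inner_sub_left, inner_smul_left, inner_smul_right, inner_dsph h1, inner_sph_self h1,
    RCLike.conj_to_real, mul_zero, zero_sub, mul_one]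
  rw [real_inner_comm z.2 v.2]
  have := (x0_pos h2).ne'
  field_simp
  ring

theorem norm_mν (h1 : ‖z.1‖ < 1) (h2 : ‖z.2‖ < 1) : ‖mν P Q z‖ = 1 := by
  have h3 : ⟪mν P Q z, mν P Q z⟫ = 1 := by
    unfold mν
    rw [inner_pair, inner_smul_left, inner_smul_right, inner_sph_self h1,
      real_inner_self_eq_norm_sq z.2, RCLike.conj_to_real, mul_one, x0_sq h2]
    ring
  rw [real_inner_self_eq_norm_sq] at h3
  have h4 := norm_nonneg (mν P Q z)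
  nlinarith

theorem isOpen_mU' : IsOpen {z : XX P Q | ‖z.1‖ < 1 ∧ ‖z.2‖ < 1} := by
  have h1 : IsOpen {z : XX P Q | ‖z.1‖ < 1} := isOpen_lt continuous_fst.norm continuous_const
  have h2 : IsOpen {z : XX P Q | ‖z.2‖ < 1} := isOpen_lt continuous_snd.norm continuous_const
  exact h1.and h2

theorem finrank_pair (E G : Type) [NormedAddCommGroup E] [InnerProductSpace ℝ E]
    [FiniteDimensional ℝ E] [NormedAddCommGroup G] [InnerProductSpace ℝ G]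
    [FiniteDimensional ℝ G] :
    finrank ℝ (WithLp 2 (E × G)) = finrank ℝ E + finrank ℝ G := by
  rw [(WithLp.prodContinuousLinearEquiv 2 ℝ E G).toLinearEquiv.finrank_eq, finrank_prod]

variable (P Q) in
/-- The hypersurface `W(p, q, ρ)`. -/
noncomputable def modelW' {ρ : ℝ} (hρ : 0 < ρ) : EHyp (XX P Q) (EE P Q) where
  U := {z | ‖z.1‖ < 1 ∧ ‖z.2‖ < 1}
  f := fun z => WithLp.toLp 2 ((1 + ρ * √(1 - ‖z.2‖ ^ 2)) • sph z.1, ρ • z.2)
  ν := fun z => WithLp.toLp 2 (√(1 - ‖z.2‖ ^ 2) • sph z.1, z.2)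
  isOpen_U := isOpen_mU'
  smooth_f := fun _ hz => (contDiffAt_mf hz.1 hz.2).contDiffWithinAt
  smooth_ν := fun _ hz => (contDiffAt_mν hz.1 hz.2).contDiffWithinAt
  norm_ν := fun _ hz => norm_mν hz.1 hz.2
  inner_df := fun _ hz => inner_mf hz.1 hz.2
  immersion := fun _ hz => immersion_mf hρ hz.1 hz.2
  dim := by
    rw [finrank_pair, finrank_pair, finrank_prod, finrank_self]
    ring

variable (P Q ρ) in
/-- The principal curvature of multiplicity `p`. -/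
noncomputable def modelκ' (z : XX P Q) : ℝ :=
  -√(1 - ‖z.2‖ ^ 2) / (1 + ρ * √(1 - ‖z.2‖ ^ 2))

theorem mem_prin₁ (hρ : 0 < ρ) (h1 : ‖z.1‖ < 1) (h2 : ‖z.2‖ < 1) (v : XX P Q) :
    v ∈ prin (mf P Q ρ) (mν P Q) (modelκ' P Q ρ z) z ↔ v.2 = 0 := by
  rw [mem_prin_iff h1 h2]
  have hx := x0_pos h2
  have h3 : 0 < 1 + ρ * √(1 - ‖z.2‖ ^ 2) := by positivity
  have e1 : √(1 - ‖z.2‖ ^ 2) + modelκ' P Q ρ z * (1 + ρ * √(1 - ‖z.2‖ ^ 2)) = 0 := by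
    unfold modelκ'
    field_simp
    ring
  have e2 : 1 + modelκ' P Q ρ z * ρ ≠ 0 := by
    have : 1 + modelκ' P Q ρ z * ρ = 1 / (1 + ρ * √(1 - ‖z.2‖ ^ 2)) := by
      unfold modelκ'
      field_simp
      ring
    rw [this]
    positivity
  rw [e1, zero_smul]
  simp [e2]

theorem mem_prin₂ (hρ : 0 < ρ) (h1 : ‖z.1‖ < 1) (h2 : ‖z.2‖ < 1) (v : XX P Q) :
    v ∈ prin (mf P Q ρ) (mν P Q) (-1 / ρ) z ↔ v.1 = 0 := by
  rw [mem_prin_iff h1 h2]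
  have e1 : √(1 - ‖z.2‖ ^ 2) + -1 / ρ * (1 + ρ * √(1 - ‖z.2‖ ^ 2)) = -1 / ρ := by
    field_simp
    ring
  have e2 : 1 + -1 / ρ * ρ = 0 := by
    field_simp
    ring
  have e3 : -1 / ρ ≠ 0 := by
    have := hρ.ne'
    simp [this]
  rw [e1, e2, zero_smul]
  simp [e3]

theorem modelW_prin_pos' (hρ : 0 < ρ) (h1 : ‖z.1‖ < 1) (h2 : ‖z.2‖ < 1) (k : ℝ) (hk : 0 < k) :
    prin (mf P Q ρ) (mν P Q) k z = ⊥ := by
  rw [Submodule.eq_bot_iff]
  intro v hv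
  rw [mem_prin_iff h1 h2] at hv
  have hx := x0_pos h2
  have h3 : 0 < √(1 - ‖z.2‖ ^ 2) + k * (1 + ρ * √(1 - ‖z.2‖ ^ 2)) := by positivity
  have h4 : 0 < 1 + k * ρ := by positivity
  exact Prod.ext ((smul_eq_zero.1 hv.1).resolve_left h3.ne')
    ((smul_eq_zero.1 hv.2).resolve_left h4.ne')

theorem prin₁_eq (hρ : 0 < ρ) (h1 : ‖z.1‖ < 1) (h2 : ‖z.2‖ < 1) :
    prin (mf P Q ρ) (mν P Q) (modelκ' P Q ρ z) z =
      LinearMap.range (LinearMap.inl ℝ (P) (Q)) := by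
  ext v
  rw [mem_prin₁ hρ h1 h2, LinearMap.mem_range]
  constructor
  · intro h
    exact ⟨v.1, Prod.ext rfl h.symm⟩
  · rintro ⟨a, rfl⟩
    rfl

theorem prin₂_eq (hρ : 0 < ρ) (h1 : ‖z.1‖ < 1) (h2 : ‖z.2‖ < 1) :
    prin (mf P Q ρ) (mν P Q) (-1 / ρ) z =
      LinearMap.range (LinearMap.inr ℝ (P) (Q)) := by
  ext v
  rw [mem_prin₂ hρ h1 h2, LinearMap.mem_range]
  constructor
  · intro h
    exact ⟨v.2, Prod.ext h.symm rfl⟩
  · rintro ⟨a, rfl⟩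
    rfl

theorem finrank_prin₁ (hρ : 0 < ρ) (h1 : ‖z.1‖ < 1) (h2 : ‖z.2‖ < 1) :
    finrank ℝ (prin (mf P Q ρ) (mν P Q) (modelκ' P Q ρ z) z) = finrank ℝ P := by
  rw [prin₁_eq hρ h1 h2, LinearMap.finrank_range_of_inj LinearMap.inl_injective]

theorem finrank_prin₂ (hρ : 0 < ρ) (h1 : ‖z.1‖ < 1) (h2 : ‖z.2‖ < 1) :
    finrank ℝ (prin (mf P Q ρ) (mν P Q) (-1 / ρ) z) = finrank ℝ Q := by
  rw [prin₂_eq hρ h1 h2, LinearMap.finrank_range_of_inj LinearMap.inr_injective]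

theorem sup_prin (hρ : 0 < ρ) (h1 : ‖z.1‖ < 1) (h2 : ‖z.2‖ < 1) :
    prin (mf P Q ρ) (mν P Q) (-1 / ρ) z ⊔ prin (mf P Q ρ) (mν P Q) (modelκ' P Q ρ z) z = ⊤ := by
  rw [eq_top_iff]
  intro v _
  have e : v = (0, v.2) + (v.1, 0) := by simp
  rw [e]
  exact Submodule.add_mem_sup ((mem_prin₂ hρ h1 h2 _).2 rfl) ((mem_prin₁ hρ h1 h2 _).2 rfl)

theorem contDiffAt_κ (hρ : 0 < ρ) (h2 : ‖z.2‖ < 1) : ContDiffAt ℝ ∞ (modelκ' P Q ρ) z := by
  have e1 : ContDiffAt ℝ ∞ (fun z : XX P Q => √(1 - ‖z.2‖ ^ 2)) z :=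
    (contDiffAt_x0 h2).comp z contDiffAt_snd
  have e3 := (contDiffAt_const (c := (1 : ℝ))).add ((contDiffAt_const (c := ρ)).mul e1)
  refine e1.neg.div e3 ?_
  have := x0_pos h2
  positivity

theorem fderiv_κ (hρ : 0 < ρ) (h2 : ‖z.2‖ < 1) {v : XX P Q} (hv : v.2 = 0) :
    fderiv ℝ (modelκ' P Q ρ) z v = 0 := by
  set h : Q → ℝ := fun β =>
    -√(1 - ‖β‖ ^ 2) / (1 + ρ * √(1 - ‖β‖ ^ 2)) with hh
  have e1 : DifferentiableAt ℝ h z.2 := by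
    have e2 : ContDiffAt ℝ ∞ (fun β : Q => √(1 - ‖β‖ ^ 2)) z.2 :=
      contDiffAt_x0 h2
    have e3 := (contDiffAt_const (c := (1 : ℝ))).add ((contDiffAt_const (c := ρ)).mul e2)
    have e4 : ContDiffAt ℝ ∞ h z.2 := e2.neg.div e3 (by
      have := x0_pos h2
      positivity)
    exact e4.differentiableAt (by simp)
  have e5 : HasFDerivAt (modelκ' P Q ρ) _ z :=
    e1.hasFDerivAt.comp z (hasFDerivAt_snd (𝕜 := ℝ) (p := z))
  rw [e5.fderiv]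
  simp [hv]

theorem κ_ne (hρ : 0 < ρ) (h2 : ‖z.2‖ < 1) : -1 / ρ ≠ modelκ' P Q ρ z := by
  unfold modelκ'
  have hx := x0_pos h2
  have h3 : 0 < 1 + ρ * √(1 - ‖z.2‖ ^ 2) := by positivity
  intro h
  rw [div_eq_div_iff hρ.ne' h3.ne'] at h
  nlinarith

theorem ne_bot_of_finrank {S : Submodule ℝ (XX P Q)} {n : ℕ} (h : finrank ℝ S = n) (hn : 1 ≤ n) :
    S ≠ ⊥ := by
  rintro rfl
  rw [finrank_bot] at h
  omega

variable (P Q) in
theorem modelW_twoDupin' {ρ : ℝ} (hρ : 0 < ρ) (hp : 1 ≤ finrank ℝ P) (hq : 1 ≤ finrank ℝ Q) :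
    TwoDupin (modelW' P Q hρ) (fun _ => -1 / ρ) (modelκ' P Q ρ) where
  smooth₁ := contDiffOn_const
  smooth₂ := fun _ hz => (contDiffAt_κ hρ hz.2).contDiffWithinAt
  ne := fun _ hy => κ_ne hρ hy.2
  ne_bot₁ := fun _ hy => ne_bot_of_finrank (finrank_prin₂ hρ hy.1 hy.2) hq
  ne_bot₂ := fun _ hy => ne_bot_of_finrank (finrank_prin₁ hρ hy.1 hy.2) hp
  top := fun _ hy => sup_prin hρ hy.1 hy.2
  deriv₁ := fun _ _ v _ => by simp
  deriv₂ := fun _ hy v hv => fderiv_κ hρ hy.2 ((mem_prin₁ hρ hy.1 hy.2 v).1 hv)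

variable (P Q) in
theorem modelW_properDupin' {ρ : ℝ} (hρ : 0 < ρ) (hp : 1 ≤ finrank ℝ P) (hq : 1 ≤ finrank ℝ Q) :
    ProperDupinWith (modelW' P Q hρ).f (modelW' P Q hρ).ν (modelW' P Q hρ).U ![finrank ℝ P, finrank ℝ Q] := by
  refine ⟨![modelκ' P Q ρ, fun _ => -1 / ρ], ?_, ?_, ?_, ?_, ?_, ?_⟩
  · intro i
    fin_cases i
    · exact fun _ hz => (contDiffAt_κ hρ hz.2).contDiffWithinAt
    · exact contDiffOn_const
  · intro x hx i j hij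
    fin_cases i <;> fin_cases j
    · exact absurd rfl hij
    · exact (κ_ne hρ hx.2).symm
    · exact κ_ne hρ hx.2
    · exact absurd rfl hij
  · intro i
    fin_cases i
    · exact hp
    · exact hq
  · intro x hx i
    fin_cases i
    · exact finrank_prin₁ hρ hx.1 hx.2
    · exact finrank_prin₂ hρ hx.1 hx.2
  · intro x hx
    rw [eq_top_iff, ← sup_prin hρ hx.1 hx.2]
    refine sup_le ?_ ?_
    · exact le_iSup (fun i => prin (modelW' P Q hρ).f (modelW' P Q hρ).ν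
        ((![modelκ' P Q ρ, fun _ => -1 / ρ] : Fin 2 → XX P Q → ℝ) i x) x) 1
    · exact le_iSup (fun i => prin (modelW' P Q hρ).f (modelW' P Q hρ).ν
        ((![modelκ' P Q ρ, fun _ => -1 / ρ] : Fin 2 → XX P Q → ℝ) i x) x) 0
  · intro x hx i
    fin_cases i
    · intro v hv
      exact fderiv_κ hρ hx.2 ((mem_prin₁ hρ hx.1 hx.2 v).1 hv)
    · intro v _
      show fderiv ℝ (fun _ => -1 / ρ) x v = 0
      simp

end model

end TM2

end DupinClass
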