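import Pool.Agent.H31.Dupin.WFacts
import Pool.Agent.H31.Dupin.Star

open scoped RealInnerProductSpace ContDiff Topology
open Module Set

namespace DupinClass

section

variable {X Y E G : Type} [NormedAddCommGroup X] [NormedSpace ℝ X] [FiniteDimensional ℝ X]
  [NormedAddCommGroup Y] [NormedSpace ℝ Y] [FiniteDimensional ℝ Y]
  [NormedAddCommGroup E] [InnerProductSpace ℝ E] [FiniteDimensional ℝ E]
  [NormedAddCommGroup G] [InnerProductSpace ℝ G] [FiniteDimensional ℝ G]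

/-- Two pairwise distinct smooth functions as in the definition of proper Dupin, for `g = 2`. -/
structure TwoDupin (W : EHyp Y E) (κ₁ κ₂ : Y → ℝ) : Prop where
  smooth₁ : ContDiffOn ℝ ∞ κ₁ W.U
  smooth₂ : ContDiffOn ℝ ∞ κ₂ W.U
  ne : ∀ y ∈ W.U, κ₁ y ≠ κ₂ y
  ne_bot₁ : ∀ y ∈ W.U, prin W.f W.ν (κ₁ y) y ≠ ⊥
  ne_bot₂ : ∀ y ∈ W.U, prin W.f W.ν (κ₂ y) y ≠ ⊥
  top : ∀ y ∈ W.U, prin W.f W.ν (κ₁ y) y ⊔ prin W.f W.ν (κ₂ y) y = ⊤
  deriv₁ : ∀ y ∈ W.U, ∀ v ∈ prin W.f W.ν (κ₁ y) y, fderiv ℝ κ₁ y v = 0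
  deriv₂ : ∀ y ∈ W.U, ∀ v ∈ prin W.f W.ν (κ₂ y) y, fderiv ℝ κ₂ y v = 0

theorem ProperDupin.twoDupin {W : EHyp Y E} (h : ProperDupin W.f W.ν W.U 2) :
    ∃ κ₁ κ₂, TwoDupin W κ₁ κ₂ := by
  obtain ⟨κ, h1, h2, h3, h4, h5⟩ := h
  refine ⟨κ 0, κ 1, ⟨h1 0, h1 1, fun y hy => h2 y hy 0 1 (by decide), fun y hy => h3 y hy 0,
    fun y hy => h3 y hy 1, fun y hy => ?_, fun y hy => h5 y hy 0, fun y hy => h5 y hy 1⟩⟩
  rw [eq_top_iff, ← h4 y hy]
  exact iSup_le (Fin.forall_fin_two.2 ⟨le_sup_left, le_sup_right⟩)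

variable (E G) in
/-- The linear map `J_r` (embedding composed with a parallel transformation). -/
noncomputable def tubeJ (r : ℝ) :
    (ℝ × WithLp 2 (ℝ × E) × ℝ) →ₗ[ℝ] (ℝ × WithLp 2 (ℝ × WithLp 2 (E × G)) × ℝ) where
  toFun v := (v.1 - (v.1 + (WithLp.ofLp v.2.1).1) * r ^ 2 / 2,
    WithLp.toLp 2 ((WithLp.ofLp v.2.1).1 + (v.1 + (WithLp.ofLp v.2.1).1) * r ^ 2 / 2,
      WithLp.toLp 2 ((WithLp.ofLp v.2.1).2, 0)),
    -r * (v.1 + (WithLp.ofLp v.2.1).1))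
  map_add' := by
    intro v w
    refine Prod.ext ?_ (Prod.ext ?_ ?_)
    · simp; ring
    · refine WithLp.ofLp_injective 2 (Prod.ext ?_ ?_)
      · simp; ring
      · refine WithLp.ofLp_injective 2 (Prod.ext ?_ ?_) <;> simp
    · simp; ring
  map_smul' := by
    intro t v
    refine Prod.ext ?_ (Prod.ext ?_ ?_)
    · simp; ring
    · refine WithLp.ofLp_injective 2 (Prod.ext ?_ ?_)
      · simp; ring
      · refine WithLp.ofLp_injective 2 (Prod.ext ?_ ?_) <;> simp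
    · simp; ring

variable (E) in
/-- The third member of the triple (with the opposite sign) of a tube. -/
noncomputable def tubeS (r : ℝ) (a : ℝ) (η : G) : ℝ × WithLp 2 (ℝ × WithLp 2 (E × G)) × ℝ :=
  (r / a, WithLp.toLp 2 (-(r / a), WithLp.toLp 2 (0, a⁻¹ • η)), a⁻¹)

theorem tube_vec {w N : E} {r a κ : ℝ} {η : G} (hN : ‖N‖ = 1) (ha : a ≠ 0)
    (haη : a ^ 2 + ‖η‖ ^ 2 = 1) {F ν : WithLp 2 (E × G)}
    (hf : F = WithLp.toLp 2 (w + (r * a) • N, r • η))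
    (hν : ν = WithLp.toLp 2 (a • N, η)) :
    tubeJ E G r (κ • ptSph w + plSph w N) + tubeS E r a η
      = κ • ptSph F + (a⁻¹ - r * κ) • plSph F ν := by
  have hF : ‖F‖ ^ 2 = ‖w‖ ^ 2 + 2 * r * a * ⟪w, N⟫ + r ^ 2 := by
    rw [hf, WithLp.prod_norm_sq_eq_of_L2]
    simp only [WithLp.toLp_fst, WithLp.toLp_snd, norm_smul, mul_pow, Real.norm_eq_abs, sq_abs]
    rw [@norm_add_sq_real]
    simp only [inner_smul_right, norm_smul, mul_pow, Real.norm_eq_abs, sq_abs, hN, one_pow]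
    linear_combination r ^ 2 * haη
  have hFν : ⟪F, ν⟫ = a * ⟪w, N⟫ + r := by
    rw [hf, hν, WithLp.prod_inner_apply]
    simp only [inner_add_left, inner_smul_left, inner_smul_right, RCLike.conj_to_real,
      real_inner_self_eq_norm_sq, hN]
    linear_combination r * haη
  refine Prod.ext ?_ (Prod.ext ?_ ?_)
  · simp only [tubeJ, tubeS, ptSph, plSph, hF, hFν]
    simp
    field_simp
    ring
  · refine WithLp.ofLp_injective 2 (Prod.ext ?_ ?_)
    · simp only [tubeJ, tubeS, ptSph, plSph, hF, hFν]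
      simp
      field_simp
      ring
    · refine WithLp.ofLp_injective 2 (Prod.ext ?_ ?_)
      · simp only [tubeJ, tubeS, ptSph, plSph, hf, hν]
        simp
        match_scalars
        · field_simp
        · field_simp
          ring
      · simp only [tubeJ, tubeS, ptSph, plSph, hf, hν]
        simp
        module
  · simp only [tubeJ, tubeS, ptSph, plSph]
    simp
    ring

/-- The lift of a tube at a point with `a ≠ 0`. -/
theorem tube_lift {W : EHyp Y E} {κ₁ κ₂ : Y → ℝ} (hW : TwoDupin W κ₁ κ₂) {r : ℝ}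
    {T : EHyp X (WithLp 2 (E × G))} {x : X} (hx : x ∈ T.U) {y : Y} (hy : y ∈ W.U) {a : ℝ} {η : G}
    (ha : a ≠ 0) (haη : a ^ 2 + ‖η‖ ^ 2 = 1)
    (hf : T.f x = WithLp.toLp 2 (W.f y + (r * a) • W.ν y, r • η))
    (hν : T.ν x = WithLp.toLp 2 (a • W.ν y, η)) :
    T.toSphere.lift x = Submodule.span ℝ
      {tubeJ E G r (W.kmap κ₁ y) + tubeS E r a η, tubeJ E G r (W.kmap κ₂ y) + tubeS E r a η} := by
  rw [T.lift_toSphere hx, EHyp.kmap, EHyp.kmap, tube_vec (W.norm_ν y hy) ha haη hf hν,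
    tube_vec (W.norm_ν y hy) ha haη hf hν]
  have hne := sub_ne_zero.2 (hW.ne y hy)
  set P := ptSph (T.f x)
  set K := plSph (T.f x) (T.ν x)
  set k₁ := κ₁ y
  set k₂ := κ₂ y
  apply le_antisymm
  · rw [Submodule.span_le, Set.insert_subset_iff, Set.singleton_subset_iff]
    simp only [SetLike.mem_coe, Submodule.mem_span_pair]
    refine ⟨⟨(k₁ - k₂)⁻¹ * (1 - r * a * k₂), -(k₁ - k₂)⁻¹ * (1 - r * a * k₁), ?_⟩, ⟨a * (-k₂) * (k₁ - k₂)⁻¹, a * k₁ * (k₁ - k₂)⁻¹, ?_⟩⟩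
    · match_scalars
      · field_simp
        ring
      · field_simp
        ring
    · match_scalars
      · field_simp
        ring
      · field_simp
        ring
  · rw [Submodule.span_le, Set.insert_subset_iff, Set.singleton_subset_iff]
    simp only [SetLike.mem_coe, Submodule.mem_span_pair]
    exact ⟨⟨_, _, rfl⟩, ⟨_, _, rfl⟩⟩

/-- At a point with `a = 0` a tube has only two principal curvatures. -/
theorem tube_prin_of_eq_zero {W : EHyp Y E} {r : ℝ} (hr : 0 < r)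
    {T : EHyp X (WithLp 2 (E × G))} {u : X → Y} {a : X → ℝ} {η : X → G}
    (hu : ContDiffOn ℝ ∞ u T.U) (ha : ContDiffOn ℝ ∞ a T.U) (hη : ContDiffOn ℝ ∞ η T.U)
    (h : ∀ x ∈ T.U, u x ∈ W.U ∧ a x ^ 2 + ‖η x‖ ^ 2 = 1 ∧
      T.f x = WithLp.toLp 2 (W.f (u x) + (r * a x) • W.ν (u x), r • η x) ∧
      T.ν x = WithLp.toLp 2 (a x • W.ν (u x), η x)) {x₀ : X} (hx₀ : x₀ ∈ T.U) (ha₀ : a x₀ = 0)
    {k : ℝ} (hk : prin T.f T.ν k x₀ ≠ ⊥) : k = 0 ∨ k = -1 / r := by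
  by_contra hcon
  push Not at hcon
  obtain ⟨hk0, hkr⟩ := hcon
  have hkr' : 1 + k * r ≠ 0 := by
    intro h0
    apply hkr
    field_simp
    linarith
  obtain ⟨v, hv, hv0⟩ := Submodule.exists_mem_ne_zero_of_ne_bot hk
  have hU : T.U ∈ 𝓝 x₀ := T.isOpen_U.mem_nhds hx₀
  obtain ⟨hux, -, -, -⟩ := h x₀ hx₀
  have hWU : W.U ∈ 𝓝 (u x₀) := W.isOpen_U.mem_nhds hux
  have du := (((hu x₀ hx₀).contDiffAt hU).differentiableAt (by simp)).hasFDerivAt
  have da := (((ha x₀ hx₀).contDiffAt hU).differentiableAt (by simp)).hasFDerivAt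
  have dη := (((hη x₀ hx₀).contDiffAt hU).differentiableAt (by simp)).hasFDerivAt
  have dw := (((W.smooth_f _ hux).contDiffAt hWU).differentiableAt (by simp)).hasFDerivAt
  have dN := (((W.smooth_ν _ hux).contDiffAt hWU).differentiableAt (by simp)).hasFDerivAt
  have dwu := dw.comp x₀ du
  have dNu := dN.comp x₀ du
  have dF : HasFDerivAt T.f (((WithLp.prodContinuousLinearEquiv 2 ℝ E G).symm :
      (E × G) →L[ℝ] WithLp 2 (E × G)).comp _) x₀ :=
    ((((WithLp.prodContinuousLinearEquiv 2 ℝ E G).symm :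
      (E × G) →L[ℝ] WithLp 2 (E × G)).hasFDerivAt).comp x₀
      ((dwu.add ((da.const_mul r).smul dNu)).prodMk (dη.const_smul r))).congr_of_eventuallyEq
      (by filter_upwards [hU] with x hx using (h x hx).2.2.1)
  have dν : HasFDerivAt T.ν (((WithLp.prodContinuousLinearEquiv 2 ℝ E G).symm :
      (E × G) →L[ℝ] WithLp 2 (E × G)).comp _) x₀ :=
    ((((WithLp.prodContinuousLinearEquiv 2 ℝ E G).symm :
      (E × G) →L[ℝ] WithLp 2 (E × G)).hasFDerivAt).comp x₀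
      ((da.smul dNu).prodMk dη)).congr_of_eventuallyEq
      (by filter_upwards [hU] with x hx using (h x hx).2.2.2)
  have hv' : fderiv ℝ T.ν x₀ v + k • fderiv ℝ T.f x₀ v = 0 := by
    simpa [prin] using hv
  have hFv : fderiv ℝ T.f x₀ v = WithLp.toLp 2 (fderiv ℝ W.f (u x₀) (fderiv ℝ u x₀ v)
      + (r * fderiv ℝ a x₀ v) • W.ν (u x₀), r • fderiv ℝ η x₀ v) := by
    rw [dF.fderiv]
    simp [ha₀]
  have hνv : fderiv ℝ T.ν x₀ v = WithLp.toLp 2 ((fderiv ℝ a x₀ v) • W.ν (u x₀),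
      fderiv ℝ η x₀ v) := by
    rw [dν.fderiv]
    simp [ha₀]
  rw [hFv, hνv] at hv'
  have h1 := congrArg (fun z => (WithLp.ofLp z).1) hv'
  have h2 := congrArg (fun z => (WithLp.ofLp z).2) hv'
  simp only [WithLp.ofLp_add, WithLp.ofLp_smul, Prod.fst_add, Prod.smul_fst, WithLp.ofLp_zero,
    Prod.fst_zero, Prod.snd_add, Prod.smul_snd, Prod.snd_zero] at h1 h2
  have h3 : (1 + k * r) • fderiv ℝ η x₀ v = 0 := by
    rw [← h2]; module
  have h4 : fderiv ℝ η x₀ v = 0 := (smul_eq_zero.1 h3).resolve_left hkr'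
  have h5 := congrArg (fun z => ⟪z, W.ν (u x₀)⟫) h1
  simp only [inner_add_left, inner_smul_left, RCLike.conj_to_real, W.inner_df _ hux,
    real_inner_self_eq_norm_sq, W.norm_ν _ hux, inner_zero_left] at h5
  have h6 : fderiv ℝ a x₀ v = 0 := by
    have : (1 + k * r) * fderiv ℝ a x₀ v = 0 := by linear_combination h5
    exact (mul_eq_zero.1 this).resolve_left hkr'
  rw [h6] at h1
  have h7 : fderiv ℝ W.f (u x₀) (fderiv ℝ u x₀ v) = 0 := by
    have : k • fderiv ℝ W.f (u x₀) (fderiv ℝ u x₀ v) = 0 := by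
      rw [← h1]; module
    exact (smul_eq_zero.1 this).resolve_left hk0
  apply hv0
  apply T.immersion x₀ hx₀
  rw [hFv, h4, h6, h7]
  simp

end

end DupinClass
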