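import Pool.Agent.H31.Dupin.TM1_pf
import Pool.Agent.H31.Dupin.TM2_pf

open scoped RealInnerProductSpace ContDiff Topology
open Module Set

namespace DupinClass

/-! ## The tube over a hypersurface without positive principal curvatures, in a chart -/

section Tube

variable {Y E : Type} [NormedAddCommGroup Y] [NormedSpace ℝ Y] [FiniteDimensional ℝ Y]
  [NormedAddCommGroup E] [InnerProductSpace ℝ E] [FiniteDimensional ℝ E]

theorem isEHyp_tube (W : EHyp Y E) (G : Type) [NormedAddCommGroup G]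
    [InnerProductSpace ℝ G] [FiniteDimensional ℝ G] {r : ℝ} (hr : 0 < r)
    (hW : ∀ y ∈ W.U, ∀ k : ℝ, 0 < k → prin W.f W.ν k y = ⊥) :
    IsEHyp {z : Y × G | z.1 ∈ W.U ∧ ‖z.2‖ < 1}
      (fun z => WithLp.toLp 2 (W.f z.1 + (r * √(1 - ‖z.2‖ ^ 2)) • W.ν z.1, r • z.2))
      (fun z => WithLp.toLp 2 (√(1 - ‖z.2‖ ^ 2) • W.ν z.1, z.2)) where
  isOpen_U := tube_isOpen_U G W
  smooth_f := tube_smooth_f G W
  smooth_ν := tube_smooth_ν G W
  norm_ν := tube_norm_ν G W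
  inner_df := tube_inner_df G W
  immersion := tube_immersion G W hr hW
  dim := tube_dim G W

/-- The tube of radius `r` around `W ⊆ E` in `E × G` (the part of it where the normal vectors
`(a N, γ)` have `a = √(1 - |γ|²) > 0`). -/
noncomputable def EHyp.tube (W : EHyp Y E) (G : Type) [NormedAddCommGroup G]
    [InnerProductSpace ℝ G] [FiniteDimensional ℝ G] {r : ℝ} (hr : 0 < r)
    (hW : ∀ y ∈ W.U, ∀ k : ℝ, 0 < k → prin W.f W.ν k y = ⊥) :
    EHyp (Y × G) (WithLp 2 (E × G)) :=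
  EHyp.of {z : Y × G | z.1 ∈ W.U ∧ ‖z.2‖ < 1}
    (fun z => WithLp.toLp 2 (W.f z.1 + (r * √(1 - ‖z.2‖ ^ 2)) • W.ν z.1, r • z.2))
    (fun z => WithLp.toLp 2 (√(1 - ‖z.2‖ ^ 2) • W.ν z.1, z.2)) (isEHyp_tube W G hr hW)

end Tube

/-! ## The model hypersurfaces -/

section Model

/-- The chart `α ↦ (√(1 - |α|²), α)` of an open half of the unit sphere. -/
noncomputable def sph {P : Type} [NormedAddCommGroup P] [InnerProductSpace ℝ P] (α : P) :
    WithLp 2 (ℝ × P) :=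
  WithLp.toLp 2 (√(1 - ‖α‖ ^ 2), α)

theorem isEHyp_modelW (P Q : Type) [NormedAddCommGroup P] [InnerProductSpace ℝ P]
    [FiniteDimensional ℝ P] [NormedAddCommGroup Q] [InnerProductSpace ℝ Q] [FiniteDimensional ℝ Q]
    {ρ : ℝ} (hρ : 0 < ρ) : IsEHyp (H := WithLp 2 (WithLp 2 (ℝ × P) × Q))
      {z : P × Q | ‖z.1‖ < 1 ∧ ‖z.2‖ < 1}
      (fun z => WithLp.toLp 2 ((1 + ρ * √(1 - ‖z.2‖ ^ 2)) • sph z.1, ρ • z.2))
      (fun z => WithLp.toLp 2 (√(1 - ‖z.2‖ ^ 2) • sph z.1, z.2)) where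
  isOpen_U := TM2.isOpen_mU'
  smooth_f := fun _ hz => (TM2.contDiffAt_mf hz.1 hz.2).contDiffWithinAt
  smooth_ν := fun _ hz => (TM2.contDiffAt_mν hz.1 hz.2).contDiffWithinAt
  norm_ν := fun _ hz => TM2.norm_mν hz.1 hz.2
  inner_df := fun _ hz => TM2.inner_mf hz.1 hz.2
  immersion := fun _ hz => TM2.immersion_mf hρ hz.1 hz.2
  dim := by
    rw [TM2.finrank_pair, TM2.finrank_pair, finrank_prod, finrank_self]
    ring

/-- The hypersurface `W(p, q, ρ)` of `ℝ^{p+1} × ℝ^q`, `p = dim P`, `q = dim Q`: the points `((1 + ρ x₀) ω, ρ x')` with `ω` in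
the unit sphere of `ℝ^{p+1}` and `(x₀, x')` in the unit sphere of `ℝ^{q+1}` (a `q`-sphere of
radius `ρ`, with centre at distance one, rotated), with the unit normal `(x₀ ω, x')`; the part with
`x₀ > 0` and `ω₀ > 0`. -/
noncomputable def modelW (P Q : Type) [NormedAddCommGroup P] [InnerProductSpace ℝ P] [FiniteDimensional ℝ P]
    [NormedAddCommGroup Q] [InnerProductSpace ℝ Q] [FiniteDimensional ℝ Q] {ρ : ℝ} (hρ : 0 < ρ) :
    EHyp (P × Q)
      (WithLp 2 (WithLp 2 (ℝ × P) × Q)) :=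
  EHyp.of {z : P × Q | ‖z.1‖ < 1 ∧ ‖z.2‖ < 1}
    (fun z => WithLp.toLp 2 ((1 + ρ * √(1 - ‖z.2‖ ^ 2)) • sph z.1, ρ • z.2))
    (fun z => WithLp.toLp 2 (√(1 - ‖z.2‖ ^ 2) • sph z.1, z.2)) (isEHyp_modelW P Q hρ)

theorem modelW_prin_pos (P Q : Type) [NormedAddCommGroup P] [InnerProductSpace ℝ P]
    [FiniteDimensional ℝ P] [NormedAddCommGroup Q] [InnerProductSpace ℝ Q] [FiniteDimensional ℝ Q]
    {ρ : ℝ} (hρ : 0 < ρ) (y) (hy : y ∈ (modelW P Q hρ).U) (k : ℝ) (hk : 0 < k) :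
    prin (modelW P Q hρ).f (modelW P Q hρ).ν k y = ⊥ :=
  TM2.modelW_prin_pos' hρ hy.1 hy.2 k hk

/-- The model hypersurface `T(p, q, m, ρ; r)`: the tube of radius `r` around `W(p, q, ρ)` in
`ℝ^{p+q+1} × ℝ^m`. -/
noncomputable def modelT (P Q R : Type) [NormedAddCommGroup P] [InnerProductSpace ℝ P] [FiniteDimensional ℝ P]
    [NormedAddCommGroup Q] [InnerProductSpace ℝ Q] [FiniteDimensional ℝ Q]
    [NormedAddCommGroup R] [InnerProductSpace ℝ R] [FiniteDimensional ℝ R] {ρ r : ℝ} (hρ : 0 < ρ) (hr : 0 < r) :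
    EHyp ((P × Q) × R)
      (WithLp 2 (WithLp 2 (WithLp 2 (ℝ × P) × Q) ×
        R)) :=
  (modelW P Q hρ).tube R hr (modelW_prin_pos P Q hρ)

end Model

end DupinClass
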