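import Pool.Agent.H31.Dupin.TU3_pf
import Pool.Agent.H31.Dupin.TubeDef

open scoped RealInnerProductSpace ContDiff Topology
open Module Set

namespace DupinClass

section Tube

variable {Y E : Type} [NormedAddCommGroup Y] [NormedSpace ℝ Y] [FiniteDimensional ℝ Y]
  [NormedAddCommGroup E] [InnerProductSpace ℝ E] [FiniteDimensional ℝ E]

variable (W : EHyp Y E) (G : Type) [NormedAddCommGroup G]
    [InnerProductSpace ℝ G] [FiniteDimensional ℝ G] {r : ℝ} (hr : 0 < r)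
    (hW : ∀ y ∈ W.U, ∀ k : ℝ, 0 < k → prin W.f W.ν k y = ⊥)

theorem EHyp.tube_isTube : IsTube W r (W.tube G hr hW) :=
  ⟨Prod.fst, fun z => √(1 - ‖z.2‖ ^ 2), Prod.snd, contDiff_fst.contDiffOn, tube_smooth_sqrt G W,
    contDiff_snd.contDiffOn, fun x hx => ⟨hx.1, by
      rw [sqrt_one_sub_sq hx.2]
      ring, rfl, rfl⟩⟩

theorem EHyp.tube_properDupin (hG : 1 ≤ finrank ℝ G) {m₁ m₂ : ℕ}
    (h : ProperDupinWith W.f W.ν W.U ![m₁, m₂]) :
    ProperDupinWith (W.tube G hr hW).f (W.tube G hr hW).ν (W.tube G hr hW).U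
      ![m₁, m₂, finrank ℝ G] :=
  tube_properDupin_aux G W hr hW hG h

end Tube

section Model

/-- The principal curvature of multiplicity `p` of `modelW P Q ρ`. -/
noncomputable def modelκ (P Q : Type) [NormedAddCommGroup P] [InnerProductSpace ℝ P] [FiniteDimensional ℝ P]
    [NormedAddCommGroup Q] [InnerProductSpace ℝ Q] [FiniteDimensional ℝ Q] (ρ : ℝ) (z : P × Q) :
    ℝ :=
  -√(1 - ‖z.2‖ ^ 2) / (1 + ρ * √(1 - ‖z.2‖ ^ 2))

variable (P Q : Type) [NormedAddCommGroup P] [InnerProductSpace ℝ P] [FiniteDimensional ℝ P]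
  [NormedAddCommGroup Q] [InnerProductSpace ℝ Q] [FiniteDimensional ℝ Q] {ρ : ℝ} (hρ : 0 < ρ)

theorem modelW_prin₁ {y} (hy : y ∈ (modelW P Q hρ).U) :
    finrank ℝ (prin (modelW P Q hρ).f (modelW P Q hρ).ν (modelκ P Q ρ y) y) = finrank ℝ P :=
  TM2.finrank_prin₁ hρ hy.1 hy.2

theorem modelW_prin₂ {y} (hy : y ∈ (modelW P Q hρ).U) :
    finrank ℝ (prin (modelW P Q hρ).f (modelW P Q hρ).ν (-1 / ρ) y) = finrank ℝ Q :=
  TM2.finrank_prin₂ hρ hy.1 hy.2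

theorem modelW_twoDupin (hp : 1 ≤ finrank ℝ P) (hq : 1 ≤ finrank ℝ Q) :
    TwoDupin (modelW P Q hρ) (fun _ => -1 / ρ) (modelκ P Q ρ) :=
  TM2.modelW_twoDupin' P Q hρ hp hq

theorem modelW_properDupin (hp : 1 ≤ finrank ℝ P) (hq : 1 ≤ finrank ℝ Q) :
    ProperDupinWith (modelW P Q hρ).f (modelW P Q hρ).ν (modelW P Q hρ).U ![finrank ℝ P, finrank ℝ Q] :=
  TM2.modelW_properDupin' P Q hρ hp hq

end Model

end DupinClass
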