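import Pool.Agent.H31.Dupin.Stereo
import Pool.Agent.H31.Dupin.Equiv

open scoped RealInnerProductSpace ContDiff Topology
open Module Set

namespace DupinClass

section

variable {Y E : Type} [NormedAddCommGroup Y] [NormedSpace ℝ Y] [FiniteDimensional ℝ Y]
  [NormedAddCommGroup E] [InnerProductSpace ℝ E] [FiniteDimensional ℝ E]

/-- The curvature sphere map `κ P + H` of a hypersurface. -/
noncomputable def EHyp.kmap (W : EHyp Y E) (κ : Y → ℝ) (y : Y) : ℝ × WithLp 2 (ℝ × E) × ℝ :=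
  κ y • ptSph (W.f y) + plSph (W.f y) (W.ν y)

variable (W : EHyp Y E) {κ κ' : Y → ℝ} {y : Y}

theorem EHyp.kmap_smooth (hκ : ContDiffOn ℝ ∞ κ W.U) : ContDiffOn ℝ ∞ (W.kmap κ) W.U := by
  have hf := W.smooth_f
  have hν := W.smooth_ν
  have hE : ContDiff ℝ ∞ (fun z : ℝ × E => WithLp.toLp 2 z) :=
    (WithLp.prodContinuousLinearEquiv 2 ℝ ℝ E).symm.contDiff
  have h1 : ContDiffOn ℝ ∞ (fun y => ptSph (W.f y)) W.U := by
    unfold ptSph
    refine ContDiffOn.prodMk ?_ (ContDiffOn.prodMk (hE.comp_contDiffOn (ContDiffOn.prodMk ?_ hf))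
      contDiffOn_const)
    · exact (contDiffOn_const.add (hf.norm_sq ℝ)).div_const 2
    · exact (contDiffOn_const.sub (hf.norm_sq ℝ)).div_const 2
  have h2 : ContDiffOn ℝ ∞ (fun y => plSph (W.f y) (W.ν y)) W.U := by
    unfold plSph
    exact (hf.inner ℝ hν).prodMk ((hE.comp_contDiffOn ((hf.inner ℝ hν).neg.prodMk hν)).prodMk
      contDiffOn_const)
  exact (hκ.smul h1).add h2

theorem wf_lieForm_pencil (k k' : ℝ) (p n : E) (Z : E) :
    lieForm _ (k • ptSph p + k' • plSph p n) ((⟪p, Z⟫, WithLp.toLp 2 (-⟪p, Z⟫, Z), (0 : ℝ)) :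
      ℝ × WithLp 2 (ℝ × E) × ℝ) = k' * ⟪n, Z⟫ := by
  simp only [lieForm, ptSph, plSph, LinearMap.mk₂_apply]
  simp [WithLp.prod_inner_apply, inner_add_left, inner_smul_left]
  ring

theorem wf_lieForm_pt_pt (p : E) : lieForm _ (ptSph p) (ptSph p) = 0 := by
  simp only [lieForm, ptSph, LinearMap.mk₂_apply, WithLp.prod_inner_apply]
  simp
  rw [div_pow, sq_abs]
  ring

theorem wf_lieForm_pt_pl (p n : E) : lieForm _ (ptSph p) (plSph p n) = 0 := by
  simp only [lieForm, ptSph, plSph, LinearMap.mk₂_apply]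
  simp [WithLp.prod_inner_apply]
  ring

theorem wf_lieForm_pl_pt (p n : E) : lieForm _ (plSph p n) (ptSph p) = 0 := by
  simp only [lieForm, ptSph, plSph, LinearMap.mk₂_apply]
  simp [WithLp.prod_inner_apply, real_inner_comm]
  ring

theorem wf_lieForm_pl_pl (p : E) {n : E} (hn : ‖n‖ = 1) :
    lieForm _ (plSph p n) (plSph p n) = 0 := by
  simp only [lieForm, plSph, LinearMap.mk₂_apply, WithLp.prod_inner_apply]
  simp [hn]
  ring

theorem EHyp.kmap_kmap (hy : y ∈ W.U) :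
    lieForm _ (W.kmap κ y) (W.kmap κ' y) = 0 := by
  simp only [EHyp.kmap, map_add, map_smul, LinearMap.add_apply, LinearMap.smul_apply,
    wf_lieForm_pt_pt, wf_lieForm_pt_pl, wf_lieForm_pl_pt,
    wf_lieForm_pl_pl _ (W.norm_ν y hy)]
  simp

theorem EHyp.wf_hasFDerivAt_f (hy : y ∈ W.U) : HasFDerivAt W.f (fderiv ℝ W.f y) y :=
  (((W.smooth_f _ hy).contDiffAt (W.isOpen_U.mem_nhds hy)).differentiableAt
    (by simp)).hasFDerivAt

theorem EHyp.wf_hasFDerivAt_ν (hy : y ∈ W.U) : HasFDerivAt W.ν (fderiv ℝ W.ν y) y :=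
  (((W.smooth_ν _ hy).contDiffAt (W.isOpen_U.mem_nhds hy)).differentiableAt
    (by simp)).hasFDerivAt

theorem EHyp.wf_inner_dν (hy : y ∈ W.U) (v : Y) : ⟪W.ν y, fderiv ℝ W.ν y v⟫ = 0 := by
  have h1 : HasFDerivAt (fun z => ⟪W.ν z, W.ν z⟫) _ y :=
    (W.wf_hasFDerivAt_ν hy).inner ℝ (W.wf_hasFDerivAt_ν hy)
  have h2 : HasFDerivAt (fun z => ⟪W.ν z, W.ν z⟫) (0 : Y →L[ℝ] ℝ) y := by
    refine (hasFDerivAt_const (1 : ℝ) y).congr_of_eventuallyEq ?_
    filter_upwards [W.isOpen_U.mem_nhds hy] with z hz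
    rw [real_inner_self_eq_norm_sq, W.norm_ν z hz, one_pow]
  have h3 := DFunLike.congr_fun (h1.unique h2) v
  simp only [fderivInnerCLM_apply, ContinuousLinearMap.comp_apply, ContinuousLinearMap.prod_apply,
    zero_apply] at h3
  rw [real_inner_comm (W.ν y)] at h3
  linarith

/-- `dK v = (dκ v) P + (w·Z, (-w·Z, Z), 0)` with `Z = dN v + κ dw v`. -/
theorem EHyp.fderiv_kmap (hκ : ContDiffOn ℝ ∞ κ W.U) (hy : y ∈ W.U) (v : Y) :
    fderiv ℝ (W.kmap κ) y v = fderiv ℝ κ y v • ptSph (W.f y)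
      + (⟪W.f y, fderiv ℝ W.ν y v + κ y • fderiv ℝ W.f y v⟫,
          WithLp.toLp 2 (-⟪W.f y, fderiv ℝ W.ν y v + κ y • fderiv ℝ W.f y v⟫,
            fderiv ℝ W.ν y v + κ y • fderiv ℝ W.f y v), 0) := by
  have df := W.wf_hasFDerivAt_f hy
  have dν := W.wf_hasFDerivAt_ν hy
  have dκ : HasFDerivAt κ (fderiv ℝ κ y) y :=
    (((hκ _ hy).contDiffAt (W.isOpen_U.mem_nhds hy)).differentiableAt (by simp)).hasFDerivAt
  have dL : ∀ z, HasFDerivAt (fun z : ℝ × E => WithLp.toLp 2 z)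
      ((WithLp.prodContinuousLinearEquiv 2 ℝ ℝ E).symm : (ℝ × E) →L[ℝ] WithLp 2 (ℝ × E)) z :=
    fun z => ((WithLp.prodContinuousLinearEquiv 2 ℝ ℝ E).symm :
      (ℝ × E) →L[ℝ] WithLp 2 (ℝ × E)).hasFDerivAt
  have dn : HasFDerivAt (fun z => ‖W.f z‖ ^ 2) _ y := df.norm_sq
  have dfn : HasFDerivAt (fun z => ⟪W.f z, W.ν z⟫) _ y := df.inner ℝ dν
  have dP : HasFDerivAt (fun z => ptSph (W.f z)) _ y :=
    ((((dn.const_add 1).mul_const (2 : ℝ)⁻¹)).prodMk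
      (((dL _).comp y (((dn.const_sub 1).mul_const (2 : ℝ)⁻¹).prodMk df)).prodMk
        (hasFDerivAt_const (0 : ℝ) y)))
  have dH : HasFDerivAt (fun z => plSph (W.f z) (W.ν z)) _ y :=
    (dfn.prodMk (((dL _).comp y (dfn.neg.prodMk dν)).prodMk
        (hasFDerivAt_const (1 : ℝ) y)))
  have dK : HasFDerivAt (W.kmap κ) _ y := (dκ.smul dP).add dH
  rw [dK.fderiv]
  have h0 := W.inner_df y hy v
  refine Prod.ext ?_ (Prod.ext ?_ ?_)
  · simp [ptSph, fderivInnerCLM_apply, inner_add_right, inner_smul_right, h0]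
    ring
  · refine WithLp.ofLp_injective 2 (Prod.ext ?_ ?_)
    · simp [ptSph, fderivInnerCLM_apply, inner_add_right, inner_smul_right, h0]
      ring
    · simp [ptSph, fderivInnerCLM_apply, inner_add_right, inner_smul_right, h0]
      module
  · simp [ptSph, fderivInnerCLM_apply, inner_add_right, inner_smul_right, h0]

theorem EHyp.wf_inner_Z (hy : y ∈ W.U) (v : Y) (k : ℝ) :
    ⟪W.ν y, fderiv ℝ W.ν y v + k • fderiv ℝ W.f y v⟫ = 0 := by
  rw [inner_add_right, inner_smul_right, W.wf_inner_dν hy, real_inner_comm, W.inner_df y hy]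
  ring

theorem EHyp.kmap_fderiv (hκ : ContDiffOn ℝ ∞ κ W.U) (hy : y ∈ W.U) (v : Y) :
    lieForm _ (W.kmap κ y) (fderiv ℝ (W.kmap κ) y v) = 0 := by
  rw [W.fderiv_kmap hκ hy, map_add, map_smul]
  have h1 : W.kmap κ y = κ y • ptSph (W.f y) + (1 : ℝ) • plSph (W.f y) (W.ν y) := by
    rw [one_smul]; rfl
  rw [h1, wf_lieForm_pencil, W.wf_inner_Z hy]
  simp only [map_add, map_smul, LinearMap.add_apply, LinearMap.smul_apply,
    wf_lieForm_pt_pt, wf_lieForm_pl_pt]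
  simp

theorem EHyp.fderiv_fderiv_kmap (hκ : ContDiffOn ℝ ∞ κ W.U) (hy : y ∈ W.U) (v : Y) :
    lieForm _ (fderiv ℝ (W.kmap κ) y v) (fderiv ℝ (W.kmap κ) y v)
      = ‖fderiv ℝ W.ν y v + κ y • fderiv ℝ W.f y v‖ ^ 2 := by
  rw [W.fderiv_kmap hκ hy]
  set Z := fderiv ℝ W.ν y v + κ y • fderiv ℝ W.f y v
  set t := fderiv ℝ κ y v
  simp only [lieForm, ptSph, LinearMap.mk₂_apply, WithLp.prod_inner_apply]
  have h1 : ⟪Z, W.f y⟫ = ⟪W.f y, Z⟫ := real_inner_comm _ _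
  have h2 : ‖t • W.f y + Z‖ ^ 2 = t ^ 2 * ‖W.f y‖ ^ 2 + 2 * (t * ⟪W.f y, Z⟫) + ‖Z‖ ^ 2 := by
    rw [norm_add_sq_real]
    simp [norm_smul, mul_pow, inner_smul_left]
  simp [h2]
  ring

theorem EHyp.fderiv_kmap_snd (hκ : ContDiffOn ℝ ∞ κ W.U) (hy : y ∈ W.U) (v : Y) :
    (fderiv ℝ (W.kmap κ) y v).2.2 = 0 := by
  rw [W.fderiv_kmap hκ hy]
  simp [ptSph]

/-- Distinct principal curvatures have disjoint spaces of principal vectors. -/
theorem EHyp.disjoint_prin (hy : y ∈ W.U) {k k' : ℝ} (hk : k ≠ k') :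
    Disjoint (prin W.f W.ν k y) (prin W.f W.ν k' y) := by
  rw [Submodule.disjoint_def]
  intro v h1 h2
  simp only [prin, LinearMap.mem_ker, ContinuousLinearMap.coe_coe, add_apply,
    smul_apply] at h1 h2
  apply W.immersion y hy
  have h3 : (k - k') • fderiv ℝ W.f y v = 0 := by
    rw [sub_smul, ← sub_eq_zero.2 (h1.trans h2.symm)]
    module
  exact (smul_eq_zero.1 h3).resolve_left (sub_ne_zero.2 hk)

end

end DupinClass
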